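import Pool.Agent.Helper15.PL.Flags

/-! Block D0: multiplicities are at most eight. -/

namespace Pool.Agent.Helper15.PL
open FlagSys

namespace D0

variable {S : FlagSys 14}

theorem line_s1_ne (hF : S.Facts) (g : S.F) : S.line (S.s1 g) ≠ S.line g := by
  have h := hF.rot_line_ne (S.s2 g) 1 one_pos (by have := hF.two_le (S.s2 g); omega)
  simp only [Function.iterate_one, rot, hF.s2s2, hF.line_s2] at h
  exact h

theorem tri_s1 (hF : S.Facts) {f : S.F} (h : S.tri f) : S.tri (S.s1 f) := by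
  unfold tri at *
  rw [hF.s1s1]
  have h1 : S.s1 (S.s0 (S.s1 (S.s0 (S.s1 f)))) = S.s0 f := by rw [← hF.s0s0 (S.s1 _), h]
  have h2 : S.s0 (S.s1 (S.s0 (S.s1 f))) = S.s1 (S.s0 f) := by rw [← hF.s1s1 (S.s0 (S.s1 _)), h1]
  have h3 : S.s1 (S.s0 (S.s1 f)) = S.s0 (S.s1 (S.s0 f)) := by rw [← hF.s0s0 (S.s1 (S.s0 (S.s1 f))), h2]
  have h4 : S.s0 (S.s1 f) = S.s1 (S.s0 (S.s1 (S.s0 f))) := by rw [← hF.s1s1 (S.s0 (S.s1 f)), h3]
  rw [← hF.s0s0 (S.s1 f), h4]

theorem tri_s0 (hF : S.Facts) {f : S.F} (h : S.tri f) : S.tri (S.s0 f) := by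
  unfold tri at *
  have h1 : S.s1 (S.s0 (S.s1 (S.s0 (S.s1 f)))) = S.s0 f := by rw [← hF.s0s0 (S.s1 _), h]
  have h2 : S.s0 (S.s1 (S.s0 (S.s1 f))) = S.s1 (S.s0 f) := by rw [← hF.s1s1 (S.s0 (S.s1 _)), h1]
  rw [← h2, hF.s0s0, hF.s1s1, hF.s0s0, hF.s1s1]

/-- the weight -/
def psi (S : FlagSys 14) (P : Finset (Fin 14)) (g : S.F) : ℕ :=
  if S.vert g = P ∨ (S.line g ∉ P ∧ S.line (S.s1 g) ∉ P) then 1 else 0

theorem sum_six (hF : S.Facts) (f0 : S.F) {f : S.F} (h : S.tri f) :
    2 ≤ psi S (S.vert f0) f + psi S (S.vert f0) (S.s1 f) + psi S (S.vert f0) (S.s0 (S.s1 f)) +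
      psi S (S.vert f0) (S.s1 (S.s0 (S.s1 f))) + psi S (S.vert f0) (S.s0 (S.s1 (S.s0 (S.s1 f)))) +
      psi S (S.vert f0) (S.s1 (S.s0 (S.s1 (S.s0 (S.s1 f))))) := by
  have key : ∀ g : S.F, ((S.line g ∈ S.vert f0 ∧ S.line (S.s1 g) ∈ S.vert f0) ∨
      (S.line g ∉ S.vert f0 ∧ S.line (S.s1 g) ∉ S.vert f0)) →
      psi S (S.vert f0) g = 1 ∧ psi S (S.vert f0) (S.s1 g) = 1 := by
    intro g hg
    rcases hg with ⟨h1, h2⟩ | ⟨h1, h2⟩
    · have hv : S.vert g = S.vert f0 := hF.two_lines g f0 _ _ (line_s1_ne hF g).symm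
        (hF.line_mem g) (by rw [← hF.vert_s1]; exact hF.line_mem _) h1 h2
      unfold psi
      rw [if_pos (Or.inl hv), if_pos (Or.inl (by rw [hF.vert_s1]; exact hv))]
      exact ⟨rfl, rfl⟩
    · unfold psi
      rw [if_pos (Or.inr ⟨h1, h2⟩), if_pos (Or.inr ⟨h2, by rw [hF.s1s1]; exact h1⟩)]
      exact ⟨rfl, rfl⟩
  set i := S.line f with hi
  set j := S.line (S.s1 f) with hj
  set k := S.line (S.s1 (S.s0 (S.s1 f))) with hk
  have hj' : S.line (S.s0 (S.s1 f)) = j := hF.line_s0 _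
  have hk' : S.line (S.s0 (S.s1 (S.s0 (S.s1 f)))) = k := hF.line_s0 _
  have hi' : S.line (S.s1 (S.s0 (S.s1 (S.s0 (S.s1 f))))) = i := by
    rw [← hF.line_s0]
    exact congrArg S.line h
  have k1 := key f
  have k2 := key (S.s0 (S.s1 f))
  have k3 := key (S.s0 (S.s1 (S.s0 (S.s1 f))))
  rw [← hi, ← hj] at k1
  rw [hj', ← hk] at k2
  rw [hk', hi'] at k3
  by_cases a : i ∈ S.vert f0 <;> by_cases b : j ∈ S.vert f0 <;> by_cases c : k ∈ S.vert f0 <;>
    simp only [a, b, c, not_true_eq_false, not_false_eq_true, and_true, and_false, or_false,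
      or_true, true_or, false_or, forall_const, and_self, or_self, IsEmpty.forall_iff] at k1 k2 k3 <;>
    omega

theorem fib_le (hF : S.Facts) (i j : Fin 14) (hij : i ≠ j) :
    (Finset.univ.filter fun g => S.line g = i ∧ S.line (S.s1 g) = j).card ≤ 4 := by
  classical
  by_cases hne : (Finset.univ.filter fun g => S.line g = i ∧ S.line (S.s1 g) = j).Nonempty
  · obtain ⟨f, hf⟩ := hne
    simp only [Finset.mem_filter, Finset.mem_univ, true_and] at hf
    obtain ⟨hfi, hfj⟩ := hf
    have hsub : (Finset.univ.filter fun g => S.line g = i ∧ S.line (S.s1 g) = j) ⊆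
        {f, S.s2 f, S.rot^[S.mult f] f, S.s2 (S.rot^[S.mult f] f)} := by
      intro g hg
      simp only [Finset.mem_filter, Finset.mem_univ, true_and] at hg
      obtain ⟨hgi, hgj⟩ := hg
      have hv : S.vert g = S.vert f := by
        refine hF.two_lines g f i j hij (hgi ▸ hF.line_mem g) ?_ (hfi ▸ hF.line_mem f) ?_
        · rw [← hF.vert_s1, ← hgj]; exact hF.line_mem _
        · rw [← hF.vert_s1, ← hfj]; exact hF.line_mem _
      obtain ⟨k, hk, hor⟩ := hF.vert_orbit f g hv
      have hl : S.line (S.rot^[k] f) = S.line f := by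
        rcases hor with h | h
        · rw [← h, hgi, hfi]
        · rw [← hF.line_s2, ← h, hgi, hfi]
      have hk2 : k = 0 ∨ k = S.mult f := by
        rcases lt_trichotomy k (S.mult f) with h | h | h
        · by_contra hcon
          push Not at hcon
          exact hF.rot_line_ne f k (Nat.pos_of_ne_zero hcon.1) h hl
        · exact Or.inr h
        · exfalso
          have hmf : S.vert (S.rot^[S.mult f] f) = S.vert f := by
            have : ∀ m, S.vert (S.rot^[m] f) = S.vert f := by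
              intro m
              induction m with
              | zero => rfl
              | succ m ih =>
                rw [Function.iterate_succ_apply', rot, hF.vert_s1, hF.vert_s2, ih]
            exact this _
          have hm : S.mult (S.rot^[S.mult f] f) = S.mult f := by unfold mult at *; rw [hmf]
          have := hF.rot_line_ne (S.rot^[S.mult f] f) (k - S.mult f) (by omega)
            (by rw [hm]; omega)
          rw [← Function.iterate_add_apply, hF.rot_line_opp, Nat.sub_add_cancel h.le] at this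
          exact this hl
      simp only [Finset.mem_insert, Finset.mem_singleton]
      rcases hk2 with rfl | rfl
      · rcases hor with h | h
        · exact Or.inl h
        · exact Or.inr (Or.inl h)
      · rcases hor with h | h
        · exact Or.inr (Or.inr (Or.inl h))
        · exact Or.inr (Or.inr (Or.inr h))
    exact (Finset.card_le_card hsub).trans Finset.card_le_four
  · rw [Finset.not_nonempty_iff_eq_empty.mp hne]
    simp

theorem sum_psi_le (hF : S.Facts) (f0 : S.F) :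
    ∑ g, psi S (S.vert f0) g ≤ 4 * S.mult f0 + 4 * ((14 - S.mult f0) * (14 - S.mult f0) -
      (14 - S.mult f0)) := by
  classical
  have h1 : ∑ g, psi S (S.vert f0) g ≤
      (Finset.univ.filter fun g => S.vert g = S.vert f0).card +
      (Finset.univ.filter fun g => S.line g ∉ S.vert f0 ∧ S.line (S.s1 g) ∉ S.vert f0).card := by
    unfold psi
    rw [← Finset.card_filter, Finset.filter_or]
    exact Finset.card_union_le _ _
  refine h1.trans ?_
  rw [hF.card_vert]
  refine Nat.add_le_add_left ?_ _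
  have hB : ((S.vert f0)ᶜ : Finset (Fin 14)).card = 14 - S.mult f0 := by
    rw [Finset.card_compl, Fintype.card_fin, mult]
  have h2 : (Finset.univ.filter fun g => S.line g ∉ S.vert f0 ∧ S.line (S.s1 g) ∉ S.vert f0).card ≤
      4 * ((S.vert f0)ᶜ).offDiag.card := by
    have hmap : ∀ g ∈ (Finset.univ.filter fun g => S.line g ∉ S.vert f0 ∧
        S.line (S.s1 g) ∉ S.vert f0), (S.line g, S.line (S.s1 g)) ∈ ((S.vert f0)ᶜ).offDiag := by
      intro g hg
      simp only [Finset.mem_filter, Finset.mem_univ, true_and] at hg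
      simp only [Finset.mem_offDiag, Finset.mem_compl]
      exact ⟨hg.1, hg.2, (line_s1_ne hF g).symm⟩
    refine Finset.card_le_mul_card_image_of_maps_to hmap 4 ?_
    rintro ⟨i, j⟩ hij
    simp only [Finset.mem_offDiag] at hij
    refine (Finset.card_le_card ?_).trans (fib_le hF i j hij.2.2)
    intro g hg
    simp only [Finset.mem_filter, Finset.mem_univ, true_and, Prod.mk.injEq] at hg ⊢
    exact hg.2
  rw [Finset.offDiag_card, hB] at h2
  exact h2

end D0

/-- Block D0. -/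
theorem mult_le_eight (S : FlagSys 14) (hF : S.Facts) (htri : 360 ≤ (Finset.univ.filter S.tri).card) :
    ∀ f, S.mult f ≤ 8 := by
  classical
  intro f0
  by_contra hM
  push Not at hM
  set T := Finset.univ.filter S.tri with hT
  have hinj : ∀ φ : S.F → S.F, (∀ f, S.tri f → S.tri (φ f)) → Function.Injective φ →
      ∑ f ∈ T, D0.psi S (S.vert f0) (φ f) ≤ ∑ g ∈ T, D0.psi S (S.vert f0) g := by
    intro φ hφ hi
    rw [← Finset.sum_image (f := fun g => D0.psi S (S.vert f0) g) (g := φ) (s := T)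
      (fun a _ b _ h => hi h)]
    refine Finset.sum_le_sum_of_subset ?_
    intro g hg
    simp only [Finset.mem_image, hT, Finset.mem_filter, Finset.mem_univ, true_and] at hg ⊢
    obtain ⟨a, ha, rfl⟩ := hg
    exact hφ a ha
  have i0 : Function.Injective S.s0 := fun a b h => by rw [← hF.s0s0 a, h, hF.s0s0]
  have i1 : Function.Injective S.s1 := fun a b h => by rw [← hF.s1s1 a, h, hF.s1s1]
  have t0 : ∀ f, S.tri f → S.tri (S.s0 f) := fun f h => D0.tri_s0 hF h
  have t1 : ∀ f, S.tri f → S.tri (S.s1 f) := fun f h => D0.tri_s1 hF h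
  have b1 := hinj S.s1 t1 i1
  have b2 := hinj (fun f => S.s0 (S.s1 f)) (fun f h => t0 _ (t1 _ h)) (i0.comp i1)
  have b3 := hinj (fun f => S.s1 (S.s0 (S.s1 f))) (fun f h => t1 _ (t0 _ (t1 _ h)))
    (i1.comp (i0.comp i1))
  have b4 := hinj (fun f => S.s0 (S.s1 (S.s0 (S.s1 f)))) (fun f h => t0 _ (t1 _ (t0 _ (t1 _ h))))
    (i0.comp (i1.comp (i0.comp i1)))
  have b5 := hinj (fun f => S.s1 (S.s0 (S.s1 (S.s0 (S.s1 f)))))
    (fun f h => t1 _ (t0 _ (t1 _ (t0 _ (t1 _ h))))) (i1.comp (i0.comp (i1.comp (i0.comp i1))))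
  have hs : T.card * 2 ≤ ∑ f ∈ T, (D0.psi S (S.vert f0) f + D0.psi S (S.vert f0) (S.s1 f) +
      D0.psi S (S.vert f0) (S.s0 (S.s1 f)) + D0.psi S (S.vert f0) (S.s1 (S.s0 (S.s1 f))) +
      D0.psi S (S.vert f0) (S.s0 (S.s1 (S.s0 (S.s1 f)))) +
      D0.psi S (S.vert f0) (S.s1 (S.s0 (S.s1 (S.s0 (S.s1 f)))))) := by
    have := Finset.card_nsmul_le_sum T (fun f => D0.psi S (S.vert f0) f +
      D0.psi S (S.vert f0) (S.s1 f) +
      D0.psi S (S.vert f0) (S.s0 (S.s1 f)) + D0.psi S (S.vert f0) (S.s1 (S.s0 (S.s1 f))) +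
      D0.psi S (S.vert f0) (S.s0 (S.s1 (S.s0 (S.s1 f)))) +
      D0.psi S (S.vert f0) (S.s1 (S.s0 (S.s1 (S.s0 (S.s1 f)))))) 2
      (fun f hf => D0.sum_six hF f0 (by simpa [hT] using hf))
    simpa using this
  simp only [Finset.sum_add_distrib] at hs
  have hle : ∑ g ∈ T, D0.psi S (S.vert f0) g ≤ ∑ g, D0.psi S (S.vert f0) g :=
    Finset.sum_le_sum_of_subset (Finset.subset_univ _)
  have hp := D0.sum_psi_le hF f0
  have hm : S.mult f0 ≤ 14 := by
    unfold mult
    exact (Finset.card_le_univ _).trans (by simp)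
  have hfin : 4 * S.mult f0 + 4 * ((14 - S.mult f0) * (14 - S.mult f0) -
      (14 - S.mult f0)) ≤ 116 := by
    interval_cases h : S.mult f0 <;> omega
  omega

end Pool.Agent.Helper15.PL
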