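import Pool.Agent.Helper15.PL.Flags

/-!
# Block D2: the load on a vertex of multiplicity at least four
-/

namespace Pool.Agent.Helper15.PL

open FlagSys

namespace D2

variable {n : ℕ} {S : FlagSys n}

theorem rot_s2 (hF : S.Facts) (f : S.F) : S.rot (S.s2 f) = S.s1 f := by
  unfold rot; rw [hF.s2s2]

theorem s1_s2 (f : S.F) : S.s1 (S.s2 f) = S.rot f := rfl

theorem s1_eq (hF : S.Facts) (f : S.F) : S.s1 (S.rot f) = S.s2 f := by
  unfold rot; rw [hF.s1s1]

theorem mult_s1 (hF : S.Facts) (f : S.F) : S.mult (S.s1 f) = S.mult f := by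
  unfold mult; rw [hF.vert_s1]

theorem mult_s2 (hF : S.Facts) (f : S.F) : S.mult (S.s2 f) = S.mult f := by
  unfold mult; rw [hF.vert_s2]

theorem vert_rot (hF : S.Facts) (f : S.F) : S.vert (S.rot f) = S.vert f := by
  unfold rot; rw [hF.vert_s1, hF.vert_s2]

theorem mult_rot (hF : S.Facts) (f : S.F) : S.mult (S.rot f) = S.mult f := by
  unfold mult; rw [vert_rot hF]

theorem vert_rot_iter (hF : S.Facts) (f : S.F) (k : ℕ) : S.vert (S.rot^[k] f) = S.vert f := by
  induction k generalizing f with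
  | zero => rfl
  | succ k ih => rw [Function.iterate_succ_apply, ih, vert_rot hF]

theorem mult_rot_iter (hF : S.Facts) (f : S.F) (k : ℕ) : S.mult (S.rot^[k] f) = S.mult f := by
  unfold mult; rw [vert_rot_iter hF]

theorem line_s1 (hF : S.Facts) (f : S.F) : S.line (S.s1 f) ≠ S.line f := by
  have h := hF.rot_line_ne (S.s2 f) 1 one_pos (by have := hF.two_le (S.s2 f); omega)
  rw [Function.iterate_one, rot_s2 hF, hF.line_s2] at h
  exact h

theorem line_rot (hF : S.Facts) (f : S.F) : S.line (S.rot f) ≠ S.line f := by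
  have h := line_s1 hF (S.s2 f)
  rw [hF.line_s2] at h
  exact h

/-- the third relation for a triangle. -/
theorem tri_rel (hF : S.Facts) {f : S.F} (h : S.tri f) :
    S.s0 (S.s1 (S.s0 f)) = S.s1 (S.s0 (S.s1 f)) := by
  unfold tri at h
  -- s0 s1 s0 s1 s0 s1 f = f
  have h1 : S.s1 (S.s0 (S.s1 (S.s0 (S.s1 f)))) = S.s0 f := by
    have := congrArg S.s0 h; rwa [hF.s0s0] at this
  have h2 : S.s0 (S.s1 (S.s0 (S.s1 f))) = S.s1 (S.s0 f) := by
    have := congrArg S.s1 h1; rwa [hF.s1s1] at this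
  rw [← h2, hF.s0s0]

theorem tri_of_rel (hF : S.Facts) {f : S.F}
    (h : S.s0 (S.s1 (S.s0 f)) = S.s1 (S.s0 (S.s1 f))) : S.tri f := by
  unfold tri
  rw [← h, hF.s0s0, hF.s1s1, hF.s0s0]

theorem tri_s1 (hF : S.Facts) (f : S.F) : S.tri (S.s1 f) ↔ S.tri f := by
  have key : ∀ g : S.F, S.tri g → S.tri (S.s1 g) := by
    intro g hg
    apply tri_of_rel hF
    rw [hF.s1s1, ← tri_rel hF hg, hF.s0s0]
    -- s0 (s0 (s1 (s0 g))) = s1 (s0 g)
  constructor
  · intro h
    have := key _ h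
    rwa [hF.s1s1] at this
  · exact key f

theorem tri_s0 (hF : S.Facts) (f : S.F) : S.tri (S.s0 f) ↔ S.tri f := by
  have key : ∀ g : S.F, S.tri g → S.tri (S.s0 g) := by
    intro g hg
    apply tri_of_rel hF
    rw [hF.s0s0, tri_rel hF hg, hF.s1s1]
  constructor
  · intro h
    have := key _ h
    rwa [hF.s0s0] at this
  · exact key f

theorem tri_s2 (hF : S.Facts) (f : S.F) : S.tri (S.s2 f) ↔ S.tri (S.rot f) := by
  unfold rot; rw [tri_s1 hF]

/-- the flags at the vertex of `f` are all different. -/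
theorem inj_orbit (hF : S.Facts) (f : S.F) :
    Set.InjOn (fun q : ℕ × Bool => if q.2 then S.rot^[q.1] f else S.s2 (S.rot^[q.1] f))
      ((Finset.range (2 * S.mult f) ×ˢ (Finset.univ : Finset Bool) : Finset (ℕ × Bool)) :
        Set (ℕ × Bool)) := by
  apply Finset.injOn_of_card_image_eq
  apply le_antisymm Finset.card_image_le
  have h1 : (Finset.univ.filter fun g => S.vert g = S.vert f) ⊆
      (Finset.range (2 * S.mult f) ×ˢ (Finset.univ : Finset Bool)).image
        (fun q : ℕ × Bool => if q.2 then S.rot^[q.1] f else S.s2 (S.rot^[q.1] f)) := by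
    intro g hg
    rw [Finset.mem_filter] at hg
    obtain ⟨k, hk, h⟩ := hF.vert_orbit f g hg.2
    rw [Finset.mem_image]
    rcases h with h | h
    · exact ⟨(k, true), by simp [hk], by simp [h]⟩
    · exact ⟨(k, false), by simp [hk], by simp [h]⟩
  have h2 := Finset.card_le_card h1
  rw [hF.card_vert] at h2
  rw [Finset.card_product, Finset.card_range, Finset.card_univ, Fintype.card_bool]
  calc 2 * S.mult f * 2 = 4 * S.mult f := by ring
    _ ≤ _ := h2

theorem rot_ne (hF : S.Facts) (f : S.F) {k : ℕ} (hk : 0 < k) (hk2 : k < 2 * S.mult f) :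
    S.rot^[k] f ≠ f := by
  intro h
  have h1 : ((k, true) : ℕ × Bool) ∈ ((Finset.range (2 * S.mult f) ×ˢ
      (Finset.univ : Finset Bool) : Finset (ℕ × Bool)) : Set (ℕ × Bool)) := by
    simp [hk2]
  have h2 : ((0, true) : ℕ × Bool) ∈ ((Finset.range (2 * S.mult f) ×ˢ
      (Finset.univ : Finset Bool) : Finset (ℕ × Bool)) : Set (ℕ × Bool)) := by
    simp; omega
  have h3 := inj_orbit hF f h1 h2 (by simpa using h)
  simp at h3
  omega

theorem s2_ne (hF : S.Facts) (f : S.F) : S.s2 f ≠ f := by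
  intro h
  have h0 := hF.two_le f
  have h1 : ((0, false) : ℕ × Bool) ∈ ((Finset.range (2 * S.mult f) ×ˢ
      (Finset.univ : Finset Bool) : Finset (ℕ × Bool)) : Set (ℕ × Bool)) := by
    simp; omega
  have h2 : ((0, true) : ℕ × Bool) ∈ ((Finset.range (2 * S.mult f) ×ˢ
      (Finset.univ : Finset Bool) : Finset (ℕ × Bool)) : Set (ℕ × Bool)) := by
    simp; omega
  have h3 := inj_orbit hF f h1 h2 (by simpa using h)
  simp at h3

/-- the flags at the vertex of `f` on the line of `f`. -/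
theorem on_line (hF : S.Facts) {f g : S.F} (hv : S.vert g = S.vert f)
    (hl : S.line g = S.line f) :
    g = f ∨ g = S.s2 f ∨ g = S.rot^[S.mult f] f ∨ g = S.s2 (S.rot^[S.mult f] f) := by
  obtain ⟨k, hk, h⟩ := hF.vert_orbit f g hv
  have hline : S.line (S.rot^[k] f) = S.line f := by
    rcases h with h | h
    · rw [← h, hl]
    · rw [← hl, h, hF.line_s2]
  have hk0 : k = 0 ∨ k = S.mult f := by
    by_contra hcon
    push Not at hcon
    rcases lt_or_ge k (S.mult f) with h1 | h1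
    · exact hF.rot_line_ne f k (by omega) h1 hline
    · have h2 : S.rot^[k] f = S.rot^[k - S.mult f] (S.rot^[S.mult f] f) := by
        rw [← Function.iterate_add_apply]
        congr 2
        omega
      have h3 := hF.rot_line_ne (S.rot^[S.mult f] f) (k - S.mult f) (by omega)
        (by rw [mult_rot_iter hF]; omega)
      rw [← h2, hF.rot_line_opp, hline] at h3
      exact h3 rfl
  rcases hk0 with h1 | h1
  · subst h1
    rcases h with h | h
    · left; exact h
    · right; left; exact h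
  · subst h1
    rcases h with h | h
    · right; right; left; exact h
    · right; right; right; exact h

theorem vert_s0_s2 (hF : S.Facts) (f : S.F) : S.vert (S.s0 (S.s2 f)) = S.vert (S.s0 f) := by
  rw [hF.s0s2, hF.vert_s2]

/-- the neighbours of a vertex on a line. -/
theorem neighbours (hF : S.Facts) {x y k : S.F} (hxy : S.vert x = S.vert y)
    (hl : S.line x = S.line y) (hne : S.vert (S.s0 x) ≠ S.vert (S.s0 y))
    (hk : S.vert k = S.vert x) (hkl : S.line k = S.line x) :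
    S.vert (S.s0 k) = S.vert (S.s0 x) ∨ S.vert (S.s0 k) = S.vert (S.s0 y) := by
  have hy : S.vert (S.s0 y) = S.vert (S.s0 (S.rot^[S.mult x] x)) := by
    rcases on_line hF hxy.symm hl.symm with h | h | h | h
    · rw [h] at hne; exact absurd rfl hne
    · rw [h, vert_s0_s2 hF] at hne; exact absurd rfl hne
    · rw [h]
    · rw [h, vert_s0_s2 hF]
  rcases on_line hF hk hkl with h | h | h | h
  · left; rw [h]
  · left; rw [h, vert_s0_s2 hF]
  · right; rw [h, hy]
  · right; rw [h, vert_s0_s2 hF, hy]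

/-- the two lines at a vertex on two lines. -/
theorem two_case (hF : S.Facts) {f : S.F} (h : S.mult f = 2) {l : Fin n} (hl : l ∈ S.vert f)
    (hne : l ≠ S.line f) : l = S.line (S.s1 f) := by
  by_contra hcon
  have h1 : S.line (S.s1 f) ∈ S.vert f := by
    have := hF.line_mem (S.s1 f)
    rwa [hF.vert_s1] at this
  have h2 : ({l, S.line f, S.line (S.s1 f)} : Finset (Fin n)) ⊆ S.vert f := by
    intro x hx
    simp only [Finset.mem_insert, Finset.mem_singleton] at hx
    rcases hx with rfl | rfl | rfl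
    · exact hl
    · exact hF.line_mem f
    · exact h1
  have h3 := Finset.card_le_card h2
  rw [Finset.card_insert_of_notMem, Finset.card_pair (line_s1 hF f).symm] at h3
  · unfold mult at h; omega
  · simp only [Finset.mem_insert, Finset.mem_singleton]
    push Not
    exact ⟨hne, hcon⟩

theorem line_rot_two (hF : S.Facts) {f : S.F} (h : S.mult f = 2) :
    S.line (S.rot f) = S.line (S.s1 f) := by
  apply two_case hF h
  · have := hF.line_mem (S.rot f)
    rwa [vert_rot hF] at this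
  · exact line_rot hF f

theorem mem_s0 (hF : S.Facts) (f : S.F) : S.line f ∈ S.vert (S.s0 f) := by
  have := hF.line_mem (S.s0 f)
  rwa [hF.line_s0] at this

theorem mem_s1 (hF : S.Facts) (f : S.F) : S.line (S.s1 f) ∈ S.vert f := by
  have := hF.line_mem (S.s1 f)
  rwa [hF.vert_s1] at this

theorem mem_rot (hF : S.Facts) (f : S.F) : S.line (S.rot f) ∈ S.vert f := by
  have := hF.line_mem (S.rot f)
  rwa [vert_rot hF] at this

theorem s0_inj (hF : S.Facts) {x y : S.F} (h : S.s0 x = S.s0 y) : x = y := by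
  have := congrArg S.s0 h
  rwa [hF.s0s0, hF.s0s0] at this

theorem s1_inj (hF : S.Facts) {x y : S.F} (h : S.s1 x = S.s1 y) : x = y := by
  have := congrArg S.s1 h
  rwa [hF.s1s1, hF.s1s1] at this

theorem s2_inj (hF : S.Facts) {x y : S.F} (h : S.s2 x = S.s2 y) : x = y := by
  have := congrArg S.s2 h
  rwa [hF.s2s2, hF.s2s2] at this

theorem of_rot_eq (hF : S.Facts) {x y : S.F} (h : S.rot x = y) : x = S.s2 (S.s1 y) := by
  rw [← h]; unfold rot; rw [hF.s1s1, hF.s2s2]

theorem rot_four (hF : S.Facts) {h : S.F} (hm : S.mult h = 2) :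
    S.rot (S.rot (S.rot (S.rot h))) = h := by
  have := hF.rot_full h
  rw [hm] at this
  exact this

/-- counting lines on the vertices of a line. -/
theorem count_line (hF : S.Facts) {i : Fin n} {A B C D : Finset (Fin n)}
    (hiA : i ∈ A) (hiB : i ∈ B) (hiC : i ∈ C) (hiD : i ∈ D)
    (h : ∀ f, S.line f = i → S.vert f = A ∨ S.vert f = B ∨ S.vert f = C ∨ S.vert f = D) :
    n + 3 ≤ A.card + B.card + C.card + D.card := by
  have h1 : (Finset.univ.erase i : Finset (Fin n)) ⊆
      ((A.erase i ∪ B.erase i) ∪ C.erase i) ∪ D.erase i := by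
    intro j hj
    rw [Finset.mem_erase] at hj
    obtain ⟨f, hf, hjf⟩ := hF.cover i j hj.1.symm
    simp only [Finset.mem_union, Finset.mem_erase]
    rcases h f hf with h | h | h | h
    · left; left; left; exact ⟨hj.1, h ▸ hjf⟩
    · left; left; right; exact ⟨hj.1, h ▸ hjf⟩
    · left; right; exact ⟨hj.1, h ▸ hjf⟩
    · right; exact ⟨hj.1, h ▸ hjf⟩
  have h2 := Finset.card_le_card h1
  have h3 := Finset.card_union_le ((A.erase i ∪ B.erase i) ∪ C.erase i) (D.erase i)
  have h4 := Finset.card_union_le (A.erase i ∪ B.erase i) (C.erase i)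
  have h5 := Finset.card_union_le (A.erase i) (B.erase i)
  rw [Finset.card_erase_of_mem (Finset.mem_univ _), Finset.card_univ, Fintype.card_fin] at h2
  rw [Finset.card_erase_of_mem hiA, Finset.card_erase_of_mem hiB] at h5
  rw [Finset.card_erase_of_mem hiC] at h4
  rw [Finset.card_erase_of_mem hiD] at h3
  have hA := Finset.card_pos.mpr ⟨i, hiA⟩
  have hB := Finset.card_pos.mpr ⟨i, hiB⟩
  have hC := Finset.card_pos.mpr ⟨i, hiC⟩
  have hD := Finset.card_pos.mpr ⟨i, hiD⟩
  have hn : 0 < n := i.pos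
  omega

/-- F2: if the vertex of `h` is on two lines and the corners at the edge of `h` are triangles, the
neighbour has multiplicity at least three. -/
theorem F2 {S : FlagSys 14} (hF : S.Facts) (hM : ∀ f, S.mult f ≤ 8) {h : S.F}
    (hm : S.mult h = 2) (t0 : S.tri h) (t1 : S.tri (S.rot h)) : 3 ≤ S.mult (S.s0 h) := by
  by_contra hcon
  have hN : S.mult (S.s0 h) = 2 := by
    have := hF.two_le (S.s0 h); omega
  have hb' : S.line (S.rot h) = S.line (S.s1 h) := line_rot_two hF hm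
  have hc' : S.line (S.rot (S.s0 h)) = S.line (S.s1 (S.s0 h)) := line_rot_two hF hN
  have hE := tri_rel hF t0
  have hW := tri_rel hF ((tri_s2 hF h).mpr t1)
  rw [hF.s0s2] at hW
  change S.s0 (S.rot (S.s0 h)) = S.s1 (S.s0 (S.rot h)) at hW
  have hEv : S.vert (S.s0 (S.s1 (S.s0 h))) = S.vert (S.s0 (S.s1 h)) := by rw [hE, hF.vert_s1]
  have hWv : S.vert (S.s0 (S.rot (S.s0 h))) = S.vert (S.s0 (S.rot h)) := by rw [hW, hF.vert_s1]
  have hbc : S.line (S.s1 h) ≠ S.line (S.s1 (S.s0 h)) := by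
    intro hbc
    apply hF.vert_s0 h
    apply hF.two_lines (S.s0 h) h (S.line (S.s1 h)) (S.line h) (line_s1 hF h)
    · rw [hbc]; exact mem_s1 hF _
    · exact mem_s0 hF h
    · exact mem_s1 hF _
    · exact hF.line_mem h
  have hEW : S.vert (S.s0 (S.s1 h)) = S.vert (S.s0 (S.rot h)) := by
    apply hF.two_lines _ _ _ _ hbc
    · exact mem_s0 hF _
    · rw [← hEv]; exact mem_s0 hF _
    · rw [← hb']; exact mem_s0 hF _
    · rw [← hWv, ← hc']; exact mem_s0 hF _
  have h4 := rot_four hF hm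
  -- all flags on the line `b`
  have hall := hF.line_conn (S.line (S.s1 h))
    (fun V => V = S.vert h ∨ V = S.vert (S.s0 (S.s1 h))) ?_
    ⟨S.s1 h, rfl, Or.inl (hF.vert_s1 h)⟩
  · have hcount := count_line hF (i := S.line (S.s1 h)) (A := S.vert h) (B := S.vert h)
      (C := S.vert h) (D := S.vert (S.s0 (S.s1 h))) (mem_s1 hF _) (mem_s1 hF _) (mem_s1 hF _)
      (mem_s0 hF _) (by
        intro f hf
        rcases hall f hf with h | h
        · left; exact h
        · right; right; right; exact h)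
    have h8 := hM (S.s0 (S.s1 h))
    unfold mult at h8 hm
    omega
  · intro k hk hQ
    rcases hQ with hQ | hQ
    · right
      have h5 : S.rot^[S.mult (S.s1 h)] (S.s1 h) = S.s2 (S.rot h) := by
        rw [mult_s1 hF, hm]
        show S.rot (S.rot (S.s1 h)) = S.s2 (S.rot h)
        have h6 := of_rot_eq hF h4
        have h7 := of_rot_eq hF h6
        have h8 := congrArg S.s1 h7
        rw [s1_eq hF] at h8
        exact h8.symm
      rcases on_line hF (f := S.s1 h) (g := k) (by rw [hQ, hF.vert_s1]) hk with h | h | h | h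
      · rw [h]
      · rw [h, vert_s0_s2 hF]
      · rw [h, h5, vert_s0_s2 hF, hEW]
      · rw [h, h5, hF.s2s2, hEW]
    · left
      have hx : S.vert (S.s0 (S.s0 (S.s1 h))) = S.vert h := by rw [hF.s0s0, hF.vert_s1]
      have hy : S.vert (S.s0 (S.s0 (S.rot h))) = S.vert h := by rw [hF.s0s0, vert_rot hF]
      have hop : S.vert (S.s0 (S.rot^[S.mult (S.s0 (S.s1 h))] (S.s0 (S.s1 h)))) = S.vert h := by
        rcases on_line hF (f := S.s0 (S.s1 h)) (g := S.s0 (S.rot h)) hEW.symm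
          (by rw [hF.line_s0, hF.line_s0, hb']) with h5 | h5 | h5 | h5
        · exfalso
          have := s0_inj hF h5
          unfold rot at this
          exact s2_ne hF h (s1_inj hF this)
        · exfalso
          rw [← hF.s0s2] at h5
          have h6 := s0_inj hF h5
          have h7 : S.rot (S.rot h) = h := by
            rw [h6]; unfold rot; rw [hF.s2s2, hF.s1s1]
          exact rot_ne hF h (k := 2) (by omega) (by omega) h7
        · rw [← h5, hy]
        · rw [← vert_s0_s2 hF, ← h5, hy]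
      rcases on_line hF (f := S.s0 (S.s1 h)) (g := k) hQ (by rw [hk, hF.line_s0]) with
        h | h | h | h
      · rw [h, hx]
      · rw [h, vert_s0_s2 hF, hx]
      · rw [h, hop]
      · rw [h, vert_s0_s2 hF, hop]

/-- A bad neighbour. -/
structure Bad {n : ℕ} (S : FlagSys n) (h : S.F) : Prop where
  m : S.mult h = 2
  t0 : S.tri h
  t1 : S.tri (S.rot h)
  t2 : S.tri (S.rot (S.rot h))
  t3 : S.tri (S.rot (S.rot (S.rot h)))
  o0 : S.tri (S.outer h)
  o1 : S.tri (S.outer (S.rot h))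
  o2 : S.tri (S.outer (S.rot (S.rot h)))
  o3 : S.tri (S.outer (S.rot (S.rot (S.rot h))))
  b1 : S.mult (S.s0 (S.rot h)) ≤ 3
  b2 : S.mult (S.s0 (S.rot (S.rot h))) ≤ 3
  b3 : S.mult (S.s0 (S.rot (S.rot (S.rot h)))) ≤ 3

theorem bad_of {h : S.F} (h1 : S.full h) (h2 : S.nX h = 0) (h3 : S.nBig h = 1)
    (h4 : 4 ≤ S.mult (S.s0 h)) : Bad S h := by
  obtain ⟨hm, hnc⟩ := h1
  unfold nc at hnc
  unfold nX at h2
  unfold nBig at h3
  rw [if_pos h4] at h3
  refine ⟨hm, ?_, ?_, ?_, ?_, ?_, ?_, ?_, ?_, ?_, ?_, ?_⟩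
  · by_contra hc; rw [if_neg hc] at hnc; omega
  · by_contra hc; rw [if_neg hc] at hnc; omega
  · by_contra hc; rw [if_neg hc] at hnc; omega
  · by_contra hc; rw [if_neg hc] at hnc; omega
  · by_contra hc; rw [if_neg hc] at h2; omega
  · by_contra hc; rw [if_neg hc] at h2; omega
  · by_contra hc; rw [if_neg hc] at h2; omega
  · by_contra hc; rw [if_neg hc] at h2; omega
  · by_contra hc; rw [if_pos (by omega : 4 ≤ S.mult (S.s0 (S.rot h)))] at h3; omega
  · by_contra hc; rw [if_pos (by omega : 4 ≤ S.mult (S.s0 (S.rot (S.rot h))))] at h3; omega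
  · by_contra hc; rw [if_pos (by omega : 4 ≤ S.mult (S.s0 (S.rot (S.rot (S.rot h)))))] at h3; omega

theorem tri_outer_s1 (hF : S.Facts) {y : S.F} (hy : S.tri y) :
    S.tri (S.outer (S.s1 y)) ↔ S.tri (S.outer y) := by
  have h := tri_rel hF hy
  have h1 : S.outer (S.s1 y) = S.s0 (S.outer y) := by
    unfold outer
    rw [← h, hF.s0s2]
  rw [h1, tri_s0 hF]

theorem bad_s2 (hF : S.Facts) {h : S.F} (hb : Bad S h) : Bad S (S.s2 h) := by
  have e4 := rot_four hF hb.m
  have e1 : S.rot (S.s2 h) = S.s2 (S.rot (S.rot (S.rot h))) := by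
    rw [rot_s2 hF, of_rot_eq hF e4, hF.s2s2]
  have e2 : S.rot (S.s2 (S.rot (S.rot (S.rot h)))) = S.s2 (S.rot (S.rot h)) := by
    rw [rot_s2 hF, s1_eq hF]
  have e3 : S.rot (S.s2 (S.rot (S.rot h))) = S.s2 (S.rot h) := by
    rw [rot_s2 hF, s1_eq hF]
  have key : ∀ x, S.tri (S.rot x) → S.tri (S.outer (S.rot x)) → S.tri (S.outer (S.s2 x)) := by
    intro x hx hx2
    have := tri_outer_s1 hF ((tri_s2 hF x).mpr hx)
    exact this.mp hx2
  refine ⟨?_, ?_, ?_, ?_, ?_, ?_, ?_, ?_, ?_, ?_, ?_, ?_⟩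
  · rw [mult_s2 hF]; exact hb.m
  · rw [tri_s2 hF]; exact hb.t1
  · rw [e1, tri_s2 hF, e4]; exact hb.t0
  · rw [e1, e2, tri_s2 hF]; exact hb.t3
  · rw [e1, e2, e3, tri_s2 hF]; exact hb.t2
  · exact key _ hb.t1 hb.o1
  · rw [e1]; exact key _ (by rw [e4]; exact hb.t0) (by rw [e4]; exact hb.o0)
  · rw [e1, e2]; exact key _ hb.t3 hb.o3
  · rw [e1, e2, e3]; exact key _ hb.t2 hb.o2
  · rw [e1, hF.s0s2, mult_s2 hF]; exact hb.b3
  · rw [e1, e2, hF.s0s2, mult_s2 hF]; exact hb.b2
  · rw [e1, e2, e3, hF.s0s2, mult_s2 hF]; exact hb.b1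

/-- the two steps next to a bad neighbour. -/
theorem claimA {S : FlagSys 14} (hF : S.Facts) (hM : ∀ f, S.mult f ≤ 8) {g : S.F}
    (hg : S.mult g = 4) (hb : Bad S (S.s0 g)) (hy : S.mult (S.s0 (S.rot (S.rot g))) = 2)
    (htY : S.tri (S.s2 (S.rot (S.rot g)))) : False := by
  obtain ⟨hm, t0, t1, t2, t3, -, o1, -, o3, b1, b2, b3⟩ := hb
  have e4 := rot_four hF hm
  -- multiplicities of E, S, W
  have mE : S.mult (S.s0 (S.rot (S.s0 g))) = 3 := by
    have := F2 hF hM (h := S.rot (S.s0 g)) (by rw [mult_rot hF]; exact hm) t1 t2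
    omega
  have mS : S.mult (S.s0 (S.rot (S.rot (S.s0 g)))) = 3 := by
    have := F2 hF hM (h := S.rot (S.rot (S.s0 g)))
      (by rw [mult_rot hF, mult_rot hF]; exact hm) t2 t3
    omega
  have mW : S.mult (S.s0 (S.rot (S.rot (S.rot (S.s0 g))))) = 3 := by
    have := F2 hF hM (h := S.rot (S.rot (S.rot (S.s0 g))))
      (by rw [mult_rot hF, mult_rot hF, mult_rot hF]; exact hm) t3 (by rw [e4]; exact t0)
    omega
  -- names
  obtain ⟨h, hh⟩ : ∃ h, h = S.s0 g := ⟨_, rfl⟩
  rw [← hh] at hm t0 t1 t2 t3 o1 o3 b1 b2 b3 e4 mE mS mW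
  have hgh : S.s0 h = g := by rw [hh, hF.s0s0]
  obtain ⟨E1b, hE1b⟩ : ∃ x, x = S.s0 (S.rot h) := ⟨_, rfl⟩
  obtain ⟨E1c, hE1c⟩ : ∃ x, x = S.s1 E1b := ⟨_, rfl⟩
  have I1 : S.s0 E1c = S.rot g := by
    rw [hE1c, hE1b, tri_rel hF t1, s1_eq hF, hF.s0s2, hgh]; rfl
  obtain ⟨x1, hx1⟩ : ∃ x, x = S.s2 E1c := ⟨_, rfl⟩
  have tx1 : S.tri x1 := by rw [hx1, hE1c, hE1b]; exact o1
  have s0x1 : S.s0 x1 = S.s2 (S.rot g) := by rw [hx1, hF.s0s2, I1]
  obtain ⟨G, hG⟩ : ∃ x, x = S.rot (S.rot g) := ⟨_, rfl⟩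
  rw [← hG] at hy htY
  have s1s0x1 : S.s1 (S.s0 x1) = G := by rw [s0x1, hG]; rfl
  obtain ⟨q, hq⟩ : ∃ x, x = S.s1 x1 := ⟨_, rfl⟩
  have s0q : S.s0 q = S.s1 (S.s0 G) := by
    have := tri_rel hF tx1
    rw [s1s0x1, ← hq] at this
    rw [this, hF.s1s1]
  obtain ⟨e0, he0⟩ : ∃ x, x = S.s2 E1b := ⟨_, rfl⟩
  have re0 : S.rot e0 = E1c := by rw [he0, rot_s2 hF, hE1c]
  have rre0 : S.rot (S.rot e0) = q := by rw [re0, hq, hx1]; rfl
  have me0 : S.mult e0 = 3 := by rw [he0, mult_s2 hF, hE1b]; exact mE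
  have vq : S.vert q = S.vert e0 := by rw [← rre0, vert_rot hF, vert_rot hF]
  have vE1c : S.vert E1c = S.vert e0 := by rw [← re0, vert_rot hF]
  have mq : S.mult q = 3 := by rw [← rre0, mult_rot hF, mult_rot hF]; exact me0
  obtain ⟨e2, he2⟩ : ∃ x, x = S.s1 e0 := ⟨_, rfl⟩
  have le2 : S.line e2 = S.line q := by
    have h1 := hF.rot_full e0
    rw [me0] at h1
    have h2 : S.rot (S.rot^[5] e0) = e0 := by
      rw [← Function.iterate_succ_apply' S.rot 5 e0]; exact h1
    have h3 := of_rot_eq hF h2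
    have h4 := hF.rot_line_opp q
    rw [mq, ← rre0] at h4
    have h5 : S.rot^[3] (S.rot (S.rot e0)) = S.rot^[5] e0 := rfl
    rw [h5, h3, hF.line_s2, ← he2, rre0] at h4
    exact h4
  have ve2 : S.vert e2 = S.vert q := by rw [he2, hF.vert_s1, vq]
  obtain ⟨S2a, hS2a⟩ : ∃ x, x = S.s0 (S.rot (S.rot h)) := ⟨_, rfl⟩
  have s0e2 : S.s0 e2 = S.s1 S2a := by
    have h1 : S.tri (S.s2 (S.rot h)) := by rw [tri_s2 hF]; exact t2
    rw [he2, he0, hE1b, ← hF.s0s2, tri_rel hF h1, hS2a]; rfl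
  have vS : S.vert (S.s0 e2) = S.vert S2a := by rw [s0e2, hF.vert_s1]
  have mS2a : S.mult S2a = 3 := by rw [hS2a]; exact mS
  obtain ⟨S3c, hS3c⟩ : ∃ x, x = S.rot S2a := ⟨_, rfl⟩
  obtain ⟨w, hw⟩ : ∃ x, x = S.rot S3c := ⟨_, rfl⟩
  have vw : S.vert w = S.vert S2a := by rw [hw, vert_rot hF, hS3c, vert_rot hF]
  have mw : S.mult w = 3 := by unfold mult; rw [vw]; exact mS2a
  have lw : S.line w = S.line q := by
    have h1 := hF.rot_full S2a
    rw [mS2a] at h1
    have h2 : S.rot (S.rot^[5] S2a) = S2a := by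
      rw [← Function.iterate_succ_apply' S.rot 5 S2a]; exact h1
    have h3 := of_rot_eq hF h2
    have h4 := hF.rot_line_opp w
    rw [mw] at h4
    have h5 : S.rot^[3] w = S.rot^[5] S2a := by rw [hw, hS3c]; rfl
    rw [h5, h3, hF.line_s2, ← s0e2, hF.line_s0, le2] at h4
    exact h4.symm
  obtain ⟨W3b, hW3b⟩ : ∃ x, x = S.s0 (S.rot (S.rot (S.rot h))) := ⟨_, rfl⟩
  have mW3b : S.mult W3b = 3 := by rw [hW3b]; exact mW
  obtain ⟨W3c, hW3c⟩ : ∃ x, x = S.s1 W3b := ⟨_, rfl⟩
  obtain ⟨x3, hx3⟩ : ∃ x, x = S.s2 W3c := ⟨_, rfl⟩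
  have tx3 : S.tri x3 := by rw [hx3, hW3c, hW3b]; exact o3
  have s0W3c : S.s0 W3c = S3c := by
    rw [hW3c, hW3b, tri_rel hF t3, s1_eq hF, hF.s0s2, ← hS2a, hS3c]; rfl
  have s1s0x3 : S.s1 (S.s0 x3) = w := by
    rw [hx3, hF.s0s2, s0W3c, hw]; rfl
  obtain ⟨w4, hw4⟩ : ∃ x, x = S.s1 x3 := ⟨_, rfl⟩
  have s0w : S.s0 w = S.s1 (S.s0 w4) := by
    have := tri_rel hF tx3
    rw [s1s0x3, ← hw4] at this
    exact this
  obtain ⟨W4b, hW4b⟩ : ∃ x, x = S.s2 W3b := ⟨_, rfl⟩
  have rW4b : S.rot W4b = W3c := by rw [hW4b, rot_s2 hF, hW3c]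
  have rrW4b : S.rot (S.rot W4b) = w4 := by rw [rW4b, hw4, hx3]; rfl
  have mW4b : S.mult W4b = 3 := by rw [hW4b, mult_s2 hF]; exact mW3b
  have mw4 : S.mult w4 = 3 := by rw [← rrW4b, mult_rot hF, mult_rot hF]; exact mW4b
  have lw4 : S.line w4 = S.line (S.s1 g) := by
    have h1 := hF.rot_full W4b
    rw [mW4b] at h1
    have h2 : S.rot (S.rot^[5] W4b) = W4b := by
      rw [← Function.iterate_succ_apply' S.rot 5 W4b]; exact h1
    have h3 := of_rot_eq hF h2
    have h4 := hF.rot_line_opp w4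
    rw [mw4, ← rrW4b] at h4
    have h5 : S.rot^[3] (S.rot (S.rot W4b)) = S.rot^[5] W4b := rfl
    rw [h5, h3, hF.line_s2, rrW4b] at h4
    -- line (s1 W4b) = line w4
    have h6 : S.s0 (S.s1 W4b) = S.s1 g := by
      have h7 : S.tri (S.s2 (S.rot (S.rot (S.rot h)))) := by rw [tri_s2 hF, e4]; exact t0
      rw [hW4b, hW3b, ← hF.s0s2, tri_rel hF h7, s1_s2, e4, hgh]
    rw [← h4, ← hF.line_s0 (S.s1 W4b), h6]
  -- the opposite ray of `c4` at P
  have lc4 : S.line (S.rot G) = S.line (S.s1 g) := by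
    have h1 := hF.rot_full g
    rw [hg] at h1
    have h2 : S.rot (S.rot^[7] g) = g := by
      rw [← Function.iterate_succ_apply' S.rot 7 g]; exact h1
    have h3 := of_rot_eq hF h2
    have h4 := hF.rot_line_opp (S.rot G)
    rw [mult_rot hF, hG, mult_rot hF, mult_rot hF, hg] at h4
    have h5 : S.rot^[4] (S.rot (S.rot (S.rot g))) = S.rot^[7] g := rfl
    rw [h5, h3, hF.line_s2] at h4
    rw [hG]; exact h4.symm
  have lyq : S.line (S.rot (S.s0 G)) = S.line q := by
    rw [line_rot_two hF hy, ← s0q, hF.line_s0]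
  have s0y : S.s0 (S.rot (S.s0 G)) = S.s1 (S.s0 (S.rot G)) := by
    have := tri_rel hF htY
    rw [hF.s0s2] at this
    exact this
  -- lines at P
  have hc1 : S.line (S.rot g) ≠ S.line (S.s1 g) := by
    rw [← lc4, hG]
    have := hF.rot_line_ne (S.rot g) 2 (by norm_num) (by rw [mult_rot hF, hg]; norm_num)
    exact this.symm
  have hc1P : S.line (S.rot g) ∈ S.vert g := mem_rot hF g
  have hc4P : S.line (S.s1 g) ∈ S.vert g := mem_s1 hF g
  have hc1E : S.line (S.rot g) ∈ S.vert q := by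
    rw [vq, ← vE1c, ← I1, hF.line_s0]; exact hF.line_mem _
  have hc4E : S.line (S.s1 g) ∉ S.vert q := by
    intro hcon
    have h1 := hF.two_lines q g _ _ hc1 hc1E hcon hc1P hc4P
    apply hF.vert_s0 E1c
    rw [I1, vert_rot hF, ← h1, vq, vE1c]
  have hc2c4 : S.line q ≠ S.line (S.s1 g) := by
    intro h1; apply hc4E; rw [← h1]; exact hF.line_mem _
  -- z = z'
  have hz : S.vert (S.s0 (S.rot (S.s0 G))) = S.vert (S.s0 w) := by
    apply hF.two_lines _ _ _ _ hc2c4
    · rw [← lyq]; exact mem_s0 hF _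
    · rw [s0y, hF.vert_s1, ← lc4]; exact mem_s0 hF _
    · rw [← lw]; exact mem_s0 hF _
    · rw [s0w, hF.vert_s1, ← lw4]; exact mem_s0 hF _
  have hzc4 : S.line (S.s1 g) ∈ S.vert (S.s0 w) := by
    rw [s0w, hF.vert_s1, ← lw4]; exact mem_s0 hF _
  have hEz : S.vert q ≠ S.vert (S.s0 w) := by
    intro h1; apply hc4E; rw [h1]; exact hzc4
  have vy : S.vert (S.s0 q) = S.vert (S.s0 G) := by rw [s0q, hF.vert_s1]
  have hSy : S.vert (S.s0 e2) ≠ S.vert (S.s0 q) := by
    intro h1
    rw [vS, vy] at h1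
    unfold mult at mS2a hy
    rw [h1] at mS2a
    omega
  -- all the vertices on the line `c2`
  have hall := hF.line_conn (S.line q)
    (fun V => V = S.vert q ∨ V = S.vert (S.s0 q) ∨ V = S.vert (S.s0 e2) ∨ V = S.vert (S.s0 w)) ?_
    ⟨q, rfl, Or.inl rfl⟩
  · have hcount := count_line hF (i := S.line q) (A := S.vert q) (B := S.vert (S.s0 q))
      (C := S.vert (S.s0 e2)) (D := S.vert (S.s0 w)) (hF.line_mem _) (mem_s0 hF _)
      (by rw [← le2]; exact mem_s0 hF _) (by rw [← lw]; exact mem_s0 hF _) hall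
    have h8 := hM (S.s0 w)
    rw [vy, vS] at hcount
    unfold mult at h8 hy mS2a mq
    omega
  · intro k hk hQ
    rcases hQ with hQ | hQ | hQ | hQ
    · -- at E
      rcases neighbours hF (x := q) (y := e2) (k := k) ve2.symm le2.symm hSy.symm hQ hk with h1 | h1
      · right; left; exact h1
      · right; right; left; exact h1
    · -- at y
      have hxv : S.vert (S.s0 q) = S.vert (S.rot (S.s0 G)) := by rw [vy, vert_rot hF]
      have hxn : S.vert (S.s0 (S.s0 q)) ≠ S.vert (S.s0 (S.rot (S.s0 G))) := by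
        rw [hF.s0s0, hz]; exact hEz
      rcases neighbours hF (x := S.s0 q) (y := S.rot (S.s0 G)) (k := k) hxv
        (by rw [hF.line_s0, lyq]) hxn hQ (by rw [hk, hF.line_s0]) with h1 | h1
      · left; rw [h1, hF.s0s0]
      · right; right; right; rw [h1, hz]
    · -- at S
      have hxv : S.vert (S.s0 e2) = S.vert w := by rw [vS, vw]
      have hxn : S.vert (S.s0 (S.s0 e2)) ≠ S.vert (S.s0 w) := by
        rw [hF.s0s0, ve2]; exact hEz
      rcases neighbours hF (x := S.s0 e2) (y := w) (k := k) hxv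
        (by rw [hF.line_s0, le2, lw]) hxn hQ (by rw [hk, hF.line_s0, le2]) with h1 | h1
      · left; rw [h1, hF.s0s0, ve2]
      · right; right; right; rw [h1]
    · -- at z
      have hxn : S.vert (S.s0 (S.s0 w)) ≠ S.vert (S.s0 (S.s0 (S.rot (S.s0 G)))) := by
        rw [hF.s0s0, hF.s0s0, vw, ← vS, vert_rot hF, ← vy]; exact hSy
      rcases neighbours hF (x := S.s0 w) (y := S.s0 (S.rot (S.s0 G))) (k := k) hz.symm
        (by rw [hF.line_s0, hF.line_s0, lw, lyq]) hxn hQ (by rw [hk, hF.line_s0, lw]) with h1 | h1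
      · right; right; left; rw [h1, hF.s0s0, vw, vS]
      · right; left; rw [h1, hF.s0s0, vert_rot hF, vy]

theorem nc_rot (hF : S.Facts) {h : S.F} (hm : S.mult h = 2) : S.nc (S.rot h) = S.nc h := by
  unfold nc
  rw [rot_four hF hm]
  ring

theorem nc_s2 (hF : S.Facts) {h : S.F} (hm : S.mult h = 2) : S.nc (S.s2 h) = S.nc h := by
  have e4 := rot_four hF hm
  have e1 : S.rot (S.s2 h) = S.s2 (S.rot (S.rot (S.rot h))) := by
    rw [rot_s2 hF, of_rot_eq hF e4, hF.s2s2]
  have e2 : S.rot (S.s2 (S.rot (S.rot (S.rot h)))) = S.s2 (S.rot (S.rot h)) := by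
    rw [rot_s2 hF, s1_eq hF]
  have e3 : S.rot (S.s2 (S.rot (S.rot h))) = S.s2 (S.rot h) := by
    rw [rot_s2 hF, s1_eq hF]
  unfold nc
  rw [e1, e2, e3]
  simp only [tri_s2 hF, e4]
  ring

theorem full_s2 (hF : S.Facts) (h : S.F) : S.full (S.s2 h) ↔ S.full h := by
  unfold full
  rw [mult_s2 hF]
  constructor
  · rintro ⟨h1, h2⟩
    rw [nc_s2 hF h1] at h2
    exact ⟨h1, h2⟩
  · rintro ⟨h1, h2⟩
    rw [← nc_s2 hF h1] at h2
    exact ⟨h1, h2⟩

theorem full_tri {h : S.F} (hf : S.full h) : S.tri h ∧ S.tri (S.rot h) ∧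
    S.tri (S.rot (S.rot h)) ∧ S.tri (S.rot (S.rot (S.rot h))) := by
  obtain ⟨-, hnc⟩ := hf
  unfold nc at hnc
  refine ⟨?_, ?_, ?_, ?_⟩
  · by_contra hc; rw [if_neg hc] at hnc; omega
  · by_contra hc; rw [if_neg hc] at hnc; omega
  · by_contra hc; rw [if_neg hc] at hnc; omega
  · by_contra hc; rw [if_neg hc] at hnc; omega

theorem rot_outer (hF : S.Facts) (f : S.F) : S.rot (S.outer f) = S.s0 f := by
  unfold rot outer; rw [hF.s2s2, hF.s1s1]

theorem mult_outer (hF : S.Facts) (f : S.F) : S.mult (S.outer f) = S.mult (S.s0 f) := by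
  rw [← rot_outer hF, mult_rot hF]

theorem ty21_nc (hF : S.Facts) {f : S.F} (h : S.ty21 (S.outer f)) : S.nc (S.s0 f) = 1 := by
  obtain ⟨h1, h2, -⟩ := h
  rw [← rot_outer hF, nc_rot hF h1]
  exact h2

theorem ty21_tri {h : S.F} (hf : S.ty21 h) : S.tri (S.rot h) ∧
    S.tri (S.rot (S.rot h)) ∧ S.tri (S.rot (S.rot (S.rot h))) := by
  obtain ⟨-, hnc, ht⟩ := hf
  unfold nc at hnc
  rw [if_neg ht] at hnc
  refine ⟨?_, ?_, ?_⟩
  · by_contra hc; rw [if_neg hc] at hnc; omega
  · by_contra hc; rw [if_neg hc] at hnc; omega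
  · by_contra hc; rw [if_neg hc] at hnc; omega

theorem outer_s2 (hF : S.Facts) (f : S.F) : S.outer (S.s2 f) = S.s2 (S.rot (S.s0 f)) := by
  unfold outer rot; rw [hF.s0s2]

theorem ty21_both (hF : S.Facts) {f : S.F} (h : S.ty21 (S.outer f)) :
    ¬ S.ty21 (S.outer (S.s2 f)) := by
  intro h2
  have h3 := h2.2.2
  rw [outer_s2 hF, tri_s2 hF] at h3
  have h4 := (ty21_tri h).2.2
  rw [rot_outer hF] at h4
  exact h3 h4

/-- the second part of the load. -/
def ldB (S : FlagSys n) (f : S.F) : ℕ :=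
  if S.ty21 (S.outer f) ∧ S.mult (S.s0 (S.outer f)) = 2 then 4 else 0

theorem ldB_le (f : S.F) : ldB S f ≤ 4 := by
  unfold ldB; split_ifs <;> omega

theorem ldB_both (hF : S.Facts) (f : S.F) : ldB S f + ldB S (S.s2 f) ≤ 4 := by
  unfold ldB
  by_cases h : S.ty21 (S.outer f) ∧ S.mult (S.s0 (S.outer f)) = 2
  · have h2 : ¬ (S.ty21 (S.outer (S.s2 f)) ∧ S.mult (S.s0 (S.outer (S.s2 f))) = 2) := by
      intro h3; exact ty21_both hF h.1 h3.1
    rw [if_pos h, if_neg h2]
  · rw [if_neg h]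
    split_ifs <;> omega

theorem load_notfull {f : S.F} (h : ¬ S.full (S.s0 f)) : S.load f = ldB S f := by
  unfold load ldB
  rw [if_neg (by rintro ⟨h1, -⟩; exact h h1), if_neg (by rintro ⟨h1, -⟩; exact h h1), zero_add]

theorem ldB_full (hF : S.Facts) {f : S.F} (h : S.full (S.s0 f)) : ldB S f = 0 := by
  unfold ldB
  rw [if_neg]
  rintro ⟨h1, -⟩
  have h2 := ty21_nc hF h1
  rw [h.2] at h2
  omega

theorem load_le (hF : S.Facts) (f : S.F) : S.load f ≤ 8 := by
  by_cases h : S.full (S.s0 f)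
  · have h1 := ldB_full hF h
    unfold ldB at h1
    unfold load
    rw [h1]
    split_ifs <;> omega
  · rw [load_notfull h]
    have := ldB_le (S := S) f
    omega

theorem load_notbad (hF : S.Facts) {f : S.F} (hf : 4 ≤ S.mult f) (h : ¬ Bad S (S.s0 f)) :
    S.load f ≤ 4 := by
  by_cases hfull : S.full (S.s0 f)
  · have h1 := ldB_full hF hfull
    unfold ldB at h1
    unfold load
    rw [h1, if_neg]
    · split_ifs <;> omega
    · rintro ⟨a, b, c⟩
      exact h (bad_of a b c (by rw [hF.s0s0]; exact hf))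
  · rw [load_notfull hfull]
    exact ldB_le f

theorem load_ne (hF : S.Facts) {f : S.F} (h : S.load f ≠ 0) :
    S.mult (S.s0 f) = 2 ∧ S.tri f ∧ S.tri (S.s2 f) := by
  have key : ∀ x : S.F, S.tri (S.rot (S.s0 x)) → S.tri (S.s2 x) := by
    intro x hx
    rw [← tri_s0 hF, hF.s0s2, tri_s2 hF]
    exact hx
  by_cases hfull : S.full (S.s0 f)
  · obtain ⟨h1, h2, -, -⟩ := full_tri hfull
    exact ⟨hfull.1, (tri_s0 hF f).mp h1, key f h2⟩
  · rw [load_notfull hfull] at h
    unfold ldB at h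
    have h1 : S.ty21 (S.outer f) := by
      by_contra hc
      rw [if_neg (fun h2 => hc h2.1)] at h
      exact h rfl
    obtain ⟨h2, h3, -⟩ := ty21_tri h1
    rw [rot_outer hF] at h2 h3
    refine ⟨?_, (tri_s0 hF f).mp h2, key f h3⟩
    rw [← mult_outer hF]; exact h1.1

/-- load of a ray. -/
def R (S : FlagSys n) (f : S.F) : ℕ := S.load f + S.load (S.s2 f)

theorem R_s2 (hF : S.Facts) (f : S.F) : R S (S.s2 f) = R S f := by
  unfold R; rw [hF.s2s2, add_comm]

theorem R_le (hF : S.Facts) (f : S.F) : R S f ≤ 16 := by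
  have h1 := load_le hF f
  have h2 := load_le hF (S.s2 f)
  unfold R; omega

theorem R_notfull (hF : S.Facts) {f : S.F} (h : ¬ S.full (S.s0 f)) : R S f ≤ 4 := by
  unfold R
  rw [load_notfull h, load_notfull (f := S.s2 f) (by rw [hF.s0s2, full_s2 hF]; exact h)]
  exact ldB_both hF f

theorem R_notbad (hF : S.Facts) {f : S.F} (hf : 4 ≤ S.mult f) (h : ¬ Bad S (S.s0 f)) :
    R S f ≤ 8 := by
  have h1 := load_notbad hF hf h
  have h2 := load_notbad hF (f := S.s2 f) (by rw [mult_s2 hF]; exact hf) (by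
    rw [hF.s0s2]; intro hb; apply h
    have := bad_s2 hF hb
    rwa [hF.s2s2] at this)
  unfold R; omega

theorem R_zero (hF : S.Facts) {f : S.F} (h : ¬ (S.mult (S.s0 f) = 2 ∧ S.tri f ∧ S.tri (S.s2 f))) :
    R S f = 0 := by
  unfold R
  have h1 : S.load f = 0 := by
    by_contra hc; exact h (load_ne hF hc)
  have h2 : S.load (S.s2 f) = 0 := by
    by_contra hc
    have := load_ne hF hc
    rw [hF.s0s2, mult_s2 hF, hF.s2s2] at this
    exact h ⟨this.1, this.2.2, this.2.1⟩
  omega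

theorem R_adj {S : FlagSys 14} (hF : S.Facts) (hM : ∀ f, S.mult f ≤ 8) {f : S.F}
    (h : S.full (S.s0 f)) : R S (S.rot f) = 0 := by
  apply R_zero hF
  rintro ⟨h1, -, -⟩
  obtain ⟨t0, t1, t2, -⟩ := full_tri h
  have I1 : S.s0 (S.s1 (S.s0 (S.rot (S.s0 f)))) = S.rot f := by
    rw [tri_rel hF t1, s1_eq hF, hF.s0s2, hF.s0s0]; rfl
  rw [← I1, hF.s0s0, mult_s1 hF] at h1
  have := F2 hF hM (h := S.rot (S.s0 f)) (by rw [mult_rot hF]; exact h.1) t1 t2
  omega

theorem R_adj' {S : FlagSys 14} (hF : S.Facts) (hM : ∀ f, S.mult f ≤ 8) {f : S.F}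
    (h : S.full (S.s0 (S.rot f))) : R S f = 0 := by
  have h1 : S.full (S.s0 (S.s2 (S.rot f))) := by rw [hF.s0s2, full_s2 hF]; exact h
  have h2 := R_adj hF hM h1
  rw [rot_s2 hF, s1_eq hF, R_s2 hF] at h2
  exact h2

theorem R_two {S : FlagSys 14} (hF : S.Facts) (hM : ∀ f, S.mult f ≤ 8) {f : S.F}
    (hf : S.mult f = 4) (h : Bad S (S.s0 f)) : R S (S.rot (S.rot f)) = 0 := by
  apply R_zero hF
  rintro ⟨h1, -, h3⟩
  exact claimA hF hM hf h h1 h3

theorem R_two' {S : FlagSys 14} (hF : S.Facts) (hM : ∀ f, S.mult f ≤ 8) {f : S.F}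
    (hf : S.mult f = 4) (h : Bad S (S.s0 (S.rot (S.rot f)))) : R S f = 0 := by
  have h1 : Bad S (S.s0 (S.s2 (S.rot (S.rot f)))) := by rw [hF.s0s2]; exact bad_s2 hF h
  have h2 := R_two hF hM (by rw [mult_s2 hF, mult_rot hF, mult_rot hF]; exact hf) h1
  rw [rot_s2 hF, s1_eq hF, rot_s2 hF, s1_eq hF, R_s2 hF] at h2
  exact h2

theorem full_of_bad {h : S.F} (hb : Bad S h) : S.full h := by
  refine ⟨hb.m, ?_⟩
  unfold nc
  rw [if_pos hb.t0, if_pos hb.t1, if_pos hb.t2, if_pos hb.t3]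

theorem R_pair {S : FlagSys 14} (hF : S.Facts) (hM : ∀ f, S.mult f ≤ 8) (f : S.F) :
    R S f + R S (S.rot f) ≤ 16 := by
  by_cases h1 : S.full (S.s0 f)
  · rw [R_adj hF hM h1]; exact R_le hF f
  · by_cases h2 : S.full (S.s0 (S.rot f))
    · rw [R_adj' hF hM h2]
      have := R_le hF (S.rot f)
      omega
    · have h3 := R_notfull hF h1
      have h4 := R_notfull hF h2
      omega

/-- the sum of the slacks. -/
theorem sum_slack {S : FlagSys n} (hF : S.Facts) (f : S.F) (hf : 4 ≤ S.mult f) :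
    8 * (S.mult f : ℤ) * (S.mult f - 3) -
      ∑ k ∈ Finset.range (2 * S.mult f), (R S (S.rot^[k] f) : ℤ) ≤
      ∑ g ∈ Finset.univ.filter (fun g => S.vert g = S.vert f), S.slack g := by
  classical
  have h1 : ∀ g ∈ Finset.univ.filter (fun g => S.vert g = S.vert f),
      S.slack g = 2 * ((S.mult f : ℤ) - 3) - S.load g := by
    intro g hg
    rw [Finset.mem_filter] at hg
    have hm : S.mult g = S.mult f := by unfold mult; rw [hg.2]
    unfold slack
    rw [hm, if_pos hf]
  rw [Finset.sum_congr rfl h1, Finset.sum_sub_distrib, Finset.sum_const, hF.card_vert]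
  have h2 : ∑ g ∈ Finset.univ.filter (fun g => S.vert g = S.vert f), (S.load g : ℤ) ≤
      ∑ k ∈ Finset.range (2 * S.mult f), (R S (S.rot^[k] f) : ℤ) := by
    have h3 : (Finset.univ.filter fun g => S.vert g = S.vert f) ⊆
        (Finset.range (2 * S.mult f)).image (fun k => S.rot^[k] f) ∪
        (Finset.range (2 * S.mult f)).image (fun k => S.s2 (S.rot^[k] f)) := by
      intro g hg
      rw [Finset.mem_filter] at hg
      obtain ⟨k, hk, h⟩ := hF.vert_orbit f g hg.2
      rw [Finset.mem_union, Finset.mem_image, Finset.mem_image]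
      rcases h with h | h
      · left; exact ⟨k, Finset.mem_range.mpr hk, h.symm⟩
      · right; exact ⟨k, Finset.mem_range.mpr hk, h.symm⟩
    have himg : ∀ (F : ℕ → S.F), ∑ g ∈ (Finset.range (2 * S.mult f)).image F, (S.load g : ℤ) ≤
        ∑ k ∈ Finset.range (2 * S.mult f), (S.load (F k) : ℤ) := by
      intro F
      apply Finset.sum_image_le_of_nonneg
      intro g _
      positivity
    calc ∑ g ∈ Finset.univ.filter (fun g => S.vert g = S.vert f), (S.load g : ℤ)
        ≤ ∑ g ∈ (Finset.range (2 * S.mult f)).image (fun k => S.rot^[k] f) ∪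
        (Finset.range (2 * S.mult f)).image (fun k => S.s2 (S.rot^[k] f)), (S.load g : ℤ) :=
          Finset.sum_le_sum_of_subset_of_nonneg h3 (fun g _ _ => by positivity)
      _ ≤ ∑ g ∈ (Finset.range (2 * S.mult f)).image (fun k => S.rot^[k] f), (S.load g : ℤ) +
          ∑ g ∈ (Finset.range (2 * S.mult f)).image (fun k => S.s2 (S.rot^[k] f)),
            (S.load g : ℤ) := by
          rw [← Finset.sum_union_inter]
          have : 0 ≤ ∑ g ∈ (Finset.range (2 * S.mult f)).image (fun k => S.rot^[k] f) ∩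
            (Finset.range (2 * S.mult f)).image (fun k => S.s2 (S.rot^[k] f)), (S.load g : ℤ) :=
            Finset.sum_nonneg (fun g _ => by positivity)
          linarith
      _ ≤ ∑ k ∈ Finset.range (2 * S.mult f), (S.load (S.rot^[k] f) : ℤ) +
          ∑ k ∈ Finset.range (2 * S.mult f), (S.load (S.s2 (S.rot^[k] f)) : ℤ) :=
          add_le_add (himg _) (himg _)
      _ = _ := by
          rw [← Finset.sum_add_distrib]
          apply Finset.sum_congr rfl
          intro k _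
          unfold R
          push_cast
          rfl
  have h5 : ((4 * S.mult f : ℕ) : ℤ) = 4 * (S.mult f : ℤ) := by push_cast; rfl
  rw [nsmul_eq_mul, h5]
  have h6 : 4 * (S.mult f : ℤ) * (2 * ((S.mult f : ℤ) - 3)) = 8 * (S.mult f : ℤ) * (S.mult f - 3) := by
    ring
  rw [h6]
  linarith

theorem sum_R {S : FlagSys 14} (hF : S.Facts) (hM : ∀ f, S.mult f ≤ 8) (f : S.F) :
    ∑ k ∈ Finset.range (2 * S.mult f), R S (S.rot^[k] f) ≤ 16 * S.mult f := by
  have h1 : ∑ k ∈ Finset.range (2 * S.mult f), R S (S.rot^[k + 1] f) =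
      ∑ k ∈ Finset.range (2 * S.mult f), R S (S.rot^[k] f) := by
    have h2 := Finset.sum_range_succ (fun k => R S (S.rot^[k] f)) (2 * S.mult f)
    have h3 := Finset.sum_range_succ' (fun k => R S (S.rot^[k] f)) (2 * S.mult f)
    have h4 : R S (S.rot^[2 * S.mult f] f) = R S (S.rot^[0] f) := by
      rw [hF.rot_full]; rfl
    rw [h4] at h2
    omega
  have h5 : ∑ k ∈ Finset.range (2 * S.mult f), (R S (S.rot^[k] f) + R S (S.rot^[k + 1] f)) ≤
      ∑ k ∈ Finset.range (2 * S.mult f), 16 := by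
    apply Finset.sum_le_sum
    intro k _
    rw [Function.iterate_succ_apply']
    exact R_pair hF hM _
  rw [Finset.sum_add_distrib, h1, Finset.sum_const, Finset.card_range, smul_eq_mul] at h5
  omega

end D2

open D2 in
theorem slack_big (S : FlagSys 14) (hF : S.Facts) (hM : ∀ f, S.mult f ≤ 8) (f : S.F)
    (hf : 5 ≤ S.mult f) : 8 * (S.mult f : ℤ) * (S.mult f - 5) ≤
      ∑ g ∈ Finset.univ.filter (fun g => S.vert g = S.vert f), S.slack g := by
  refine le_trans ?_ (sum_slack hF f (by omega))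
  have h1 := sum_R hF hM f
  have h2 : (∑ k ∈ Finset.range (2 * S.mult f), (R S (S.rot^[k] f) : ℤ)) ≤ 16 * S.mult f := by
    exact_mod_cast h1
  nlinarith

open D2 in
theorem slack_four (S : FlagSys 14) (hF : S.Facts) (hM : ∀ f, S.mult f ≤ 8) (f : S.F)
    (hf : S.mult f = 4) :
    0 ≤ ∑ g ∈ Finset.univ.filter (fun g => S.vert g = S.vert f), S.slack g := by
  -- it is enough to bound the load for some flag at the vertex
  have key : ∀ f' : S.F, S.vert f' = S.vert f →
      ∑ k ∈ Finset.range 8, R S (S.rot^[k] f') ≤ 32 →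
      0 ≤ ∑ g ∈ Finset.univ.filter (fun g => S.vert g = S.vert f), S.slack g := by
    intro f' hv hs
    have hm : S.mult f' = 4 := by unfold mult; rw [hv]; exact hf
    have h1 := sum_slack hF f' (by omega)
    rw [hm, hv] at h1
    refine le_trans ?_ h1
    have h2 : (∑ k ∈ Finset.range (2 * 4), (R S (S.rot^[k] f') : ℤ)) ≤ 32 := by
      exact_mod_cast hs
    norm_num
    linarith
  by_cases hbad : ∃ g : S.F, S.vert g = S.vert f ∧ Bad S (S.s0 g)
  · obtain ⟨g, hv, hb⟩ := hbad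
    have hm : S.mult g = 4 := by unfold mult; rw [hv]; exact hf
    apply key g hv
    simp only [Finset.sum_range_succ, Finset.sum_range_zero, Function.iterate_succ,
      Function.iterate_zero, Function.comp_apply, id_eq]
    obtain ⟨g1, hg1⟩ : ∃ x, x = S.rot g := ⟨_, rfl⟩
    obtain ⟨g2, hg2⟩ : ∃ x, x = S.rot g1 := ⟨_, rfl⟩
    obtain ⟨g3, hg3⟩ : ∃ x, x = S.rot g2 := ⟨_, rfl⟩
    obtain ⟨g4, hg4⟩ : ∃ x, x = S.rot g3 := ⟨_, rfl⟩
    obtain ⟨g5, hg5⟩ : ∃ x, x = S.rot g4 := ⟨_, rfl⟩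
    obtain ⟨g6, hg6⟩ : ∃ x, x = S.rot g5 := ⟨_, rfl⟩
    obtain ⟨g7, hg7⟩ : ∃ x, x = S.rot g6 := ⟨_, rfl⟩
    rw [← hg1, ← hg2, ← hg3, ← hg4, ← hg5, ← hg6, ← hg7]
    have hg8 : S.rot g7 = g := by
      have := hF.rot_full g
      rw [hm] at this
      rw [hg7, hg6, hg5, hg4, hg3, hg2, hg1]
      exact this
    have m1 : S.mult g1 = 4 := by rw [hg1, mult_rot hF]; exact hm
    have m2 : S.mult g2 = 4 := by rw [hg2, mult_rot hF]; exact m1
    have m3 : S.mult g3 = 4 := by rw [hg3, mult_rot hF]; exact m2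
    have m4 : S.mult g4 = 4 := by rw [hg4, mult_rot hF]; exact m3
    have m5 : S.mult g5 = 4 := by rw [hg5, mult_rot hF]; exact m4
    have m6 : S.mult g6 = 4 := by rw [hg6, mult_rot hF]; exact m5
    have a0 := R_le hF g
    have a1 : R S g1 = 0 := by rw [hg1]; exact R_adj hF hM (full_of_bad hb)
    have a2 : R S g2 = 0 := by rw [hg2, hg1]; exact R_two hF hM hm hb
    have a7 : R S g7 = 0 := by
      apply R_adj' hF hM; rw [hg8]; exact full_of_bad hb
    have a6 : R S g6 = 0 := by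
      apply R_two' hF hM m6; rw [← hg7, hg8]; exact hb
    have a345 : R S g3 + R S g4 + R S g5 ≤ 16 := by
      by_cases f4 : S.full (S.s0 g4)
      · have h3 : R S g3 = 0 := by apply R_adj' hF hM; rw [← hg4]; exact f4
        have h5 : R S g5 = 0 := by rw [hg5]; exact R_adj hF hM f4
        have h4 := R_le hF g4
        omega
      · have h4 := R_notfull hF f4
        by_cases b3 : Bad S (S.s0 g3)
        · have h4' : R S g4 = 0 := by rw [hg4]; exact R_adj hF hM (full_of_bad b3)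
          have h5 : R S g5 = 0 := by rw [hg5, hg4]; exact R_two hF hM m3 b3
          have h3 := R_le hF g3
          omega
        · by_cases b5 : Bad S (S.s0 g5)
          · have h4' : R S g4 = 0 := by
              apply R_adj' hF hM; rw [← hg5]; exact full_of_bad b5
            have h3 : R S g3 = 0 := by
              apply R_two' hF hM m3; rw [← hg4, ← hg5]; exact b5
            have h5 := R_le hF g5
            omega
          · have h3 := R_notbad hF (by omega) b3
            have h5 := R_notbad hF (by omega) b5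
            by_cases f3 : S.full (S.s0 g3)
            · have h4' : R S g4 = 0 := by rw [hg4]; exact R_adj hF hM f3
              omega
            · have h3' := R_notfull hF f3
              by_cases f5 : S.full (S.s0 g5)
              · have h4' : R S g4 = 0 := by apply R_adj' hF hM; rw [← hg5]; exact f5
                omega
              · have h5' := R_notfull hF f5
                omega
    omega
  · push Not at hbad
    apply key f rfl
    have hk : ∀ k, R S (S.rot^[k] f) + R S (S.rot^[k + 1] f) ≤ 8 := by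
      intro k
      rw [Function.iterate_succ_apply']
      have hv : S.vert (S.rot^[k] f) = S.vert f := vert_rot_iter hF f k
      have hm : S.mult (S.rot^[k] f) = 4 := by rw [mult_rot_iter hF]; exact hf
      by_cases f1 : S.full (S.s0 (S.rot^[k] f))
      · rw [R_adj hF hM f1]
        exact R_notbad hF (by omega) (hbad _ hv)
      · by_cases f2 : S.full (S.s0 (S.rot (S.rot^[k] f)))
        · rw [R_adj' hF hM f2]
          have := R_notbad hF (f := S.rot (S.rot^[k] f)) (by rw [mult_rot hF]; omega)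
            (hbad _ (by rw [vert_rot hF]; exact hv))
          omega
        · have h1 := R_notfull hF f1
          have h2 := R_notfull hF f2
          omega
    simp only [Finset.sum_range_succ, Finset.sum_range_zero]
    have h0 := hk 0
    have h2 := hk 2
    have h4 := hk 4
    have h6 := hk 6
    norm_num at h0 h2 h4 h6 ⊢
    omega

end Pool.Agent.Helper15.PL
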