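import Pool.Agent.Helper15.PL.Flags

/-!
# The basic facts on flags, from one chart
-/

namespace Pool.Agent.Helper15.PL

open FlagSys

namespace RF

variable {n : ℕ} {S : FlagSys n} {W : Wiring n}

theorem conc (W : Wiring n) {i j k : Fin n} (hij : i ≠ j) (hjk : j ≠ k) (hik : i ≠ k)
    (h : W.X i j = W.X i k) : W.X i j = W.X j k := by
  have key : ∀ a b c : Fin n, a < b → b < c →
      (W.X a b = W.X a c ∨ W.X a c = W.X b c ∨ W.X a b = W.X b c) →
      W.X a b = W.X a c ∧ W.X a c = W.X b c := by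
    intro a b c hab hbc h
    rcases W.btw a b c hab hbc with ⟨h1, h2⟩ | h1 | ⟨h1, h2⟩
    · exfalso
      rcases h with h | h | h <;> linarith
    · exact h1
    · exfalso
      rcases h with h | h | h <;> linarith
  have s1 := W.symm i j
  have s2 := W.symm j k
  have s3 := W.symm i k
  rcases lt_or_gt_of_ne hij with h1 | h1 <;> rcases lt_or_gt_of_ne hjk with h2 | h2 <;>
    rcases lt_or_gt_of_ne hik with h3 | h3
  · have := key i j k h1 h2 (Or.inl h)
    linarith
  · exact absurd (h1.trans h2) (lt_asymm h3)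
  · have := key i k j h3 h2 (Or.inl h.symm)
    linarith
  · have := key k i j h3 h1 (Or.inr (Or.inr (by linarith)))
    linarith
  · have := key j i k h1 h3 (Or.inr (Or.inr (by linarith)))
    linarith
  · have := key j k i h2 h3 (Or.inr (Or.inl (by linarith)))
    linarith
  · exact absurd (h1.trans h3) (lt_asymm h2)
  · have := key k j i h2 h1 (Or.inr (Or.inl (by linarith)))
    linarith

/-- `V` is the set of the lines through a vertex with abscissa `x`. -/
structure IsV (W : Wiring n) (V : Finset (Fin n)) (x : ℝ) : Prop where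
  two : 2 ≤ V.card
  mem : ∀ j ∈ V, ∀ l, l ≠ j → (l ∈ V ↔ W.X j l = x)

theorem exists_isV (W : Wiring n) {i a : Fin n} (hia : i ≠ a) :
    ∃ V : Finset (Fin n), IsV W V (W.X i a) ∧ i ∈ V ∧ a ∈ V := by
  classical
  refine ⟨Finset.univ.filter fun l => l = i ∨ W.X i l = W.X i a, ⟨?_, ?_⟩, by simp, by simp⟩
  · have hsub : ({i, a} : Finset (Fin n)) ⊆
        Finset.univ.filter fun l => l = i ∨ W.X i l = W.X i a := by
      intro l hl
      simp only [Finset.mem_insert, Finset.mem_singleton] at hl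
      rcases hl with rfl | rfl <;> simp
    calc 2 = ({i, a} : Finset (Fin n)).card := (Finset.card_pair hia).symm
      _ ≤ _ := Finset.card_le_card hsub
  · intro j hj l hlj
    simp only [Finset.mem_filter, Finset.mem_univ, true_and] at hj ⊢
    by_cases hji : j = i
    · subst hji
      constructor
      · rintro (h | h)
        · exact absurd h hlj
        · exact h
      · exact Or.inr
    · have hj' : W.X i j = W.X i a := hj.resolve_left hji
      by_cases hli : l = i
      · subst hli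
        rw [W.symm j l, hj']
        simp
      · constructor
        · rintro (h | h)
          · exact absurd h hli
          · have := conc W (Ne.symm hji) (Ne.symm hlj) (Ne.symm hli) (hj'.trans h.symm)
            rw [← this, hj']
        · intro h
          right
          have h1 : W.X j i = W.X j l := by rw [W.symm j i, hj', h]
          have := conc W hji (Ne.symm hli) (Ne.symm hlj) h1
          rw [← this, W.symm j i, hj']

theorem vert_eq (c : Chart S W) {V : Finset (Fin n)} {x : ℝ} (hV : IsV W V x) {i a : Fin n}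
    (hi : i ∈ V) (ha : a ∈ V) (hia : i ≠ a) (d s : Bool) :
    S.vert (c.Φ i a d s) = V.image c.perm := by
  ext l
  obtain ⟨l, rfl⟩ := c.perm.surjective l
  rw [c.mem_vert i a d s l hia]
  have hxa : W.X i a = x := (hV.mem i hi a (Ne.symm hia)).1 ha
  have : c.perm l ∈ V.image c.perm ↔ l ∈ V := by simp
  rw [this, hxa]
  by_cases hli : l = i
  · subst hli
    simp [hi]
  · rw [hV.mem i hi l hli]
    simp [hli]

open Classical in
/-- Another element of `V`. -/
noncomputable def oth (V : Finset (Fin n)) (l : Fin n) : Fin n :=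
  if h : ∃ a ∈ V, a ≠ l then h.choose else l

theorem oth_mem {V : Finset (Fin n)} {x : ℝ} (hV : IsV W V x) (l : Fin n) : oth V l ∈ V := by
  have h := Finset.exists_mem_ne (by have := hV.two; omega : 1 < V.card) l
  unfold oth
  rw [dif_pos h]
  exact h.choose_spec.1

theorem oth_ne {V : Finset (Fin n)} {x : ℝ} (hV : IsV W V x) (l : Fin n) : oth V l ≠ l := by
  have h := Finset.exists_mem_ne (by have := hV.two; omega : 1 < V.card) l
  unfold oth
  rw [dif_pos h]
  exact h.choose_spec.2

/-- The flag of the line `l` at the vertex `V`. -/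
noncomputable def Ps (c : Chart S W) (V : Finset (Fin n)) (l : Fin n) (d s : Bool) : S.F :=
  c.Φ l (oth V l) d s

theorem Ps_eq (c : Chart S W) {V : Finset (Fin n)} {x : ℝ} (hV : IsV W V x) {l a : Fin n}
    (hl : l ∈ V) (ha : a ∈ V) (hla : l ≠ a) (d s : Bool) :
    c.Φ l a d s = Ps c V l d s := by
  unfold Ps
  rw [c.eq_iff _ _ _ _ _ _ _ _ hla (oth_ne hV l).symm]
  refine ⟨rfl, ?_, rfl, rfl⟩
  rw [(hV.mem l hl a hla.symm).1 ha, (hV.mem l hl _ (oth_ne hV l)).1 (oth_mem hV l)]

theorem Ps_inj (c : Chart S W) {V : Finset (Fin n)} {x : ℝ} (hV : IsV W V x) {l l' : Fin n}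
    {d s d' s' : Bool} (h : Ps c V l d s = Ps c V l' d' s') : l = l' ∧ d = d' ∧ s = s' := by
  unfold Ps at h
  rw [c.eq_iff _ _ _ _ _ _ _ _ (oth_ne hV l).symm (oth_ne hV l').symm] at h
  exact ⟨h.1, h.2.2.1, h.2.2.2⟩

theorem s2_Ps (c : Chart S W) {V : Finset (Fin n)} {x : ℝ} (hV : IsV W V x) (l : Fin n)
    (d s : Bool) : S.s2 (Ps c V l d s) = Ps c V l d (!s) :=
  c.s2_Φ _ _ _ _ (oth_ne hV l).symm

theorem line_Ps (c : Chart S W) {V : Finset (Fin n)} {x : ℝ} (hV : IsV W V x) (l : Fin n)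
    (d s : Bool) : S.line (Ps c V l d s) = c.perm l :=
  c.line_Φ _ _ _ _ (oth_ne hV l).symm

theorem vert_Ps (c : Chart S W) {V : Finset (Fin n)} {x : ℝ} (hV : IsV W V x) {l : Fin n}
    (hl : l ∈ V) (d s : Bool) : S.vert (Ps c V l d s) = V.image c.perm :=
  vert_eq c hV hl (oth_mem hV l) (oth_ne hV l).symm d s

/-- All flags are of this form. -/
theorem exists_Ps (c : Chart S W) (f : S.F) :
    ∃ V x l d s, IsV W V x ∧ l ∈ V ∧ f = Ps c V l d s := by
  obtain ⟨i, a, d, s, hia, rfl⟩ := c.surj f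
  obtain ⟨V, hV, hi, ha⟩ := exists_isV W hia
  exact ⟨V, _, i, d, s, hV, hi, Ps_eq c hV hi ha hia d s⟩

theorem isV_eq {V V' : Finset (Fin n)} {x x' : ℝ} (hV : IsV W V x) (hV' : IsV W V' x')
    {i j : Fin n} (hij : i ≠ j) (hi : i ∈ V) (hj : j ∈ V) (hi' : i ∈ V') (hj' : j ∈ V') :
    V = V' := by
  have h1 := (hV.mem i hi j hij.symm).1 hj
  have h2 := (hV'.mem i hi' j hij.symm).1 hj'
  ext l
  by_cases hli : l = i
  · subst hli
    simp [hi, hi']
  · rw [hV.mem i hi l hli, hV'.mem i hi' l hli, ← h1, ← h2]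

/-- The flags with given vertex. -/
theorem exists_Ps_of_vert (c : Chart S W) {V : Finset (Fin n)} {x : ℝ} (hV : IsV W V x) (f : S.F)
    (hf : S.vert f = V.image c.perm) : ∃ l d s, l ∈ V ∧ f = Ps c V l d s := by
  obtain ⟨V', x', l, d, s, hV', hl, rfl⟩ := exists_Ps c f
  rw [vert_Ps c hV' hl] at hf
  have : V' = V := Finset.image_injective c.perm.injective hf
  subst this
  exact ⟨l, d, s, hl, rfl⟩

/-- The `t`-th element of `V`, periodically. -/
noncomputable def ex (V : Finset (Fin n)) (h : 0 < V.card) (t : ℕ) : Fin n :=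
  V.orderEmbOfFin rfl ⟨t % V.card, Nat.mod_lt _ h⟩

theorem ex_mem (V : Finset (Fin n)) (h : 0 < V.card) (t : ℕ) : ex V h t ∈ V :=
  Finset.orderEmbOfFin_mem _ _ _

theorem ex_eq_iff (V : Finset (Fin n)) (h : 0 < V.card) (t t' : ℕ) :
    ex V h t = ex V h t' ↔ t % V.card = t' % V.card := by
  unfold ex
  rw [(V.orderEmbOfFin rfl).injective.eq_iff, Fin.mk.injEq]

theorem exists_ex (V : Finset (Fin n)) (h : 0 < V.card) {l : Fin n} (hl : l ∈ V) :
    ∃ r < V.card, ex V h r = l := by
  have : l ∈ Set.range (V.orderEmbOfFin rfl) := by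
    rw [Finset.range_orderEmbOfFin]
    exact hl
  obtain ⟨r, rfl⟩ := this
  refine ⟨r.1, r.2, ?_⟩
  unfold ex
  congr 1
  exact Fin.ext (Nat.mod_eq_of_lt r.2)

/-- The direction of the `t`-th ray. -/
def par (m t : ℕ) : Bool := decide ((t / m) % 2 = 0)

theorem par_step (m t : ℕ) (h : t % m + 1 < m) :
    (t + 1) % m = t % m + 1 ∧ par m (t + 1) = par m t := by
  have hm : 0 < m := by omega
  have h1 : t + 1 = (t % m + 1) + m * (t / m) := by
    have := Nat.mod_add_div t m
    omega
  have h2 : (t + 1) / m = t / m := by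
    conv_lhs => rw [h1]
    rw [Nat.add_mul_div_left _ _ hm, Nat.div_eq_of_lt h, Nat.zero_add]
  have h3 : (t + 1) % m = t % m + 1 := by
    conv_lhs => rw [h1]
    rw [Nat.add_mul_mod_self_left, Nat.mod_eq_of_lt h]
  exact ⟨h3, by unfold par; rw [h2]⟩

theorem par_wrap (m t : ℕ) (h : t % m + 1 = m) :
    (t + 1) % m = 0 ∧ par m (t + 1) = !(par m t) := by
  have hm : 0 < m := by omega
  have h1 : t + 1 = m * (t / m + 1) := by
    have := Nat.mod_add_div t m
    rw [Nat.mul_add, Nat.mul_one]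
    omega
  have h2 : (t + 1) / m = t / m + 1 := by
    rw [h1, Nat.mul_div_cancel_left _ hm]
  have h3 : (t + 1) % m = 0 := by
    rw [h1, Nat.mul_mod_right]
  refine ⟨h3, ?_⟩
  unfold par
  rw [h2]
  rcases Nat.mod_two_eq_zero_or_one (t / m) with h4 | h4
  · have : (t / m + 1) % 2 = 1 := by omega
    simp [h4, this]
  · have : (t / m + 1) % 2 = 0 := by omega
    simp [h4, this]

theorem par_add {m : ℕ} (h : 0 < m) (t : ℕ) : par m (t + 2 * m) = par m t := by
  unfold par
  have : (t + 2 * m) / m = t / m + 2 := Nat.add_mul_div_right t 2 h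
  rw [this, Nat.add_mod_right]

/-- The `t`-th flag in the positive rotation. -/
noncomputable def G (c : Chart S W) (V : Finset (Fin n)) (h : 0 < V.card) (t : ℕ) : S.F :=
  Ps c V (ex V h t) (par V.card t) (!(par V.card t))

/-- The same with the other face. -/
noncomputable def H (c : Chart S W) (V : Finset (Fin n)) (h : 0 < V.card) (t : ℕ) : S.F :=
  Ps c V (ex V h t) (par V.card t) (par V.card t)

section

variable (c : Chart S W) {V : Finset (Fin n)} {x : ℝ} (hV : IsV W V x) (h : 0 < V.card)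

include hV

theorem s2_G (t : ℕ) : S.s2 (G c V h t) = H c V h t := by
  unfold G H
  rw [s2_Ps c hV, Bool.not_not]

theorem s2_H (t : ℕ) : S.s2 (H c V h t) = G c V h t := by
  unfold G H
  rw [s2_Ps c hV]

theorem s1_step (t : ℕ) : S.s1 (H c V h t) = G c V h (t + 1) ∧
    S.s1 (G c V h (t + 1)) = H c V h t := by
  have hm := hV.two
  have hlt : t % V.card < V.card := Nat.mod_lt _ h
  have hi : ex V h t ∈ V := ex_mem V h t
  have hj : ex V h (t + 1) ∈ V := ex_mem V h (t + 1)
  rcases Nat.lt_or_ge (t % V.card + 1) V.card with hc | hc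
  · obtain ⟨h1, h2⟩ := par_step _ _ hc
    have hij : ex V h t < ex V h (t + 1) := by
      unfold ex
      rw [(V.orderEmbOfFin rfl).lt_iff_lt, Fin.mk_lt_mk, h1]
      omega
    have hno : ∀ l, ex V h t < l → l < ex V h (t + 1) →
        W.X (ex V h t) l ≠ W.X (ex V h t) (ex V h (t + 1)) := by
      intro l hl1 hl2 he
      rw [(hV.mem _ hi _ hij.ne').1 hj] at he
      have hl : l ∈ V := (hV.mem _ hi _ hl1.ne').2 he
      obtain ⟨r, hr, rfl⟩ := exists_ex V h hl
      unfold ex at hl1 hl2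
      rw [(V.orderEmbOfFin rfl).lt_iff_lt, Fin.mk_lt_mk] at hl1 hl2
      omega
    unfold G H
    rw [h2]
    cases hp : par V.card t
    · have := c.s1_left _ _ hij hno
      rw [Ps_eq c hV hi hj hij.ne, Ps_eq c hV hj hi hij.ne'] at this
      exact this
    · have := c.s1_right _ _ hij hno
      rw [Ps_eq c hV hi hj hij.ne, Ps_eq c hV hj hi hij.ne'] at this
      exact this
  · have hc' : t % V.card + 1 = V.card := by omega
    obtain ⟨h1, h2⟩ := par_wrap _ _ hc'
    have hij : ex V h (t + 1) < ex V h t := by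
      unfold ex
      rw [(V.orderEmbOfFin rfl).lt_iff_lt, Fin.mk_lt_mk, h1]
      omega
    have hno : ∀ l, l < ex V h (t + 1) ∨ ex V h t < l →
        W.X (ex V h (t + 1)) l ≠ W.X (ex V h (t + 1)) (ex V h t) := by
      intro l hl1 he
      rw [(hV.mem _ hj _ hij.ne').1 hi] at he
      have hlne : l ≠ ex V h (t + 1) := by
        rcases hl1 with h3 | h3
        · exact h3.ne
        · exact (hij.trans h3).ne'
      have hl : l ∈ V := (hV.mem _ hj _ hlne).2 he
      obtain ⟨r, hr, rfl⟩ := exists_ex V h hl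
      unfold ex at hl1
      rw [(V.orderEmbOfFin rfl).lt_iff_lt, (V.orderEmbOfFin rfl).lt_iff_lt, Fin.mk_lt_mk,
        Fin.mk_lt_mk, Nat.mod_eq_of_lt hr] at hl1
      omega
    unfold G H
    rw [h2]
    cases hp : par V.card t
    · have := c.s1_bot _ _ hij hno
      rw [Ps_eq c hV hi hj hij.ne', Ps_eq c hV hj hi hij.ne] at this
      exact this.symm
    · have := c.s1_top _ _ hij hno
      rw [Ps_eq c hV hi hj hij.ne', Ps_eq c hV hj hi hij.ne] at this
      exact this


theorem line_G (t : ℕ) : S.line (G c V h t) = c.perm (ex V h t) := line_Ps c hV _ _ _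

theorem line_H (t : ℕ) : S.line (H c V h t) = c.perm (ex V h t) := line_Ps c hV _ _ _

theorem vert_G (t : ℕ) : S.vert (G c V h t) = V.image c.perm := vert_Ps c hV (ex_mem V h t) _ _

theorem vert_H (t : ℕ) : S.vert (H c V h t) = V.image c.perm := vert_Ps c hV (ex_mem V h t) _ _

omit hV in
theorem ex_add (t : ℕ) : ex V h (t + V.card) = ex V h t := by
  rw [ex_eq_iff, Nat.add_mod_right]

omit hV in
theorem G_add (t : ℕ) : G c V h (t + 2 * V.card) = G c V h t := by
  unfold G
  rw [par_add h, two_mul, ← Nat.add_assoc, ex_add, ex_add]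

omit hV in
theorem H_add (t : ℕ) : H c V h (t + 2 * V.card) = H c V h t := by
  unfold H
  rw [par_add h, two_mul, ← Nat.add_assoc, ex_add, ex_add]

theorem rot_G (t : ℕ) : S.rot (G c V h t) = G c V h (t + 1) := by
  unfold FlagSys.rot
  rw [s2_G c hV h, (s1_step c hV h t).1]

theorem rot_H (t : ℕ) : S.rot (H c V h (t + 1)) = H c V h t := by
  unfold FlagSys.rot
  rw [s2_H c hV h, (s1_step c hV h t).2]

theorem rot_iter_G (t k : ℕ) : S.rot^[k] (G c V h t) = G c V h (t + k) := by
  induction k with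
  | zero => rfl
  | succ k ih => rw [Function.iterate_succ_apply', ih, rot_G c hV h, Nat.add_assoc]

theorem rot_iter_H (t k : ℕ) : S.rot^[k] (H c V h (t + k)) = H c V h t := by
  induction k generalizing t with
  | zero => rfl
  | succ k ih =>
    rw [Function.iterate_succ_apply', show t + (k + 1) = (t + 1) + k by omega, ih,
      rot_H c hV h]

omit hV in
theorem exists_t {l : Fin n} (hl : l ∈ V) (d : Bool) :
    ∃ t < 2 * V.card, ex V h t = l ∧ par V.card t = d := by
  obtain ⟨r, hr, rfl⟩ := exists_ex V h hl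
  cases d
  · refine ⟨r + V.card, by omega, ex_add h r, ?_⟩
    unfold par
    rw [Nat.add_div_right _ h, Nat.div_eq_of_lt hr]
    rfl
  · refine ⟨r, by omega, rfl, ?_⟩
    unfold par
    rw [Nat.div_eq_of_lt hr]
    rfl

theorem exists_GH (g : S.F) (hg : S.vert g = V.image c.perm) :
    ∃ t < 2 * V.card, g = G c V h t ∨ g = H c V h t := by
  obtain ⟨l, d, s, hl, rfl⟩ := exists_Ps_of_vert c hV g hg
  obtain ⟨t, ht, rfl, rfl⟩ := exists_t h hl d
  refine ⟨t, ht, ?_⟩
  unfold G H
  by_cases hs : s = par V.card t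
  · right
    rw [hs]
  · left
    have : s = !(par V.card t) := by
      cases s <;> cases hp : par V.card t <;> simp_all
    rw [this]

/-- the representative with large index -/
theorem exists_GH_large (g : S.F) (hg : S.vert g = V.image c.perm) (K : ℕ) :
    ∃ t, K * (2 * V.card) ≤ t ∧ (g = G c V h t ∨ g = H c V h t) := by
  induction K with
  | zero =>
    obtain ⟨t, -, ht⟩ := exists_GH c hV h g hg
    exact ⟨t, by omega, ht⟩
  | succ K ih =>
    obtain ⟨t, ht, ht'⟩ := ih
    refine ⟨t + 2 * V.card, by rw [Nat.add_mul]; omega, ?_⟩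
    rw [G_add c h, H_add c h]
    exact ht'

omit hV in
theorem mult_eq {f : S.F} (hf : S.vert f = V.image c.perm) : S.mult f = V.card := by
  unfold FlagSys.mult
  rw [hf, Finset.card_image_of_injective _ c.perm.injective]

theorem G_inj {t t' : ℕ} (ht : t < 2 * V.card) (ht' : t' < 2 * V.card)
    (he : G c V h t = G c V h t') : t = t' := by
  obtain ⟨h1, h2, -⟩ := Ps_inj c hV he
  rw [ex_eq_iff] at h1
  unfold par at h2
  have h3 : t / V.card < 2 := by
    rw [Nat.div_lt_iff_lt_mul h]
    exact ht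
  have h4 : t' / V.card < 2 := by
    rw [Nat.div_lt_iff_lt_mul h]
    exact ht'
  have h5 : t / V.card = t' / V.card := by
    rw [Nat.mod_eq_of_lt h3, Nat.mod_eq_of_lt h4] at h2
    generalize t / V.card = q at h2 h3
    generalize t' / V.card = q' at h2 h4
    by_cases h6 : q = 0
    · rw [h6]
      have : q' = 0 := by
        by_contra h7
        simp [h6, h7] at h2
      rw [this]
    · have h8 : ¬ q' = 0 := by
        intro h7
        simp [h6, h7] at h2
      omega
  rw [← Nat.mod_add_div t V.card, ← Nat.mod_add_div t' V.card, h1, h5]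

theorem G_ne_H (t t' : ℕ) : G c V h t ≠ H c V h t' := by
  intro he
  obtain ⟨-, h2, h3⟩ := Ps_inj c hV he
  rw [h2] at h3
  simp at h3

end

section arith

theorem exists_forward {m : ℕ} (hm : 0 < m) (t r : ℕ) : ∃ k < m, (t + k) % m = r % m := by
  refine ⟨(r + (m - t % m)) % m, Nat.mod_lt _ hm, ?_⟩
  have h1 : t % m < m := Nat.mod_lt _ hm
  rw [Nat.add_mod, Nat.mod_mod, ← Nat.add_mod]
  have h2 : t + (r + (m - t % m)) = r + m * (t / m + 1) := by
    have := Nat.mod_add_div t m
    rw [Nat.mul_add, Nat.mul_one]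
    omega
  rw [h2, Nat.add_mul_mod_self_left]

theorem exists_backward {m : ℕ} (hm : 0 < m) (t r : ℕ) (ht : m ≤ t) :
    ∃ k < m, ∃ u, u + k = t ∧ u % m = r % m := by
  obtain ⟨k, hk, hk'⟩ := exists_forward hm (t + 1 - m) r
  refine ⟨m - 1 - k, by omega, t + 1 - m + k, by omega, hk'⟩

end arith

/-- The facts about one vertex. -/
theorem rot_line_ne (c : Chart S W) (f : S.F) (k : ℕ) (hk : 0 < k) (hk' : k < S.mult f) :
    S.line (S.rot^[k] f) ≠ S.line f := by
  obtain ⟨V, x, l, d, s, hV, hl, rfl⟩ := exists_Ps c f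
  have hv := vert_Ps c hV hl d s
  have h : 0 < V.card := by have := hV.two; omega
  rw [mult_eq c hv] at hk'
  have key : ∀ t, ex V h t ≠ ex V h (t + k) := by
    intro t he
    rw [ex_eq_iff] at he
    have h1 := Nat.mod_add_div t V.card
    have h2 := Nat.mod_add_div (t + k) V.card
    have h3 : V.card ∣ k := by
      have := (Nat.modEq_iff_dvd' (Nat.le_add_right t k)).1 he
      rwa [Nat.add_sub_cancel_left] at this
    exact absurd (Nat.le_of_dvd hk h3) (by omega)
  obtain ⟨t, ht, ht'⟩ := exists_GH_large c hV h _ hv 1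
  rcases ht' with ht' | ht'
  · rw [ht', rot_iter_G c hV h, line_G c hV h, line_G c hV h]
    exact fun he => key t (c.perm.injective he).symm
  · obtain ⟨u, rfl⟩ : ∃ u, t = u + k := ⟨t - k, by omega⟩
    rw [ht', rot_iter_H c hV h, line_H c hV h, line_H c hV h]
    exact fun he => key u (c.perm.injective he)

theorem rot_line_opp (c : Chart S W) (f : S.F) : S.line (S.rot^[S.mult f] f) = S.line f := by
  obtain ⟨V, x, l, d, s, hV, hl, rfl⟩ := exists_Ps c f
  have hv := vert_Ps c hV hl d s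
  have h : 0 < V.card := by have := hV.two; omega
  rw [mult_eq c hv]
  obtain ⟨t, ht, ht'⟩ := exists_GH_large c hV h _ hv 1
  rcases ht' with ht' | ht'
  · rw [ht', rot_iter_G c hV h, line_G c hV h, line_G c hV h, ex_add]
  · obtain ⟨u, rfl⟩ : ∃ u, t = u + V.card := ⟨t - V.card, by omega⟩
    rw [ht', rot_iter_H c hV h, line_H c hV h, line_H c hV h, ex_add]

theorem rot_full (c : Chart S W) (f : S.F) : S.rot^[2 * S.mult f] f = f := by
  obtain ⟨V, x, l, d, s, hV, hl, rfl⟩ := exists_Ps c f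
  have hv := vert_Ps c hV hl d s
  have h : 0 < V.card := by have := hV.two; omega
  rw [mult_eq c hv]
  obtain ⟨t, ht, ht'⟩ := exists_GH_large c hV h _ hv 1
  rcases ht' with ht' | ht'
  · rw [ht', rot_iter_G c hV h, G_add]
  · obtain ⟨u, rfl⟩ : ∃ u, t = u + 2 * V.card := ⟨t - 2 * V.card, by omega⟩
    rw [ht', rot_iter_H c hV h, H_add]

theorem mem_orbit (c : Chart S W) (f : S.F) (j : Fin n) (hj : j ∈ S.vert f) :
    ∃ k < S.mult f, S.line (S.rot^[k] f) = j := by
  obtain ⟨V, x, l, d, s, hV, hl, rfl⟩ := exists_Ps c f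
  have hv := vert_Ps c hV hl d s
  have h : 0 < V.card := by have := hV.two; omega
  rw [mult_eq c hv]
  rw [hv, Finset.mem_image] at hj
  obtain ⟨j, hj, rfl⟩ := hj
  obtain ⟨r, hr, rfl⟩ := exists_ex V h hj
  obtain ⟨t, ht, ht'⟩ := exists_GH_large c hV h _ hv 1
  rcases ht' with ht' | ht'
  · obtain ⟨k, hk, hk'⟩ := exists_forward h t r
    refine ⟨k, hk, ?_⟩
    rw [ht', rot_iter_G c hV h, line_G c hV h, (ex_eq_iff V h _ _).2 hk']
  · obtain ⟨k, hk, u, rfl, hk'⟩ := exists_backward h t r (by omega)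
    refine ⟨k, hk, ?_⟩
    rw [ht', rot_iter_H c hV h, line_H c hV h, (ex_eq_iff V h _ _).2 hk']

theorem G_mod (c : Chart S W) {V : Finset (Fin n)} (h : 0 < V.card) (t : ℕ) :
    G c V h (t % (2 * V.card)) = G c V h t := by
  have h1 := Nat.mod_add_div t (2 * V.card)
  have h2 : ∀ q, G c V h (t % (2 * V.card) + 2 * V.card * q) = G c V h (t % (2 * V.card)) := by
    intro q
    induction q with
    | zero => rfl
    | succ q ih => rw [Nat.mul_succ, ← Nat.add_assoc, G_add c h, ih]
  rw [← h2 (t / (2 * V.card)), h1]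

theorem H_mod (c : Chart S W) {V : Finset (Fin n)} (h : 0 < V.card) (t : ℕ) :
    H c V h (t % (2 * V.card)) = H c V h t := by
  have h1 := Nat.mod_add_div t (2 * V.card)
  have h2 : ∀ q, H c V h (t % (2 * V.card) + 2 * V.card * q) = H c V h (t % (2 * V.card)) := by
    intro q
    induction q with
    | zero => rfl
    | succ q ih => rw [Nat.mul_succ, ← Nat.add_assoc, H_add c h, ih]
  rw [← h2 (t / (2 * V.card)), h1]

theorem vert_orbit (c : Chart S W) (f g : S.F) (hg : S.vert g = S.vert f) :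
    ∃ k < 2 * S.mult f, g = S.rot^[k] f ∨ g = S.s2 (S.rot^[k] f) := by
  obtain ⟨V, x, l, d, s, hV, hl, rfl⟩ := exists_Ps c f
  have hv := vert_Ps c hV hl d s
  have h : 0 < V.card := by have := hV.two; omega
  rw [mult_eq c hv]
  rw [hv] at hg
  obtain ⟨r, hr, hr'⟩ := exists_GH c hV h g hg
  obtain ⟨t, ht, ht'⟩ := exists_GH_large c hV h _ hv 1
  have h2 : 0 < 2 * V.card := by omega
  rcases ht' with ht' | ht'
  · obtain ⟨k, hk, hk'⟩ := exists_forward h2 t r
    refine ⟨k, hk, ?_⟩
    rw [ht', rot_iter_G c hV h, s2_G c hV h, ← G_mod c h (t + k), ← H_mod c h (t + k), hk',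
      G_mod c h, H_mod c h]
    exact hr'
  · obtain ⟨k, hk, u, rfl, hk'⟩ := exists_backward h2 t r (by omega)
    refine ⟨k, hk, ?_⟩
    rw [ht', rot_iter_H c hV h, s2_H c hV h, ← G_mod c h u, ← H_mod c h u, hk',
      G_mod c h, H_mod c h]
    exact hr'.symm

theorem card_vert (c : Chart S W) (f : S.F) :
    (Finset.univ.filter fun g => S.vert g = S.vert f).card = 4 * S.mult f := by
  classical
  obtain ⟨V, x, l, d, s, hV, hl, rfl⟩ := exists_Ps c f
  have hv := vert_Ps c hV hl d s
  have h : 0 < V.card := by have := hV.two; omega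
  rw [mult_eq c hv, hv]
  have h1 : (Finset.univ.filter fun g => S.vert g = V.image c.perm) =
      (Finset.range (2 * V.card)).image (G c V h) ∪ (Finset.range (2 * V.card)).image (H c V h) := by
    ext g
    simp only [Finset.mem_filter, Finset.mem_univ, true_and, Finset.mem_union, Finset.mem_image,
      Finset.mem_range]
    constructor
    · intro hg
      obtain ⟨t, ht, ht' | ht'⟩ := exists_GH c hV h g hg
      · exact Or.inl ⟨t, ht, ht'.symm⟩
      · exact Or.inr ⟨t, ht, ht'.symm⟩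
    · rintro (⟨t, -, rfl⟩ | ⟨t, -, rfl⟩)
      · exact vert_G c hV h t
      · exact vert_H c hV h t
  rw [h1, Finset.card_union_of_disjoint, Finset.card_image_of_injOn, Finset.card_image_of_injOn,
    Finset.card_range]
  · omega
  · intro t ht t' ht' he
    simp only [Finset.coe_range, Set.mem_Iio] at ht ht'
    have he' : S.s2 (H c V h t) = S.s2 (H c V h t') := congrArg _ he
    rw [s2_H c hV h, s2_H c hV h] at he'
    exact G_inj c hV h ht ht' he'
  · intro t ht t' ht' he
    simp only [Finset.coe_range, Set.mem_Iio] at ht ht'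
    exact G_inj c hV h ht ht' he
  · rw [Finset.disjoint_left]
    intro g hg hg'
    rw [Finset.mem_image] at hg hg'
    obtain ⟨t, -, rfl⟩ := hg
    obtain ⟨t', -, he⟩ := hg'
    exact G_ne_H c hV h t t' he.symm

/-- The other end of the edge of a flag. -/
theorem s0_Φ (c : Chart S W) (hne : ∀ f : S.F, ∃ l, l ∉ S.vert f) {i a : Fin n} (hia : i ≠ a)
    (d : Bool) : ∃ b, i ≠ b ∧ W.X i b ≠ W.X i a ∧ ∃ w : Bool, ∀ s,
      S.s0 (c.Φ i a d s) = c.Φ i b (!d) (xor s w) ∧
      S.s0 (c.Φ i b (!d) (xor s w)) = c.Φ i a d s := by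
  classical
  have hother : ∃ l, l ≠ i ∧ W.X i l ≠ W.X i a := by
    obtain ⟨l, hl⟩ := hne (c.Φ i a d true)
    obtain ⟨l, rfl⟩ := c.perm.surjective l
    rw [c.mem_vert i a d true l hia] at hl
    push Not at hl
    exact ⟨l, hl.1, hl.2⟩
  cases d
  · -- to the left
    by_cases hex : ∃ l, l ≠ i ∧ W.X i l < W.X i a
    · obtain ⟨b, hb, hbmax⟩ := Finset.exists_max_image
        (Finset.univ.filter fun l => l ≠ i ∧ W.X i l < W.X i a) (fun l => W.X i l)
        (by
          obtain ⟨l, hl⟩ := hex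
          exact ⟨l, by simpa using hl⟩)
      simp only [Finset.mem_filter, Finset.mem_univ, true_and] at hb hbmax
      refine ⟨b, hb.1.symm, hb.2.ne, false, fun s => ?_⟩
      have := c.s0_next i b a s hb.1.symm hia hb.2 (by
        intro l hl
        by_cases h1 : W.X i l < W.X i a
        · exact Or.inl (hbmax l ⟨hl, h1⟩)
        · exact Or.inr (not_lt.1 h1))
      rw [Bool.xor_false]
      exact this.symm
    · push Not at hex
      obtain ⟨b, hb, hbmax⟩ := Finset.exists_max_image
        (Finset.univ.filter fun l => l ≠ i) (fun l => W.X i l) ⟨a, by simpa using hia.symm⟩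
      simp only [Finset.mem_filter, Finset.mem_univ, true_and] at hb hbmax
      refine ⟨b, hb.symm, ?_, true, fun s => ?_⟩
      · obtain ⟨l, hl1, hl2⟩ := hother
        have h1 := hex l hl1
        have h2 := hbmax l hl1
        have h3 : W.X i a < W.X i l := lt_of_le_of_ne h1 hl2.symm
        exact (h3.trans_le h2).ne'
      · have := c.s0_wrap i b a (!s) hb.symm hia (fun l hl => ⟨hbmax l hl, hex l hl⟩)
        rw [Bool.not_not] at this
        rw [Bool.xor_true]
        exact this.symm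
  · by_cases hex : ∃ l, l ≠ i ∧ W.X i a < W.X i l
    · obtain ⟨b, hb, hbmin⟩ := Finset.exists_min_image
        (Finset.univ.filter fun l => l ≠ i ∧ W.X i a < W.X i l) (fun l => W.X i l)
        (by
          obtain ⟨l, hl⟩ := hex
          exact ⟨l, by simpa using hl⟩)
      simp only [Finset.mem_filter, Finset.mem_univ, true_and] at hb hbmin
      refine ⟨b, hb.1.symm, hb.2.ne', false, fun s => ?_⟩
      have := c.s0_next i a b s hia hb.1.symm hb.2 (by
        intro l hl
        by_cases h1 : W.X i a < W.X i l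
        · exact Or.inr (hbmin l ⟨hl, h1⟩)
        · exact Or.inl (not_lt.1 h1))
      rw [Bool.xor_false]
      exact this
    · push Not at hex
      obtain ⟨b, hb, hbmin⟩ := Finset.exists_min_image
        (Finset.univ.filter fun l => l ≠ i) (fun l => W.X i l) ⟨a, by simpa using hia.symm⟩
      simp only [Finset.mem_filter, Finset.mem_univ, true_and] at hb hbmin
      refine ⟨b, hb.symm, ?_, true, fun s => ?_⟩
      · obtain ⟨l, hl1, hl2⟩ := hother
        have h1 := hex l hl1
        have h2 := hbmin l hl1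
        have h3 : W.X i l < W.X i a := lt_of_le_of_ne h1 hl2
        exact (lt_of_le_of_lt h2 h3).ne
      · have := c.s0_wrap i a b s hia hb.symm (fun l hl => ⟨hex l hl, hbmin l hl⟩)
        rw [Bool.xor_true]
        exact this

theorem line_conn (c : Chart S W) (i : Fin n) (Q : Finset (Fin n) → Prop)
    (hQ : ∀ f, S.line f = i → Q (S.vert f) → Q (S.vert (S.s0 f)))
    (hex : ∃ f, S.line f = i ∧ Q (S.vert f)) (f : S.F) (hf : S.line f = i) : Q (S.vert f) := by
  classical
  obtain ⟨i, rfl⟩ := c.perm.surjective i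
  -- the vertices on the line
  have hvert : ∀ a d s d' s', i ≠ a → S.vert (c.Φ i a d s) = S.vert (c.Φ i a d' s') := by
    intro a d s d' s' hia
    obtain ⟨V, hV, hi, ha⟩ := exists_isV W hia
    rw [vert_eq c hV hi ha hia, vert_eq c hV hi ha hia]
  have hsame : ∀ a b d s, i ≠ a → i ≠ b → W.X i a = W.X i b →
      S.vert (c.Φ i a d s) = S.vert (c.Φ i b d s) := by
    intro a b d s hia hib hab
    rw [(c.eq_iff i a d s i b d s hia hib).2 ⟨rfl, hab, rfl, rfl⟩]
  obtain ⟨g, hg, hgQ⟩ := hex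
  obtain ⟨i1, a, d, s, hia, rfl⟩ := c.surj g
  rw [c.line_Φ _ _ _ _ hia] at hg
  obtain rfl := c.perm.injective hg
  obtain ⟨i2, b, d', s', hib, rfl⟩ := c.surj f
  rw [c.line_Φ _ _ _ _ hib] at hf
  obtain rfl := c.perm.injective hf
  rw [hvert a d s true true hia] at hgQ
  rw [hvert b d' s' true true hib]
  -- the step
  have step : ∀ p q, i2 ≠ p → i2 ≠ q → W.X i2 p < W.X i2 q →
      (∀ l, l ≠ i2 → W.X i2 l ≤ W.X i2 p ∨ W.X i2 q ≤ W.X i2 l) →
      (Q (S.vert (c.Φ i2 p true true)) ↔ Q (S.vert (c.Φ i2 q true true))) := by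
    intro p q hp hq hpq hno
    have h1 := c.s0_next i2 p q true hp hq hpq hno
    constructor
    · intro h2
      have := hQ _ (c.line_Φ _ _ _ _ hp) h2
      rw [h1.1] at this
      rwa [hvert q true true false true hq]
    · intro h2
      rw [hvert q true true false true hq] at h2
      have := hQ _ (c.line_Φ _ _ _ _ hq) h2
      rwa [h1.2] at this
  by_contra hb
  rcases lt_trichotomy (W.X i2 a) (W.X i2 b) with hlt | heq | hlt
  · -- the last good vertex before `b`
    obtain ⟨p, hp, hpmax⟩ := Finset.exists_max_image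
      (Finset.univ.filter fun l => l ≠ i2 ∧ W.X i2 l < W.X i2 b ∧
        Q (S.vert (c.Φ i2 l true true))) (fun l => W.X i2 l)
      ⟨a, by simpa using ⟨hia.symm, hlt, hgQ⟩⟩
    simp only [Finset.mem_filter, Finset.mem_univ, true_and] at hp hpmax
    obtain ⟨q, hq, hqmin⟩ := Finset.exists_min_image
      (Finset.univ.filter fun l => l ≠ i2 ∧ W.X i2 p < W.X i2 l) (fun l => W.X i2 l)
      ⟨b, by simpa using ⟨hib.symm, hp.2.1⟩⟩
    simp only [Finset.mem_filter, Finset.mem_univ, true_and] at hq hqmin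
    have h1 := (step p q hp.1.symm hq.1.symm hq.2 (by
      intro l hl
      by_cases h1 : W.X i2 p < W.X i2 l
      · exact Or.inr (hqmin l ⟨hl, h1⟩)
      · exact Or.inl (not_lt.1 h1))).1 hp.2.2
    have h2 : W.X i2 q ≤ W.X i2 b := hqmin b ⟨hib.symm, hp.2.1⟩
    rcases h2.lt_or_eq with h3 | h3
    · exact absurd (hpmax q ⟨hq.1, h3, h1⟩) (not_le.2 hq.2)
    · rw [hsame q b true true hq.1.symm hib h3] at h1
      exact hb h1
  · rw [hsame a b true true hia hib heq] at hgQ
    exact hb hgQ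
  · obtain ⟨p, hp, hpmin⟩ := Finset.exists_min_image
      (Finset.univ.filter fun l => l ≠ i2 ∧ W.X i2 b < W.X i2 l ∧
        Q (S.vert (c.Φ i2 l true true))) (fun l => W.X i2 l)
      ⟨a, by simpa using ⟨hia.symm, hlt, hgQ⟩⟩
    simp only [Finset.mem_filter, Finset.mem_univ, true_and] at hp hpmin
    obtain ⟨q, hq, hqmax⟩ := Finset.exists_max_image
      (Finset.univ.filter fun l => l ≠ i2 ∧ W.X i2 l < W.X i2 p) (fun l => W.X i2 l)
      ⟨b, by simpa using ⟨hib.symm, hp.2.1⟩⟩
    simp only [Finset.mem_filter, Finset.mem_univ, true_and] at hq hqmax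
    have h1 := (step q p hq.1.symm hp.1.symm hq.2 (by
      intro l hl
      by_cases h1 : W.X i2 l < W.X i2 p
      · exact Or.inl (hqmax l ⟨hl, h1⟩)
      · exact Or.inr (not_lt.1 h1))).2 hp.2.2
    have h2 : W.X i2 b ≤ W.X i2 q := hqmax b ⟨hib.symm, hp.2.1⟩
    rcases h2.lt_or_eq with h3 | h3
    · exact absurd (hpmin q ⟨hq.1, h3, h1⟩) (not_le.2 hq.2)
    · rw [← hsame b q true true hib hq.1.symm h3] at h1
      exact hb h1

theorem count (c : Chart S W) : ∑ f, ((S.mult f : ℤ) - 1) = 4 * n * (n - 1) := by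
  classical
  -- pairs (flag, other line through its vertex)
  have h1 : ∀ f : S.F, ((S.mult f : ℤ) - 1) = (((S.vert f).erase (S.line f)).card : ℤ) := by
    intro f
    obtain ⟨V, x, l, d, s, hV, hl, rfl⟩ := exists_Ps c f
    have hmem : S.line (Ps c V l d s) ∈ S.vert (Ps c V l d s) := by
      rw [line_Ps c hV, vert_Ps c hV hl]
      exact Finset.mem_image_of_mem _ hl
    have h2 := Finset.card_erase_add_one hmem
    unfold FlagSys.mult
    omega
  rw [Finset.sum_congr rfl fun f _ => h1 f, ← Nat.cast_sum, ← Finset.card_sigma]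
  have h2 : (Finset.univ.sigma fun f : S.F => (S.vert f).erase (S.line f)).card =
      ((Finset.univ : Finset (Fin n)).offDiag ×ˢ (Finset.univ : Finset (Bool × Bool))).card := by
    symm
    refine Finset.card_bij (fun p _ => ⟨c.Φ p.1.1 p.1.2 p.2.1 p.2.2, c.perm p.1.2⟩) ?_ ?_ ?_
    · rintro ⟨⟨i, a⟩, ⟨d, s⟩⟩ hp
      simp only [Finset.mem_product, Finset.mem_offDiag, Finset.mem_univ, true_and,
        and_true] at hp
      have hia : i ≠ a := hp
      simp only [Finset.mem_sigma, Finset.mem_univ, true_and, Finset.mem_erase]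
      rw [c.line_Φ _ _ _ _ hia, c.mem_vert _ _ _ _ _ hia]
      exact ⟨fun he => hia (c.perm.injective he).symm, Or.inr rfl⟩
    · rintro ⟨⟨i, a⟩, ⟨d, s⟩⟩ hp ⟨⟨j, b⟩, ⟨d', s'⟩⟩ hq he
      simp only [Finset.mem_product, Finset.mem_offDiag, Finset.mem_univ, true_and,
        and_true] at hp hq
      have hia : i ≠ a := hp
      have hjb : j ≠ b := hq
      simp only [Sigma.mk.injEq] at he
      obtain ⟨he1, he2⟩ := he
      rw [c.eq_iff _ _ _ _ _ _ _ _ hia hjb] at he1
      obtain ⟨rfl, -, rfl, rfl⟩ := he1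
      have : a = b := c.perm.injective (eq_of_heq he2)
      rw [this]
    · rintro ⟨f, j⟩ hf
      simp only [Finset.mem_sigma, Finset.mem_univ, true_and, Finset.mem_erase] at hf
      obtain ⟨V, x, l, d, s, hV, hl, rfl⟩ := exists_Ps c f
      obtain ⟨j, rfl⟩ := c.perm.surjective j
      rw [line_Ps c hV, vert_Ps c hV hl] at hf
      have hj : j ∈ V := by
        have := hf.2
        rw [Finset.mem_image] at this
        obtain ⟨j', hj', he⟩ := this
        rwa [← c.perm.injective he]
      have hlj : l ≠ j := fun he => hf.1 (by rw [he])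
      refine ⟨⟨⟨l, j⟩, ⟨d, s⟩⟩, ?_, ?_⟩
      · simp [Finset.mem_offDiag, hlj]
      · simp only [Ps_eq c hV hl hj hlj]
  rw [h2, Finset.card_product, Finset.offDiag_card]
  simp only [Finset.card_univ, Fintype.card_fin, Fintype.card_prod, Fintype.card_bool]
  have h3 : n ≤ n * n := Nat.le_mul_self n
  push_cast [Nat.cast_sub h3]
  ring

end RF

theorem facts_of_chart {n : ℕ} (S : FlagSys n) (W : Wiring n) (c : Chart S W)
    (hne : ∀ f : S.F, ∃ l, l ∉ S.vert f) : S.Facts := by
  classical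
  have hs1 : ∀ f, S.s1 (S.s1 f) = f ∧ S.vert (S.s1 f) = S.vert f := by
    intro f
    obtain ⟨V, x, l, d, s, hV, hl, rfl⟩ := RF.exists_Ps c f
    have hv := RF.vert_Ps c hV hl d s
    have h : 0 < V.card := by have := hV.two; omega
    obtain ⟨t, ht, ht'⟩ := RF.exists_GH_large c hV h _ hv 1
    rcases ht' with ht' | ht'
    · obtain ⟨u, rfl⟩ : ∃ u, t = u + 1 := ⟨t - 1, by omega⟩
      rw [ht', (RF.s1_step c hV h u).2, (RF.s1_step c hV h u).1, RF.vert_H c hV h,
        RF.vert_G c hV h]
      exact ⟨rfl, rfl⟩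
    · rw [ht', (RF.s1_step c hV h t).1, (RF.s1_step c hV h t).2, RF.vert_H c hV h,
        RF.vert_G c hV h]
      exact ⟨rfl, rfl⟩
  have hs2 : ∀ f, S.s2 (S.s2 f) = f ∧ S.vert (S.s2 f) = S.vert f ∧ S.line (S.s2 f) = S.line f := by
    intro f
    obtain ⟨V, x, l, d, s, hV, hl, rfl⟩ := RF.exists_Ps c f
    rw [RF.s2_Ps c hV, RF.s2_Ps c hV, Bool.not_not, RF.vert_Ps c hV hl, RF.vert_Ps c hV hl,
      RF.line_Ps c hV, RF.line_Ps c hV]
    exact ⟨rfl, rfl, rfl⟩
  refine
    { s0s0 := ?_
      s1s1 := fun f => (hs1 f).1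
      s2s2 := fun f => (hs2 f).1
      s0s2 := ?_
      line_s0 := ?_
      line_s2 := fun f => (hs2 f).2.2
      vert_s1 := fun f => (hs1 f).2
      vert_s2 := fun f => (hs2 f).2.1
      line_mem := ?_
      two_le := ?_
      vert_s0 := ?_
      two_lines := ?_
      rot_line_ne := RF.rot_line_ne c
      rot_line_opp := RF.rot_line_opp c
      rot_full := RF.rot_full c
      mem_orbit := RF.mem_orbit c
      vert_orbit := RF.vert_orbit c
      card_vert := RF.card_vert c
      cover := ?_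
      line_conn := RF.line_conn c
      count := RF.count c }
  · intro f
    obtain ⟨i, a, d, s, hia, rfl⟩ := c.surj f
    obtain ⟨b, hib, hX, w, hw⟩ := RF.s0_Φ c hne hia d
    rw [(hw s).1, (hw s).2]
  · intro f
    obtain ⟨i, a, d, s, hia, rfl⟩ := c.surj f
    obtain ⟨b, hib, hX, w, hw⟩ := RF.s0_Φ c hne hia d
    rw [c.s2_Φ _ _ _ _ hia, (hw s).1, (hw (!s)).1, c.s2_Φ _ _ _ _ hib]
    congr 1
    cases s <;> cases w <;> rfl
  · intro f
    obtain ⟨i, a, d, s, hia, rfl⟩ := c.surj f
    obtain ⟨b, hib, hX, w, hw⟩ := RF.s0_Φ c hne hia d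
    rw [(hw s).1, c.line_Φ _ _ _ _ hia, c.line_Φ _ _ _ _ hib]
  · intro f
    obtain ⟨i, a, d, s, hia, rfl⟩ := c.surj f
    rw [c.line_Φ _ _ _ _ hia, c.mem_vert _ _ _ _ _ hia]
    exact Or.inl rfl
  · intro f
    obtain ⟨V, x, l, d, s, hV, hl, rfl⟩ := RF.exists_Ps c f
    rw [RF.mult_eq c (RF.vert_Ps c hV hl d s)]
    exact hV.two
  · intro f he
    obtain ⟨i, a, d, s, hia, rfl⟩ := c.surj f
    obtain ⟨b, hib, hX, w, hw⟩ := RF.s0_Φ c hne hia d
    rw [(hw s).1] at he
    have h1 : c.perm b ∈ S.vert (c.Φ i b (!d) (xor s w)) :=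
      (c.mem_vert _ _ _ _ _ hib).2 (Or.inr rfl)
    rw [he, c.mem_vert _ _ _ _ _ hia] at h1
    rcases h1 with h1 | h1
    · exact hib h1.symm
    · exact hX h1
  · intro f g i j hij hif hjf hig hjg
    obtain ⟨V, x, l, d, s, hV, hl, rfl⟩ := RF.exists_Ps c f
    obtain ⟨V', x', l', d', s', hV', hl', rfl⟩ := RF.exists_Ps c g
    rw [RF.vert_Ps c hV hl] at hif hjf ⊢
    rw [RF.vert_Ps c hV' hl'] at hig hjg ⊢
    obtain ⟨i, rfl⟩ := c.perm.surjective i
    obtain ⟨j, rfl⟩ := c.perm.surjective j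
    have hmem : ∀ (U : Finset (Fin n)) (k : Fin n), c.perm k ∈ U.image c.perm → k ∈ U := by
      intro U k hk
      rw [Finset.mem_image] at hk
      obtain ⟨k', hk', he⟩ := hk
      rwa [← c.perm.injective he]
    have hij' : i ≠ j := fun he => hij (by rw [he])
    rw [RF.isV_eq hV hV' hij' (hmem _ _ hif) (hmem _ _ hjf) (hmem _ _ hig) (hmem _ _ hjg)]
  · intro i j hij
    obtain ⟨i, rfl⟩ := c.perm.surjective i
    obtain ⟨j, rfl⟩ := c.perm.surjective j
    have hij' : i ≠ j := fun he => hij (by rw [he])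
    refine ⟨c.Φ i j true true, c.line_Φ _ _ _ _ hij', ?_⟩
    rw [c.mem_vert _ _ _ _ _ hij']
    exact Or.inr rfl

end Pool.Agent.Helper15.PL
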