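import Pool.Agent.Helper15.PL.D1
import Pool.Agent.Helper15.PL.D2
import Pool.Agent.Helper15.PL.RF
import Pool.Agent.Helper15.PL.D0

/-!
# Counting the waste in a chart
-/

set_option linter.constructorNameAsVariable false

namespace Pool.Agent.Helper15.PL

open FlagSys D2

namespace Count

variable {S : FlagSys 14} {W : Wiring 14}

/-- `a` is the smallest label of the vertex of `a` on the line `i`. -/
def IsRep (W : Wiring 14) (i a : Fin 14) : Prop :=
  i ≠ a ∧ ∀ l, l < a → l ≠ i → W.X i l ≠ W.X i a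

theorem exists_rep (W : Wiring 14) {i a : Fin 14} (h : i ≠ a) :
    ∃ b, IsRep W i b ∧ W.X i b = W.X i a := by
  classical
  let s : Finset (Fin 14) := Finset.univ.filter fun b => b ≠ i ∧ W.X i b = W.X i a
  have hs : s.Nonempty := ⟨a, by simp [s, h.symm]⟩
  refine ⟨s.min' hs, ?_, ?_⟩
  · have hm := s.min'_mem hs
    simp only [s, Finset.mem_filter, Finset.mem_univ, true_and] at hm
    refine ⟨hm.1.symm, fun l hl hli he => ?_⟩
    have hmem : l ∈ s := by
      simp only [s, Finset.mem_filter, Finset.mem_univ, true_and]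
      exact ⟨hli, he.trans hm.2⟩
    exact absurd (s.min'_le l hmem) (not_le.mpr hl)
  · have hm := s.min'_mem hs
    simp only [s, Finset.mem_filter, Finset.mem_univ, true_and] at hm
    exact hm.2

theorem rep_unique (W : Wiring 14) {i a b : Fin 14} (ha : IsRep W i a) (hb : IsRep W i b)
    (h : W.X i a = W.X i b) : a = b := by
  rcases lt_trichotomy a b with h1 | h1 | h1
  · exact absurd h (hb.2 a h1 ha.1.symm)
  · exact h1
  · exact absurd h.symm (ha.2 b h1 hb.1.symm)

open Classical in
theorem sum_rep {M : Type*} [AddCommMonoid M] (c : Chart S W) (g : S.F → M) :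
    ∑ f, g f = ∑ p ∈ (Finset.univ : Finset ((Fin 14 × Fin 14) × (Bool × Bool))).filter
      (fun p => IsRep W p.1.1 p.1.2), g (c.Φ p.1.1 p.1.2 p.2.1 p.2.2) := by
  symm
  refine Finset.sum_nbij (fun p => c.Φ p.1.1 p.1.2 p.2.1 p.2.2) ?_ ?_ ?_ ?_
  · intro p _; exact Finset.mem_univ _
  · rintro ⟨⟨i, a⟩, d, s⟩ hp ⟨⟨j, b⟩, d', s'⟩ hq he
    simp only [Finset.coe_filter, Finset.mem_univ, true_and, Set.mem_ofPred_eq] at hp hq
    simp only at he
    obtain ⟨h1, h2, h3, h4⟩ := (c.eq_iff i a d s j b d' s' hp.1 hq.1).mp he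
    subst h1 h3 h4
    rw [rep_unique W hp hq h2]
  · intro f _
    obtain ⟨i, a, d, s, hia, hf⟩ := c.surj f
    obtain ⟨b, hb, hX⟩ := exists_rep W hia
    refine ⟨⟨⟨i, b⟩, d, s⟩, ?_, ?_⟩
    · simp only [Finset.coe_filter, Finset.mem_univ, true_and, Set.mem_ofPred_eq]; exact hb
    · simp only
      rw [← hf]
      exact (c.eq_iff i b d s i a d s hb.1 hia).mpr ⟨rfl, hX, rfl, rfl⟩
  · intro p _; rfl

/-- The weight of a flag at a vertex of multiplicity two. -/
def w2 (S : FlagSys 14) (f : S.F) : ℕ := if S.nc f = 0 then S.nX f - 2 else S.nc f - 2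

theorem nX_rot (hF : S.Facts) {h : S.F} (hm : S.mult h = 2) : S.nX (S.rot h) = S.nX h := by
  unfold nX
  rw [rot_four hF hm]
  ring

theorem tri_outer_s2 (hF : S.Facts) {x : S.F} (hx : S.tri (S.rot x)) :
    S.tri (S.outer (S.s2 x)) ↔ S.tri (S.outer (S.rot x)) := by
  have := tri_outer_s1 hF ((tri_s2 hF x).mpr hx)
  exact this.symm

theorem nX_s2 (hF : S.Facts) {h : S.F} (hf : S.full h) : S.nX (S.s2 h) = S.nX h := by
  have hm := hf.1
  obtain ⟨t0, t1, t2, t3⟩ := full_tri hf
  have e4 := rot_four hF hm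
  have e1 : S.rot (S.s2 h) = S.s2 (S.rot (S.rot (S.rot h))) := by
    rw [rot_s2 hF, of_rot_eq hF e4, hF.s2s2]
  have e2 : S.rot (S.s2 (S.rot (S.rot (S.rot h)))) = S.s2 (S.rot (S.rot h)) := by
    rw [rot_s2 hF, s1_eq hF]
  have e3 : S.rot (S.s2 (S.rot (S.rot h))) = S.s2 (S.rot h) := by
    rw [rot_s2 hF, s1_eq hF]
  unfold nX
  rw [e1, e2, e3]
  rw [if_congr (tri_outer_s2 hF t1) rfl rfl, if_congr (tri_outer_s2 hF t2) rfl rfl,
    if_congr (tri_outer_s2 hF t3) rfl rfl,
    if_congr (tri_outer_s2 hF (x := S.rot (S.rot (S.rot h))) (by rw [e4]; exact t0)) rfl rfl, e4]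
  ring

theorem w2_rot (hF : S.Facts) {h : S.F} (hm : S.mult h = 2) : w2 S (S.rot h) = w2 S h := by
  unfold w2
  rw [nc_rot hF hm, nX_rot hF hm]

theorem w2_s2 (hF : S.Facts) {h : S.F} (hm : S.mult h = 2) : w2 S (S.s2 h) = w2 S h := by
  unfold w2
  rw [nc_s2 hF hm]
  by_cases h0 : S.nc h = 0
  · rw [if_pos h0, if_pos h0, nX_s2 hF ⟨hm, h0⟩]
  · rw [if_neg h0, if_neg h0]

theorem w2_s1 (hF : S.Facts) {h : S.F} (hm : S.mult h = 2) : w2 S (S.s1 h) = w2 S h := by
  rw [← rot_s2 hF, w2_rot hF (by rw [mult_s2 hF]; exact hm), w2_s2 hF hm]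

theorem w2_vert (hF : S.Facts) {f g : S.F} (hm : S.mult f = 2) (hv : S.vert g = S.vert f) :
    w2 S g = w2 S f := by
  obtain ⟨k, -, hk⟩ := hF.vert_orbit f g hv
  have key : ∀ k, w2 S (S.rot^[k] f) = w2 S f := by
    intro k
    induction k with
    | zero => rfl
    | succ k ih =>
      rw [Function.iterate_succ_apply', w2_rot hF (by rw [mult_rot_iter hF]; exact hm), ih]
  rcases hk with rfl | rfl
  · exact key k
  · rw [w2_s2 hF (by rw [mult_rot_iter hF]; exact hm)]; exact key k

theorem waste_of_two {f : S.F} (hm : S.mult f = 2) : S.waste f = w2 S f := by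
  unfold waste w2
  rw [if_neg (by omega)]

theorem waste_of_three {f : S.F} (hm : 3 ≤ S.mult f) :
    S.waste f = if S.W1 f then 4 else 0 := by
  unfold waste
  rw [if_pos hm]

theorem vert_Phi (c : Chart S W) (i a : Fin 14) (d s d' s' : Bool) (h : i ≠ a) :
    S.vert (c.Φ i a d s) = S.vert (c.Φ i a d' s') := by
  ext x
  obtain ⟨l, rfl⟩ := c.perm.surjective x
  rw [c.mem_vert i a d s l h, c.mem_vert i a d' s' l h]

theorem vert_Phi_swap (hF : S.Facts) (c : Chart S W) (i a : Fin 14) (d s d' s' : Bool)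
    (h : i ≠ a) : S.vert (c.Φ i a d s) = S.vert (c.Φ a i d' s') := by
  refine hF.two_lines _ _ (c.perm i) (c.perm a) (fun e => h (c.perm.injective e)) ?_ ?_ ?_ ?_
  · rw [c.mem_vert i a d s i h]; exact Or.inl rfl
  · rw [c.mem_vert i a d s a h]; exact Or.inr rfl
  · rw [c.mem_vert a i d' s' i h.symm]; exact Or.inr rfl
  · rw [c.mem_vert a i d' s' a h.symm]; exact Or.inl rfl

theorem line_mem_vert_Phi (c : Chart S W) (i a : Fin 14) (d s : Bool) (h : i ≠ a) :
    c.perm i ∈ S.vert (c.Φ i a d s) ∧ c.perm a ∈ S.vert (c.Φ i a d s) :=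
  ⟨(c.mem_vert i a d s i h).mpr (Or.inl rfl), (c.mem_vert i a d s a h).mpr (Or.inr rfl)⟩

/-- Multiplicity two means that no other line passes through the vertex. -/
theorem mult_two_iff (c : Chart S W) (i a : Fin 14) (d s : Bool) (h : i ≠ a) :
    S.mult (c.Φ i a d s) = 2 ↔ ∀ l, l ≠ i → l ≠ a → W.X i l ≠ W.X i a := by
  classical
  have hpe : c.perm i ≠ c.perm a := fun e => h (c.perm.injective e)
  obtain ⟨h1, h2⟩ := line_mem_vert_Phi c i a d s h
  have hsub : ({c.perm i, c.perm a} : Finset (Fin 14)) ⊆ S.vert (c.Φ i a d s) := by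
    intro x hx
    rcases Finset.mem_insert.mp hx with rfl | hx
    · exact h1
    · rw [Finset.mem_singleton.mp hx]; exact h2
  have hcard : ({c.perm i, c.perm a} : Finset (Fin 14)).card = 2 := Finset.card_pair hpe
  constructor
  · intro hm l hli hla hX
    have hl : c.perm l ∈ S.vert (c.Φ i a d s) := (c.mem_vert i a d s l h).mpr (Or.inr hX)
    have := Finset.eq_of_subset_of_card_le hsub (by unfold mult at hm; omega)
    rw [← this] at hl
    rcases Finset.mem_insert.mp hl with e | e
    · exact hli (c.perm.injective e)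
    · exact hla (c.perm.injective (Finset.mem_singleton.mp e))
  · intro hall
    unfold mult
    rw [← hcard]
    congr 1
    apply Finset.Subset.antisymm _ hsub
    intro x hx
    obtain ⟨l, rfl⟩ := c.perm.surjective x
    rcases (c.mem_vert i a d s l h).mp hx with rfl | hX
    · simp
    · by_cases hli : l = i
      · subst hli; simp
      · by_cases hla : l = a
        · subst hla; simp
        · exact absurd hX (hall l hli hla)

theorem isRep_of_two (c : Chart S W) {i a : Fin 14} (h : i ≠ a) {d s : Bool}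
    (hm : S.mult (c.Φ i a d s) = 2) : IsRep W i a := by
  refine ⟨h, fun l hl hli => ?_⟩
  exact (mult_two_iff c i a d s h).mp hm l hli (ne_of_lt hl)

open Classical in
/-- Contribution of the flags at vertices of multiplicity at least three. -/
theorem sum_W1 (c : Chart S W) :
    ∑ f ∈ Finset.univ.filter (fun f => 3 ≤ S.mult f), S.waste f =
      4 * ((Finset.univ : Finset ((Fin 14 × Fin 14) × (Bool × Bool))).filter
        (fun p => IsRep W p.1.1 p.1.2 ∧ S.W1 (c.Φ p.1.1 p.1.2 p.2.1 p.2.2))).card := by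
  rw [Finset.sum_filter]
  have h1 : ∀ f : S.F, (if 3 ≤ S.mult f then S.waste f else 0) = if S.W1 f then 4 else 0 := by
    intro f
    by_cases hf : 3 ≤ S.mult f
    · rw [if_pos hf, waste_of_three hf]
    · rw [if_neg hf, if_neg (fun h => hf h.1)]
  rw [Finset.sum_congr rfl (fun f _ => h1 f), sum_rep c, Finset.sum_ite, Finset.sum_const_zero,
    add_zero, Finset.sum_const, smul_eq_mul, mul_comm, Finset.filter_filter]

/-- Weight of a flag if its vertex has multiplicity two, else zero. -/
def g2 (S : FlagSys 14) (f : S.F) : ℕ := if S.mult f = 2 then w2 S f else 0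

theorem g2_vert (hF : S.Facts) {f g : S.F} (hv : S.vert g = S.vert f) : g2 S g = g2 S f := by
  have hm : S.mult g = S.mult f := by unfold mult; rw [hv]
  unfold g2
  rw [hm]
  by_cases h : S.mult f = 2
  · rw [if_pos h, if_pos h, w2_vert hF h hv]
  · rw [if_neg h, if_neg h]

theorem nc_le (f : S.F) : S.nc f ≤ 4 := by
  unfold nc; split_ifs <;> omega

theorem nX_le (f : S.F) : S.nX f ≤ 4 := by
  unfold nX; split_ifs <;> omega

/-- The number of half units of waste at the vertex of two lines, divided by two. -/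
theorem g2_eq (f : S.F) : g2 S f =
    (if S.mult f = 2 ∧ 3 ≤ S.nc f then 1 else 0) + (if S.mult f = 2 ∧ S.nc f = 4 then 1 else 0) +
    (if S.full f ∧ 3 ≤ S.nX f then 1 else 0) + (if S.full f ∧ S.nX f = 4 then 1 else 0) := by
  unfold g2 w2 full
  have h1 := nc_le f
  have h2 := nX_le f
  by_cases hm : S.mult f = 2
  · simp only [hm, true_and, if_true]
    by_cases h0 : S.nc f = 0
    · simp only [h0, true_and, if_true]
      rw [if_neg (by omega : ¬ (3 ≤ 0)), if_neg (by omega : ¬ (0 = 4))]
      split_ifs <;> omega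
    · simp only [h0, false_and, if_false]
      split_ifs <;> omega
  · simp [hm]

open Classical in
theorem sum_g2 (hF : S.Facts) (c : Chart S W) :
    ∑ f, g2 S f = 8 * ∑ p ∈ (Finset.univ : Finset (Fin 14 × Fin 14)).filter (fun p => p.1 < p.2),
      g2 S (c.Φ p.1 p.2 true true) := by
  rw [sum_rep c]
  have h1 : ∑ p ∈ (Finset.univ : Finset ((Fin 14 × Fin 14) × (Bool × Bool))).filter
      (fun p => IsRep W p.1.1 p.1.2), g2 S (c.Φ p.1.1 p.1.2 p.2.1 p.2.2) =
      ∑ p ∈ (Finset.univ : Finset ((Fin 14 × Fin 14) × (Bool × Bool))).filter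
      (fun p => p.1.1 ≠ p.1.2), g2 S (c.Φ p.1.1 p.1.2 p.2.1 p.2.2) := by
    refine Finset.sum_subset ?_ ?_
    · intro p hp
      simp only [Finset.mem_filter, Finset.mem_univ, true_and] at hp ⊢
      exact hp.1
    · intro p hp hp'
      simp only [Finset.mem_filter, Finset.mem_univ, true_and] at hp hp'
      unfold g2
      refine if_neg (fun hm => hp' ?_)
      exact isRep_of_two c hp hm
  rw [h1]
  have h2 : ∑ p ∈ (Finset.univ : Finset ((Fin 14 × Fin 14) × (Bool × Bool))).filter
      (fun p => p.1.1 ≠ p.1.2), g2 S (c.Φ p.1.1 p.1.2 p.2.1 p.2.2) =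
      ∑ p ∈ (Finset.univ : Finset (Fin 14 × Fin 14)).filter (fun p => p.1 ≠ p.2),
        4 * g2 S (c.Φ p.1 p.2 true true) := by
    rw [Finset.sum_filter, Finset.sum_filter, ← Finset.univ_product_univ, Finset.sum_product]
    refine Finset.sum_congr rfl (fun p _ => ?_)
    by_cases h : p.1 ≠ p.2
    · simp only [h, ne_eq, not_false_eq_true, if_true]
      have : ∀ q : Bool × Bool, g2 S (c.Φ p.1 p.2 q.1 q.2) = g2 S (c.Φ p.1 p.2 true true) :=
        fun q => g2_vert hF (vert_Phi c _ _ _ _ _ _ h)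
      rw [Finset.sum_congr rfl (fun q _ => this q)]
      simp
    · simp only [h, if_false, Finset.sum_const_zero]
  rw [h2]
  have h3 : (Finset.univ : Finset (Fin 14 × Fin 14)).filter (fun p => p.1 ≠ p.2) =
      (Finset.univ : Finset (Fin 14 × Fin 14)).filter (fun p => p.1 < p.2) ∪
      (Finset.univ : Finset (Fin 14 × Fin 14)).filter (fun p => p.2 < p.1) := by
    ext p
    simp only [Finset.mem_filter, Finset.mem_univ, true_and, Finset.mem_union]
    exact ne_iff_lt_or_gt
  rw [h3, Finset.sum_union]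
  · have h4 : ∑ p ∈ (Finset.univ : Finset (Fin 14 × Fin 14)).filter (fun p => p.2 < p.1),
        4 * g2 S (c.Φ p.1 p.2 true true) =
        ∑ p ∈ (Finset.univ : Finset (Fin 14 × Fin 14)).filter (fun p => p.1 < p.2),
        4 * g2 S (c.Φ p.1 p.2 true true) := by
      refine Finset.sum_nbij (fun p => (p.2, p.1)) ?_ ?_ ?_ ?_
      · intro p hp
        simp only [Finset.mem_filter, Finset.mem_univ, true_and] at hp ⊢
        exact hp
      · rintro ⟨x, y⟩ _ ⟨x', y'⟩ _ he
        simp only [Prod.mk.injEq] at he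
        exact Prod.ext he.2 he.1
      · rintro ⟨x, y⟩ hp
        refine ⟨(y, x), ?_, rfl⟩
        simp only [Finset.coe_filter, Finset.mem_univ, true_and, Set.mem_ofPred_eq] at hp ⊢
        exact hp
      · intro p hp
        simp only [Finset.mem_filter, Finset.mem_univ, true_and] at hp
        simp only
        rw [g2_vert hF (vert_Phi_swap hF c p.1 p.2 true true true true (ne_of_gt hp))]
    rw [h4, ← Finset.mul_sum]
    ring
  · rw [Finset.disjoint_left]
    intro p hp hp'
    simp only [Finset.mem_filter, Finset.mem_univ, true_and] at hp hp'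
    exact absurd hp' (not_lt.mpr hp.le)

theorem sum_waste_split (hF : S.Facts) :
    ∑ f, S.waste f = ∑ f ∈ Finset.univ.filter (fun f => 3 ≤ S.mult f), S.waste f + ∑ f, g2 S f := by
  rw [Finset.sum_filter, ← Finset.sum_add_distrib]
  refine Finset.sum_congr rfl (fun f _ => ?_)
  have h2 := hF.two_le f
  unfold g2
  by_cases h : 3 ≤ S.mult f
  · rw [if_pos h, if_neg (by omega)]; rfl
  · rw [if_neg h, if_pos (by omega), waste_of_two (by omega)]; omega

/-- The sum of the slacks at the vertex of a flag. -/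
def slackV (S : FlagSys 14) (f : S.F) : ℤ :=
  ∑ g ∈ Finset.univ.filter (fun g => S.vert g = S.vert f), S.slack g

theorem slackV_congr {f g : S.F} (h : S.vert f = S.vert g) : slackV S f = slackV S g := by
  unfold slackV; rw [h]

theorem slackV_of_lt {f : S.F} (h : S.mult f < 4) : slackV S f = 0 := by
  unfold slackV
  refine Finset.sum_eq_zero (fun g hg => ?_)
  rw [Finset.mem_filter] at hg
  have hm : S.mult g = S.mult f := by unfold mult; rw [hg.2]
  unfold slack
  rw [if_neg (by omega)]

theorem slackV_nonneg (hF : S.Facts) (hM : ∀ f, S.mult f ≤ 8) (f : S.F) : 0 ≤ slackV S f := by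
  rcases lt_or_ge (S.mult f) 4 with h | h
  · rw [slackV_of_lt h]
  · rcases eq_or_lt_of_le h with h | h
    · exact slack_four S hF hM f h.symm
    · refine le_trans ?_ (slack_big S hF hM f h)
      have : (5 : ℤ) ≤ S.mult f := by exact_mod_cast h
      nlinarith

theorem four_dvd_load (f : S.F) : (4 : ℤ) ∣ (S.load f : ℤ) := by
  unfold load
  split_ifs <;> norm_num

theorem four_dvd_slackV (hF : S.Facts) (f : S.F) : (4 : ℤ) ∣ slackV S f := by
  rcases lt_or_ge (S.mult f) 4 with h | h
  · rw [slackV_of_lt h]; exact dvd_zero _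
  · have h1 : ∀ g ∈ Finset.univ.filter (fun g => S.vert g = S.vert f),
        S.slack g = 2 * ((S.mult f : ℤ) - 3) - S.load g := by
      intro g hg
      rw [Finset.mem_filter] at hg
      have hm : S.mult g = S.mult f := by unfold mult; rw [hg.2]
      unfold slack
      rw [hm, if_pos h]
    unfold slackV
    rw [Finset.sum_congr rfl h1, Finset.sum_sub_distrib, Finset.sum_const, hF.card_vert]
    refine dvd_sub ?_ (Finset.dvd_sum (fun g _ => four_dvd_load g))
    rw [nsmul_eq_mul]
    refine Dvd.dvd.mul_right ?_ _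
    push_cast
    exact dvd_mul_right _ _

open Classical in
/-- The two smallest labels of a vertex. -/
theorem exists_low (hF : S.Facts) (c : Chart S W) (f : S.F) :
    ∃ p : Fin 14 × Fin 14, (p.1 < p.2 ∧ IsRep W p.1 p.2) ∧
      S.vert (c.Φ p.1 p.2 true true) = S.vert f := by
  obtain ⟨i, a, d, s, hia, hf⟩ := c.surj f
  let t : Finset (Fin 14) := Finset.univ.filter fun l => c.perm l ∈ S.vert f
  have hi : i ∈ t := by
    simp only [t, Finset.mem_filter, Finset.mem_univ, true_and]
    rw [← hf]; exact (line_mem_vert_Phi c i a d s hia).1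
  have ha : a ∈ t := by
    simp only [t, Finset.mem_filter, Finset.mem_univ, true_and]
    rw [← hf]; exact (line_mem_vert_Phi c i a d s hia).2
  have ht : t.Nonempty := ⟨i, hi⟩
  let x := t.min' ht
  have hx : x ∈ t := t.min'_mem ht
  have ht2 : (t.erase x).Nonempty := by
    rcases eq_or_ne i x with h | h
    · exact ⟨a, Finset.mem_erase.mpr ⟨fun e => hia (h.trans e.symm), ha⟩⟩
    · exact ⟨i, Finset.mem_erase.mpr ⟨h, hi⟩⟩
  let y := (t.erase x).min' ht2
  have hy : y ∈ t.erase x := (t.erase x).min'_mem ht2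
  have hyt : y ∈ t := Finset.mem_of_mem_erase hy
  have hyx : y ≠ x := Finset.ne_of_mem_erase hy
  have hxy : x < y := lt_of_le_of_ne (t.min'_le y hyt) hyx.symm
  have hxm : c.perm x ∈ S.vert f := by
    simpa only [t, Finset.mem_filter, Finset.mem_univ, true_and] using hx
  have hym : c.perm y ∈ S.vert f := by
    simpa only [t, Finset.mem_filter, Finset.mem_univ, true_and] using hyt
  have hv : S.vert (c.Φ x y true true) = S.vert f := by
    obtain ⟨h1, h2⟩ := line_mem_vert_Phi c x y true true hxy.ne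
    exact hF.two_lines _ _ (c.perm x) (c.perm y) (fun e => hxy.ne (c.perm.injective e)) h1 h2
      hxm hym
  refine ⟨(x, y), ⟨hxy, hxy.ne, fun l hl hlx he => ?_⟩, hv⟩
  have hlt : l ∈ t := by
    simp only [t, Finset.mem_filter, Finset.mem_univ, true_and]
    rw [← hv]
    exact (c.mem_vert x y true true l hxy.ne).mpr (Or.inr he)
  exact absurd ((t.erase x).min'_le l (Finset.mem_erase.mpr ⟨hlx, hlt⟩)) (not_le.mpr hl)

theorem low_unique (_hF : S.Facts) (c : Chart S W) {p q : Fin 14 × Fin 14}
    (hp : p.1 < p.2 ∧ IsRep W p.1 p.2) (hq : q.1 < q.2 ∧ IsRep W q.1 q.2)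
    (h : S.vert (c.Φ p.1 p.2 true true) = S.vert (c.Φ q.1 q.2 true true)) : p = q := by
  obtain ⟨x, y⟩ := p
  obtain ⟨x', y'⟩ := q
  simp only at hp hq h
  obtain ⟨h1, h2⟩ := line_mem_vert_Phi c x y true true hp.1.ne
  obtain ⟨h3, h4⟩ := line_mem_vert_Phi c x' y' true true hq.1.ne
  rw [h] at h1 h2
  rw [← h] at h3 h4
  have ex : x = x' := by
    rcases lt_trichotomy x x' with hlt | he | hlt
    · rcases (c.mem_vert x' y' true true x hq.1.ne).mp h1 with e | e
      · exact absurd e hlt.ne
      · exact absurd e (hq.2.2 x (hlt.trans hq.1) hlt.ne)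
    · exact he
    · rcases (c.mem_vert x y true true x' hp.1.ne).mp h3 with e | e
      · exact absurd e hlt.ne
      · exact absurd e (hp.2.2 x' (hlt.trans hp.1) hlt.ne)
  subst ex
  have ey : y = y' := by
    rcases lt_trichotomy y y' with hlt | he | hlt
    · rcases (c.mem_vert x y' true true y hq.1.ne).mp h2 with e | e
      · exact absurd e hp.1.ne'
      · exact absurd e (hq.2.2 y hlt hp.1.ne')
    · exact he
    · rcases (c.mem_vert x y true true y' hp.1.ne).mp h4 with e | e
      · exact absurd e hq.1.ne'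
      · exact absurd e (hp.2.2 y' hlt hq.1.ne')
  rw [ey]

open Classical in
theorem sum_slack_eq (hF : S.Facts) (c : Chart S W) :
    ∑ f, S.slack f = ∑ p ∈ (Finset.univ : Finset (Fin 14 × Fin 14)).filter
      (fun p => p.1 < p.2 ∧ IsRep W p.1 p.2), slackV S (c.Φ p.1 p.2 true true) := by
  choose key hkey using exists_low hF c
  rw [← Finset.sum_fiberwise_of_maps_to (g := key) (t := (Finset.univ :
    Finset (Fin 14 × Fin 14)).filter (fun p => p.1 < p.2 ∧ IsRep W p.1 p.2))
    (fun f _ => by
      simp only [Finset.mem_filter, Finset.mem_univ, true_and]; exact (hkey f).1)]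
  refine Finset.sum_congr rfl (fun p hp => ?_)
  simp only [Finset.mem_filter, Finset.mem_univ, true_and] at hp
  unfold slackV
  refine Finset.sum_congr ?_ (fun _ _ => rfl)
  ext g
  simp only [Finset.mem_filter, Finset.mem_univ, true_and]
  constructor
  · rintro rfl; exact (hkey g).2.symm
  · intro h
    exact low_unique hF c (hkey g).1 hp ((hkey g).2.trans h)

/-- The number of `q < 4` with `4 q < x`. -/
theorem four_mul_count {x : ℤ} (h0 : 0 ≤ x) (h4 : (4 : ℤ) ∣ x) :
    4 * (((Finset.range 4).filter (fun q : ℕ => 4 * (q : ℤ) < x)).card : ℤ) ≤ x := by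
  obtain ⟨y, rfl⟩ := h4
  have hy : 0 ≤ y := by omega
  obtain ⟨m, rfl⟩ := Int.eq_ofNat_of_zero_le hy
  have : ((Finset.range 4).filter (fun q : ℕ => 4 * (q : ℤ) < 4 * (m : ℤ))).card ≤ m := by
    calc _ ≤ (Finset.range m).card := by
          refine Finset.card_le_card (fun q hq => ?_)
          rw [Finset.mem_filter] at hq
          rw [Finset.mem_range]; omega
      _ = m := Finset.card_range m
  omega

theorem total_le (hF : S.Facts) (htri : 360 ≤ (Finset.univ.filter S.tri).card) :
    ∑ f, (S.waste f : ℤ) + ∑ f, S.slack f ≤ 16 := by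
  have h1 := discharge S hF (mult_le_eight S hF htri)
  rw [hF.count] at h1
  have h2 : (360 : ℤ) ≤ ((Finset.univ.filter S.tri).card : ℤ) := by exact_mod_cast htri
  push_cast at h1
  linarith

end Count

end Pool.Agent.Helper15.PL
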