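import Pool.Agent.Helper15.PL.Flags

/-!
# Block D1: the discharging identity
-/

namespace Pool.Agent.Helper15.PL

namespace FlagSys

section basic
variable {n : ℕ} {S : FlagSys n} (hF : S.Facts)
include hF

theorem D1_s0_inj {x y : S.F} (h : S.s0 x = S.s0 y) : x = y := by
  rw [← hF.s0s0 x, h, hF.s0s0]

theorem D1_s1_inj {x y : S.F} (h : S.s1 x = S.s1 y) : x = y := by
  rw [← hF.s1s1 x, h, hF.s1s1]

theorem D1_s2_inj {x y : S.F} (h : S.s2 x = S.s2 y) : x = y := by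
  rw [← hF.s2s2 x, h, hF.s2s2]

theorem D1_tri_s0 (f : S.F) : S.tri (S.s0 f) ↔ S.tri f := by
  unfold tri
  constructor
  · intro h
    have h1 := D1_s0_inj hF h
    have h2 : S.s0 (S.s1 (S.s0 (S.s1 (S.s0 (S.s1 (S.s1 (S.s0 (S.s1 (S.s0 (S.s1 (S.s0 f)))))))))))
        = f := by simp only [hF.s0s0, hF.s1s1]
    rw [h1] at h2
    exact h2
  · intro h
    have h2 : S.s1 (S.s0 (S.s1 (S.s0 (S.s1 (S.s0 (S.s0 (S.s1 (S.s0 (S.s1 (S.s0 (S.s1 f)))))))))))
        = f := by simp only [hF.s0s0, hF.s1s1]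
    rw [h] at h2
    rw [h2]

theorem D1_tri_s1 (f : S.F) : S.tri (S.s1 f) ↔ S.tri f := by
  unfold tri
  rw [hF.s1s1]
  constructor
  · intro h
    have h1 : S.s1 (S.s0 (S.s1 (S.s0 (S.s1 (S.s0 f))))) = f := by
      rw [h, hF.s1s1]
    have h2 : S.s0 (S.s1 (S.s0 (S.s1 (S.s0 (S.s1 (S.s1 (S.s0 (S.s1 (S.s0 (S.s1 (S.s0 f)))))))))))
        = f := by simp only [hF.s0s0, hF.s1s1]
    rw [h1] at h2
    exact h2
  · intro h
    have h2 : S.s1 (S.s0 (S.s1 (S.s0 (S.s1 (S.s0 (S.s0 (S.s1 (S.s0 (S.s1 (S.s0 (S.s1 f)))))))))))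
        = f := by simp only [hF.s0s0, hF.s1s1]
    rw [h] at h2
    rw [← hF.s1s1 (S.s0 (S.s1 (S.s0 (S.s1 (S.s0 f))))), h2]

/-- the braid relation in a triangle. -/
theorem D1_braid {f : S.F} (h : S.tri f) : S.s0 (S.s1 (S.s0 f)) = S.s1 (S.s0 (S.s1 f)) := by
  unfold tri at h
  have : S.s1 (S.s0 (S.s1 (S.s0 (S.s1 (S.s0 (S.s1 f)))))) = S.s1 f := by rw [h]
  have h2 : S.s0 (S.s1 (S.s0 (S.s1 (S.s0 (S.s1 f))))) = f := h
  have h3 : S.s1 (S.s0 (S.s1 f)) = S.s0 (S.s1 (S.s0 (S.s0 (S.s1 (S.s0 (S.s1 (S.s0 (S.s1 f)))))))) := by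
    simp only [hF.s0s0, hF.s1s1]
  rw [h3, h2]

theorem D1_mult_s1 (f : S.F) : S.mult (S.s1 f) = S.mult f := by
  unfold mult; rw [hF.vert_s1]

theorem D1_mult_s2 (f : S.F) : S.mult (S.s2 f) = S.mult f := by
  unfold mult; rw [hF.vert_s2]

theorem D1_vert_rot (f : S.F) : S.vert (S.rot f) = S.vert f := by
  unfold rot; rw [hF.vert_s1, hF.vert_s2]

theorem D1_mult_rot (f : S.F) : S.mult (S.rot f) = S.mult f := by
  unfold mult; rw [D1_vert_rot hF]

theorem D1_vert_rotk (f : S.F) (k : ℕ) : S.vert (S.rot^[k] f) = S.vert f := by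
  induction k with
  | zero => rfl
  | succ k ih => rw [Function.iterate_succ_apply', D1_vert_rot hF, ih]

theorem D1_mult_rotk (f : S.F) (k : ℕ) : S.mult (S.rot^[k] f) = S.mult f := by
  unfold mult; rw [D1_vert_rotk hF]

/-- all flags at a vertex are different. -/
theorem D1_orbit_inj (f : S.F) :
    Function.Injective (fun q : Bool × Fin (2 * S.mult f) =>
      if q.1 then S.s2 (S.rot^[q.2] f) else S.rot^[q.2] f) := by
  classical
  set ψ : Bool × Fin (2 * S.mult f) → S.F := fun q =>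
      if q.1 then S.s2 (S.rot^[q.2] f) else S.rot^[q.2] f with hψ
  have hsub : (Finset.univ.filter fun g => S.vert g = S.vert f) ⊆ Finset.univ.image ψ := by
    intro g hg
    obtain ⟨k, hk, h⟩ := hF.vert_orbit f g (Finset.mem_filter.1 hg).2
    rw [Finset.mem_image]
    rcases h with h | h
    · exact ⟨(false, ⟨k, hk⟩), Finset.mem_univ _, by simp [hψ, h]⟩
    · exact ⟨(true, ⟨k, hk⟩), Finset.mem_univ _, by simp [hψ, h]⟩
  have h1 : (Finset.univ.image ψ).card = (Finset.univ : Finset (Bool × Fin (2 * S.mult f))).card := by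
    apply le_antisymm Finset.card_image_le
    have h2 := Finset.card_le_card hsub
    rw [hF.card_vert] at h2
    refine le_trans (le_of_eq ?_) h2
    rw [Finset.card_univ, Fintype.card_prod, Fintype.card_bool, Fintype.card_fin]
    ring
  have h3 := Finset.card_image_iff.1 h1
  rw [Finset.coe_univ] at h3
  exact Set.injOn_univ.1 h3

theorem D1_rot_ne (f : S.F) {j k : ℕ} (hj : j < 2 * S.mult f) (hk : k < 2 * S.mult f)
    (hjk : j ≠ k) : S.rot^[j] f ≠ S.rot^[k] f := by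
  intro h
  have := D1_orbit_inj hF f (a₁ := (false, ⟨j, hj⟩)) (a₂ := (false, ⟨k, hk⟩)) (by simpa using h)
  simp at this
  exact hjk this

theorem D1_s2rot_ne (f : S.F) {j k : ℕ} (hj : j < 2 * S.mult f) (hk : k < 2 * S.mult f) :
    S.s2 (S.rot^[j] f) ≠ S.rot^[k] f := by
  intro h
  have := D1_orbit_inj hF f (a₁ := (true, ⟨j, hj⟩)) (a₂ := (false, ⟨k, hk⟩)) (by simpa using h)
  simp at this

theorem D1_line_opp (f : S.F) (j : ℕ) :
    S.line (S.rot^[S.mult f + j] f) = S.line (S.rot^[j] f) := by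
  rw [Function.iterate_add_apply]
  have := hF.rot_line_opp (S.rot^[j] f)
  rw [D1_mult_rotk hF] at this
  exact this

/-- the flags at a vertex on one line. -/
theorem D1_same_line {f g : S.F} (hv : S.vert g = S.vert f) (hl : S.line g = S.line f) :
    g = f ∨ g = S.s2 f ∨ g = S.rot^[S.mult f] f ∨ g = S.s2 (S.rot^[S.mult f] f) := by
  obtain ⟨k, hk, h⟩ := hF.vert_orbit f g hv
  have h1 : S.line (S.rot^[k] f) = S.line f := by
    rcases h with h | h
    · rw [← h, hl]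
    · rw [← hl, h, hF.line_s2]
  have h2 : k = 0 ∨ k = S.mult f := by
    rcases Nat.eq_zero_or_pos k with h0 | h0
    · exact Or.inl h0
    right
    by_contra hne
    rcases lt_or_gt_of_ne hne with hlt | hgt
    · exact hF.rot_line_ne f k h0 hlt h1
    · obtain ⟨j, rfl⟩ := Nat.exists_eq_add_of_lt hgt
      have h3 : S.mult f + j + 1 = S.mult f + (j + 1) := by ring
      rw [h3, D1_line_opp hF] at h1
      exact hF.rot_line_ne f (j + 1) (by omega) (by omega) h1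
  rcases h2 with rfl | rfl
  · rcases h with h | h
    · exact Or.inl h
    · exact Or.inr (Or.inl h)
  · rcases h with h | h
    · exact Or.inr (Or.inr (Or.inl h))
    · exact Or.inr (Or.inr (Or.inr h))

theorem D1_line_closed (i : Fin n) (V : Finset (Finset (Fin n))) (f0 : S.F)
    (h0 : S.line f0 = i) (h0' : S.vert f0 ∈ V)
    (h : ∀ A ∈ V, ∃ e e' : S.F, S.vert e = A ∧ S.vert e' = A ∧ S.line e = i ∧ S.line e' = i ∧
      e' ≠ e ∧ e' ≠ S.s2 e ∧ S.vert (S.s0 e) ∈ V ∧ S.vert (S.s0 e') ∈ V) :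
    n - 1 ≤ ∑ A ∈ V, (A.card - 1) := by
  classical
  have hcl : ∀ f, S.line f = i → S.vert f ∈ V := by
    refine hF.line_conn i (fun A => A ∈ V) ?_ ⟨f0, h0, h0'⟩
    intro f hf hfV
    obtain ⟨e, e', h1, h2, h3, h4, h5, h6, h7, h8⟩ := h _ hfV
    have hopp : S.vert (S.s0 (S.rot^[S.mult e] e)) ∈ V := by
      rcases D1_same_line hF (f := e) (g := e') (h2.trans h1.symm) (h4.trans h3.symm) with
        k | k | k | k
      · exact absurd k h5
      · exact absurd k h6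
      · rw [← k]; exact h8
      · have : S.rot^[S.mult e] e = S.s2 e' := by rw [k, hF.s2s2]
        rw [this, hF.s0s2, hF.vert_s2]; exact h8
    rcases D1_same_line hF (f := e) (g := f) h1.symm (hf.trans h3.symm) with k | k | k | k
    · rw [k]; exact h7
    · rw [k, hF.s0s2, hF.vert_s2]; exact h7
    · rw [k]; exact hopp
    · rw [k, hF.s0s2, hF.vert_s2]; exact hopp
  have hsub : (Finset.univ.erase i : Finset (Fin n)) ⊆ V.biUnion (fun A => A.erase i) := by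
    intro j hj
    have hji : j ≠ i := (Finset.mem_erase.1 hj).1
    obtain ⟨f, hf, hjf⟩ := hF.cover i j (Ne.symm hji)
    rw [Finset.mem_biUnion]
    exact ⟨S.vert f, hcl f hf, Finset.mem_erase.2 ⟨hji, hjf⟩⟩
  have h1 := (Finset.card_le_card hsub).trans Finset.card_biUnion_le
  rw [Finset.card_erase_of_mem (Finset.mem_univ _), Finset.card_univ, Fintype.card_fin] at h1
  refine h1.trans (le_of_eq (Finset.sum_congr rfl ?_))
  intro A hA
  obtain ⟨e, e', h1, h2, h3, -⟩ := h A hA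
  apply Finset.card_erase_of_mem
  rw [← h1, ← h3]
  exact hF.line_mem e

theorem D1_line_s1_ne (f : S.F) : S.line (S.s1 f) ≠ S.line f := by
  have h := hF.rot_line_ne (S.s2 f) 1 (by omega) (by
    have := hF.two_le (S.s2 f); omega)
  simp only [Function.iterate_one, rot, hF.s2s2, hF.line_s2] at h
  exact h

theorem D1_two_lines {f g x y : S.F} (h1 : S.vert x = S.vert f) (h2 : S.vert y = S.vert f)
    {x' y' : S.F} (h3 : S.vert x' = S.vert g) (h4 : S.vert y' = S.vert g)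
    (hx : S.line x = S.line x') (hy : S.line y = S.line y') (hxy : S.line x ≠ S.line y) :
    S.vert f = S.vert g := by
  refine hF.two_lines f g (S.line x) (S.line y) hxy ?_ ?_ ?_ ?_
  · rw [← h1]; exact hF.line_mem x
  · rw [← h2]; exact hF.line_mem y
  · rw [hx, ← h3]; exact hF.line_mem x'
  · rw [hy, ← h4]; exact hF.line_mem y'

end basic

section two
variable {n : ℕ} {S : FlagSys n} (hF : S.Facts)
include hF

/-! vertices of multiplicity two -/

theorem D1_rot4 {f : S.F} (h : S.mult f = 2) : S.rot (S.rot (S.rot (S.rot f))) = f := by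
  have := hF.rot_full f
  rw [h] at this
  exact this

theorem D1_rot3 {f : S.F} (h : S.mult f = 2) :
    S.rot (S.rot (S.rot f)) = S.s2 (S.s1 f) := by
  have h4 := D1_rot4 hF h
  have : S.s2 (S.s1 (S.rot (S.rot (S.rot (S.rot f))))) = S.rot (S.rot (S.rot f)) := by
    conv_lhs => rw [rot]
    rw [hF.s1s1, hF.s2s2]
  rw [← this, h4]

theorem D1_mem_two {f : S.F} (h : S.mult f = 2) {j : Fin n} (hj : j ∈ S.vert f) :
    j = S.line f ∨ j = S.line (S.s1 f) := by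
  by_contra hcon
  push Not at hcon
  have hsub : ({j, S.line f, S.line (S.s1 f)} : Finset (Fin n)) ⊆ S.vert f := by
    intro k hk
    simp only [Finset.mem_insert, Finset.mem_singleton] at hk
    rcases hk with rfl | rfl | rfl
    · exact hj
    · exact hF.line_mem f
    · rw [← hF.vert_s1 f]; exact hF.line_mem _
  have h1 := Finset.card_le_card hsub
  have h2 : S.line f ≠ S.line (S.s1 f) := (D1_line_s1_ne hF f).symm
  rw [Finset.card_insert_of_notMem (by simp [hcon.1, hcon.2]),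
    Finset.card_insert_of_notMem (by simp [h2]), Finset.card_singleton] at h1
  unfold mult at h
  omega

/-- in a vertex of multiplicity two. -/
theorem D1_line_two {f g : S.F} (h : S.mult f = 2) (hv : S.vert g = S.vert f)
    (hl : S.line g ≠ S.line f) : S.line g = S.line (S.s1 f) := by
  rcases D1_mem_two hF h (j := S.line g) (by rw [← hv]; exact hF.line_mem g) with k | k
  · exact absurd k hl
  · exact k

/-! the flag on the opposite ray, reached through the corner of `g` -/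

theorem D1_M2_line {g : S.F} (h : S.mult g = 2) :
    S.line (S.s1 (S.s2 (S.s1 g))) = S.line g := by
  have h1 := hF.rot_line_opp (S.s2 (S.s1 (S.s2 (S.s1 g))))
  have h2 : S.mult (S.s2 (S.s1 (S.s2 (S.s1 g)))) = 2 := by
    rw [D1_mult_s2 hF, D1_mult_s1 hF, D1_mult_s2 hF, D1_mult_s1 hF, h]
  rw [h2] at h1
  simp only [Function.iterate_succ_apply, Function.iterate_zero_apply, rot, hF.s2s2, hF.s1s1,
    hF.line_s2] at h1
  exact h1.symm

theorem D1_M2_ne {g : S.F} (h : S.mult g = 2) :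
    S.s1 (S.s2 (S.s1 g)) ≠ g ∧ S.s1 (S.s2 (S.s1 g)) ≠ S.s2 g := by
  have h2 : S.mult (S.s2 (S.s1 (S.s2 (S.s1 g)))) = 2 := by
    rw [D1_mult_s2 hF, D1_mult_s1 hF, D1_mult_s2 hF, D1_mult_s1 hF, h]
  constructor
  · have h1 := D1_s2rot_ne hF (S.s2 (S.s1 (S.s2 (S.s1 g)))) (j := 0) (k := 2) (by omega) (by omega)
    simp only [Function.iterate_succ_apply, Function.iterate_zero_apply, rot, hF.s2s2, hF.s1s1] at h1
    exact h1
  · intro hc
    have h1 := D1_rot_ne hF (S.s2 (S.s1 (S.s2 (S.s1 g)))) (j := 0) (k := 2) (by omega) (by omega)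
      (by omega)
    simp only [Function.iterate_succ_apply, Function.iterate_zero_apply, rot, hF.s2s2, hF.s1s1] at h1
    apply h1
    rw [hc, hF.s2s2]

theorem D1_M3_line {g : S.F} (h : S.mult g = 3) :
    S.line (S.s1 (S.s2 (S.s1 g))) = S.line (S.s1 (S.s2 g)) := by
  have h1 := hF.rot_line_opp (S.s2 (S.s1 (S.s2 (S.s1 g))))
  have h2 : S.mult (S.s2 (S.s1 (S.s2 (S.s1 g)))) = 3 := by
    rw [D1_mult_s2 hF, D1_mult_s1 hF, D1_mult_s2 hF, D1_mult_s1 hF, h]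
  rw [h2] at h1
  simp only [Function.iterate_succ_apply, Function.iterate_zero_apply, rot, hF.s2s2, hF.s1s1,
    hF.line_s2] at h1
  exact h1.symm

theorem D1_M3_ne {g : S.F} (h : S.mult g = 3) :
    S.s1 (S.s2 (S.s1 g)) ≠ S.s1 (S.s2 g) ∧ S.s1 (S.s2 (S.s1 g)) ≠ S.s2 (S.s1 (S.s2 g)) := by
  have h2 : S.mult (S.s2 (S.s1 (S.s2 (S.s1 g)))) = 3 := by
    rw [D1_mult_s2 hF, D1_mult_s1 hF, D1_mult_s2 hF, D1_mult_s1 hF, h]
  constructor
  · have h1 := D1_s2rot_ne hF (S.s2 (S.s1 (S.s2 (S.s1 g)))) (j := 0) (k := 3) (by omega) (by omega)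
    simp only [Function.iterate_succ_apply, Function.iterate_zero_apply, rot, hF.s2s2, hF.s1s1] at h1
    exact h1
  · intro hc
    have h1 := D1_rot_ne hF (S.s2 (S.s1 (S.s2 (S.s1 g)))) (j := 0) (k := 3) (by omega) (by omega)
      (by omega)
    simp only [Function.iterate_succ_apply, Function.iterate_zero_apply, rot, hF.s2s2, hF.s1s1] at h1
    apply h1
    rw [hc, hF.s2s2]

end two

theorem D1_sum_insert {α : Type*} [DecidableEq α] (a : α) (s : Finset α) (f : α → ℕ) :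
    ∑ x ∈ insert a s, f x ≤ f a + ∑ x ∈ s, f x := by
  by_cases h : a ∈ s
  · rw [Finset.insert_eq_of_mem h]; omega
  · rw [Finset.sum_insert h]

section corners
variable {n : ℕ} {S : FlagSys n} (hF : S.Facts)

theorem D1_nc_full {h : S.F} (hh : S.full h) :
    S.tri h ∧ S.tri (S.rot h) ∧ S.tri (S.rot (S.rot h)) ∧ S.tri (S.rot (S.rot (S.rot h))) := by
  have := hh.2
  unfold nc at this
  refine ⟨?_, ?_, ?_, ?_⟩ <;>
  · by_contra hc
    rw [if_neg hc] at this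
    omega

theorem D1_nc_ty21 {h : S.F} (hh : S.ty21 h) :
    S.tri (S.rot h) ∧ S.tri (S.rot (S.rot h)) ∧ S.tri (S.rot (S.rot (S.rot h))) := by
  have := hh.2.1
  have hn := hh.2.2
  unfold nc at this
  rw [if_neg hn] at this
  refine ⟨?_, ?_, ?_⟩ <;>
  · by_contra hc
    rw [if_neg hc] at this
    omega

end corners

section local_facts
variable {S : FlagSys 14} (hF : S.Facts) (hM : ∀ f, S.mult f ≤ 8)
include hF hM

/-- F2' : the other end of an edge at a vertex of multiplicity two between two triangles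
has multiplicity at least three. -/
theorem D1_F2 {x : S.F} (h2 : S.mult x = 2) (ht : S.tri x) (ht' : S.tri (S.s2 x)) :
    3 ≤ S.mult (S.s0 x) := by
  classical
  by_contra hcon
  have hN : S.mult (S.s0 x) = 2 := by
    have := hF.two_le (S.s0 x); omega
  -- the third vertices E, W
  have hE := D1_braid hF ht
  have hW := D1_braid hF ht'
  have hvE : S.vert (S.s0 (S.s1 (S.s0 x))) = S.vert (S.s0 (S.s1 x)) := by
    rw [hE, hF.vert_s1]
  have hvW : S.vert (S.s0 (S.s1 (S.s0 (S.s2 x)))) = S.vert (S.s0 (S.s1 (S.s2 x))) := by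
    rw [hW, hF.vert_s1]
  -- line c
  have hc : S.line (S.s1 (S.s0 (S.s2 x))) = S.line (S.s1 (S.s0 x)) := by
    apply D1_line_two hF hN
    · rw [hF.vert_s1, hF.s0s2, hF.vert_s2]
    · have := D1_line_s1_ne hF (S.s0 (S.s2 x))
      rwa [hF.s0s2, hF.line_s2, ← hF.s0s2] at this
  have hb : S.line (S.s1 (S.s2 x)) = S.line (S.s1 x) := by
    apply D1_line_two hF h2
    · rw [hF.vert_s1, hF.vert_s2]
    · have := D1_line_s1_ne hF (S.s2 x)
      rwa [hF.line_s2] at this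
  have hEW : S.vert (S.s0 (S.s1 x)) = S.vert (S.s0 (S.s1 (S.s2 x))) := by
    refine D1_two_lines hF (x := S.s0 (S.s1 x)) (y := S.s0 (S.s1 (S.s0 x)))
      (x' := S.s0 (S.s1 (S.s2 x))) (y' := S.s0 (S.s1 (S.s0 (S.s2 x)))) rfl hvE rfl hvW ?_ ?_ ?_
    · rw [hF.line_s0, hF.line_s0, hb]
    · rw [hF.line_s0, hF.line_s0, hc]
    · have := D1_line_s1_ne hF (S.s0 (S.s1 x))
      rw [← hE] at this
      exact this.symm
  -- distinct rays
  have hne1 : S.s1 (S.s2 x) ≠ S.s1 x := by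
    intro h
    have h1 := D1_s1_inj hF h
    exact D1_s2rot_ne hF x (j := 0) (k := 0) (by omega) (by omega) h1
  have hne2 : S.s1 (S.s2 x) ≠ S.s2 (S.s1 x) := by
    intro h
    have h1 := D1_rot3 hF h2
    have h3 : S.rot^[1] x = S.rot^[3] x := by
      change S.s1 (S.s2 x) = S.rot (S.rot (S.rot x))
      rw [h1, h]
    exact D1_rot_ne hF x (j := 1) (k := 3) (by omega) (by omega) (by omega) h3
  have key := D1_line_closed hF (S.line (S.s1 x)) {S.vert x, S.vert (S.s0 (S.s1 x))}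
    (S.s1 x) rfl (by simp [hF.vert_s1]) (by
      intro A hA
      rw [Finset.mem_insert, Finset.mem_singleton] at hA
      rcases hA with rfl | rfl
      · refine ⟨S.s1 x, S.s1 (S.s2 x), hF.vert_s1 _, by rw [hF.vert_s1, hF.vert_s2], rfl, hb,
          hne1, hne2, by simp, ?_⟩
        rw [← hEW]; simp
      · refine ⟨S.s0 (S.s1 x), S.s0 (S.s1 (S.s2 x)), rfl, hEW.symm, hF.line_s0 _, ?_, ?_, ?_, ?_, ?_⟩
        · rw [hF.line_s0, hb]
        · intro h; exact hne1 (D1_s0_inj hF h)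
        · intro h
          rw [← hF.s0s2] at h
          exact hne2 (D1_s0_inj hF h)
        · rw [hF.s0s0, hF.vert_s1]; simp
        · rw [hF.s0s0, hF.vert_s1, hF.vert_s2]; simp)
  have hne : S.vert x ≠ S.vert (S.s0 (S.s1 x)) := by
    have := hF.vert_s0 (S.s1 x)
    rw [hF.vert_s1] at this
    exact this.symm
  rw [Finset.sum_pair hne] at key
  have h8 := hM (S.s0 (S.s1 x))
  unfold mult at h8 h2
  omega

/-- the flag at the third vertex `p` of the triangle beyond the edge of `h`. -/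
def D1pf {n : ℕ} (S : FlagSys n) (h : S.F) : S.F := S.s2 (S.s0 (S.s1 (S.s0 (S.s2 h))))

/-- F3. -/
theorem D1_F3 {h : S.F} (hh : S.ty21 h) : 3 ≤ S.mult (S.D1pf h) := by
  obtain ⟨t1, t2, t3⟩ := D1_nc_ty21 hh
  have ty : S.tri (S.s2 h) := (D1_tri_s1 hF _).1 t1
  have h1 : 3 ≤ S.mult (S.s0 (S.rot h)) := by
    apply D1_F2 hF hM
    · rw [D1_mult_rot hF]; exact hh.1
    · exact t1
    · exact (D1_tri_s1 hF _).1 t2
  have h2 : S.vert (S.D1pf h) = S.vert (S.s0 (S.rot h)) := by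
    unfold D1pf
    rw [hF.vert_s2, D1_braid hF ty, hF.vert_s1]
    rfl
  unfold mult at h1 ⊢
  rw [h2]; exact h1

/-- F1. -/
theorem D1_F1 {h : S.F} (hh : S.ty21 h) (hu : S.mult (S.s0 h) = 2) (hp : S.mult (S.D1pf h) = 3) :
    ¬ S.tri (S.D1pf h) := by
  classical
  intro htf
  obtain ⟨t1, t2, t3⟩ := D1_nc_ty21 hh
  obtain ⟨f, hf⟩ : ∃ f, f = S.D1pf h := ⟨_, rfl⟩
  rw [← hf] at htf hp
  obtain ⟨y, hy⟩ : ∃ y, y = S.s2 h := ⟨_, rfl⟩
  have ty : S.tri y := by rw [hy]; exact (D1_tri_s1 hF _).1 t1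
  have hby := D1_braid hF ty
  have hrot : S.rot h = S.s1 y := by rw [hy]; rfl
  obtain ⟨z, hz⟩ : ∃ z, z = S.s2 (S.s1 y) := ⟨_, rfl⟩
  have tz : S.tri z := by
    apply (D1_tri_s1 hF _).1
    rw [hz, ← hrot]; exact t2
  have hbz := D1_braid hF tz
  have hrot2 : S.rot (S.rot h) = S.s1 z := by rw [hz, hrot]; rfl
  have hbf := D1_braid hF htf
  -- p
  obtain ⟨g, hg⟩ : ∃ g, g = S.s0 (S.s1 y) := ⟨_, rfl⟩
  have hfg : f = S.s2 (S.s1 g) := by
    rw [hf, hg, D1pf, ← hy, hby]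
  have hgm : S.mult g = 3 := by
    rw [← hp, hfg, D1_mult_s2 hF, D1_mult_s1 hF]
  have hs2g : S.s2 g = S.s0 z := by rw [hg, hz, hF.s0s2]
  have hlf : S.line (S.s1 f) = S.line (S.s1 (S.s0 z)) := by
    rw [hfg, D1_M3_line hF hgm, hs2g]
  -- u
  obtain ⟨w, hw⟩ : ∃ w, w = S.s0 y := ⟨_, rfl⟩
  have hwm : S.mult w = 2 := by
    rw [hw, hy, hF.s0s2, D1_mult_s2 hF, hu]
  have hs0f : S.s0 f = S.s2 (S.s1 w) := by
    rw [hf, D1pf, ← hy, ← hw, hF.s0s2, hF.s0s0]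
  have hl2 : S.line (S.s1 (S.s0 f)) = S.line h := by
    rw [hs0f, D1_M2_line hF hwm, hw, hF.line_s0, hy, hF.line_s2]
  have hl3 : S.line (S.s1 z) = S.line h := by
    rw [← hrot2]
    have := hF.rot_line_opp h
    rw [hh.1] at this
    exact this
  -- r = q
  have hrq : S.vert (S.s0 (S.s1 f)) = S.vert (S.s0 (S.s1 z)) := by
    refine D1_two_lines hF (x := S.s0 (S.s1 f)) (y := S.s0 (S.s1 (S.s0 f)))
      (x' := S.s0 (S.s1 (S.s0 z))) (y' := S.s0 (S.s1 z)) rfl ?_ ?_ rfl ?_ ?_ ?_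
    · rw [hbf, hF.vert_s1]
    · rw [hbz, hF.vert_s1]
    · rw [hF.line_s0, hF.line_s0, hlf]
    · rw [hF.line_s0, hF.line_s0, hl2, hl3]
    · rw [hbf]; exact (D1_line_s1_ne hF _).symm
  have hwv : S.vert w = S.vert (S.s0 h) := by rw [hw, hy, hF.s0s2, hF.vert_s2]
  have hrq' : S.vert (S.s0 (S.s1 (S.s0 f))) = S.vert (S.s0 (S.s1 z)) := by
    rw [hbf, hF.vert_s1, hrq]
  have hzv : S.vert (S.s1 z) = S.vert h := by
    rw [← hrot2, D1_vert_rot hF, D1_vert_rot hF]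
  have hfv : S.vert (S.s1 (S.s0 f)) = S.vert (S.s0 h) := by
    rw [hF.vert_s1, hs0f, hF.vert_s2, hF.vert_s1, hwv]
  have hvu : S.vert (S.s0 h) ≠ S.vert h := hF.vert_s0 h
  have hwe : w = S.s2 (S.s0 h) := by rw [hw, hy, hF.s0s2]
  have hnew := D1_M2_ne hF hwm
  rw [← hs0f] at hnew
  have key := D1_line_closed hF (S.line h)
    {S.vert h, S.vert (S.s0 h), S.vert (S.s0 (S.s1 z))} h rfl (by simp) (by
      intro A hA
      simp only [Finset.mem_insert, Finset.mem_singleton] at hA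
      rcases hA with rfl | rfl | rfl
      · refine ⟨h, S.s1 z, rfl, hzv, rfl, hl3, ?_, ?_, by simp, by simp⟩
        · rw [← hrot2]
          exact D1_rot_ne hF h (j := 2) (k := 0) (by have := hh.1; omega)
            (by have := hh.1; omega) (by omega)
        · rw [← hrot2]
          exact (D1_s2rot_ne hF h (j := 0) (k := 2) (by have := hh.1; omega)
            (by have := hh.1; omega)).symm
      · refine ⟨S.s0 h, S.s1 (S.s0 f), rfl, hfv, hF.line_s0 _, hl2, ?_, ?_, ?_, ?_⟩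
        · have := hnew.2
          rw [hwe, hF.s2s2] at this
          exact this
        · have := hnew.1
          rw [hwe] at this
          exact this
        · rw [hF.s0s0]; simp
        · rw [hrq']; simp
      · have hne : S.vert (S.s0 (S.s0 (S.s1 (S.s0 f)))) ≠ S.vert (S.s0 (S.s0 (S.s1 z))) := by
          rw [hF.s0s0, hF.s0s0, hzv, hfv]; exact hvu
        refine ⟨S.s0 (S.s1 z), S.s0 (S.s1 (S.s0 f)), rfl, hrq', ?_, ?_, ?_, ?_, ?_, ?_⟩
        · rw [hF.line_s0, hl3]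
        · rw [hF.line_s0, hl2]
        · intro hc; rw [hc] at hne; exact hne rfl
        · intro hc
          rw [hc, hF.s0s2, hF.vert_s2] at hne
          exact hne rfl
        · rw [hF.s0s0, hzv]; simp
        · rw [hF.s0s0, hfv]; simp)
  have h1 := D1_sum_insert (S.vert h) {S.vert (S.s0 h), S.vert (S.s0 (S.s1 z))}
    (fun A => A.card - 1)
  have h2 := D1_sum_insert (S.vert (S.s0 h)) {S.vert (S.s0 (S.s1 z))} (fun A => A.card - 1)
  rw [Finset.sum_singleton] at h2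
  have h8 := hM (S.s0 (S.s1 z))
  have h9 := hh.1
  unfold mult at h8 h9 hu
  omega

/-- F4. -/
theorem D1_F4 {h : S.F} (hh : S.full h) (hN : S.mult (S.s0 h) = 3)
    (hE : S.mult (S.s0 (S.s1 h)) = 3) (hSo : S.mult (S.s0 (S.rot (S.rot h))) = 3)
    (hW : S.mult (S.s0 (S.rot h)) = 3)
    (t : S.tri (S.outer h)) (t' : S.tri (S.outer (S.rot (S.rot h)))) : False := by
  classical
  obtain ⟨t0, t1, t2, t3⟩ := D1_nc_full hh
  have hbr := D1_braid hF t0
  obtain ⟨y, hy⟩ : ∃ y, y = S.outer h := ⟨_, rfl⟩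
  obtain ⟨h', hh'⟩ : ∃ h', h' = S.rot (S.rot h) := ⟨_, rfl⟩
  obtain ⟨y', hy'⟩ : ∃ y', y' = S.outer h' := ⟨_, rfl⟩
  rw [← hy] at t
  rw [← hh', ← hy'] at t'
  rw [← hh'] at hSo t2 t3
  obtain ⟨gN, hgN⟩ : ∃ g, g = S.s0 h := ⟨_, rfl⟩
  obtain ⟨gE, hgE⟩ : ∃ g, g = S.s0 (S.s1 h) := ⟨_, rfl⟩
  obtain ⟨gS, hgS⟩ : ∃ g, g = S.s0 h' := ⟨_, rfl⟩
  obtain ⟨gW, hgW⟩ : ∃ g, g = S.s0 (S.s1 h') := ⟨_, rfl⟩
  have hs1h' : S.s1 h' = S.s2 (S.rot h) := by
    rw [hh']; conv_lhs => rw [rot, hF.s1s1]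
  have hWm : S.mult gW = 3 := by
    rw [hgW, hs1h', hF.s0s2, D1_mult_s2 hF, hW]
  rw [← hgN] at hN
  rw [← hgE] at hE
  rw [← hgS] at hSo
  -- y and its neighbours
  have e1 : y = S.s2 (S.s1 gN) := by rw [hy, hgN]; rfl
  have e2 : S.s0 y = S.s2 (S.s1 gE) := by
    rw [e1, hF.s0s2, hgN, hgE, hbr]
  have e1' : y' = S.s2 (S.s1 gS) := by rw [hy', hgS]; rfl
  have hbr' := D1_braid hF t2
  have e2' : S.s0 y' = S.s2 (S.s1 gW) := by
    rw [e1', hF.s0s2, hgS, hgW, hbr']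
  -- the triangle v E S
  obtain ⟨a, ha⟩ : ∃ a, a = S.s2 (S.s1 h) := ⟨_, rfl⟩
  have ha3 : a = S.rot h' := by
    rw [ha, hh', ← D1_rot3 hF hh.1]
  have ta : S.tri a := by rw [ha3]; exact t3
  have hba := D1_braid hF ta
  have hs1a : S.s1 a = S.s2 h' := by
    rw [ha3, rot, hF.s1s1]
  have c2E : S.s1 (S.s2 gE) = S.s1 (S.s0 a) := by rw [hgE, ha, hF.s0s2]
  have c2S : S.s1 (S.s2 gS) = S.s0 (S.s1 (S.s0 a)) := by
    rw [hba, hs1a, hF.s0s2, hgS]
  -- the triangle v N W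
  obtain ⟨b, hb⟩ : ∃ b, b = S.rot h := ⟨_, rfl⟩
  have tb : S.tri b := by rw [hb]; exact t1
  have hbb := D1_braid hF tb
  have hs1b : S.s1 b = S.s2 h := by rw [hb, rot, hF.s1s1]
  have c4N : S.s1 (S.s2 gN) = S.s0 (S.s1 (S.s0 b)) := by
    rw [hbb, hs1b, hF.s0s2, hgN]
  have c4W : S.s1 (S.s2 gW) = S.s1 (S.s0 b) := by
    rw [hgW, ← hF.s0s2, hs1h', hF.s2s2, hb]
  -- lines
  have l1 : S.line (S.s1 y) = S.line (S.s1 (S.s0 b)) := by
    rw [e1, D1_M3_line hF hN, c4N, hF.line_s0]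
  have l2 : S.line (S.s1 (S.s0 y)) = S.line (S.s1 (S.s0 a)) := by
    rw [e2, D1_M3_line hF hE, c2E]
  have l1' : S.line (S.s1 y') = S.line (S.s1 (S.s0 a)) := by
    rw [e1', D1_M3_line hF hSo, c2S, hF.line_s0]
  have l2' : S.line (S.s1 (S.s0 y')) = S.line (S.s1 (S.s0 b)) := by
    rw [e2', D1_M3_line hF hWm, c4W]
  have hby := D1_braid hF t
  have hby' := D1_braid hF t'
  have hZ : S.vert (S.s0 (S.s1 (S.s0 y))) = S.vert (S.s0 (S.s1 y')) := by
    refine D1_two_lines hF (x := S.s0 (S.s1 (S.s0 y))) (y := S.s0 (S.s1 y))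
      (x' := S.s0 (S.s1 y')) (y' := S.s0 (S.s1 (S.s0 y'))) rfl ?_ rfl ?_ ?_ ?_ ?_
    · rw [hby, hF.vert_s1]
    · rw [hby', hF.vert_s1]
    · rw [hF.line_s0, hF.line_s0, l1', l2]
    · rw [hF.line_s0, hF.line_s0, l2', l1]
    · rw [hby]; exact D1_line_s1_ne hF _
  -- the line c2
  have vE : S.vert (S.s1 (S.s0 a)) = S.vert gE := by rw [← c2E, hF.vert_s1, hF.vert_s2]
  have vS : S.vert (S.s0 (S.s1 (S.s0 a))) = S.vert gS := by rw [← c2S, hF.vert_s1, hF.vert_s2]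
  have hES : S.vert gS ≠ S.vert gE := by rw [← vE, ← vS]; exact hF.vert_s0 _
  have vE' : S.vert (S.s1 (S.s0 y)) = S.vert gE := by
    rw [hF.vert_s1, e2, hF.vert_s2, hF.vert_s1]
  have vS' : S.vert (S.s1 y') = S.vert gS := by
    rw [hF.vert_s1, e1', hF.vert_s2, hF.vert_s1]
  have nE := D1_M3_ne hF hE
  rw [← e2, c2E] at nE
  have nS := D1_M3_ne hF hSo
  rw [← e1', c2S] at nS
  have key := D1_line_closed hF (S.line (S.s1 (S.s0 a)))
    {S.vert gE, S.vert gS, S.vert (S.s0 (S.s1 (S.s0 y)))} (S.s1 (S.s0 a)) rfl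
    (by rw [vE]; simp) (by
      intro A hA
      simp only [Finset.mem_insert, Finset.mem_singleton] at hA
      rcases hA with rfl | rfl | rfl
      · refine ⟨S.s1 (S.s0 a), S.s1 (S.s0 y), vE, vE', rfl, l2, nE.1, nE.2, ?_, by simp⟩
        rw [vS]; simp
      · refine ⟨S.s0 (S.s1 (S.s0 a)), S.s1 y', vS, vS', hF.line_s0 _, l1', nS.1, nS.2, ?_, ?_⟩
        · rw [hF.s0s0, vE]; simp
        · rw [← hZ]; simp
      · have hne : S.vert (S.s0 (S.s0 (S.s1 y'))) ≠ S.vert (S.s0 (S.s0 (S.s1 (S.s0 y)))) := by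
          rw [hF.s0s0, hF.s0s0, vE', vS']; exact hES
        refine ⟨S.s0 (S.s1 (S.s0 y)), S.s0 (S.s1 y'), rfl, hZ.symm, ?_, ?_, ?_, ?_, ?_, ?_⟩
        · rw [hF.line_s0, l2]
        · rw [hF.line_s0, l1']
        · intro hc; rw [hc] at hne; exact hne rfl
        · intro hc
          rw [hc, hF.s0s2, hF.vert_s2] at hne
          exact hne rfl
        · rw [hF.s0s0, vE']; simp
        · rw [hF.s0s0, vS']; simp)
  have h1 := D1_sum_insert (S.vert gE) {S.vert gS, S.vert (S.s0 (S.s1 (S.s0 y)))}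
    (fun A => A.card - 1)
  have h2 := D1_sum_insert (S.vert gS) {S.vert (S.s0 (S.s1 (S.s0 y)))} (fun A => A.card - 1)
  rw [Finset.sum_singleton] at h2
  have h8 := hM (S.s0 (S.s1 (S.s0 y)))
  unfold mult at h8 hE hSo
  omega

end local_facts

section count
variable {S : FlagSys 14} (hF : S.Facts) (hM : ∀ f, S.mult f ≤ 8)

/-- indicator. -/
def D1ind (p : Prop) [Decidable p] : ℤ := if p then 1 else 0

theorem D1ind_congr {p q : Prop} [Decidable p] [Decidable q] (h : p ↔ q) : D1ind p = D1ind q := by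
  unfold D1ind
  by_cases hp : p
  · rw [if_pos hp, if_pos (h.1 hp)]
  · rw [if_neg hp, if_neg (fun hq => hp (h.2 hq))]

include hF

theorem D1_sum_s0 (φ : S.F → ℤ) : ∑ f, φ f = ∑ h, φ (S.s0 h) :=
  (Equiv.sum_comp (Function.Involutive.toPerm S.s0 hF.s0s0) φ).symm

theorem D1_sum_s1 (φ : S.F → ℤ) : ∑ f, φ f = ∑ h, φ (S.s1 h) :=
  (Equiv.sum_comp (Function.Involutive.toPerm S.s1 hF.s1s1) φ).symm

theorem D1_sum_s2 (φ : S.F → ℤ) : ∑ f, φ f = ∑ h, φ (S.s2 h) :=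
  (Equiv.sum_comp (Function.Involutive.toPerm S.s2 hF.s2s2) φ).symm

theorem D1_sum_rot (φ : S.F → ℤ) : ∑ f, φ f = ∑ h, φ (S.rot h) := by
  rw [D1_sum_s1 hF, D1_sum_s2 hF]; rfl

theorem D1_sum_outer (φ : S.F → ℤ) : ∑ f, φ f = ∑ h, φ (S.outer h) := by
  rw [D1_sum_s2 hF, D1_sum_s1 hF, D1_sum_s0 hF]; rfl

theorem D1_sum_pf (φ : S.F → ℤ) : ∑ f, φ f = ∑ h, φ (S.D1pf h) := by
  rw [D1_sum_s2 hF, D1_sum_s0 hF, D1_sum_s1 hF, D1_sum_s0 hF, D1_sum_s2 hF]; rfl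

theorem D1_mult_outer (h : S.F) : S.mult (S.outer h) = S.mult (S.s0 h) := by
  unfold outer; rw [D1_mult_s2 hF, D1_mult_s1 hF]

theorem D1_outer_inv (h : S.F) : S.s0 (S.s1 (S.s2 (S.outer h))) = h := by
  unfold outer; rw [hF.s2s2, hF.s1s1, hF.s0s0]

include hM

theorem D1_sumG : ∑ f, D1ind (3 ≤ S.mult f ∧ ¬ S.tri f ∧ S.reqG f) =
    ∑ h, D1ind (S.ty21 h ∧ 3 ≤ S.mult (S.s0 h)) := by
  rw [D1_sum_s0 hF]
  refine Finset.sum_congr rfl (fun h _ => D1ind_congr ?_)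
  unfold reqG
  rw [hF.s0s0, D1_tri_s0 hF]
  constructor
  · rintro ⟨h1, h2, h3⟩; exact ⟨h3, h1⟩
  · rintro ⟨h1, h2⟩; exact ⟨h2, h1.2.2, h1⟩

theorem D1_sumA : ∑ f, D1ind (3 ≤ S.mult f ∧ ¬ S.tri f ∧ S.reqA f) =
    ∑ h, D1ind (S.full h ∧ ¬ S.tri (S.outer h)) := by
  rw [D1_sum_outer hF]
  refine Finset.sum_congr rfl (fun h _ => D1ind_congr ?_)
  unfold reqA
  rw [D1_outer_inv hF]
  constructor
  · rintro ⟨h1, h2, h3, h4⟩; exact ⟨h4, h2⟩
  · rintro ⟨h1, h2⟩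
    obtain ⟨t0, t1, t2, t3⟩ := D1_nc_full h1
    refine ⟨?_, h2, ?_, h1⟩
    · rw [D1_mult_outer hF]
      exact D1_F2 hF hM h1.1 t0 ((D1_tri_s1 hF _).1 t1)
    · unfold outer
      rw [hF.s2s2, D1_tri_s1 hF, D1_tri_s0 hF]
      exact t0

theorem D1_sumB : ∑ f, D1ind (3 ≤ S.mult f ∧ ¬ S.tri f ∧ S.reqB f) =
    ∑ h, D1ind (S.ty21 h ∧ S.mult (S.s0 h) = 2 ∧ S.mult (S.D1pf h) = 3) := by
  rw [D1_sum_pf hF]
  refine Finset.sum_congr rfl (fun h _ => D1ind_congr ?_)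
  unfold reqB
  have e1 : S.s0 (S.s2 (S.s1 (S.s0 (S.s2 (S.D1pf h))))) = h := by
    unfold D1pf
    rw [hF.s2s2, hF.s0s0, hF.s1s1, hF.s0s2, hF.s0s0, hF.s2s2]
  have e2 : S.mult (S.s0 (S.D1pf h)) = S.mult (S.s0 h) := by
    unfold D1pf
    rw [hF.s0s2, hF.s0s0, D1_mult_s2 hF, D1_mult_s1 hF, hF.s0s2, D1_mult_s2 hF]
  have e3 : S.tri (S.s2 (S.D1pf h)) ↔ S.tri (S.s2 h) := by
    unfold D1pf
    rw [hF.s2s2, D1_tri_s0 hF, D1_tri_s1 hF, D1_tri_s0 hF]
  rw [e1, e2, e3]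
  constructor
  · rintro ⟨h1, h2, h3, h4, h5, h6⟩; exact ⟨h6, h5, h3⟩
  · rintro ⟨h1, h2, h3⟩
    refine ⟨by omega, D1_F1 hF hM h1 h2 h3, h3, ?_, h2, h1⟩
    exact (D1_tri_s1 hF _).1 (D1_nc_ty21 h1).1

/-- first part of the load, as a function of the full vertex. -/
def D1c1 {n : ℕ} (S : FlagSys n) (h : S.F) : ℕ :=
  if S.full h ∧ S.nX h = 0 ∧ S.nBig h = 1 then 8
   else if S.full h ∧ S.nX h ≤ 1 then 4 else 0

omit hF hM in
theorem D1_load (f : S.F) : S.load f = S.D1c1 (S.s0 f) +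
    (if S.ty21 (S.outer f) ∧ S.mult (S.s0 (S.outer f)) = 2 then 4 else 0) := rfl

theorem D1_sumLoad : ∑ f, (if 4 ≤ S.mult f then (S.load f : ℤ) else 0) =
    ∑ h, (if 4 ≤ S.mult (S.s0 h) then (S.D1c1 h : ℤ) else 0) +
    ∑ h, 4 * D1ind (S.ty21 h ∧ S.mult (S.s0 h) = 2 ∧ 4 ≤ S.mult (S.D1pf h)) := by
  have e0 : ∀ f, (if 4 ≤ S.mult f then (S.load f : ℤ) else 0) =
      (if 4 ≤ S.mult f then (S.D1c1 (S.s0 f) : ℤ) else 0) +
      4 * D1ind (4 ≤ S.mult f ∧ S.ty21 (S.outer f) ∧ S.mult (S.s0 (S.outer f)) = 2) := by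
    intro f
    rw [D1_load]
    unfold D1ind
    by_cases h4 : 4 ≤ S.mult f
    · by_cases h5 : S.ty21 (S.outer f) ∧ S.mult (S.s0 (S.outer f)) = 2
      · simp [h4, h5]
      · simp only [h4, if_true, if_neg h5, true_and]
        simp
    · simp [h4]
  rw [Finset.sum_congr rfl (fun f _ => e0 f), Finset.sum_add_distrib]
  congr 1
  · rw [D1_sum_s0 hF]
    refine Finset.sum_congr rfl (fun h _ => ?_)
    rw [hF.s0s0]
  · have e1 : ∑ h, 4 * D1ind (S.ty21 h ∧ S.mult (S.s0 h) = 2 ∧ 4 ≤ S.mult (S.D1pf h)) =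
        ∑ h, 4 * D1ind (S.ty21 h ∧ S.mult (S.s0 h) = 2 ∧ 4 ≤ S.mult (S.s0 (S.s1 (S.s2 h)))) := by
      refine Finset.sum_congr rfl (fun h _ => ?_)
      congr 1
      apply D1ind_congr
      constructor
      · rintro ⟨h1, h2, h3⟩
        refine ⟨h1, h2, ?_⟩
        have ty : S.tri (S.s2 h) := (D1_tri_s1 hF _).1 (D1_nc_ty21 h1).1
        unfold D1pf at h3
        rwa [D1_mult_s2 hF, D1_braid hF ty, D1_mult_s1 hF] at h3
      · rintro ⟨h1, h2, h3⟩
        refine ⟨h1, h2, ?_⟩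
        have ty : S.tri (S.s2 h) := (D1_tri_s1 hF _).1 (D1_nc_ty21 h1).1
        unfold D1pf
        rwa [D1_mult_s2 hF, D1_braid hF ty, D1_mult_s1 hF]
    rw [e1, D1_sum_outer hF (fun h => 4 * D1ind (S.ty21 h ∧ S.mult (S.s0 h) = 2 ∧
      4 ≤ S.mult (S.s0 (S.s1 (S.s2 h)))))]
    refine Finset.sum_congr rfl (fun f _ => ?_)
    congr 1
    apply D1ind_congr
    rw [D1_outer_inv hF]
    tauto

/-- what remains at the vertices of multiplicity two. -/
def D1R2 {n : ℕ} (S : FlagSys n) (f : S.F) : ℤ :=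
  if S.mult f = 2 then 2 - 4 * D1ind (S.tri f) -
    (if S.nc f = 0 then ((S.nX f - 2 : ℕ) : ℤ) else ((S.nc f - 2 : ℕ) : ℤ)) else 0

theorem D1_GA {f : S.F} (h1 : S.reqG f) (h2 : S.reqA f) : False := by
  unfold reqG at h1
  unfold reqA at h2
  obtain ⟨ht, hf⟩ := h2
  obtain ⟨t0, t1, t2, t3⟩ := D1_nc_full hf
  have h3 : 3 ≤ S.mult (S.s0 (S.s1 (S.s0 (S.s1 (S.s2 f))))) := by
    apply D1_F2 hF hM
    · rw [D1_mult_s1 hF]; exact hf.1
    · exact (D1_tri_s1 hF _).2 t0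
    · rw [← D1_rot3 hF hf.1]; exact t3
  have h4 : S.s0 (S.s1 (S.s0 (S.s1 (S.s2 f)))) = S.s1 (S.s0 (S.s2 f)) := by
    have hb := D1_braid hF ht
    rw [← hb, hF.s0s0]
  rw [h4, D1_mult_s1 hF, hF.s0s2, D1_mult_s2 hF, h1.1] at h3
  omega

theorem D1_AB {f : S.F} (h1 : S.reqB f) (h2 : S.reqA f) : False := by
  unfold reqB at h1
  unfold reqA at h2
  obtain ⟨ht, hf⟩ := h2
  obtain ⟨t0, t1, t2, t3⟩ := D1_nc_full hf
  have h3 : 3 ≤ S.mult (S.s0 (S.s1 (S.s0 (S.s1 (S.s2 f))))) := by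
    apply D1_F2 hF hM
    · rw [D1_mult_s1 hF]; exact hf.1
    · exact (D1_tri_s1 hF _).2 t0
    · rw [← D1_rot3 hF hf.1]; exact t3
  have h4 : S.s0 (S.s1 (S.s0 (S.s1 (S.s2 f)))) = S.s1 (S.s0 (S.s2 f)) := by
    have hb := D1_braid hF ht
    rw [← hb, hF.s0s0]
  rw [h4, D1_mult_s1 hF, hF.s0s2, D1_mult_s2 hF, h1.2.2.1] at h3
  omega

theorem D1_GB {f : S.F} (h1 : S.reqG f) (h2 : S.reqB f) : False := by
  unfold reqG at h1
  unfold reqB at h2
  obtain ⟨h3, h4, h5, h6⟩ := h2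
  have h7 := h6.2.2
  rw [D1_tri_s0 hF] at h7
  obtain ⟨t1, t2, t3⟩ := D1_nc_ty21 h1
  apply h7
  rw [hF.s0s2]
  have : S.rot (S.rot (S.s0 f)) = S.s1 (S.s2 (S.s1 (S.s2 (S.s0 f)))) := rfl
  rw [this, D1_tri_s1 hF] at t2
  exact t2

theorem D1_point (f : S.F) : 2 * ((S.mult f : ℤ) - 1) - 4 * D1ind (S.tri f) - (S.waste f : ℤ)
    - S.slack f = 4 * D1ind (3 ≤ S.mult f ∧ ¬ S.tri f ∧ S.reqG f) +
      4 * D1ind (3 ≤ S.mult f ∧ ¬ S.tri f ∧ S.reqA f) +
      4 * D1ind (3 ≤ S.mult f ∧ ¬ S.tri f ∧ S.reqB f) +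
      (if 4 ≤ S.mult f then (S.load f : ℤ) else 0) + S.D1R2 f := by
  have hm := hF.two_le f
  rcases Nat.lt_or_ge (S.mult f) 3 with h2 | h3
  · have h2' : S.mult f = 2 := by omega
    unfold waste slack D1R2 D1ind
    rw [h2']
    by_cases ht : S.tri f <;> by_cases hc : S.nc f = 0 <;> simp [ht, hc]
  · have hw : (S.waste f : ℤ) = 4 * D1ind (S.W1 f) := by
      unfold waste D1ind
      by_cases hW : S.W1 f <;> simp [h3, hW]
    have hR : S.D1R2 f = 0 := by unfold D1R2; rw [if_neg (by omega)]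
    have hs : S.slack f = 2 * ((S.mult f : ℤ) - 3) - (if 4 ≤ S.mult f then (S.load f : ℤ) else 0) := by
      unfold slack
      by_cases h4 : 4 ≤ S.mult f
      · rw [if_pos h4, if_pos h4]
      · have : S.mult f = 3 := by omega
        rw [if_neg h4, if_neg h4, this]; norm_num
    have hW : D1ind (S.W1 f) = 1 - D1ind (S.tri f) -
      D1ind (3 ≤ S.mult f ∧ ¬ S.tri f ∧ S.reqG f) -
      D1ind (3 ≤ S.mult f ∧ ¬ S.tri f ∧ S.reqA f) -
      D1ind (3 ≤ S.mult f ∧ ¬ S.tri f ∧ S.reqB f) := by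
      have k1 := fun a b => D1_GA hF hM (f := f) a b
      have k2 := fun a b => D1_AB hF hM (f := f) a b
      have k3 := fun a b => D1_GB hF hM (f := f) a b
      unfold W1 D1ind
      by_cases ht : S.tri f
      · simp [ht]
      · by_cases hG : S.reqG f
        · have hA : ¬ S.reqA f := fun hA => k1 hG hA
          have hB : ¬ S.reqB f := fun hB => k3 hG hB
          simp [ht, hG, hA, hB, h3]
        · by_cases hA : S.reqA f
          · have hB : ¬ S.reqB f := fun hB => k2 hB hA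
            simp [ht, hG, hA, hB, h3]
          · by_cases hB : S.reqB f <;> simp [ht, hG, hA, hB, h3]
    rw [hw, hR, hs, hW]
    ring

/-- the summand after the transfer. -/
def D1E1 {n : ℕ} (S : FlagSys n) (h : S.F) : ℤ :=
  4 * D1ind (S.ty21 h) + 4 * D1ind (S.full h ∧ ¬ S.tri (S.outer h)) +
    (if 4 ≤ S.mult (S.s0 h) then (S.D1c1 h : ℤ) else 0) + S.D1R2 h

theorem D1_total : 2 * ∑ f, ((S.mult f : ℤ) - 1) - 4 * ((Finset.univ.filter S.tri).card : ℤ) -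
    (∑ f, (S.waste f : ℤ) + ∑ f, S.slack f) = ∑ h, S.D1E1 h := by
  have e1 : (4 : ℤ) * ((Finset.univ.filter S.tri).card : ℤ) = ∑ f, 4 * D1ind (S.tri f) := by
    rw [← Finset.mul_sum, Finset.card_filter]
    push_cast
    rfl
  have e2 : 2 * ∑ f, ((S.mult f : ℤ) - 1) - 4 * ((Finset.univ.filter S.tri).card : ℤ) -
    (∑ f, (S.waste f : ℤ) + ∑ f, S.slack f) = ∑ f, (2 * ((S.mult f : ℤ) - 1) -
      4 * D1ind (S.tri f) - (S.waste f : ℤ) - S.slack f) := by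
    rw [e1, Finset.mul_sum, Finset.sum_sub_distrib, Finset.sum_sub_distrib, Finset.sum_sub_distrib]
    ring
  rw [e2, Finset.sum_congr rfl (fun f _ => D1_point hF hM f)]
  simp only [Finset.sum_add_distrib, ← Finset.mul_sum]
  rw [D1_sumG hF hM, D1_sumA hF hM, D1_sumB hF hM, D1_sumLoad hF hM]
  simp only [D1E1, Finset.sum_add_distrib, ← Finset.mul_sum]
  have e3 : ∑ h, D1ind (S.ty21 h) = ∑ h, D1ind (S.ty21 h ∧ 3 ≤ S.mult (S.s0 h)) +
      ∑ h, D1ind (S.ty21 h ∧ S.mult (S.s0 h) = 2 ∧ S.mult (S.D1pf h) = 3) +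
      ∑ h, D1ind (S.ty21 h ∧ S.mult (S.s0 h) = 2 ∧ 4 ≤ S.mult (S.D1pf h)) := by
    rw [← Finset.sum_add_distrib, ← Finset.sum_add_distrib]
    refine Finset.sum_congr rfl (fun h _ => ?_)
    unfold D1ind
    by_cases ht : S.ty21 h
    · have h3 := D1_F3 hF hM ht
      have h2 := hF.two_le (S.s0 h)
      rcases Nat.lt_or_ge (S.mult (S.s0 h)) 3 with h4 | h4
      · have h5 : S.mult (S.s0 h) = 2 := by omega
        rcases Nat.lt_or_ge (S.mult (S.D1pf h)) 4 with h6 | h6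
        · have h7 : S.mult (S.D1pf h) = 3 := by omega
          simp [ht, h5, h7]
        · have h7 : S.mult (S.D1pf h) ≠ 3 := by omega
          simp [ht, h5, h6, h7]
      · have h5 : S.mult (S.s0 h) ≠ 2 := by omega
        simp [ht, h4, h5]
    · simp [ht]
  rw [e3]
  ring

omit hM in
theorem D1_avg (φ : S.F → ℤ) : 4 * ∑ h, φ h = ∑ h, (φ h + φ (S.rot h) + φ (S.rot (S.rot h)) +
    φ (S.rot (S.rot (S.rot h)))) := by
  rw [Finset.sum_add_distrib, Finset.sum_add_distrib, Finset.sum_add_distrib,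
    ← D1_sum_rot hF φ, ← D1_sum_rot hF (fun h => φ (S.rot h)), ← D1_sum_rot hF φ,
    ← D1_sum_rot hF (fun h => φ (S.rot (S.rot h))), ← D1_sum_rot hF (fun h => φ (S.rot h)),
    ← D1_sum_rot hF φ]
  ring

/-- the numbers at one corner. -/
def D1na {n : ℕ} (S : FlagSys n) (h : S.F) : ℕ := if S.tri h then 0 else 1
def D1nx {n : ℕ} (S : FlagSys n) (h : S.F) : ℕ := if S.tri (S.outer h) then 0 else 1
def D1nb {n : ℕ} (S : FlagSys n) (h : S.F) : ℕ := if 4 ≤ S.mult (S.s0 h) then 1 else 0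

omit hF hM in
theorem D1_nc_eq (h : S.F) : S.nc h = S.D1na h + S.D1na (S.rot h) + S.D1na (S.rot (S.rot h)) +
    S.D1na (S.rot (S.rot (S.rot h))) := rfl

omit hF hM in
theorem D1_nX_eq (h : S.F) : S.nX h = S.D1nx h + S.D1nx (S.rot h) + S.D1nx (S.rot (S.rot h)) +
    S.D1nx (S.rot (S.rot (S.rot h))) := rfl

omit hF hM in
theorem D1_nBig_eq (h : S.F) : S.nBig h = S.D1nb h + S.D1nb (S.rot h) + S.D1nb (S.rot (S.rot h)) +
    S.D1nb (S.rot (S.rot (S.rot h))) := rfl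

/-- the load of a corner as a function of the three numbers. -/
def D1cc (A X B : ℕ) : ℕ := if A = 0 ∧ X = 0 ∧ B = 1 then 8 else if A = 0 ∧ X ≤ 1 then 4 else 0

omit hF hM in
theorem D1_E1_two {h : S.F} (h2 : S.mult h = 2) : S.D1E1 h =
    4 * (if S.nc h = 1 then (S.D1na h : ℤ) else 0) + 4 * (if S.nc h = 0 then (S.D1nx h : ℤ) else 0) +
    (S.D1nb h : ℤ) * (D1cc (S.nc h) (S.nX h) (S.nBig h) : ℤ) + 4 * (S.D1na h : ℤ) - 2 -
    (if S.nc h = 0 then ((S.nX h - 2 : ℕ) : ℤ) else ((S.nc h - 2 : ℕ) : ℤ)) := by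
  have hcc : (S.D1c1 h : ℤ) = (D1cc (S.nc h) (S.nX h) (S.nBig h) : ℤ) := by
    unfold D1c1 D1cc full
    simp only [h2, true_and]
  have hb : (if 4 ≤ S.mult (S.s0 h) then (S.D1c1 h : ℤ) else 0) =
      (S.D1nb h : ℤ) * (D1cc (S.nc h) (S.nX h) (S.nBig h) : ℤ) := by
    rw [hcc]; unfold D1nb
    by_cases h4 : 4 ≤ S.mult (S.s0 h) <;> simp [h4]
  have hR : S.D1R2 h = 4 * (S.D1na h : ℤ) - 2 -
    (if S.nc h = 0 then ((S.nX h - 2 : ℕ) : ℤ) else ((S.nc h - 2 : ℕ) : ℤ)) := by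
    unfold D1R2 D1na D1ind
    rw [if_pos h2]
    by_cases ht : S.tri h <;> simp [ht]
  have h1 : D1ind (S.ty21 h) = (if S.nc h = 1 then (S.D1na h : ℤ) else 0) := by
    unfold D1ind ty21 D1na
    by_cases hc : S.nc h = 1 <;> by_cases ht : S.tri h <;> simp [h2, hc, ht]
  have h3 : D1ind (S.full h ∧ ¬ S.tri (S.outer h)) = (if S.nc h = 0 then (S.D1nx h : ℤ) else 0) := by
    unfold D1ind full D1nx
    by_cases hc : S.nc h = 0 <;> by_cases ht : S.tri (S.outer h) <;> simp [h2, hc, ht]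
  unfold D1E1
  rw [hb, hR, h1, h3]
  ring

omit hF hM in
theorem D1_E1_ne {h : S.F} (h2 : S.mult h ≠ 2) : S.D1E1 h = 0 := by
  unfold D1E1 D1ind D1c1 D1R2 ty21 full
  simp [h2]

theorem D1_nBig {h : S.F} (hh : S.full h) (hx : S.nX h ≤ 1) : 1 ≤ S.nBig h := by
  obtain ⟨t0, t1, t2, t3⟩ := D1_nc_full hh
  have hm := hh.1
  have hm1 : S.mult (S.rot h) = 2 := by rw [D1_mult_rot hF, hm]
  have hm2 : S.mult (S.rot (S.rot h)) = 2 := by rw [D1_mult_rot hF, hm1]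
  have hm3 : S.mult (S.rot (S.rot (S.rot h))) = 2 := by rw [D1_mult_rot hF, hm2]
  have r4 := D1_rot4 hF hm
  have k0 : 3 ≤ S.mult (S.s0 h) := D1_F2 hF hM hm t0 ((D1_tri_s1 hF _).1 t1)
  have k1 : 3 ≤ S.mult (S.s0 (S.rot h)) := D1_F2 hF hM hm1 t1 ((D1_tri_s1 hF _).1 t2)
  have k2 : 3 ≤ S.mult (S.s0 (S.rot (S.rot h))) := D1_F2 hF hM hm2 t2 ((D1_tri_s1 hF _).1 t3)
  have k3 : 3 ≤ S.mult (S.s0 (S.rot (S.rot (S.rot h)))) :=
    D1_F2 hF hM hm3 t3 ((D1_tri_s1 hF _).1 (by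
      change S.tri (S.rot (S.rot (S.rot (S.rot h)))); rw [r4]; exact t0))
  by_contra hcon
  have hB : S.D1nb h = 0 ∧ S.D1nb (S.rot h) = 0 ∧ S.D1nb (S.rot (S.rot h)) = 0 ∧
      S.D1nb (S.rot (S.rot (S.rot h))) = 0 := by
    rw [D1_nBig_eq] at hcon; omega
  have hnb : ∀ g, S.D1nb g = 0 → 3 ≤ S.mult (S.s0 g) → S.mult (S.s0 g) = 3 := by
    intro g hg h3
    unfold D1nb at hg
    by_contra hne
    rw [if_pos (by omega)] at hg
    omega
  have m0 := hnb _ hB.1 k0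
  have m1 := hnb _ hB.2.1 k1
  have m2 := hnb _ hB.2.2.1 k2
  have m3 := hnb _ hB.2.2.2 k3
  have m3' : S.mult (S.s0 (S.s1 h)) = 3 := by
    rw [D1_rot3 hF hm, hF.s0s2, D1_mult_s2 hF] at m3; exact m3
  have f4 : ¬ (S.tri (S.outer h) ∧ S.tri (S.outer (S.rot (S.rot h)))) :=
    fun hc => D1_F4 hF hM hh m0 m3' m2 m1 hc.1 hc.2
  have hh1 : S.full (S.rot h) := by
    refine ⟨hm1, ?_⟩
    rw [D1_nc_eq, r4]
    have := hh.2
    rw [D1_nc_eq] at this
    omega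
  have m0' : S.mult (S.s0 (S.s1 (S.rot h))) = 3 := by
    have : S.s1 (S.rot h) = S.s2 h := by unfold rot; rw [hF.s1s1]
    rw [this, hF.s0s2, D1_mult_s2 hF]; exact m0
  have f4' : ¬ (S.tri (S.outer (S.rot h)) ∧ S.tri (S.outer (S.rot (S.rot (S.rot h))))) :=
    fun hc => D1_F4 hF hM hh1 m1 m0' m3 m2 hc.1 hc.2
  have hx1 : ∀ g, ¬ S.tri (S.outer g) → S.D1nx g = 1 := by
    intro g hg; unfold D1nx; rw [if_neg hg]
  rw [D1_nX_eq] at hx
  by_cases o0 : S.tri (S.outer h)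
  · have o2 := hx1 _ (fun hc => f4 ⟨o0, hc⟩)
    by_cases o1 : S.tri (S.outer (S.rot h))
    · have o3 := hx1 _ (fun hc => f4' ⟨o1, hc⟩)
      omega
    · have := hx1 _ o1
      omega
  · have o0' := hx1 _ o0
    by_cases o1 : S.tri (S.outer (S.rot h))
    · have o3 := hx1 _ (fun hc => f4' ⟨o1, hc⟩)
      omega
    · have := hx1 _ o1
      omega

theorem D1_pos (h : S.F) : 0 ≤ S.D1E1 h + S.D1E1 (S.rot h) + S.D1E1 (S.rot (S.rot h)) +
    S.D1E1 (S.rot (S.rot (S.rot h))) := by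
  by_cases hm : S.mult h = 2
  swap
  · rw [D1_E1_ne hm, D1_E1_ne (by rw [D1_mult_rot hF]; exact hm),
      D1_E1_ne (by rw [D1_mult_rot hF, D1_mult_rot hF]; exact hm),
      D1_E1_ne (by rw [D1_mult_rot hF, D1_mult_rot hF, D1_mult_rot hF]; exact hm)]
    norm_num
  have hm1 : S.mult (S.rot h) = 2 := by rw [D1_mult_rot hF, hm]
  have hm2 : S.mult (S.rot (S.rot h)) = 2 := by rw [D1_mult_rot hF, hm1]
  have hm3 : S.mult (S.rot (S.rot (S.rot h))) = 2 := by rw [D1_mult_rot hF, hm2]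
  have r4 := D1_rot4 hF hm
  obtain ⟨A, hA⟩ : ∃ A, A = S.nc h := ⟨_, rfl⟩
  obtain ⟨X, hX⟩ : ∃ A, A = S.nX h := ⟨_, rfl⟩
  obtain ⟨B, hB⟩ : ∃ A, A = S.nBig h := ⟨_, rfl⟩
  have A0 := hA
  have X0 := hX
  have B0 := hB
  rw [D1_nc_eq] at A0
  rw [D1_nX_eq] at X0
  rw [D1_nBig_eq] at B0
  have A1 : S.nc (S.rot h) = A := by rw [D1_nc_eq, r4]; omega
  have A2 : S.nc (S.rot (S.rot h)) = A := by rw [D1_nc_eq, r4]; omega
  have A3 : S.nc (S.rot (S.rot (S.rot h))) = A := by rw [D1_nc_eq, r4]; omega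
  have X1 : S.nX (S.rot h) = X := by rw [D1_nX_eq, r4]; omega
  have X2 : S.nX (S.rot (S.rot h)) = X := by rw [D1_nX_eq, r4]; omega
  have X3 : S.nX (S.rot (S.rot (S.rot h))) = X := by rw [D1_nX_eq, r4]; omega
  have B1 : S.nBig (S.rot h) = B := by rw [D1_nBig_eq, r4]; omega
  have B2 : S.nBig (S.rot (S.rot h)) = B := by rw [D1_nBig_eq, r4]; omega
  have B3 : S.nBig (S.rot (S.rot (S.rot h))) = B := by rw [D1_nBig_eq, r4]; omega
  rw [D1_E1_two hm, D1_E1_two hm1, D1_E1_two hm2, D1_E1_two hm3, A1, A2, A3, X1, X2, X3,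
    B1, B2, B3, ← hA, ← hX, ← hB]
  have hbig : A = 0 → X ≤ 1 → 1 ≤ B := by
    intro h0 h1
    rw [hB]
    exact D1_nBig hF hM ⟨hm, by rw [← hA]; exact h0⟩ (by rw [← hX]; exact h1)
  have A0' : (A : ℤ) = S.D1na h + S.D1na (S.rot h) + S.D1na (S.rot (S.rot h)) +
    S.D1na (S.rot (S.rot (S.rot h))) := by rw [A0]; push_cast; ring
  have X0' : (X : ℤ) = S.D1nx h + S.D1nx (S.rot h) + S.D1nx (S.rot (S.rot h)) +
    S.D1nx (S.rot (S.rot (S.rot h))) := by rw [X0]; push_cast; ring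
  have B0' : (B : ℤ) = S.D1nb h + S.D1nb (S.rot h) + S.D1nb (S.rot (S.rot h)) +
    S.D1nb (S.rot (S.rot (S.rot h))) := by rw [B0]; push_cast; ring
  have key : 4 * (if A = 1 then (S.D1na h : ℤ) else 0) + 4 * (if A = 0 then (S.D1nx h : ℤ) else 0) +
    (S.D1nb h : ℤ) * (D1cc A X B : ℤ) + 4 * (S.D1na h : ℤ) - 2 -
    (if A = 0 then ((X - 2 : ℕ) : ℤ) else ((A - 2 : ℕ) : ℤ)) +
    (4 * (if A = 1 then (S.D1na (S.rot h) : ℤ) else 0) +
      4 * (if A = 0 then (S.D1nx (S.rot h) : ℤ) else 0) +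
    (S.D1nb (S.rot h) : ℤ) * (D1cc A X B : ℤ) + 4 * (S.D1na (S.rot h) : ℤ) - 2 -
    (if A = 0 then ((X - 2 : ℕ) : ℤ) else ((A - 2 : ℕ) : ℤ))) +
    (4 * (if A = 1 then (S.D1na (S.rot (S.rot h)) : ℤ) else 0) +
      4 * (if A = 0 then (S.D1nx (S.rot (S.rot h)) : ℤ) else 0) +
    (S.D1nb (S.rot (S.rot h)) : ℤ) * (D1cc A X B : ℤ) + 4 * (S.D1na (S.rot (S.rot h)) : ℤ) - 2 -
    (if A = 0 then ((X - 2 : ℕ) : ℤ) else ((A - 2 : ℕ) : ℤ))) +
    (4 * (if A = 1 then (S.D1na (S.rot (S.rot (S.rot h))) : ℤ) else 0) +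
      4 * (if A = 0 then (S.D1nx (S.rot (S.rot (S.rot h))) : ℤ) else 0) +
    (S.D1nb (S.rot (S.rot (S.rot h))) : ℤ) * (D1cc A X B : ℤ) +
      4 * (S.D1na (S.rot (S.rot (S.rot h))) : ℤ) - 2 -
    (if A = 0 then ((X - 2 : ℕ) : ℤ) else ((A - 2 : ℕ) : ℤ))) =
    4 * (if A = 1 then (A : ℤ) else 0) + 4 * (if A = 0 then (X : ℤ) else 0) +
      (B : ℤ) * (D1cc A X B : ℤ) + 4 * (A : ℤ) - 8 -
      4 * (if A = 0 then ((X - 2 : ℕ) : ℤ) else ((A - 2 : ℕ) : ℤ)) := by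
    rw [A0', X0', B0']
    by_cases hA1 : A = 1
    · have hA0 : A ≠ 0 := by omega
      simp only [if_pos hA1, if_neg hA0]; ring
    · by_cases hA0 : A = 0
      · simp only [if_neg hA1, if_pos hA0]; ring
      · simp only [if_neg hA1, if_neg hA0]; ring
  rw [key]
  clear key
  have hBc : (0 : ℤ) ≤ (B : ℤ) * (D1cc A X B : ℤ) := by positivity
  rcases Nat.lt_or_ge A 1 with hA0 | hA1
  · have hA0' : A = 0 := by omega
    subst hA0'
    simp only [if_true, zero_ne_one, if_false]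
    rcases Nat.lt_or_ge X 2 with hX2 | hX2
    · have hB1 := hbig rfl (by omega)
      have hX2' : X - 2 = 0 := by omega
      rw [hX2']
      have hcc : 8 - 4 * (X : ℤ) ≤ (B : ℤ) * (D1cc 0 X B : ℤ) := by
        unfold D1cc
        rcases Nat.lt_or_ge X 1 with h0 | h1
        · have : X = 0 := by omega
          subst this
          by_cases hB2 : B = 1
          · subst hB2; simp
          · have : 2 ≤ B := by omega
            simp only [hB2, and_false, if_false, true_and, zero_le, if_true]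
            push_cast
            have : (2 : ℤ) ≤ B := by exact_mod_cast this
            linarith
        · have : X = 1 := by omega
          subst this
          simp
          omega
      push_cast
      linarith
    · have : ((X - 2 : ℕ) : ℤ) = (X : ℤ) - 2 := by push_cast [Nat.cast_sub hX2]; ring
      rw [this]
      push_cast
      linarith
  · rcases Nat.lt_or_ge A 2 with hA2 | hA2
    · have : A = 1 := by omega
      subst this
      simp
    · have hA0 : A ≠ 0 := by omega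
      have hA1' : A ≠ 1 := by omega
      have : ((A - 2 : ℕ) : ℤ) = (A : ℤ) - 2 := by push_cast [Nat.cast_sub hA2]; ring
      simp only [if_neg hA0, if_neg hA1']
      rw [this]
      linarith

end count

end FlagSys

open FlagSys

/-- Block D1. -/
theorem discharge (S : FlagSys 14) (hF : S.Facts) (hM : ∀ f, S.mult f ≤ 8) :
    ∑ f, (S.waste f : ℤ) + ∑ f, S.slack f ≤
      2 * ∑ f, ((S.mult f : ℤ) - 1) - 4 * ((Finset.univ.filter S.tri).card : ℤ) := by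
  have h1 := D1_total hF hM
  have h2 := D1_avg hF S.D1E1
  have h3 : 0 ≤ ∑ h, (S.D1E1 h + S.D1E1 (S.rot h) + S.D1E1 (S.rot (S.rot h)) +
    S.D1E1 (S.rot (S.rot (S.rot h)))) := Finset.sum_nonneg (fun h _ => D1_pos hF hM h)
  linarith

end Pool.Agent.Helper15.PL
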