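import Mathlib

/-!
# Arrangements of pseudo-lines and of lines in the real projective plane
-/

namespace Pool.Agent.Helper15.PL

/-- Nonzero vectors of `ℝ³`. -/
abbrev NZ : Type := {v : Fin 3 → ℝ // v ≠ 0}

/-- The real projective plane: the set of lines through `0` in `ℝ³`. -/
def RP2 : Type := Projectivization ℝ (Fin 3 → ℝ)

/-- The point of the projective plane with homogeneous coordinates `v`. -/
noncomputable def RP2.mk (v : NZ) : RP2 := Projectivization.mk ℝ v.1 v.2

/-- The projective plane has the quotient topology of `ℝ³ \ {0}`. -/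
noncomputable instance : TopologicalSpace RP2 :=
  TopologicalSpace.coinduced RP2.mk inferInstance

/-- A simple closed curve in the projective plane: the image of the circle under a continuous
injective map. -/
def IsSimpleClosedCurve (C : Set RP2) : Prop :=
  ∃ γ : Circle → RP2, Continuous γ ∧ Function.Injective γ ∧ Set.range γ = C

/-- The sets `C` and `D` cross at `x`: some homeomorphism `e` from an open neighbourhood of `x`
to an open subset of the plane `ℝ × ℝ` takes `x` to the origin, `C` to the horizontal axis and `D`
to the vertical axis. -/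
def CrossAt (C D : Set RP2) (x : RP2) : Prop :=
  ∃ e : OpenPartialHomeomorph RP2 (ℝ × ℝ), x ∈ e.source ∧ e x = (0, 0) ∧
    (∀ y ∈ e.source, y ∈ C ↔ (e y).2 = 0) ∧ (∀ y ∈ e.source, y ∈ D ↔ (e y).1 = 0)

/-- An arrangement of `n` pseudo-lines: simple closed curves in the projective plane, any two of
which meet in exactly one point, where they cross, and with no point common to all of them. -/
structure IsPseudolineArrangement {n : ℕ} (C : Fin n → Set RP2) : Prop where
  simple_closed : ∀ i, IsSimpleClosedCurve (C i)
  cross : ∀ i j, i ≠ j → ∃ x, C i ∩ C j = {x} ∧ CrossAt (C i) (C j) x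
  not_concurrent : ¬ ∃ x, ∀ i, x ∈ C i

/-- The projective line with equation `a 0 * x 0 + a 1 * x 1 + a 2 * x 2 = 0`. -/
def projLine (a : Fin 3 → ℝ) : Set RP2 := {x | ∃ v : NZ, RP2.mk v = x ∧ a ⬝ᵥ v.1 = 0}

/-- An arrangement of `n` lines: `n` different projective lines with no point common to all. -/
structure IsLineArrangement {n : ℕ} (C : Fin n → Set RP2) : Prop where
  line : ∀ i, ∃ a : Fin 3 → ℝ, a ≠ 0 ∧ C i = projLine a
  injective : Function.Injective C
  not_concurrent : ¬ ∃ x, ∀ i, x ∈ C i

/-- The points that lie on none of the curves. -/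
def offCurves {n : ℕ} (C : Fin n → Set RP2) : Set RP2 := {x | ∀ i, x ∉ C i}

/-- The points of the curve `C i` that lie on none of the other curves. -/
def onlyOn {n : ℕ} (C : Fin n → Set RP2) (i : Fin n) : Set RP2 := {x | x ∈ C i ∧ ∀ j, j ≠ i → x ∉ C j}

/-- The faces of an arrangement: the connected components of the complement of the union of the
curves. -/
def IsFace {n : ℕ} (C : Fin n → Set RP2) (F : Set RP2) : Prop :=
  ∃ x ∈ offCurves C, F = connectedComponentIn (offCurves C) x

/-- The edges on the curve `C i`: the connected components of `C i` minus all other curves. -/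
def IsEdge {n : ℕ} (C : Fin n → Set RP2) (i : Fin n) (E : Set RP2) : Prop :=
  ∃ x ∈ onlyOn C i, E = connectedComponentIn (onlyOn C i) x

/-- The indices of the curves that contain an edge of the boundary of `F`. -/
def sides {n : ℕ} (C : Fin n → Set RP2) (F : Set RP2) : Set (Fin n) :=
  {i | ∃ E, IsEdge C i E ∧ E ⊆ frontier F}

/-- The number of `k`-gonal faces, as an extended natural number. -/
noncomputable def numGons {n : ℕ} (C : Fin n → Set RP2) (k : ℕ) : ℕ∞ :=
  Set.encard {F | IsFace C F ∧ (sides C F).encard = k}

end Pool.Agent.Helper15.PL
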