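import Pool.Agent.Helper15.PL.Vec

/-!
# Flag systems and charts

A flag of a line arrangement in the projective plane is a triple (vertex, edge, face), mutually
incident. `s0, s1, s2` change the vertex, the edge, the face. A chart lists the flags in an affine
picture in which the lines are graphs of increasing slopes.
-/

namespace Pool.Agent.Helper15.PL

/-- A finite set of flags with the three involutions, the line of the edge of a flag, and the set
of lines through the vertex of a flag. (No axioms: they follow from the existence of a chart.) -/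
structure FlagSys (n : ℕ) where
  F : Type
  fin : Fintype F
  dec : DecidableEq F
  s0 : F → F
  s1 : F → F
  s2 : F → F
  line : F → Fin n
  vert : F → Finset (Fin n)

attribute [instance] FlagSys.fin FlagSys.dec

/-- The order data of a picture with lines `0, 1, ..., n-1` in the order of increasing slopes:
`X i j` is the abscissa of the intersection point of lines `i` and `j`. -/
structure Wiring (n : ℕ) where
  X : Fin n → Fin n → ℝ
  symm : ∀ i j, X i j = X j i
  btw : ∀ i j k, i < j → j < k →
    (X i j < X i k ∧ X i k < X j k) ∨ (X i j = X i k ∧ X i k = X j k) ∨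
    (X j k < X i k ∧ X i k < X i j)

/-- A chart of a flag system: the flag `Φ i a d s` is at the intersection point of the lines `i`
and `a`, its edge is on the line `i`, to the right of the vertex if `d = true` and to the left if
`d = false`, and its face is above the line `i` near the vertex if `s = true` and below it if
`s = false`. Meaningful only for `i ≠ a`. -/
structure Chart {n : ℕ} (S : FlagSys n) (W : Wiring n) where
  perm : Equiv.Perm (Fin n)
  Φ : Fin n → Fin n → Bool → Bool → S.F
  surj : ∀ f, ∃ i a d s, i ≠ a ∧ Φ i a d s = f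
  eq_iff : ∀ i a d s j b d' s', i ≠ a → j ≠ b →
    (Φ i a d s = Φ j b d' s' ↔ i = j ∧ W.X i a = W.X i b ∧ d = d' ∧ s = s')
  line_Φ : ∀ i a d s, i ≠ a → S.line (Φ i a d s) = perm i
  mem_vert : ∀ i a d s l, i ≠ a → (perm l ∈ S.vert (Φ i a d s) ↔ l = i ∨ W.X i l = W.X i a)
  s2_Φ : ∀ i a d s, i ≠ a → S.s2 (Φ i a d s) = Φ i a d (!s)
  s0_next : ∀ i a b s, i ≠ a → i ≠ b → W.X i a < W.X i b →
    (∀ l, l ≠ i → W.X i l ≤ W.X i a ∨ W.X i b ≤ W.X i l) →
    S.s0 (Φ i a true s) = Φ i b false s ∧ S.s0 (Φ i b false s) = Φ i a true s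
  s0_wrap : ∀ i a b s, i ≠ a → i ≠ b → (∀ l, l ≠ i → W.X i l ≤ W.X i a ∧ W.X i b ≤ W.X i l) →
    S.s0 (Φ i a true s) = Φ i b false (!s) ∧ S.s0 (Φ i b false (!s)) = Φ i a true s
  s1_right : ∀ i j, i < j → (∀ l, i < l → l < j → W.X i l ≠ W.X i j) →
    S.s1 (Φ i j true true) = Φ j i true false ∧ S.s1 (Φ j i true false) = Φ i j true true
  s1_left : ∀ i j, i < j → (∀ l, i < l → l < j → W.X i l ≠ W.X i j) →
    S.s1 (Φ i j false false) = Φ j i false true ∧ S.s1 (Φ j i false true) = Φ i j false false
  s1_top : ∀ i j, i < j → (∀ l, l < i ∨ j < l → W.X i l ≠ W.X i j) →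
    S.s1 (Φ j i true true) = Φ i j false true ∧ S.s1 (Φ i j false true) = Φ j i true true
  s1_bot : ∀ i j, i < j → (∀ l, l < i ∨ j < l → W.X i l ≠ W.X i j) →
    S.s1 (Φ i j true false) = Φ j i false false ∧ S.s1 (Φ j i false false) = Φ i j true false

namespace FlagSys

variable {n : ℕ} (S : FlagSys n)

/-- The face of the flag is a triangle. -/
def tri (f : S.F) : Prop := S.s0 (S.s1 (S.s0 (S.s1 (S.s0 (S.s1 f))))) = f

instance (f : S.F) : Decidable (S.tri f) := by unfold tri; infer_instance

/-- Number of lines through the vertex. -/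
def mult (f : S.F) : ℕ := (S.vert f).card

/-- Rotation about the vertex to the next corner. -/
def rot (f : S.F) : S.F := S.s1 (S.s2 f)

/-- The flag on the other side of the far side of the face (used when the face is a triangle with
the vertex of `f` opposite to that side); its vertex is the other end of the edge of `f`. -/
def outer (f : S.F) : S.F := S.s2 (S.s1 (S.s0 f))

/-- Number of nontriangular corners at a vertex on two lines. -/
def nc (f : S.F) : ℕ :=
  (if S.tri f then 0 else 1) + (if S.tri (S.rot f) then 0 else 1) +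
  (if S.tri (S.rot (S.rot f)) then 0 else 1) + (if S.tri (S.rot (S.rot (S.rot f))) then 0 else 1)

/-- The vertex is of type (2,0): two lines, all four corners triangular. -/
def full (f : S.F) : Prop := S.mult f = 2 ∧ S.nc f = 0

/-- The vertex is of type (2,1): two lines, three triangular corners; and the corner of `f` is the
nontriangular one. -/
def ty21 (f : S.F) : Prop := S.mult f = 2 ∧ S.nc f = 1 ∧ ¬ S.tri f

instance (f : S.F) : Decidable (S.full f) := by unfold full; infer_instance
instance (f : S.F) : Decidable (S.ty21 f) := by unfold ty21; infer_instance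

/-- For a vertex of type (2,0): the number of nontriangular faces among the four faces beyond the
far sides of its four triangles. -/
def nX (f : S.F) : ℕ :=
  (if S.tri (S.outer f) then 0 else 1) + (if S.tri (S.outer (S.rot f)) then 0 else 1) +
  (if S.tri (S.outer (S.rot (S.rot f))) then 0 else 1) +
  (if S.tri (S.outer (S.rot (S.rot (S.rot f)))) then 0 else 1)

/-- Number of neighbours of multiplicity at least four, for a vertex on two lines. -/
def nBig (f : S.F) : ℕ :=
  (if 4 ≤ S.mult (S.s0 f) then 1 else 0) + (if 4 ≤ S.mult (S.s0 (S.rot f)) then 1 else 0) +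
  (if 4 ≤ S.mult (S.s0 (S.rot (S.rot f))) then 1 else 0) +
  (if 4 ≤ S.mult (S.s0 (S.rot (S.rot (S.rot f)))) then 1 else 0)

/-- Requests of the three kinds. -/
def reqG (f : S.F) : Prop := S.ty21 (S.s0 f)

def reqA (f : S.F) : Prop := S.tri (S.s2 f) ∧ S.full (S.s0 (S.s1 (S.s2 f)))

def reqB (f : S.F) : Prop :=
  S.mult f = 3 ∧ S.tri (S.s2 f) ∧ S.mult (S.s0 f) = 2 ∧
    S.ty21 (S.s0 (S.s2 (S.s1 (S.s0 (S.s2 f)))))

instance (f : S.F) : Decidable (S.reqG f) := by unfold reqG; infer_instance
instance (f : S.F) : Decidable (S.reqA f) := by unfold reqA; infer_instance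
instance (f : S.F) : Decidable (S.reqB f) := by unfold reqB; infer_instance

/-- A nontriangular corner at a vertex of multiplicity at least three that is not requested
through the edge of `f`. -/
def W1 (f : S.F) : Prop :=
  3 ≤ S.mult f ∧ ¬ S.tri f ∧ ¬ S.reqG f ∧ ¬ S.reqA f ∧ ¬ S.reqB f

instance (f : S.F) : Decidable (S.W1 f) := by unfold W1; infer_instance

/-- Waste of a flag (in quarters of the half unit). -/
def waste (f : S.F) : ℕ :=
  if 3 ≤ S.mult f then (if S.W1 f then 4 else 0)
  else if S.nc f = 0 then S.nX f - 2 else S.nc f - 2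

/-- The load that the neighbour across the edge of `f` may put on the vertex of `f`
(of multiplicity at least four). -/
def load (f : S.F) : ℕ :=
  (if S.full (S.s0 f) ∧ S.nX (S.s0 f) = 0 ∧ S.nBig (S.s0 f) = 1 then 8
   else if S.full (S.s0 f) ∧ S.nX (S.s0 f) ≤ 1 then 4 else 0) +
  (if S.ty21 (S.outer f) ∧ S.mult (S.s0 (S.outer f)) = 2 then 4 else 0)

/-- Bulk minus load of a flag at a vertex of multiplicity at least four. -/
def slack (f : S.F) : ℤ := if 4 ≤ S.mult f then 2 * ((S.mult f : ℤ) - 3) - S.load f else 0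

/-- The data of the picture `W` are those of the lines with coefficient vectors `a`. -/
def _root_.Pool.Agent.Helper15.PL.Realizes {n : ℕ} (a : Fin n → V3) (W : Wiring n) : Prop :=
  ∀ i j k, i < j → j < k → (0 < det3 (a i) (a j) (a k) ↔ W.X i j < W.X i k) ∧
    (det3 (a i) (a j) (a k) = 0 ↔ W.X i j = W.X i k)

/-- Every flag is the standard flag of some chart: edge on line `0`, to the right of its first
vertex, face above line `0`; all vertices of the picture are on or above line `0`. -/
def HasCharts (S : FlagSys 14) : Prop :=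
  ∀ f : S.F, ∃ (W : Wiring 14) (c : Chart S W), c.Φ 0 1 true true = f ∧
    (∀ j k, 0 < j → j < k → W.X 0 j ≤ W.X 0 k) ∧ ∃ a : Fin 14 → V3, Realizes a W

/-- The basic facts on the flags of an arrangement (all follow from one chart, see `Facts`). -/
structure Facts (S : FlagSys n) : Prop where
  s0s0 : ∀ f, S.s0 (S.s0 f) = f
  s1s1 : ∀ f, S.s1 (S.s1 f) = f
  s2s2 : ∀ f, S.s2 (S.s2 f) = f
  s0s2 : ∀ f, S.s0 (S.s2 f) = S.s2 (S.s0 f)
  line_s0 : ∀ f, S.line (S.s0 f) = S.line f
  line_s2 : ∀ f, S.line (S.s2 f) = S.line f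
  vert_s1 : ∀ f, S.vert (S.s1 f) = S.vert f
  vert_s2 : ∀ f, S.vert (S.s2 f) = S.vert f
  line_mem : ∀ f, S.line f ∈ S.vert f
  two_le : ∀ f, 2 ≤ S.mult f
  vert_s0 : ∀ f, S.vert (S.s0 f) ≠ S.vert f
  two_lines : ∀ f g i j, i ≠ j → i ∈ S.vert f → j ∈ S.vert f → i ∈ S.vert g → j ∈ S.vert g →
    S.vert f = S.vert g
  rot_line_ne : ∀ f k, 0 < k → k < S.mult f → S.line (S.rot^[k] f) ≠ S.line f
  rot_line_opp : ∀ f, S.line (S.rot^[S.mult f] f) = S.line f
  rot_full : ∀ f, S.rot^[2 * S.mult f] f = f
  mem_orbit : ∀ f j, j ∈ S.vert f → ∃ k < S.mult f, S.line (S.rot^[k] f) = j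
  vert_orbit : ∀ f g, S.vert g = S.vert f →
    ∃ k < 2 * S.mult f, g = S.rot^[k] f ∨ g = S.s2 (S.rot^[k] f)
  card_vert : ∀ f, (Finset.univ.filter fun g => S.vert g = S.vert f).card = 4 * S.mult f
  cover : ∀ i j, i ≠ j → ∃ f, S.line f = i ∧ j ∈ S.vert f
  line_conn : ∀ (i : Fin n) (Q : Finset (Fin n) → Prop),
    (∀ f, S.line f = i → Q (S.vert f) → Q (S.vert (S.s0 f))) →
    (∃ f, S.line f = i ∧ Q (S.vert f)) → ∀ f, S.line f = i → Q (S.vert f)
  count : ∑ f, ((S.mult f : ℤ) - 1) = 4 * n * (n - 1)

end FlagSys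

end Pool.Agent.Helper15.PL
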