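import Pool.Agent.Helper58.PLK.Model
import Pool.Agent.Helper15.PL.Count

/-!
# The inputs of the cardinality constraint

At most four of the half units (`SemK` of the kinds 16, 24, ..., 28) are true.
-/

namespace Pool.Agent.Helper15.PL.Halves

open Pool.Agent.Helper58.PLK Pool.Agent.Helper15.PL FlagSys Pool.Agent.Helper15.PL.Count

variable (M : Model)

open Classical in
/-- Indicator of a proposition. -/
noncomputable def ind (p : Prop) : ℕ := if p then 1 else 0

theorem ind_congr {p q : Prop} (h : p ↔ q) : ind p = ind q := by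
  rw [propext h]

theorem ind_false {p : Prop} (h : ¬ p) : ind p = 0 := if_neg h

theorem fi_val (i : Fin 14) : fi i.val = i := by
  ext; simp [fi]

theorem slackV_eq (f : M.S.F) : M.slackV f = Count.slackV M.S f := rfl

theorem isRep_iff (i a : Fin 14) :
    (i.val ≠ a.val ∧ ∀ l < a.val, l ≠ i.val → M.X i.val l ≠ M.X i.val a.val) ↔ IsRep M.W i a := by
  unfold IsRep Model.X
  rw [fi_val, fi_val]
  constructor
  · rintro ⟨h1, h2⟩
    refine ⟨fun e => h1 (congrArg _ e), fun l hl hli => ?_⟩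
    have := h2 l.val hl (fun e => hli (Fin.ext e))
    rwa [fi_val] at this
  · rintro ⟨h1, h2⟩
    refine ⟨fun e => h1 (Fin.ext e), fun l hl hli => ?_⟩
    have h14 : l < 14 := hl.trans a.isLt
    have := h2 ⟨l, h14⟩ hl (fun e => hli (congrArg Fin.val e))
    have h3 : fi l = ⟨l, h14⟩ := fi_val ⟨l, h14⟩
    rwa [h3]

open Classical in
theorem sum_ind16 :
    ((Finset.univ : Finset ((Fin 14 × Fin 14) × (Bool × Bool))).filter
      (fun p => IsRep M.W p.1.1 p.1.2 ∧ M.S.W1 (M.c.Φ p.1.1 p.1.2 p.2.1 p.2.2))).card =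
    ∑ i ∈ Finset.range 14, ∑ a ∈ Finset.range 14, ∑ e ∈ Finset.range 4, ind (M.SemK 16 i a e 0) := by
  rw [Finset.card_filter, Fintype.sum_prod_type, Fintype.sum_prod_type, Finset.sum_range]
  refine Finset.sum_congr rfl (fun i _ => ?_)
  rw [Finset.sum_range]
  refine Finset.sum_congr rfl (fun a _ => ?_)
  rw [Fintype.sum_prod_type]
  simp only [Fintype.sum_bool]
  simp only [Finset.sum_range_succ, Finset.sum_range_zero, zero_add]
  have key : ∀ e < 4, ∀ d s, M.flagE i.val a.val e = M.c.Φ i a d s →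
      ind (M.SemK 16 i.val a.val e 0) = if IsRep M.W i a ∧ M.S.W1 (M.c.Φ i a d s) then 1 else 0 := by
    intro e he d s hf
    unfold ind
    have : M.SemK 16 i.val a.val e 0 ↔ (IsRep M.W i a ∧ M.S.W1 (M.c.Φ i a d s)) := by
      show (_ ∧ _ ∧ _ ∧ _ ∧ _ ∧ _) ↔ _
      rw [hf, ← isRep_iff]
      constructor
      · rintro ⟨h1, -, -, -, h2, h3⟩; exact ⟨⟨h1, h2⟩, h3⟩
      · rintro ⟨⟨h1, h2⟩, h3⟩; exact ⟨h1, i.isLt, a.isLt, he, h2, h3⟩
    simp only [this]
  have f0 : M.flagE i.val a.val 0 = M.c.Φ i a true true := by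
    unfold Model.flagE Model.flag; rw [fi_val, fi_val]; rfl
  have f1 : M.flagE i.val a.val 1 = M.c.Φ i a false true := by
    unfold Model.flagE Model.flag; rw [fi_val, fi_val]; rfl
  have f2 : M.flagE i.val a.val 2 = M.c.Φ i a true false := by
    unfold Model.flagE Model.flag; rw [fi_val, fi_val]; rfl
  have f3 : M.flagE i.val a.val 3 = M.c.Φ i a false false := by
    unfold Model.flagE Model.flag; rw [fi_val, fi_val]; rfl
  rw [key 0 (by norm_num) _ _ f0, key 1 (by norm_num) _ _ f1, key 2 (by norm_num) _ _ f2,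
    key 3 (by norm_num) _ _ f3]
  ring

/-- The kinds 24 to 27 at one vertex. -/
noncomputable def two (i j : ℕ) : ℕ :=
  ind (M.SemK 24 i j 0 0) + ind (M.SemK 25 i j 0 0) + ind (M.SemK 26 i j 0 0) +
    ind (M.SemK 27 i j 0 0)

theorem two_of_not {i j : ℕ} (h : ¬ i < j) : two M i j = 0 := by
  unfold two
  rw [ind_false (fun hh => h hh.1), ind_false (fun hh => h hh.1), ind_false (fun hh => h hh.1),
    ind_false (fun hh => h hh.1)]

theorem flag_val (i j : Fin 14) : M.flag i.val j.val 0 0 = M.c.Φ i j true true := by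
  unfold Model.flag; rw [fi_val, fi_val]; rfl

theorem two_of {i j : Fin 14} (h : i < j) : two M i.val j.val = g2 M.S (M.c.Φ i j true true) := by
  rw [g2_eq]
  unfold two ind
  have hl : i.val < j.val := h
  have e24 : M.SemK 24 i.val j.val 0 0 ↔ (M.S.mult (M.c.Φ i j true true) = 2 ∧
      3 ≤ M.S.nc (M.c.Φ i j true true)) := by
    show (_ ∧ _ ∧ _ ∧ _) ↔ _
    rw [flag_val]
    exact ⟨fun hh => hh.2.2, fun hh => ⟨hl, j.isLt, hh⟩⟩
  have e25 : M.SemK 25 i.val j.val 0 0 ↔ (M.S.mult (M.c.Φ i j true true) = 2 ∧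
      M.S.nc (M.c.Φ i j true true) = 4) := by
    show (_ ∧ _ ∧ _ ∧ _) ↔ _
    rw [flag_val]
    exact ⟨fun hh => hh.2.2, fun hh => ⟨hl, j.isLt, hh⟩⟩
  have e26 : M.SemK 26 i.val j.val 0 0 ↔ (M.S.full (M.c.Φ i j true true) ∧
      3 ≤ M.S.nX (M.c.Φ i j true true)) := by
    show (_ ∧ _ ∧ _ ∧ _) ↔ _
    rw [flag_val]
    exact ⟨fun hh => hh.2.2, fun hh => ⟨hl, j.isLt, hh⟩⟩
  have e27 : M.SemK 27 i.val j.val 0 0 ↔ (M.S.full (M.c.Φ i j true true) ∧
      M.S.nX (M.c.Φ i j true true) = 4) := by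
    show (_ ∧ _ ∧ _ ∧ _) ↔ _
    rw [flag_val]
    exact ⟨fun hh => hh.2.2, fun hh => ⟨hl, j.isLt, hh⟩⟩
  simp only [e24, e25, e26, e27]

open Classical in
theorem sum_two :
    ∑ p ∈ (Finset.univ : Finset (Fin 14 × Fin 14)).filter (fun p => p.1 < p.2),
      g2 M.S (M.c.Φ p.1 p.2 true true) =
    ∑ i ∈ Finset.range 14, ∑ j ∈ Finset.range 14, two M i j := by
  rw [Finset.sum_filter, Fintype.sum_prod_type, Finset.sum_range]
  refine Finset.sum_congr rfl (fun i _ => ?_)
  rw [Finset.sum_range]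
  refine Finset.sum_congr rfl (fun j _ => ?_)
  simp only
  by_cases h : i < j
  · rw [if_pos h, two_of M h]
  · rw [if_neg h, two_of_not M (fun hh => h hh)]

/-- The kind 28 at one vertex. -/
noncomputable def ws (i j : ℕ) : ℕ := ∑ q ∈ Finset.range 4, ind (M.SemK 28 i j q 0)

open Classical in
theorem ws_le {i j : Fin 14} :
    (4 : ℤ) * ws M i.val j.val ≤
      if i < j ∧ IsRep M.W i j then Count.slackV M.S (M.c.Φ i j true true) else 0 := by
  by_cases h : i < j ∧ IsRep M.W i j
  · rw [if_pos h]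
    refine le_trans ?_ (four_mul_count (slackV_nonneg M.facts M.hM _) (four_dvd_slackV M.facts _))
    have : ws M i.val j.val ≤ ((Finset.range 4).filter (fun q : ℕ => 4 * (q : ℤ) <
        Count.slackV M.S (M.c.Φ i j true true))).card := by
      unfold ws
      rw [Finset.card_filter]
      refine Finset.sum_le_sum (fun q _ => ?_)
      by_cases hq : M.SemK 28 i.val j.val q 0
      · have h2 : 4 * (q : ℤ) < Count.slackV M.S (M.c.Φ i j true true) := by
          have h3 : i.val < j.val ∧ _ ∧ _ ∧ _ ∧ (4 * q : ℤ) < M.slackV (M.flag i.val j.val 0 0) := hq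
          obtain ⟨-, -, -, -, h4⟩ := h3
          rw [flag_val, slackV_eq] at h4
          exact h4
        rw [if_pos h2]
        unfold ind; rw [if_pos hq]
      · rw [ind_false hq]; exact Nat.zero_le _
    exact_mod_cast Nat.mul_le_mul_left 4 this
  · rw [if_neg h]
    have : ws M i.val j.val = 0 := by
      unfold ws
      refine Finset.sum_eq_zero (fun q _ => ind_false ?_)
      intro hh
      have h3 : i.val < j.val ∧ _ ∧ _ ∧
        (∀ l < j.val, l ≠ i.val → M.X i.val l ≠ M.X i.val j.val) ∧ _ := hh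
      exact h ⟨h3.1, (isRep_iff M i j).1 ⟨h3.1.ne, h3.2.2.2.1⟩⟩
    rw [this]; simp

open Classical in
theorem sum_ws_le :
    (4 : ℤ) * ∑ i ∈ Finset.range 14, ∑ j ∈ Finset.range 14, ws M i j ≤ ∑ f, M.S.slack f := by
  push_cast
  rw [Count.sum_slack_eq M.facts M.c, Finset.sum_filter, Fintype.sum_prod_type, Finset.mul_sum,
    Finset.sum_range]
  refine Finset.sum_le_sum (fun i _ => ?_)
  rw [Finset.mul_sum, Finset.sum_range]
  exact Finset.sum_le_sum (fun j _ => ws_le M)

/-- Number of the inputs without the slack. -/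
noncomputable def totA : ℕ :=
  (∑ i ∈ Finset.range 14, ∑ a ∈ Finset.range 14, ∑ e ∈ Finset.range 4, ind (M.SemK 16 i a e 0)) +
  2 * ∑ i ∈ Finset.range 14, ∑ j ∈ Finset.range 14, two M i j

theorem four_totA : 4 * totA M = ∑ f, M.S.waste f := by
  classical
  rw [sum_waste_split M.facts, sum_W1 M.c, sum_ind16, sum_g2 M.facts M.c, sum_two]
  unfold totA
  ring

/-- At most four half units. -/
theorem tot_le (h : ∑ f, (M.S.waste f : ℤ) + ∑ f, M.S.slack f ≤ 16) :
    totA M + ∑ i ∈ Finset.range 14, ∑ j ∈ Finset.range 14, ws M i j ≤ 4 := by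
  have h1 := four_totA M
  have h2 := sum_ws_le M
  have h3 : (4 : ℤ) * totA M = ∑ f, (M.S.waste f : ℤ) := by exact_mod_cast h1
  have h4 : (4 : ℤ) * (totA M + ∑ i ∈ Finset.range 14, ∑ j ∈ Finset.range 14, ws M i j : ℕ) ≤ 16 := by
    push_cast at h2 ⊢
    linarith
  omega

open Classical in
/-- Number of the elements of a list with a property, with multiplicity. -/
noncomputable def lct (P : ℕ → Prop) (L : List ℕ) : ℕ := L.countP (fun d => decide (P d))

theorem lct_nil (P : ℕ → Prop) : lct P [] = 0 := rfl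

theorem lct_cons (P : ℕ → Prop) (d : ℕ) (L : List ℕ) : lct P (d :: L) = ind (P d) + lct P L := by
  classical
  unfold lct ind
  rw [List.countP_cons]
  by_cases h : P d <;> simp [h, add_comm]

theorem lct_append (P : ℕ → Prop) (L L' : List ℕ) : lct P (L ++ L') = lct P L + lct P L' := by
  unfold lct; rw [List.countP_append]

theorem lct_flatMap_range (P : ℕ → Prop) (n : ℕ) (f : ℕ → List ℕ) :
    lct P ((List.range n).flatMap f) = ∑ i ∈ Finset.range n, lct P (f i) := by
  induction n with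
  | zero => rfl
  | succ n ih =>
    rw [List.range_succ, List.flatMap_append, lct_append, ih, Finset.sum_range_succ]
    simp [List.flatMap_cons]

theorem lct_map_range (P : ℕ → Prop) (n : ℕ) (f : ℕ → ℕ) :
    lct P ((List.range n).map f) = ∑ i ∈ Finset.range n, ind (P (f i)) := by
  induction n with
  | zero => rfl
  | succ n ih =>
    rw [List.range_succ, List.map_append, lct_append, ih, Finset.sum_range_succ]
    simp [lct_cons, lct_nil]

theorem cnt_eq_lct (P : ℕ → Prop) (f : ℕ → ℕ) (L : List ℕ) (n : ℕ)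
    (h : (List.range n).map f = L) : cnt (fun i => P (f i)) 0 n = lct P L := by
  classical
  rw [← h, lct_map_range]
  unfold cnt ind
  rw [Finset.card_filter, ← Finset.range_eq_Ico]

end Pool.Agent.Helper15.PL.Halves
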