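import Pool.Agent.Helper15.PL.Halves

/-!
# The load of a vertex on four or five lines

The load and the slack of a vertex of multiplicity `m = 4` or `m = 5` add up to `2 m (m - 3)` units.
-/

set_option linter.constructorNameAsVariable false

namespace Pool.Agent.Helper15.PL.Loads

open Pool.Agent.Helper58.PLK Pool.Agent.Helper15.PL FlagSys D2 Pool.Agent.Helper15.PL.Count
open Pool.Agent.Helper15.PL.Halves

section flags

variable {S : FlagSys 14}

theorem nBig_s2 (hF : S.Facts) {h : S.F} (hm : S.mult h = 2) : S.nBig (S.s2 h) = S.nBig h := by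
  have e4 := rot_four hF hm
  have e1 : S.rot (S.s2 h) = S.s2 (S.rot (S.rot (S.rot h))) := by
    rw [rot_s2 hF, of_rot_eq hF e4, hF.s2s2]
  have e2 : S.rot (S.s2 (S.rot (S.rot (S.rot h)))) = S.s2 (S.rot (S.rot h)) := by
    rw [rot_s2 hF, s1_eq hF]
  have e3 : S.rot (S.s2 (S.rot (S.rot h))) = S.s2 (S.rot h) := by
    rw [rot_s2 hF, s1_eq hF]
  unfold nBig
  rw [e1, e2, e3]
  simp only [hF.s0s2, mult_s2 hF]
  ring

/-- Part of the load. -/
def L4 (S : FlagSys 14) (f : S.F) : Prop :=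
  S.full (S.s0 f) ∧ S.nX (S.s0 f) = 0 ∧ S.nBig (S.s0 f) = 1

def L2 (S : FlagSys 14) (f : S.F) : Prop :=
  S.full (S.s0 f) ∧ S.nX (S.s0 f) ≤ 1 ∧ ¬ (S.nX (S.s0 f) = 0 ∧ S.nBig (S.s0 f) = 1)

def L1 (S : FlagSys 14) (f : S.F) : Prop :=
  S.ty21 (S.outer f) ∧ S.mult (S.s0 (S.outer f)) = 2

theorem L4_s2 (hF : S.Facts) (f : S.F) : L4 S (S.s2 f) ↔ L4 S f := by
  unfold L4
  rw [hF.s0s2, full_s2 hF]
  constructor
  · rintro ⟨h1, h2, h3⟩
    rw [nX_s2 hF h1] at h2
    rw [nBig_s2 hF h1.1] at h3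
    exact ⟨h1, h2, h3⟩
  · rintro ⟨h1, h2, h3⟩
    rw [nX_s2 hF h1, nBig_s2 hF h1.1]
    exact ⟨h1, h2, h3⟩

theorem L2_s2 (hF : S.Facts) (f : S.F) : L2 S (S.s2 f) ↔ L2 S f := by
  unfold L2
  rw [hF.s0s2, full_s2 hF]
  constructor
  · rintro ⟨h1, h2, h3⟩
    rw [nX_s2 hF h1, nBig_s2 hF h1.1] at h3
    rw [nX_s2 hF h1] at h2
    exact ⟨h1, h2, h3⟩
  · rintro ⟨h1, h2, h3⟩
    rw [nX_s2 hF h1, nBig_s2 hF h1.1]
    exact ⟨h1, h2, h3⟩

theorem load_eq (f : S.F) : S.load f = 8 * ind (L4 S f) + 4 * ind (L2 S f) + 4 * ind (L1 S f) := by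
  unfold load ind
  by_cases h4 : L4 S f
  · have h2 : ¬ L2 S f := fun h => h.2.2 h4.2
    rw [if_pos h4, if_neg h2]
    unfold L4 at h4
    rw [if_pos h4]
    unfold L1
    split_ifs <;> rfl
  · rw [if_neg h4]
    unfold L4 at h4
    rw [if_neg h4]
    have h2 : (S.full (S.s0 f) ∧ S.nX (S.s0 f) ≤ 1) ↔ L2 S f := by
      unfold L2
      constructor
      · rintro ⟨h5, h6⟩
        exact ⟨h5, h6, fun h7 => h4 ⟨h5, h7⟩⟩
      · rintro ⟨h5, h6, -⟩; exact ⟨h5, h6⟩
    by_cases h : L2 S f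
    · rw [if_pos h, if_pos (h2.2 h)]
      unfold L1
      split_ifs <;> rfl
    · rw [if_neg h, if_neg (fun hh => h (h2.1 hh))]
      unfold L1
      split_ifs <;> rfl

theorem R_eq (hF : S.Facts) (f : S.F) : R S f =
    4 * (4 * ind (L4 S f) + 2 * ind (L2 S f) + ind (L1 S f ∨ L1 S (S.s2 f))) := by
  unfold R
  rw [load_eq, load_eq, ind_congr (L4_s2 hF f), ind_congr (L2_s2 hF f)]
  have h1 : ind (L1 S f) + ind (L1 S (S.s2 f)) = ind (L1 S f ∨ L1 S (S.s2 f)) := by
    unfold ind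
    by_cases h : L1 S f
    · have h' : ¬ L1 S (S.s2 f) := fun h2 => ty21_both hF h.1 h2.1
      rw [if_pos h, if_neg h', if_pos (Or.inl h)]
    · by_cases h' : L1 S (S.s2 f)
      · rw [if_neg h, if_pos h', if_pos (Or.inr h')]
      · rw [if_neg h, if_neg h', if_neg (fun hh => hh.elim h h')]
  rw [← h1]
  ring

theorem slackV_load (hF : S.Facts) (f : S.F) (hf : 4 ≤ S.mult f) :
    Count.slackV S f + ∑ g ∈ Finset.univ.filter (fun g => S.vert g = S.vert f), (S.load g : ℤ) =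
      8 * (S.mult f : ℤ) * (S.mult f - 3) := by
  have h1 : ∀ g ∈ Finset.univ.filter (fun g => S.vert g = S.vert f),
      S.slack g = 2 * ((S.mult f : ℤ) - 3) - S.load g := by
    intro g hg
    rw [Finset.mem_filter] at hg
    have hm : S.mult g = S.mult f := by unfold mult; rw [hg.2]
    unfold slack
    rw [hm, if_pos hf]
  unfold Count.slackV
  rw [Finset.sum_congr rfl h1, Finset.sum_sub_distrib, Finset.sum_const, hF.card_vert, nsmul_eq_mul]
  push_cast
  ring

theorem sum_vert {W : Wiring 14} (c : Chart S W) (f0 : S.F) (T : Finset (Fin 14)) (x : Fin 14 → Fin 14)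
    (hT : ∀ l, c.perm l ∈ S.vert f0 → l ∈ T)
    (hx : ∀ i ∈ T, i ≠ x i ∧ S.vert (c.Φ i (x i) true true) = S.vert f0) (φ : S.F → ℤ) :
    ∑ g ∈ Finset.univ.filter (fun g => S.vert g = S.vert f0), φ g =
      ∑ i ∈ T, ∑ d : Bool, ∑ s : Bool, φ (c.Φ i (x i) d s) := by
  have h1 : ∑ i ∈ T, ∑ d : Bool, ∑ s : Bool, φ (c.Φ i (x i) d s) =
      ∑ p ∈ T ×ˢ (Finset.univ : Finset (Bool × Bool)), φ (c.Φ p.1 (x p.1) p.2.1 p.2.2) := by
    rw [Finset.sum_product]
    refine Finset.sum_congr rfl (fun i _ => ?_)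
    rw [Fintype.sum_prod_type]
  rw [h1]
  symm
  refine Finset.sum_nbij (fun p => c.Φ p.1 (x p.1) p.2.1 p.2.2) ?_ ?_ ?_ (fun _ _ => rfl)
  · rintro ⟨i, d, s⟩ hp
    rw [Finset.mem_product] at hp
    rw [Finset.mem_filter]
    refine ⟨Finset.mem_univ _, ?_⟩
    obtain ⟨h2, h3⟩ := hx i hp.1
    exact (vert_Phi c i (x i) d s true true h2).trans h3
  · rintro ⟨i, d, s⟩ hp ⟨j, d', s'⟩ hq he
    rw [Finset.mem_coe, Finset.mem_product] at hp hq
    obtain ⟨h2, -, h4, h5⟩ := (c.eq_iff i (x i) d s j (x j) d' s' (hx i hp.1).1 (hx j hq.1).1).1 he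
    subst h2 h4 h5
    rfl
  · intro g hg
    rw [Finset.mem_coe, Finset.mem_filter] at hg
    obtain ⟨i, a, d, s, hia, hf⟩ := c.surj g
    have hi : i ∈ T := by
      refine hT i ?_
      rw [← hg.2, ← hf]
      exact (line_mem_vert_Phi c i a d s hia).1
    refine ⟨(i, d, s), ?_, ?_⟩
    · rw [Finset.mem_coe, Finset.mem_product]; exact ⟨hi, Finset.mem_univ _⟩
    · obtain ⟨h2, h3⟩ := hx i hi
      rw [← hf]
      refine (c.eq_iff i (x i) d s i a d s h2 hia).2 ⟨rfl, ?_, rfl, rfl⟩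
      have h4 : c.perm (x i) ∈ S.vert (c.Φ i a d s) := by
        rw [hf, hg.2, ← h3]
        exact (line_mem_vert_Phi c i (x i) true true h2).2
      rcases (c.mem_vert i a d s (x i) hia).1 h4 with h5 | h5
      · exact absurd h5.symm h2
      · exact h5

theorem four_count {x : ℤ} (h0 : 0 ≤ x) (h16 : x ≤ 16) (h4 : (4 : ℤ) ∣ x) :
    4 * ((∑ q ∈ Finset.range 4, ind (4 * (q : ℤ) < x) : ℕ) : ℤ) = x := by
  obtain ⟨y, rfl⟩ := h4
  have hy : 0 ≤ y := by omega
  have hy4 : y ≤ 4 := by omega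
  simp only [Finset.sum_range_succ, Finset.sum_range_zero, ind]
  interval_cases y <;> norm_num

end flags

/-! ### The inputs -/

variable (M : Model)

/-- The load of the ray `(i, a, d)` in units. -/
noncomputable def ray (i a d : ℕ) : ℕ :=
  4 * ind (M.SemK 18 i a d 0) + 2 * ind (M.SemK 19 i a d 0) + ind (M.SemK 20 i a d 0)

theorem ray_eq {i a : Fin 14} {d : ℕ} (hd : d < 2) (hia : i ≠ a) (dd : Bool) (hdd : bo d = dd)
    (hm : 4 ≤ M.S.mult (M.c.Φ i a dd true)) :
    4 * ray M i.val a.val d = M.S.load (M.c.Φ i a dd true) + M.S.load (M.c.Φ i a dd false) := by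
  have hflag : ∀ s, M.flag i.val a.val d s = M.c.Φ i a dd (bo s) := by
    intro s
    unfold Model.flag
    rw [fi_val, fi_val, hdd]
  have hne : i.val ≠ a.val := fun h => hia (Fin.ext h)
  have e18 : M.SemK 18 i.val a.val d 0 ↔ L4 M.S (M.c.Φ i a dd true) := by
    show (_ ∧ _ ∧ _ ∧ _ ∧ _ ∧ _ ∧ _ ∧ _) ↔ _
    rw [hflag]
    exact ⟨fun h => h.2.2.2.2.2, fun h => ⟨hne, i.isLt, a.isLt, hd, hm, h⟩⟩
  have e19 : M.SemK 19 i.val a.val d 0 ↔ L2 M.S (M.c.Φ i a dd true) := by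
    show (_ ∧ _ ∧ _ ∧ _ ∧ _ ∧ _ ∧ _) ↔ _
    rw [hflag]
    constructor
    · rintro ⟨-, -, -, -, h1, h2, h3⟩
      exact ⟨h1, h2, fun h => h3 ⟨hm, h⟩⟩
    · rintro ⟨h1, h2, h3⟩
      exact ⟨hne, i.isLt, a.isLt, hd, h1, h2, fun h => h3 h.2⟩
  have hs2 : M.S.s2 (M.c.Φ i a dd true) = M.c.Φ i a dd false := M.c.s2_Φ i a dd true hia
  have e20 : M.SemK 20 i.val a.val d 0 ↔
      (L1 M.S (M.c.Φ i a dd true) ∨ L1 M.S (M.S.s2 (M.c.Φ i a dd true))) := by
    show (_ ∧ _ ∧ _ ∧ _ ∧ ∃ s < 2, _) ↔ _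
    rw [hs2]
    constructor
    · rintro ⟨-, -, -, -, s, hs, h1⟩
      rw [hflag] at h1
      interval_cases s
      · left; exact h1
      · right; exact h1
    · rintro (h | h)
      · refine ⟨hne, i.isLt, a.isLt, hd, 0, by norm_num, ?_⟩
        rw [hflag]; exact h
      · refine ⟨hne, i.isLt, a.isLt, hd, 1, by norm_num, ?_⟩
        rw [hflag]; exact h
  have h := R_eq M.facts (M.c.Φ i a dd true)
  unfold R at h
  rw [hs2] at h
  rw [h]
  unfold ray
  rw [ind_congr e18, ind_congr e19, ind_congr e20, hs2]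

/-- The sum over the rays of a vertex. -/
theorem sum_rays (f0 : M.S.F) (T : Finset (Fin 14)) (x : Fin 14 → Fin 14)
    (h4 : 4 ≤ M.S.mult f0)
    (hT : ∀ l, M.c.perm l ∈ M.S.vert f0 → l ∈ T)
    (hx : ∀ i ∈ T, i ≠ x i ∧ M.S.vert (M.c.Φ i (x i) true true) = M.S.vert f0) :
    Count.slackV M.S f0 + 4 * ((∑ i ∈ T, (ray M i.val (x i).val 0 + ray M i.val (x i).val 1) : ℕ) : ℤ) =
      8 * (M.S.mult f0 : ℤ) * (M.S.mult f0 - 3) := by
  rw [← slackV_load M.facts f0 h4, sum_vert M.c f0 T x hT hx]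
  congr 1
  push_cast
  rw [Finset.mul_sum]
  refine Finset.sum_congr rfl (fun i hi => ?_)
  obtain ⟨h1, h2⟩ := hx i hi
  have hm : ∀ d s, 4 ≤ M.S.mult (M.c.Φ i (x i) d s) := by
    intro d s
    have : M.S.mult (M.c.Φ i (x i) d s) = M.S.mult f0 := by
      unfold mult
      rw [vert_Phi M.c i (x i) d s true true h1, h2]
    rw [this]; exact h4
  have r0 := ray_eq M (d := 0) (by norm_num) h1 true rfl (hm _ _)
  have r1 := ray_eq M (d := 1) (by norm_num) h1 false rfl (hm _ _)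
  rw [Fintype.sum_bool, Fintype.sum_bool, Fintype.sum_bool]
  have r0' : (4 : ℤ) * ray M i.val (x i).val 0 = M.S.load (M.c.Φ i (x i) true true) +
    M.S.load (M.c.Φ i (x i) true false) := by exact_mod_cast r0
  have r1' : (4 : ℤ) * ray M i.val (x i).val 1 = M.S.load (M.c.Φ i (x i) false true) +
    M.S.load (M.c.Φ i (x i) false false) := by exact_mod_cast r1
  linarith

/-- The other line used for the rays. -/
def oth (a b : Fin 14) (i : Fin 14) : Fin 14 := if i = a then b else a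

theorem vertex_total {a b : Fin 14} (hab : a < b) (T : Finset (Fin 14)) (haT : a ∈ T)
    (hT : ∀ l, l ∈ T ↔ M.c.perm l ∈ M.S.vert (M.c.Φ a b true true))
    (hlow : ∀ l ∈ T, l ≠ a → b ≤ l) (h4 : 4 ≤ M.S.mult (M.c.Φ a b true true))
    (h16 : Count.slackV M.S (M.c.Φ a b true true) ≤ 16) :
    (4 : ℤ) * ((∑ i ∈ T, (ray M i.val (oth a b i).val 0 + ray M i.val (oth a b i).val 1) +
      ws M a.val b.val : ℕ) : ℤ) =
      8 * (M.S.mult (M.c.Φ a b true true) : ℤ) * (M.S.mult (M.c.Φ a b true true) - 3) := by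
  have hx : ∀ i ∈ T, i ≠ oth a b i ∧
      M.S.vert (M.c.Φ i (oth a b i) true true) = M.S.vert (M.c.Φ a b true true) := by
    intro i hi
    unfold oth
    by_cases hia : i = a
    · subst hia
      rw [if_pos rfl]
      exact ⟨hab.ne, rfl⟩
    · rw [if_neg hia]
      refine ⟨hia, ?_⟩
      obtain ⟨h1, h2⟩ := line_mem_vert_Phi M.c i a true true hia
      exact M.facts.two_lines _ _ (M.c.perm i) (M.c.perm a)
        (fun e => hia (M.c.perm.injective e)) h1 h2 ((hT i).1 hi) ((hT a).1 haT)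
  have h1 := sum_rays M (M.c.Φ a b true true) T (oth a b) h4 (fun l hl => (hT l).2 hl) hx
  have hrep : IsRep M.W a b := by
    refine ⟨hab.ne, fun l hl hla he => ?_⟩
    have : l ∈ T := (hT l).2 ((M.c.mem_vert a b true true l hab.ne).2 (Or.inr he))
    exact absurd (hlow l this hla) (not_le.2 hl)
  have h2 : ws M a.val b.val = ∑ q ∈ Finset.range 4,
      ind (4 * (q : ℤ) < Count.slackV M.S (M.c.Φ a b true true)) := by
    unfold ws
    refine Finset.sum_congr rfl (fun q _ => ind_congr ?_)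
    have hl : a.val < b.val := hab
    show (_ ∧ _ ∧ 4 ≤ M.S.mult (M.flag a.val b.val 0 0) ∧ _ ∧ _ < M.slackV (M.flag a.val b.val 0 0)) ↔ _
    rw [flag_val, slackV_eq]
    constructor
    · rintro ⟨-, -, -, -, h⟩; exact h
    · intro h
      exact ⟨hl, b.isLt, h4, ((isRep_iff M a b).2 hrep).2, h⟩
  have h3 := four_count (slackV_nonneg M.facts M.hM _) h16 (four_dvd_slackV M.facts _)
  rw [← h2] at h3
  rw [← h1, ← h3]
  push_cast
  ring

theorem sem0_enc {k a b c e : ℕ} (hk : k < 64) (ha : a < 16) (hb : b < 16) (hc : c < 16) :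
    M.Sem0 (enc k a b c e) ↔ M.SemK k a b c e := by
  rw [enc_eq]
  unfold Model.Sem0
  rw [show (k + 64 * a + 1024 * b + 16384 * c + 262144 * e) % 64 = k by omega,
    show (k + 64 * a + 1024 * b + 16384 * c + 262144 * e) / 64 % 16 = a by omega,
    show (k + 64 * a + 1024 * b + 16384 * c + 262144 * e) / 1024 % 16 = b by omega,
    show (k + 64 * a + 1024 * b + 16384 * c + 262144 * e) / 16384 % 16 = c by omega,
    show (k + 64 * a + 1024 * b + 16384 * c + 262144 * e) / 262144 = e by omega]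

/-- The seven inputs of a ray. -/
theorem ray_sum {i a d : ℕ} (hi : i < 16) (ha : a < 16) (hd : d < 16) :
    ray M i a d = ind (M.Sem0 (enc 18 i a d 0)) + ind (M.Sem0 (enc 18 i a d 0)) +
      ind (M.Sem0 (enc 18 i a d 0)) + ind (M.Sem0 (enc 18 i a d 0)) +
      ind (M.Sem0 (enc 19 i a d 0)) + ind (M.Sem0 (enc 19 i a d 0)) +
      ind (M.Sem0 (enc 20 i a d 0)) := by
  rw [ind_congr (sem0_enc M (by norm_num) hi ha hd), ind_congr (sem0_enc M (by norm_num) hi ha hd),
    ind_congr (sem0_enc M (by norm_num) hi ha hd)]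
  unfold ray
  ring

theorem ws_sum {a b : ℕ} (ha : a < 16) (hb : b < 16) :
    ws M a b = ind (M.Sem0 (enc 28 a b 0 0)) + ind (M.Sem0 (enc 28 a b 1 0)) +
      ind (M.Sem0 (enc 28 a b 2 0)) + ind (M.Sem0 (enc 28 a b 3 0)) := by
  unfold ws
  simp only [Finset.sum_range_succ, Finset.sum_range_zero, zero_add]
  rw [ind_congr (sem0_enc M (by norm_num) ha hb (by norm_num)),
    ind_congr (sem0_enc M (by norm_num) ha hb (by norm_num)),
    ind_congr (sem0_enc M (by norm_num) ha hb (by norm_num)),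
    ind_congr (sem0_enc M (by norm_num) ha hb (by norm_num))]

theorem cnt_zero (f : ℕ → Prop) (n : ℕ) : cnt f 0 n = ∑ h ∈ Finset.range n, ind (f h) := by
  classical
  unfold cnt ind
  rw [Finset.card_filter, ← Finset.range_eq_Ico]

theorem cnt_ldin5 : cnt (fun h => M.Sem0 (ldin 1 0 0 0 h)) 0 74 =
    (ray M 0 1 0 + ray M 0 1 1) + (ray M 1 0 0 + ray M 1 0 1) + (ray M 2 0 0 + ray M 2 0 1) +
      (ray M 3 0 0 + ray M 3 0 1) + (ray M 4 0 0 + ray M 4 0 1) + ws M 0 1 := by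
  rw [cnt_zero]
  rw [ray_sum M (i := 0) (a := 1) (d := 0) (by norm_num) (by norm_num) (by norm_num),
    ray_sum M (i := 0) (a := 1) (d := 1) (by norm_num) (by norm_num) (by norm_num),
    ray_sum M (i := 1) (a := 0) (d := 0) (by norm_num) (by norm_num) (by norm_num),
    ray_sum M (i := 1) (a := 0) (d := 1) (by norm_num) (by norm_num) (by norm_num),
    ray_sum M (i := 2) (a := 0) (d := 0) (by norm_num) (by norm_num) (by norm_num),
    ray_sum M (i := 2) (a := 0) (d := 1) (by norm_num) (by norm_num) (by norm_num),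
    ray_sum M (i := 3) (a := 0) (d := 0) (by norm_num) (by norm_num) (by norm_num),
    ray_sum M (i := 3) (a := 0) (d := 1) (by norm_num) (by norm_num) (by norm_num),
    ray_sum M (i := 4) (a := 0) (d := 0) (by norm_num) (by norm_num) (by norm_num),
    ray_sum M (i := 4) (a := 0) (d := 1) (by norm_num) (by norm_num) (by norm_num),
    ws_sum M (a := 0) (b := 1) (by norm_num) (by norm_num)]
  have h : (List.range 74).map (ldin 1 0 0 0) =
    (List.range 10).flatMap (fun r => [enc 18 (r / 2) (if r / 2 = 0 then 1 else 0) (r % 2) 0,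
      enc 18 (r / 2) (if r / 2 = 0 then 1 else 0) (r % 2) 0,
      enc 18 (r / 2) (if r / 2 = 0 then 1 else 0) (r % 2) 0,
      enc 18 (r / 2) (if r / 2 = 0 then 1 else 0) (r % 2) 0,
      enc 19 (r / 2) (if r / 2 = 0 then 1 else 0) (r % 2) 0,
      enc 19 (r / 2) (if r / 2 = 0 then 1 else 0) (r % 2) 0,
      enc 20 (r / 2) (if r / 2 = 0 then 1 else 0) (r % 2) 0]) ++
      [enc 28 0 1 0 0, enc 28 0 1 1 0, enc 28 0 1 2 0, enc 28 0 1 3 0] := by decide +kernel
  have h2 : ∑ h ∈ Finset.range 74, ind (M.Sem0 (ldin 1 0 0 0 h)) =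
      lct M.Sem0 ((List.range 74).map (ldin 1 0 0 0)) := (lct_map_range _ _ _).symm
  rw [h2, h, lct_append, lct_flatMap_range]
  simp only [Finset.sum_range_succ, Finset.sum_range_zero, lct_cons, lct_nil]
  norm_num
  ring

theorem ln_pack {a b c d : ℕ} (ha : a < 16) (hb : b < 16) (hc : c < 16) (hd : d < 16) :
    lnN (Nat.add (pk3 a b c) (Nat.mul 4096 d)) 0 = a ∧
    lnN (Nat.add (pk3 a b c) (Nat.mul 4096 d)) 1 = b ∧
    lnN (Nat.add (pk3 a b c) (Nat.mul 4096 d)) 2 = c ∧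
    lnN (Nat.add (pk3 a b c) (Nat.mul 4096 d)) 3 = d := by
  have hp : Nat.add (pk3 a b c) (Nat.mul 4096 d) = a + 16 * b + 256 * c + 4096 * d := by
    show a + 16 * (b + 16 * c) + 4096 * d = _
    ring
  have key : ∀ t x : ℕ, lnN t x = t / 2 ^ (4 * x) % 16 := by
    intro t x
    show (t >>> (4 * x)) &&& (2 ^ 4 - 1) = _
    rw [Nat.and_two_pow_sub_one_eq_mod, Nat.shiftRight_eq_div_pow]
  rw [hp, key, key, key, key]
  norm_num
  omega

theorem cnt_ldin4 {a b c d : ℕ} (ha : a < 16) (hb : b < 16) (hc : c < 16) (hd : d < 16)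
    (hb0 : b ≠ 0) : cnt (fun h => M.Sem0 (ldin a b c d h)) 0 60 =
    (ray M a b 0 + ray M a b 1) + (ray M b a 0 + ray M b a 1) + (ray M c a 0 + ray M c a 1) +
      (ray M d a 0 + ray M d a 1) + ws M a b := by
  obtain ⟨h0, h1, h2, h3⟩ := ln_pack ha hb hc hd
  rw [cnt_zero]
  rw [ray_sum M (i := a) (a := b) (d := 0) ha hb (by norm_num),
    ray_sum M (i := a) (a := b) (d := 1) ha hb (by norm_num),
    ray_sum M (i := b) (a := a) (d := 0) hb ha (by norm_num),
    ray_sum M (i := b) (a := a) (d := 1) hb ha (by norm_num),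
    ray_sum M (i := c) (a := a) (d := 0) hc ha (by norm_num),
    ray_sum M (i := c) (a := a) (d := 1) hc ha (by norm_num),
    ray_sum M (i := d) (a := a) (d := 0) hd ha (by norm_num),
    ray_sum M (i := d) (a := a) (d := 1) hd ha (by norm_num), ws_sum M ha hb]
  obtain ⟨b', rfl⟩ : ∃ b', b = b' + 1 := ⟨b - 1, by omega⟩
  have h : (List.range 60).map (ldin a (b' + 1) c d) =
    (List.range 8).flatMap (fun r =>
      [enc 18 (lnN (Nat.add (pk3 a (b' + 1) c) (Nat.mul 4096 d)) (r / 2))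
        (if r / 2 = 0 then b' + 1 else a) (r % 2) 0,
      enc 18 (lnN (Nat.add (pk3 a (b' + 1) c) (Nat.mul 4096 d)) (r / 2))
        (if r / 2 = 0 then b' + 1 else a) (r % 2) 0,
      enc 18 (lnN (Nat.add (pk3 a (b' + 1) c) (Nat.mul 4096 d)) (r / 2))
        (if r / 2 = 0 then b' + 1 else a) (r % 2) 0,
      enc 18 (lnN (Nat.add (pk3 a (b' + 1) c) (Nat.mul 4096 d)) (r / 2))
        (if r / 2 = 0 then b' + 1 else a) (r % 2) 0,
      enc 19 (lnN (Nat.add (pk3 a (b' + 1) c) (Nat.mul 4096 d)) (r / 2))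
        (if r / 2 = 0 then b' + 1 else a) (r % 2) 0,
      enc 19 (lnN (Nat.add (pk3 a (b' + 1) c) (Nat.mul 4096 d)) (r / 2))
        (if r / 2 = 0 then b' + 1 else a) (r % 2) 0,
      enc 20 (lnN (Nat.add (pk3 a (b' + 1) c) (Nat.mul 4096 d)) (r / 2))
        (if r / 2 = 0 then b' + 1 else a) (r % 2) 0]) ++
      [enc 28 a (b' + 1) 0 0, enc 28 a (b' + 1) 1 0, enc 28 a (b' + 1) 2 0,
        enc 28 a (b' + 1) 3 0] := rfl
  have h5 : ∑ h ∈ Finset.range 60, ind (M.Sem0 (ldin a (b' + 1) c d h)) =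
      lct M.Sem0 ((List.range 60).map (ldin a (b' + 1) c d)) := (lct_map_range _ _ _).symm
  rw [h5, h, lct_append, lct_flatMap_range]
  simp only [Finset.sum_range_succ, Finset.sum_range_zero, lct_cons, lct_nil, Nat.reduceDiv,
    Nat.reduceMod, Nat.zero_div, Nat.zero_mod, if_true, OfNat.ofNat_ne_zero, one_ne_zero, if_false,
    h0, h1, h2, h3, add_zero, zero_add]
  ring

/-- The load inequality at a vertex on five lines. -/
theorem load5 (hm : M.S.mult (M.c.Φ 0 1 true true) = 5)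
    (hX : ∀ l : Fin 14, l ≠ 0 → (M.W.X 0 l = M.W.X 0 1 ↔ l.1 < 5))
    (h16 : Count.slackV M.S (M.c.Φ 0 1 true true) ≤ 16) :
    cnt (fun h => M.Sem0 (ldin 1 0 0 0 h)) 0 74 = 20 := by
  have hT : ∀ l : Fin 14, l ∈ ({0, 1, 2, 3, 4} : Finset (Fin 14)) ↔
      M.c.perm l ∈ M.S.vert (M.c.Φ 0 1 true true) := by
    intro l
    rw [M.c.mem_vert 0 1 true true l (by decide)]
    by_cases hl : l = 0
    · subst hl; simp
    · rw [hX l hl]
      revert hl
      revert l
      decide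
  have h := vertex_total M (a := 0) (b := 1) (by decide) {0, 1, 2, 3, 4} (by decide) hT
    (by decide) (by rw [hm]; norm_num) h16
  rw [hm] at h
  rw [cnt_ldin5]
  have h3 : (∑ i ∈ ({0, 1, 2, 3, 4} : Finset (Fin 14)),
      (ray M i.val (oth 0 1 i).val 0 + ray M i.val (oth 0 1 i).val 1) + ws M 0 1) = 20 := by
    have : (4 : ℤ) * ((∑ i ∈ ({0, 1, 2, 3, 4} : Finset (Fin 14)),
      (ray M i.val (oth 0 1 i).val 0 + ray M i.val (oth 0 1 i).val 1) + ws M 0 1 : ℕ) : ℤ) = 80 := by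
      rw [show (80 : ℤ) = 8 * ((5 : ℕ) : ℤ) * (((5 : ℕ) : ℤ) - 3) by norm_num]
      exact h
    omega
  have h6 : ∑ i ∈ ({0, 1, 2, 3, 4} : Finset (Fin 14)),
      (ray M i.val (oth 0 1 i).val 0 + ray M i.val (oth 0 1 i).val 1) =
      (ray M 0 1 0 + ray M 0 1 1) + ((ray M 1 0 0 + ray M 1 0 1) + ((ray M 2 0 0 + ray M 2 0 1) +
      ((ray M 3 0 0 + ray M 3 0 1) + (ray M 4 0 0 + ray M 4 0 1)))) := by
    rw [Finset.sum_insert (by decide), Finset.sum_insert (by decide),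
      Finset.sum_insert (by decide), Finset.sum_pair (by decide)]
    rfl
  rw [← h3, h6]
  ring

/-- The load inequality at a vertex on four lines. -/
theorem load4 {a b c d : Fin 14} (hab : a < b) (hbc : b < c) (hcd : c < d)
    (hm : M.S.mult (M.c.Φ a b true true) = 4) (h1 : M.W.X a c = M.W.X a b)
    (h2 : M.W.X a d = M.W.X a b)
    (h16 : Count.slackV M.S (M.c.Φ a b true true) ≤ 16) :
    cnt (fun h => M.Sem0 (ldin a.val b.val c.val d.val h)) 0 60 = 8 := by
  classical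
  have hsub : ({a, b, c, d} : Finset (Fin 14)).map M.c.perm.toEmbedding ⊆
      M.S.vert (M.c.Φ a b true true) := by
    intro x hx
    rw [Finset.mem_map] at hx
    obtain ⟨l, hl, rfl⟩ := hx
    show M.c.perm l ∈ _
    rw [M.c.mem_vert a b true true l hab.ne]
    simp only [Finset.mem_insert, Finset.mem_singleton] at hl
    rcases hl with rfl | rfl | rfl | rfl
    · exact Or.inl rfl
    · exact Or.inr rfl
    · exact Or.inr h1
    · exact Or.inr h2
  have hcard : ({a, b, c, d} : Finset (Fin 14)).card = 4 := by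
    rw [Finset.card_insert_of_notMem, Finset.card_insert_of_notMem, Finset.card_pair hcd.ne]
    · simp only [Finset.mem_insert, Finset.mem_singleton, not_or]
      exact ⟨hbc.ne, (hbc.trans hcd).ne⟩
    · simp only [Finset.mem_insert, Finset.mem_singleton, not_or]
      exact ⟨hab.ne, (hab.trans hbc).ne, (hab.trans (hbc.trans hcd)).ne⟩
  have heq := Finset.eq_of_subset_of_card_le hsub (by
    rw [Finset.card_map, hcard]; unfold mult at hm; omega)
  have hT : ∀ l : Fin 14, l ∈ ({a, b, c, d} : Finset (Fin 14)) ↔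
      M.c.perm l ∈ M.S.vert (M.c.Φ a b true true) := by
    intro l
    rw [← heq]
    rw [Finset.mem_map_equiv]
    simp
  have h := vertex_total M hab {a, b, c, d} (by simp) hT (by
    intro l hl hla
    simp only [Finset.mem_insert, Finset.mem_singleton] at hl
    rcases hl with rfl | rfl | rfl | rfl
    · exact absurd rfl hla
    · exact le_rfl
    · exact hbc.le
    · exact (hbc.trans hcd).le) (by rw [hm]) h16
  rw [hm] at h
  have hb0 : b.val ≠ 0 := by
    have : a.val < b.val := hab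
    omega
  rw [cnt_ldin4 M (by omega) (by omega) (by omega) (by omega) hb0]
  have h3 : (∑ i ∈ ({a, b, c, d} : Finset (Fin 14)),
      (ray M i.val (oth a b i).val 0 + ray M i.val (oth a b i).val 1) + ws M a.val b.val) = 8 := by
    have : (4 : ℤ) * ((∑ i ∈ ({a, b, c, d} : Finset (Fin 14)),
      (ray M i.val (oth a b i).val 0 + ray M i.val (oth a b i).val 1) + ws M a.val b.val : ℕ) : ℤ) =
        32 := by
      rw [show (32 : ℤ) = 8 * ((4 : ℕ) : ℤ) * (((4 : ℕ) : ℤ) - 3) by norm_num]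
      exact h
    omega
  rw [← h3]
  have o1 : oth a b a = b := if_pos rfl
  have o2 : oth a b b = a := if_neg hab.ne'
  have o3 : oth a b c = a := if_neg (hab.trans hbc).ne'
  have o4 : oth a b d = a := if_neg (hab.trans (hbc.trans hcd)).ne'
  rw [Finset.sum_insert, Finset.sum_insert, Finset.sum_pair hcd.ne, o1, o2, o3, o4]
  · ring
  · simp only [Finset.mem_insert, Finset.mem_singleton, not_or]
    exact ⟨hbc.ne, (hbc.trans hcd).ne⟩
  · simp only [Finset.mem_insert, Finset.mem_singleton, not_or]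
    exact ⟨hab.ne, (hab.trans hbc).ne, (hab.trans (hbc.trans hcd)).ne⟩

end Pool.Agent.Helper15.PL.Loads
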