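import Pool.Agent.Helper15.PL.Vec

/-!
# Block R6: faces of a real line arrangement and sign vectors
-/

open Set Topology Filter

namespace Pool.Agent.Helper15.PL

namespace R6

theorem continuous_mk : Continuous RP2.mk := continuous_coinduced_rng

theorem mk_eq {v w : NZ} (h : RP2.mk v = RP2.mk w) : ∃ c : ℝ, c ≠ 0 ∧ w.1 = c • v.1 := by
  have h' : Projectivization.mk ℝ w.1 w.2 = Projectivization.mk ℝ v.1 v.2 := h.symm
  rw [Projectivization.mk_eq_mk_iff'] at h'
  obtain ⟨c, hc⟩ := h'
  refine ⟨c, ?_, hc.symm⟩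
  rintro rfl
  exact w.2 (by rw [← hc, zero_smul])

theorem mk_smul {v w : NZ} {c : ℝ} (h : w.1 = c • v.1) : RP2.mk v = RP2.mk w := by
  symm
  show Projectivization.mk ℝ w.1 w.2 = Projectivization.mk ℝ v.1 v.2
  rw [Projectivization.mk_eq_mk_iff']
  exact ⟨c, h.symm⟩

theorem mk_surj (x : RP2) : ∃ v : NZ, RP2.mk v = x := by
  refine ⟨⟨x.rep, x.rep_nonzero⟩, ?_⟩
  exact Projectivization.mk_rep x

theorem mem_projLine (a : V3) (v : NZ) : RP2.mk v ∈ projLine a ↔ a ⬝ᵥ v.1 = 0 := by
  constructor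
  · rintro ⟨w, hw, hw0⟩
    obtain ⟨c, _, hc⟩ := mk_eq hw
    rw [hc, dotProduct_smul, hw0, smul_zero]
  · intro h
    exact ⟨v, rfl, h⟩

theorem mem_image {S : Set NZ}
    (hsat : ∀ z w : NZ, ∀ c : ℝ, c ≠ 0 → w.1 = c • z.1 → z ∈ S → w ∈ S) (z : NZ) :
    RP2.mk z ∈ RP2.mk '' S ↔ z ∈ S := by
  constructor
  · rintro ⟨w, hw, hwz⟩
    obtain ⟨c, hc, h⟩ := mk_eq hwz
    exact hsat w z c hc h hw
  · intro h
    exact ⟨z, h, rfl⟩

theorem isOpen_image {S : Set NZ} (hS : IsOpen S)
    (hsat : ∀ z w : NZ, ∀ c : ℝ, c ≠ 0 → w.1 = c • z.1 → z ∈ S → w ∈ S) :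
    IsOpen (RP2.mk '' S) := by
  show IsOpen[TopologicalSpace.coinduced RP2.mk inferInstance] (RP2.mk '' S)
  rw [isOpen_coinduced]
  have : RP2.mk ⁻¹' (RP2.mk '' S) = S := by
    ext z
    exact mem_image hsat z
  rw [this]; exact hS

theorem sg_not (b : Bool) : sg (!b) = -sg b := by
  cases b <;> simp [sg]

theorem sg_mul_self (b : Bool) : sg b * sg b = 1 := by
  cases b <;> simp [sg]

variable {n : ℕ} (a : Fin n → V3)

/-- signed value -/
def sv (τ : Fin n → Bool) (l : Fin n) (x : V3) : ℝ := sg (τ l) * (a l ⬝ᵥ x)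

theorem sv_smul (τ : Fin n → Bool) (l : Fin n) (c : ℝ) (x : V3) :
    sv a τ l (c • x) = c * sv a τ l x := by
  unfold sv; rw [dotProduct_smul, smul_eq_mul]; ring

theorem sv_add (τ : Fin n → Bool) (l : Fin n) (x y : V3) :
    sv a τ l (x + y) = sv a τ l x + sv a τ l y := by
  unfold sv; rw [dotProduct_add]; ring

theorem sv_zero (τ : Fin n → Bool) (l : Fin n) : sv a τ l 0 = 0 := by
  unfold sv; rw [dotProduct_zero, mul_zero]

theorem continuous_sv (τ : Fin n → Bool) (l : Fin n) : Continuous (sv a τ l) := by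
  unfold sv dotProduct
  fun_prop

/-- The signs of a vector. -/
noncomputable def sgn (x : V3) (l : Fin n) : Bool := decide (0 < a l ⬝ᵥ x)

theorem sv_sgn {x : V3} {l : Fin n} (h : a l ⬝ᵥ x ≠ 0) : 0 < sv a (sgn a x) l x := by
  unfold sv sgn
  rcases lt_or_gt_of_ne h with h1 | h1
  · have : decide (0 < a l ⬝ᵥ x) = false := decide_eq_false (not_lt.mpr h1.le)
    rw [this]; simp [sg]; exact h1
  · have : decide (0 < a l ⬝ᵥ x) = true := decide_eq_true h1
    rw [this]; simp [sg]; exact h1

theorem ne_of_sv {τ : Fin n → Bool} {l : Fin n} {x : V3} (h : sv a τ l x ≠ 0) : a l ⬝ᵥ x ≠ 0 := by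
  intro h0
  apply h
  unfold sv; rw [h0, mul_zero]

/-- convex cones -/
def cone (K : Submodule ℝ V3) (I : Set (Fin n)) (τ : Fin n → Bool) : Set V3 :=
  {x | x ∈ K ∧ ∀ l ∈ I, 0 < sv a τ l x}

/-- pieces of the projective plane -/
def piece (K : Submodule ℝ V3) (I : Set (Fin n)) (τ : Fin n → Bool) : Set RP2 :=
  RP2.mk '' {v : NZ | v.1 ∈ cone a K I τ}

/-- the ambient set -/
def amb (K : Submodule ℝ V3) (I : Set (Fin n)) : Set RP2 :=
  {x | ∃ v : NZ, RP2.mk v = x ∧ v.1 ∈ K ∧ ∀ l ∈ I, a l ⬝ᵥ v.1 ≠ 0}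

variable {a}
variable {K : Submodule ℝ V3} {I : Set (Fin n)} {τ : Fin n → Bool}

theorem convex_cone : Convex ℝ (cone a K I τ) := by
  rw [convex_iff_forall_pos]
  rintro x ⟨hx, hx'⟩ y ⟨hy, hy'⟩ s t hs ht _
  refine ⟨K.add_mem (K.smul_mem s hx) (K.smul_mem t hy), fun l hl => ?_⟩
  rw [sv_add, sv_smul, sv_smul]
  have := hx' l hl
  have := hy' l hl
  positivity

theorem zero_notMem_cone (hI : I.Nonempty) : (0 : V3) ∉ cone a K I τ := by
  rintro ⟨_, h⟩
  obtain ⟨l, hl⟩ := hI
  have := h l hl
  rw [sv_zero] at this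
  exact lt_irrefl _ this

theorem val_image (hI : I.Nonempty) :
    Subtype.val '' {v : NZ | v.1 ∈ cone a K I τ} = cone a K I τ := by
  ext x
  constructor
  · rintro ⟨v, hv, rfl⟩; exact hv
  · intro hx
    have h0 : x ≠ 0 := by
      rintro rfl
      exact zero_notMem_cone hI hx
    exact ⟨⟨x, h0⟩, hx, rfl⟩

theorem isPreconnected_piece (hI : I.Nonempty) : IsPreconnected (piece a K I τ) := by
  have h1 : IsPreconnected (Subtype.val '' {v : NZ | v.1 ∈ cone a K I τ}) := by
    rw [val_image hI]; exact convex_cone.isPreconnected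
  have h2 : IsPreconnected {v : NZ | v.1 ∈ cone a K I τ} :=
    (Topology.IsInducing.subtypeVal.isPreconnected_image).mp h1
  exact h2.image _ continuous_mk.continuousOn

theorem mem_piece_iff (v : NZ) : RP2.mk v ∈ piece a K I τ ↔
    v.1 ∈ cone a K I τ ∨ -v.1 ∈ cone a K I τ := by
  constructor
  · rintro ⟨w, hw, hwv⟩
    obtain ⟨c, hc, h⟩ := mk_eq hwv
    rcases lt_or_gt_of_ne hc with h1 | h1
    · right
      rw [h, ← neg_smul]
      refine ⟨K.smul_mem _ hw.1, fun l hl => ?_⟩
      rw [sv_smul]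
      exact mul_pos (by linarith) (hw.2 l hl)
    · left
      rw [h]
      refine ⟨K.smul_mem _ hw.1, fun l hl => ?_⟩
      rw [sv_smul]
      exact mul_pos h1 (hw.2 l hl)
  · rintro (h | h)
    · exact ⟨v, h, rfl⟩
    · refine ⟨⟨-v.1, neg_ne_zero.mpr v.2⟩, h, ?_⟩
      apply mk_smul (c := -1)
      simp

theorem piece_subset_amb : piece a K I τ ⊆ amb a K I := by
  rintro _ ⟨v, hv, rfl⟩
  exact ⟨v, rfl, hv.1, fun l hl => ne_of_sv a (hv.2 l hl).ne'⟩

theorem component (hI : I.Nonempty) (v : NZ) (hv : v.1 ∈ cone a K I τ) :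
    connectedComponentIn (amb a K I) (RP2.mk v) = piece a K I τ := by
  apply Subset.antisymm
  · have hP : IsPreconnected (connectedComponentIn (amb a K I) (RP2.mk v)) :=
      isPreconnected_connectedComponentIn
    let U' : Set NZ := {z | ∀ l ∈ I, ∀ l' ∈ I, 0 < sv a τ l z.1 * sv a τ l' z.1}
    let W' : Set NZ := {z | ∃ l ∈ I, ∃ l' ∈ I, sv a τ l z.1 * sv a τ l' z.1 < 0}
    have hUo : IsOpen U' := by
      have : U' = ⋂ l ∈ I, ⋂ l' ∈ I, {z : NZ | 0 < sv a τ l z.1 * sv a τ l' z.1} := by
        ext z; simp [U']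
      rw [this]
      refine (Set.toFinite I).isOpen_biInter fun l _ => (Set.toFinite I).isOpen_biInter
        fun l' _ => ?_
      exact isOpen_lt continuous_const (((continuous_sv a τ l).comp continuous_subtype_val).mul
        ((continuous_sv a τ l').comp continuous_subtype_val))
    have hWo : IsOpen W' := by
      have : W' = ⋃ l ∈ I, ⋃ l' ∈ I, {z : NZ | sv a τ l z.1 * sv a τ l' z.1 < 0} := by
        ext z; simp [W']
      rw [this]
      refine isOpen_biUnion fun l _ => isOpen_biUnion fun l' _ => ?_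
      exact isOpen_lt (((continuous_sv a τ l).comp continuous_subtype_val).mul
        ((continuous_sv a τ l').comp continuous_subtype_val)) continuous_const
    have hscale : ∀ (z w : NZ) (c : ℝ), w.1 = c • z.1 → ∀ l l',
        sv a τ l w.1 * sv a τ l' w.1 = (c * c) * (sv a τ l z.1 * sv a τ l' z.1) := by
      intro z w c h l l'
      rw [h, sv_smul, sv_smul]; ring
    have hUs : ∀ z w : NZ, ∀ c : ℝ, c ≠ 0 → w.1 = c • z.1 → z ∈ U' → w ∈ U' := by
      intro z w c hc h hz l hl l' hl'
      rw [hscale z w c h]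
      exact mul_pos (mul_self_pos.mpr hc) (hz l hl l' hl')
    have hWs : ∀ z w : NZ, ∀ c : ℝ, c ≠ 0 → w.1 = c • z.1 → z ∈ W' → w ∈ W' := by
      rintro z w c hc h ⟨l, hl, l', hl', hlt⟩
      refine ⟨l, hl, l', hl', ?_⟩
      rw [hscale z w c h]
      exact mul_neg_of_pos_of_neg (mul_self_pos.mpr hc) hlt
    have hdis : Disjoint (RP2.mk '' U') (RP2.mk '' W') := by
      rw [Set.disjoint_left]
      rintro x hx hx'
      obtain ⟨z, rfl⟩ := mk_surj x
      rw [mem_image hUs] at hx
      rw [mem_image hWs] at hx'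
      obtain ⟨l, hl, l', hl', hlt⟩ := hx'
      exact lt_asymm hlt (hx l hl l' hl')
    have hsub : connectedComponentIn (amb a K I) (RP2.mk v) ⊆ RP2.mk '' U' := by
      refine hP.subset_left_of_subset_union (isOpen_image hUo hUs) (isOpen_image hWo hWs) hdis
        ?_ ?_
      · refine (connectedComponentIn_subset _ _).trans ?_
        rintro _ ⟨z, rfl, _, hz⟩
        by_cases hc : z ∈ W'
        · exact Or.inr ⟨z, hc, rfl⟩
        · left
          refine ⟨z, fun l hl l' hl' => ?_, rfl⟩
          have h1 : sv a τ l z.1 * sv a τ l' z.1 ≠ 0 := by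
            apply mul_ne_zero
            · unfold sv
              exact mul_ne_zero (by unfold sg; split <;> norm_num) (hz l hl)
            · unfold sv
              exact mul_ne_zero (by unfold sg; split <;> norm_num) (hz l' hl')
          rcases lt_or_gt_of_ne h1 with h2 | h2
          · exact absurd ⟨l, hl, l', hl', h2⟩ hc
          · exact h2
      · refine ⟨RP2.mk v, mem_connectedComponentIn
          (piece_subset_amb (τ := τ) ⟨v, hv, rfl⟩), v, ?_, rfl⟩
        intro l hl l' hl'
        exact mul_pos (hv.2 l hl) (hv.2 l' hl')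
    intro x hx
    obtain ⟨z, hz, hzK, _⟩ := connectedComponentIn_subset _ _ hx
    subst hz
    have hzU := (mem_image hUs z).mp (hsub hx)
    obtain ⟨l0, hl0⟩ := hI
    rw [mem_piece_iff]
    have h0 := hzU l0 hl0 l0 hl0
    have h1 : sv a τ l0 z.1 ≠ 0 := by
      intro h; rw [h] at h0; simp at h0
    rcases lt_or_gt_of_ne h1 with h2 | h2
    · right
      refine ⟨K.neg_mem hzK, fun l hl => ?_⟩
      have h3 := hzU l0 hl0 l hl
      have h4 : sv a τ l (-z.1) = -sv a τ l z.1 := by
        have := sv_smul a τ l (-1) z.1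
        simpa using this
      rw [h4]
      rcases lt_trichotomy (sv a τ l z.1) 0 with h5 | h5 | h5
      · linarith
      · rw [h5] at h3; simp at h3
      · nlinarith
    · left
      refine ⟨hzK, fun l hl => ?_⟩
      have h3 := hzU l0 hl0 l hl
      exact (mul_pos_iff_of_pos_left h2).mp h3
  · exact (isPreconnected_piece hI).subset_connectedComponentIn ⟨v, hv, rfl⟩ piece_subset_amb

/-! ### faces, edges -/

/-- the cone of a tope -/
def face (a : Fin n → V3) (σ : Fin n → Bool) : Set RP2 := piece a ⊤ Set.univ σ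

/-- the vectors orthogonal to `a i` -/
def orth (a : Fin n → V3) (i : Fin n) : Submodule ℝ V3 where
  carrier := {x | a i ⬝ᵥ x = 0}
  add_mem' := by
    intro x y hx hy
    simp only [Set.mem_ofPred_eq] at *
    rw [dotProduct_add, hx, hy, add_zero]
  zero_mem' := by simp
  smul_mem' := by
    intro c x hx
    simp only [Set.mem_ofPred_eq] at *
    rw [dotProduct_smul, hx, smul_zero]

theorem mem_orth {i : Fin n} {x : V3} : x ∈ orth a i ↔ a i ⬝ᵥ x = 0 := Iff.rfl

/-- the curves -/
abbrev cur (a : Fin n → V3) : Fin n → Set RP2 := fun i => projLine (a i)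

theorem offCurves_eq : offCurves (cur a) = amb a ⊤ Set.univ := by
  ext x
  obtain ⟨v, rfl⟩ := mk_surj x
  constructor
  · intro h
    refine ⟨v, rfl, trivial, fun l _ => ?_⟩
    rw [Ne, ← mem_projLine]
    exact h l
  · rintro ⟨w, hw, _, h⟩ l
    rw [← hw, mem_projLine]
    exact h l trivial

theorem onlyOn_eq (i : Fin n) : onlyOn (cur a) i = amb a (orth a i) {l | l ≠ i} := by
  ext x
  obtain ⟨v, rfl⟩ := mk_surj x
  constructor
  · rintro ⟨h, h'⟩
    refine ⟨v, rfl, (mem_projLine _ _).mp h, fun l hl => ?_⟩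
    rw [Ne, ← mem_projLine]
    exact h' l hl
  · rintro ⟨w, hw, h, h'⟩
    rw [← hw]
    refine ⟨(mem_projLine _ _).mpr h, fun l hl => ?_⟩
    rw [mem_projLine]
    exact h' l hl

theorem two_le (ha : IsConfig a) (i : Fin n) : ∃ l, l ≠ i := by
  by_contra hc
  push Not at hc
  have h1 : ∀ x : V3, a i ⬝ᵥ x = 0 → x = 0 := by
    intro x hx
    apply ha.spans
    intro l
    rw [hc l]; exact hx
  have h2 := h1 ![a i 1, -a i 0, 0] (by
    simp [dotProduct, Fin.sum_univ_three]; ring)
  have h3 : a i 0 = 0 := by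
    have := congrFun h2 1
    simpa using this
  have h4 := h1 ![1, 0, 0] (by
    simp [dotProduct, Fin.sum_univ_three, h3])
  have := congrFun h4 0
  simp at this

theorem exists_ix (ha : IsConfig a) : Nonempty (Fin n) := by
  by_contra hc
  rw [not_nonempty_iff] at hc
  have h := ha.spans ![1, 0, 0] (fun i => hc.elim i)
  have := congrFun h 0
  simp at this

theorem univ_nonempty' (ha : IsConfig a) : (Set.univ : Set (Fin n)).Nonempty := by
  obtain ⟨i⟩ := exists_ix ha
  exact ⟨i, trivial⟩

theorem mem_cone_top {σ : Fin n → Bool} {x : V3} :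
    x ∈ cone a ⊤ Set.univ σ ↔ ∀ l, 0 < sv a σ l x :=
  ⟨fun h l => h.2 l trivial, fun h => ⟨trivial, fun l _ => h l⟩⟩

theorem isFace_iff (ha : IsConfig a) (F : Set RP2) :
    IsFace (cur a) F ↔ ∃ σ, IsTope a σ ∧ F = face a σ := by
  have hI := univ_nonempty' ha
  constructor
  · rintro ⟨x, hx, rfl⟩
    rw [offCurves_eq] at hx ⊢
    obtain ⟨v, rfl, _, hv⟩ := hx
    have hc : v.1 ∈ cone a ⊤ Set.univ (sgn a v.1) := by
      rw [mem_cone_top]
      intro l
      exact sv_sgn a (hv l trivial)
    refine ⟨sgn a v.1, ⟨v.1, mem_cone_top.mp hc⟩, ?_⟩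
    exact component hI v hc
  · rintro ⟨σ, ⟨x, hx⟩, rfl⟩
    have hc : x ∈ cone a ⊤ Set.univ σ := mem_cone_top.mpr hx
    have h0 : x ≠ 0 := by
      rintro rfl
      exact zero_notMem_cone hI hc
    refine ⟨RP2.mk ⟨x, h0⟩, ?_, ?_⟩
    · rw [offCurves_eq]
      exact piece_subset_amb (τ := σ) ⟨⟨x, h0⟩, hc, rfl⟩
    · rw [offCurves_eq]
      exact (component hI ⟨x, h0⟩ hc).symm

theorem sv_not (σ : Fin n → Bool) (l : Fin n) (x : V3) :
    sv a (fun i => !σ i) l x = -sv a σ l x := by
  unfold sv; rw [sg_not]; ring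

theorem sv_neg (σ : Fin n → Bool) (l : Fin n) (x : V3) : sv a σ l (-x) = -sv a σ l x := by
  have := sv_smul a σ l (-1) x
  simpa using this

theorem isTope_not {σ : Fin n → Bool} (h : IsTope a σ) : IsTope a (fun i => !σ i) := by
  obtain ⟨x, hx⟩ := h
  refine ⟨-x, fun i => ?_⟩
  have h1 := sv_not (a := a) σ i (-x)
  have h2 := sv_neg (a := a) σ i x
  have h3 : 0 < sv a σ i x := hx i
  show 0 < sv a (fun i => !σ i) i (-x)
  rw [h1, h2]; linarith

theorem face_not (σ : Fin n → Bool) : face a (fun i => !σ i) = face a σ := by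
  have key : ∀ σ : Fin n → Bool, face a (fun i => !σ i) ⊆ face a σ := by
    intro σ x hx
    obtain ⟨v, rfl⟩ := mk_surj x
    unfold face at hx ⊢
    rw [mem_piece_iff, mem_cone_top, mem_cone_top] at hx ⊢
    rcases hx with h | h
    · right
      intro l
      have := h l
      rw [sv_not] at this
      rw [sv_neg]; exact this
    · left
      intro l
      have := h l
      rw [sv_not, sv_neg, neg_neg] at this
      exact this
  apply Subset.antisymm (key σ)
  have h := key (fun i => !σ i)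
  simpa using h

theorem walls_not (σ : Fin n → Bool) : walls a (fun i => !σ i) = walls a σ := by
  have hf : ∀ (σ : Fin n → Bool) i, flipAt (fun i => !σ i) i = fun j => !(flipAt σ i) j := by
    intro σ i
    funext j
    unfold flipAt
    by_cases h : j = i
    · subst h; simp
    · simp [Function.update_of_ne h]
  ext i
  unfold walls
  simp only [Set.mem_ofPred_eq]
  rw [hf]
  constructor
  · intro h
    have := isTope_not h
    simpa using this
  · exact isTope_not

/-- the sign conditions away from `i`. -/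
theorem flip_sv_ne (σ : Fin n → Bool) {i l : Fin n} (h : l ≠ i) (x : V3) :
    sv a (flipAt σ i) l x = sv a σ l x := by
  unfold sv flipAt
  rw [Function.update_of_ne h]

theorem flip_sv_self (σ : Fin n → Bool) (i : Fin n) (x : V3) :
    sv a (flipAt σ i) i x = -sv a σ i x := by
  unfold sv flipAt
  rw [Function.update_self, sg_not]; ring

theorem face_disjoint (σ : Fin n → Bool) (i : Fin n) (w : NZ) (hw : a i ⬝ᵥ w.1 = 0) :
    RP2.mk w ∉ face a σ := by
  intro h
  unfold face at h
  rw [mem_piece_iff, mem_cone_top, mem_cone_top] at h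
  rcases h with h | h
  · have := h i
    unfold sv at this
    rw [hw, mul_zero] at this
    exact lt_irrefl _ this
  · have := h i
    rw [sv_neg] at this
    unfold sv at this
    rw [hw, mul_zero, neg_zero] at this
    exact lt_irrefl _ this

theorem sides_eq (ha : IsConfig a) {σ : Fin n → Bool} (hσ : IsTope a σ) :
    sides (cur a) (face a σ) = walls a σ := by
  have hI := univ_nonempty' ha
  obtain ⟨p, hp⟩ := hσ
  have hp' : ∀ l, 0 < sv a σ l p := hp
  ext i
  have hJ : ({l : Fin n | l ≠ i} : Set (Fin n)).Nonempty := two_le ha i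
  constructor
  · rintro ⟨E, ⟨x, hx, rfl⟩, hE⟩
    rw [onlyOn_eq] at hx hE
    have hxF := hE (mem_connectedComponentIn hx)
    obtain ⟨v, rfl, hv, hv'⟩ := hx
    rw [mem_orth] at hv
    -- a neighbourhood
    set τ := sgn a v.1 with hτ
    have hτv : ∀ l, l ≠ i → 0 < sv a τ l v.1 := fun l hl => sv_sgn a (hv' l hl)
    obtain ⟨l0, hl0⟩ := hJ
    let U' : Set NZ := {z | ∀ l ∈ {l | l ≠ i}, ∀ l' ∈ {l | l ≠ i}, 0 < sv a τ l z.1 * sv a τ l' z.1}
    have hUo : IsOpen U' := by
      have : U' = ⋂ l ∈ {l | l ≠ i}, ⋂ l' ∈ {l | l ≠ i},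
          {z : NZ | 0 < sv a τ l z.1 * sv a τ l' z.1} := by
        ext z; simp [U']
      rw [this]
      refine (Set.toFinite _).isOpen_biInter fun l _ => (Set.toFinite _).isOpen_biInter
        fun l' _ => ?_
      exact isOpen_lt continuous_const (((continuous_sv a τ l).comp continuous_subtype_val).mul
        ((continuous_sv a τ l').comp continuous_subtype_val))
    have hUs : ∀ z w : NZ, ∀ c : ℝ, c ≠ 0 → w.1 = c • z.1 → z ∈ U' → w ∈ U' := by
      intro z w c hc h hz l hl l' hl'
      have : sv a τ l w.1 * sv a τ l' w.1 = (c * c) * (sv a τ l z.1 * sv a τ l' z.1) := by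
        rw [h, sv_smul, sv_smul]; ring
      rw [this]
      exact mul_pos (mul_self_pos.mpr hc) (hz l hl l' hl')
    have hvU : RP2.mk v ∈ RP2.mk '' U' :=
      ⟨v, fun l hl l' hl' => mul_pos (hτv l hl) (hτv l' hl'), rfl⟩
    have hcl := frontier_subset_closure hxF
    rw [mem_closure_iff] at hcl
    obtain ⟨y, hy1, w, hw, rfl⟩ := hcl _ (isOpen_image hUo hUs) hvU
    rw [mem_image hUs] at hy1
    have hw' : ∀ l, 0 < sv a σ l w.1 := mem_cone_top.mp hw
    -- `σ = ± τ` away from `i`
    have hrel : (∀ l, l ≠ i → 0 < sv a σ l v.1) ∨ (∀ l, l ≠ i → 0 < sv a σ l (-v.1)) := by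
      have hsame : ∀ l, (σ l = τ l → sv a σ l w.1 = sv a τ l w.1 ∧
          sv a σ l v.1 = sv a τ l v.1) ∧
          (σ l ≠ τ l → sv a σ l w.1 = -sv a τ l w.1 ∧ sv a σ l v.1 = -sv a τ l v.1) := by
        intro l
        constructor
        · intro h; unfold sv; rw [h]; exact ⟨rfl, rfl⟩
        · intro h
          have : σ l = !τ l := by
            cases h1 : σ l <;> cases h2 : τ l <;> simp_all
          unfold sv; rw [this, sg_not]; constructor <;> ring
      by_cases h0 : σ l0 = τ l0
      · left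
        intro l hl
        have h1 := hy1 l0 hl0 l hl
        have h2 : 0 < sv a τ l0 w.1 := by rw [← ((hsame l0).1 h0).1]; exact hw' l0
        have h3 : 0 < sv a τ l w.1 := (mul_pos_iff_of_pos_left h2).mp h1
        by_cases h4 : σ l = τ l
        · rw [((hsame l).1 h4).2]; exact hτv l hl
        · have h5 := ((hsame l).2 h4).1
          have h6 := hw' l
          linarith
      · right
        intro l hl
        have h1 := hy1 l0 hl0 l hl
        have h2 : sv a τ l0 w.1 < 0 := by
          have h5 := ((hsame l0).2 h0).1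
          have h6 := hw' l0
          linarith
        have h3 : sv a τ l w.1 < 0 := by
          by_contra hc
          push Not at hc
          nlinarith
        rw [sv_neg]
        by_cases h4 : σ l = τ l
        · have h5 := ((hsame l).1 h4).1
          have h6 := hw' l
          linarith
        · rw [((hsame l).2 h4).2, neg_neg]; exact hτv l hl
    have hfin : ∀ v' : V3, a i ⬝ᵥ v' = 0 → (∀ l, l ≠ i → 0 < sv a σ l v') → i ∈ walls a σ := by
      intro v' h0 h1
      have hev : ∀ᶠ ε : ℝ in 𝓝[>] 0, ∀ l, l ≠ i → 0 < sv a σ l (v' + ε • (-p)) := by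
        rw [Filter.eventually_all]
        intro l
        by_cases hl : l = i
        · exact Filter.Eventually.of_forall fun ε h => absurd hl h
        · have hc : Continuous (fun ε : ℝ => sv a σ l (v' + ε • (-p))) :=
            (continuous_sv a σ l).comp (by fun_prop)
          have ht : Tendsto (fun ε : ℝ => sv a σ l (v' + ε • (-p))) (𝓝[>] 0)
              (𝓝 (sv a σ l (v' + (0 : ℝ) • (-p)))) := (hc.tendsto 0).mono_left nhdsWithin_le_nhds
          rw [zero_smul, add_zero] at ht
          filter_upwards [ht.eventually (lt_mem_nhds (h1 l hl))] with ε hε _ using hε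
      have hpos : ∀ᶠ ε : ℝ in 𝓝[>] 0, 0 < ε := self_mem_nhdsWithin
      obtain ⟨ε, hε, hε0⟩ := (hev.and hpos).exists
      refine ⟨v' + ε • (-p), fun l => ?_⟩
      show 0 < sv a (flipAt σ i) l _
      by_cases hl : l = i
      · subst hl
        rw [flip_sv_self, sv_add, sv_smul, sv_neg]
        have h2 : sv a σ l v' = 0 := by unfold sv; rw [h0, mul_zero]
        have := mul_pos hε0 (hp' l)
        rw [h2]; linarith
      · rw [flip_sv_ne σ hl]
        exact hε l hl
    rcases hrel with h | h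
    · exact hfin v.1 hv h
    · exact hfin (-v.1) (by rw [dotProduct_neg, hv, neg_zero]) h
  · rintro ⟨q, hq⟩
    have hq' : ∀ l, 0 < sv a (flipAt σ i) l q := hq
    have hqi : 0 < -sv a σ i q := by rw [← flip_sv_self]; exact hq' i
    set y : V3 := (-sv a σ i q) • p + (sv a σ i p) • q with hy
    have hyl : ∀ l, l ≠ i → 0 < sv a σ l y := by
      intro l hl
      rw [hy, sv_add, sv_smul, sv_smul]
      have h1 := hp' l
      have h2 := hq' l
      rw [flip_sv_ne σ hl] at h2
      have h3 := hp' i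
      positivity
    have hyi : a i ⬝ᵥ y = 0 := by
      have h1 : sv a σ i y = 0 := by rw [hy, sv_add, sv_smul, sv_smul]; ring
      unfold sv at h1
      have h2 : sg (σ i) ≠ 0 := by unfold sg; split <;> norm_num
      exact (mul_eq_zero.mp h1).resolve_left h2
    have hcy : y ∈ cone a (orth a i) {l | l ≠ i} σ := ⟨hyi, fun l hl => hyl l hl⟩
    have hy0 : y ≠ 0 := by
      intro h
      rw [h] at hcy
      exact zero_notMem_cone hJ hcy
    refine ⟨piece a (orth a i) {l | l ≠ i} σ, ⟨RP2.mk ⟨y, hy0⟩, ?_, ?_⟩, ?_⟩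
    · rw [onlyOn_eq]
      exact piece_subset_amb (τ := σ) ⟨⟨y, hy0⟩, hcy, rfl⟩
    · rw [onlyOn_eq]
      exact (component hJ ⟨y, hy0⟩ hcy).symm
    · rintro _ ⟨w, hw, rfl⟩
      obtain ⟨hw0, hw1⟩ := hw
      rw [mem_orth] at hw0
      rw [frontier_eq_closure_inter_closure]
      refine ⟨?_, subset_closure (face_disjoint σ i w hw0)⟩
      unfold face piece
      apply image_closure_subset_closure_image continuous_mk
      refine ⟨w, ?_, rfl⟩
      rw [closure_subtype, val_image hI]
      have ht : Tendsto (fun ε : ℝ => w.1 + ε • p) (𝓝[>] 0) (𝓝 w.1) := by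
        have hc : Continuous (fun ε : ℝ => w.1 + ε • p) := by fun_prop
        have h1 := (hc.tendsto 0).mono_left (nhdsWithin_le_nhds (s := Set.Ioi (0 : ℝ)))
        simpa using h1
      refine mem_closure_of_tendsto ht ?_
      filter_upwards [self_mem_nhdsWithin] with ε hε
      rw [mem_cone_top]
      intro l
      rw [sv_add, sv_smul]
      have h2 := mul_pos (show (0 : ℝ) < ε from hε) (hp' l)
      by_cases hl : l = i
      · subst hl
        have h3 : sv a σ l w.1 = 0 := by unfold sv; rw [hw0, mul_zero]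
        rw [h3]; linarith
      · have := hw1 l hl
        linarith

end R6

/-- Block R6a: a line arrangement comes from a vector configuration. -/
theorem exists_config {n : ℕ} {C : Fin n → Set RP2} (h : IsLineArrangement C) :
    ∃ a : Fin n → V3, IsConfig a ∧ ∀ i, C i = projLine (a i) := by
  choose a ha0 ha using h.line
  refine ⟨a, ⟨?_, ?_⟩, ha⟩
  · intro i j hij
    rw [LinearIndependent.pair_iff]
    intro s t hst
    by_contra hc
    apply hij
    apply h.injective
    rw [ha i, ha j]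
    have hs : s ≠ 0 := by
      rintro rfl
      apply hc
      refine ⟨rfl, ?_⟩
      rw [zero_smul, zero_add] at hst
      exact (smul_eq_zero.mp hst).resolve_right (ha0 j)
    have ht : t ≠ 0 := by
      rintro rfl
      apply hc
      refine ⟨?_, rfl⟩
      rw [zero_smul, add_zero] at hst
      exact (smul_eq_zero.mp hst).resolve_right (ha0 i)
    ext x
    obtain ⟨v, rfl⟩ := R6.mk_surj x
    rw [R6.mem_projLine, R6.mem_projLine]
    have h1 : s * (a i ⬝ᵥ v.1) + t * (a j ⬝ᵥ v.1) = 0 := by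
      have := congrArg (fun z => z ⬝ᵥ v.1) hst
      simpa [add_dotProduct, smul_dotProduct] using this
    constructor
    · intro h2
      rw [h2, mul_zero, zero_add] at h1
      exact (mul_eq_zero.mp h1).resolve_left ht
    · intro h2
      rw [h2, mul_zero, add_zero] at h1
      exact (mul_eq_zero.mp h1).resolve_left hs
  · intro x hx
    by_contra h0
    apply h.not_concurrent
    refine ⟨RP2.mk ⟨x, h0⟩, fun i => ?_⟩
    rw [ha i, R6.mem_projLine]
    exact hx i

open R6 in
/-- Block R6b: every k-gonal face gives two topes with exactly k walls. -/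
theorem numGons_le {n : ℕ} (a : Fin n → V3) (ha : IsConfig a) (k : ℕ) :
    2 * numGons (fun i => projLine (a i)) k ≤ {σ | IsTope a σ ∧ (walls a σ).encard = k}.encard := by
  classical
  obtain ⟨i0⟩ := exists_ix ha
  set 𝓕 : Set (Set RP2) := {F | IsFace (cur a) F ∧ (sides (cur a) F).encard = k} with h𝓕
  have hex : ∀ F : Set RP2, ∃ σ : Fin n → Bool, F ∈ 𝓕 → IsTope a σ ∧ F = face a σ := by
    intro F
    by_cases hF : F ∈ 𝓕
    · obtain ⟨σ, h1, h2⟩ := (isFace_iff ha F).mp hF.1
      exact ⟨σ, fun _ => ⟨h1, h2⟩⟩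
    · exact ⟨fun _ => true, fun h => absurd h hF⟩
  choose g hg using hex
  have hg1 : Set.InjOn g 𝓕 := by
    intro F hF G hG h
    rw [(hg F hF).2, (hg G hG).2, h]
  have hg2 : Set.InjOn (fun F => fun i => !(g F i)) 𝓕 := by
    intro F hF G hG h
    apply hg1 hF hG
    funext i
    have := congrFun h i
    simpa using this
  have hdis : Disjoint (g '' 𝓕) ((fun F => fun i => !(g F i)) '' 𝓕) := by
    rw [Set.disjoint_left]
    rintro _ ⟨F, hF, rfl⟩ ⟨G, hG, h⟩
    have h1 : F = G := by
      rw [(hg F hF).2, (hg G hG).2, ← h, face_not]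
    subst h1
    have := congrFun h i0
    simp at this
  have hsub : g '' 𝓕 ∪ (fun F => fun i => !(g F i)) '' 𝓕 ⊆
      {σ | IsTope a σ ∧ (walls a σ).encard = k} := by
    rintro σ (⟨F, hF, rfl⟩ | ⟨F, hF, rfl⟩)
    · refine ⟨(hg F hF).1, ?_⟩
      rw [← sides_eq ha (hg F hF).1, ← (hg F hF).2]
      exact hF.2
    · refine ⟨isTope_not (hg F hF).1, ?_⟩
      rw [walls_not, ← sides_eq ha (hg F hF).1, ← (hg F hF).2]
      exact hF.2
  calc 2 * numGons (fun i => projLine (a i)) k = 𝓕.encard + 𝓕.encard := two_mul _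
    _ = (g '' 𝓕).encard + ((fun F => fun i => !(g F i)) '' 𝓕).encard := by
      rw [hg1.encard_image, hg2.encard_image]
    _ = (g '' 𝓕 ∪ (fun F => fun i => !(g F i)) '' 𝓕).encard :=
      (Set.encard_union_eq hdis).symm
    _ ≤ _ := Set.encard_le_encard hsub

end Pool.Agent.Helper15.PL
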