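import Pool.Agent.Helper82.PL.Key

/-!
# Block RA: every frame is the standard frame of an affine picture
-/

set_option autoImplicit false

namespace Pool.Agent.Helper15.PL

open Filter Topology

theorem li3_iff {v u w : V3} : LinearIndependent ℝ ![v, u, w] ↔
    ∀ α β γ : ℝ, α • v + β • u + γ • w = 0 → α = 0 ∧ β = 0 ∧ γ = 0 := by
  rw [Fintype.linearIndependent_iff]
  constructor
  · intro h α β γ he
    have h1 := h ![α, β, γ] (by simpa [Fin.sum_univ_three] using he)
    exact ⟨h1 0, h1 1, h1 2⟩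
  · intro h g hg
    rw [Fin.sum_univ_three] at hg
    obtain ⟨h0, h1, h2⟩ := h (g 0) (g 1) (g 2) (by simpa using hg)
    intro i
    fin_cases i
    · exact h0
    · exact h1
    · exact h2

theorem span3_eq_top {v u w : V3} (hli : LinearIndependent ℝ ![v, u, w]) :
    Submodule.span ℝ (Set.range ![v, u, w]) = ⊤ := by
  apply hli.span_eq_top_of_card_eq_finrank
  simp

theorem exists_coord {v u w : V3} (hli : LinearIndependent ℝ ![v, u, w]) (x : V3) :
    ∃ α β γ : ℝ, x = α • v + β • u + γ • w := by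
  have hx : x ∈ Submodule.span ℝ (Set.range ![v, u, w]) := by
    rw [span3_eq_top hli]; exact Submodule.mem_top
  induction hx using Submodule.span_induction with
  | mem x hx =>
    obtain ⟨m, rfl⟩ := hx
    fin_cases m
    · exact ⟨1, 0, 0, by simp⟩
    · exact ⟨0, 1, 0, by simp⟩
    · exact ⟨0, 0, 1, by simp⟩
  | zero => exact ⟨0, 0, 0, by simp⟩
  | add x y _ _ hx hy =>
    obtain ⟨a, b, c, h⟩ := hx
    obtain ⟨a', b', c', h'⟩ := hy
    exact ⟨a + a', b + b', c + c', by rw [h, h']; module⟩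
  | smul r x _ hx =>
    obtain ⟨a, b, c, h⟩ := hx
    exact ⟨r * a, r * b, r * c, by rw [h]; module⟩

/-- A vector orthogonal to a basis is zero. -/
theorem eq_zero_of_dot {v u w : V3} (hli : LinearIndependent ℝ ![v, u, w]) {b : V3}
    (h1 : b ⬝ᵥ v = 0) (h2 : b ⬝ᵥ u = 0) (h3 : b ⬝ᵥ w = 0) : b = 0 := by
  apply dotProduct_self_eq_zero.1
  obtain ⟨α, β, γ, h⟩ := exists_coord hli b
  have h4 : b ⬝ᵥ (α • v + β • u + γ • w) = 0 := by
    rw [dotProduct_add, dotProduct_add, dotProduct_smul, dotProduct_smul, dotProduct_smul, h1, h2,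
      h3]
    simp
  rwa [← h] at h4

theorem IsFrame.li {n : ℕ} {a : Fin n → V3} {i : Fin n} {v u w : V3} (hf : IsFrame a i v u w) :
    LinearIndependent ℝ ![v, u, w] := by
  rw [li3_iff]
  intro α β γ h
  have h1 : a i ⬝ᵥ (α • v + β • u + γ • w) = 0 := by rw [h]; simp
  rw [dotProduct_add, dotProduct_add, dotProduct_smul, dotProduct_smul, dotProduct_smul, hf.hv,
    hf.hu] at h1
  simp only [smul_eq_mul, mul_zero, zero_add, mul_eq_zero] at h1
  have hγ : γ = 0 := h1.resolve_right hf.hw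
  rw [hγ, zero_smul, add_zero] at h
  obtain ⟨h2, h3⟩ := LinearIndependent.pair_iff.1 hf.indep α β h
  exact ⟨h2, h3, hγ⟩

/-- The brackets of two independent vectors do not all vanish. -/
theorem brackets_ne {n : ℕ} {a : Fin n → V3} (ha : IsConfig a) {v u w : V3}
    (hli : LinearIndependent ℝ ![v, u, w]) {j k : Fin n} (hjk : j ≠ k) :
    ¬ ((a j ⬝ᵥ v) * (a k ⬝ᵥ u) - (a k ⬝ᵥ v) * (a j ⬝ᵥ u) = 0 ∧
      (a j ⬝ᵥ w) * (a k ⬝ᵥ v) - (a k ⬝ᵥ w) * (a j ⬝ᵥ v) = 0 ∧
      (a j ⬝ᵥ u) * (a k ⬝ᵥ w) - (a k ⬝ᵥ u) * (a j ⬝ᵥ w) = 0) := by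
  rintro ⟨h1, h2, h3⟩
  have hLI := LinearIndependent.pair_iff.1 (ha.indep j k hjk)
  have hk : a k ≠ 0 := fun h => one_ne_zero (hLI 0 1 (by rw [h]; simp)).2
  -- some coordinate of `a k` is nonzero
  by_cases hv : a k ⬝ᵥ v = 0
  · by_cases hu : a k ⬝ᵥ u = 0
    · by_cases hw : a k ⬝ᵥ w = 0
      · exact hk (eq_zero_of_dot hli hv hu hw)
      · have h4 : (a k ⬝ᵥ w) • a j + (-(a j ⬝ᵥ w)) • a k = 0 := by
          apply eq_zero_of_dot hli
          · rw [add_dotProduct, smul_dotProduct, smul_dotProduct]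
            simp only [smul_eq_mul]; linarith
          · rw [add_dotProduct, smul_dotProduct, smul_dotProduct]
            simp only [smul_eq_mul]; linarith
          · rw [add_dotProduct, smul_dotProduct, smul_dotProduct]
            simp only [smul_eq_mul]; ring
        exact hw (hLI _ _ h4).1
    · have h4 : (a k ⬝ᵥ u) • a j + (-(a j ⬝ᵥ u)) • a k = 0 := by
        apply eq_zero_of_dot hli
        · rw [add_dotProduct, smul_dotProduct, smul_dotProduct]
          simp only [smul_eq_mul]; linarith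
        · rw [add_dotProduct, smul_dotProduct, smul_dotProduct]
          simp only [smul_eq_mul]; ring
        · rw [add_dotProduct, smul_dotProduct, smul_dotProduct]
          simp only [smul_eq_mul]; linarith
      exact hu (hLI _ _ h4).1
  · have h4 : (a k ⬝ᵥ v) • a j + (-(a j ⬝ᵥ v)) • a k = 0 := by
      apply eq_zero_of_dot hli
      · rw [add_dotProduct, smul_dotProduct, smul_dotProduct]
        simp only [smul_eq_mul]; ring
      · rw [add_dotProduct, smul_dotProduct, smul_dotProduct]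
        simp only [smul_eq_mul]; linarith
      · rw [add_dotProduct, smul_dotProduct, smul_dotProduct]
        simp only [smul_eq_mul]; linarith
    exact hv (hLI _ _ h4).1

section Eventually

theorem ev_pos {f : ℝ → ℝ} (hf : ContinuousAt f 0) (h : 0 < f 0) : ∀ᶠ ε in 𝓝[>] (0 : ℝ), 0 < f ε :=
  (hf.tendsto.eventually (lt_mem_nhds h)).filter_mono nhdsWithin_le_nhds

theorem ev_ne {f : ℝ → ℝ} (hf : ContinuousAt f 0) (h : f 0 ≠ 0) :
    ∀ᶠ ε in 𝓝[>] (0 : ℝ), f ε ≠ 0 :=
  (hf.tendsto.eventually (isOpen_ne.mem_nhds h)).filter_mono nhdsWithin_le_nhds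

theorem ev_gt : ∀ᶠ ε in 𝓝[>] (0 : ℝ), 0 < ε := self_mem_nhdsWithin

/-- The denominators. -/
def Dn (A B C ε : ℝ) : ℝ := A - (ε + ε ^ 2) * B + ε ^ 3 * C

/-- The numerators. -/
def Nn (B C ε : ℝ) : ℝ := B - ε * C

theorem ev_D {A B C : ℝ} (h : ¬ (A = 0 ∧ B = 0 ∧ C = 0)) :
    ∀ᶠ ε in 𝓝[>] (0 : ℝ), Dn A B C ε ≠ 0 := by
  by_cases hA : A = 0
  · by_cases hB : B = 0
    · have hC : C ≠ 0 := fun hC => h ⟨hA, hB, hC⟩
      filter_upwards [ev_gt] with ε hε
      unfold Dn
      rw [hA, hB]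
      have : ε ^ 3 * C ≠ 0 := by positivity
      simpa using this
    · have h1 := ev_ne (f := fun ε => -(1 + ε) * B + ε ^ 2 * C) (by fun_prop) (by simpa using hB)
      filter_upwards [ev_gt, h1] with ε hε h2
      unfold Dn
      rw [hA]
      have h3 : 0 - (ε + ε ^ 2) * B + ε ^ 3 * C = ε * (-(1 + ε) * B + ε ^ 2 * C) := by ring
      rw [h3]
      exact mul_ne_zero hε.ne' h2
  · exact ev_ne (f := fun ε => Dn A B C ε) (by unfold Dn; fun_prop) (by simpa [Dn] using hA)

theorem ev_poly {p q r : ℝ} (h : ¬ (p = 0 ∧ q = 0 ∧ r = 0)) :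
    ∀ᶠ ε in 𝓝[>] (0 : ℝ), p + ε * q + ε ^ 2 * r ≠ 0 := by
  by_cases hp : p = 0
  · by_cases hq : q = 0
    · have hr : r ≠ 0 := fun hr => h ⟨hp, hq, hr⟩
      filter_upwards [ev_gt] with ε hε
      rw [hp, hq]
      have : ε ^ 2 * r ≠ 0 := by positivity
      simpa using this
    · have h1 := ev_ne (f := fun ε => q + ε * r) (by fun_prop) (by simpa using hq)
      filter_upwards [ev_gt, h1] with ε hε h2
      rw [hp]
      have h3 : 0 + ε * q + ε ^ 2 * r = ε * (q + ε * r) := by ring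
      rw [h3]
      exact mul_ne_zero hε.ne' h2
  · exact ev_ne (f := fun ε => p + ε * q + ε ^ 2 * r) (by fun_prop) (by simpa using hp)

/-- `(A - ε B) D > 0`. -/
theorem ev_first {A B C : ℝ} (h : ¬ (A = 0 ∧ B = 0)) :
    ∀ᶠ ε in 𝓝[>] (0 : ℝ), 0 < (A - ε * B) * Dn A B C ε := by
  by_cases hA : A = 0
  · have hB : B ≠ 0 := fun hB => h ⟨hA, hB⟩
    have h1 := ev_pos (f := fun ε => B * ((1 + ε) * B - ε ^ 2 * C)) (by fun_prop) (by
      have : 0 < B * B := mul_self_pos.2 hB
      simpa using this)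
    filter_upwards [ev_gt, h1] with ε hε h2
    unfold Dn
    rw [hA]
    have h3 : (0 - ε * B) * (0 - (ε + ε ^ 2) * B + ε ^ 3 * C) =
        ε ^ 2 * (B * ((1 + ε) * B - ε ^ 2 * C)) := by ring
    rw [h3]
    positivity
  · refine ev_pos (f := fun ε => (A - ε * B) * Dn A B C ε) (by unfold Dn; fun_prop) ?_
    have : 0 < A * A := mul_self_pos.2 hA
    simpa [Dn] using this

/-- The slopes of the lines through the vertex are smaller than those of the other lines. -/
theorem ev_through {B C A' B' C' : ℝ} (hB : B ≠ 0) (hA' : A' ≠ 0) :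
    ∀ᶠ ε in 𝓝[>] (0 : ℝ), Nn B C ε / Dn 0 B C ε < Nn B' C' ε / Dn A' B' C' ε := by
  have h1 : ∀ᶠ ε in 𝓝[>] (0 : ℝ),
      0 < ε * (Nn B' C' ε / Dn A' B' C' ε) - Nn B C ε / (-(1 + ε) * B + ε ^ 2 * C) := by
    refine ev_pos (f := fun ε => ε * (Nn B' C' ε / Dn A' B' C' ε) -
      Nn B C ε / (-(1 + ε) * B + ε ^ 2 * C)) ?_ ?_
    · refine ContinuousAt.sub (ContinuousAt.mul continuousAt_id (ContinuousAt.div ?_ ?_ ?_))
        (ContinuousAt.div ?_ ?_ ?_)
      · unfold Nn; fun_prop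
      · unfold Dn; fun_prop
      · simpa [Dn] using hA'
      · unfold Nn; fun_prop
      · fun_prop
      · simpa using hB
    · have : -(B / -B) = 1 := by field_simp
      simp [Nn, this]
  filter_upwards [ev_gt, h1] with ε hε h2
  have h3 : Nn B C ε / Dn 0 B C ε = (Nn B C ε / (-(1 + ε) * B + ε ^ 2 * C)) / ε := by
    rw [div_div]
    congr 1
    unfold Dn
    ring
  rw [h3, div_lt_iff₀ hε]
  linarith

theorem ev_slopes {A B C A' B' C' : ℝ} (hA : A ≠ 0) (hA' : A' ≠ 0) (h : B' / A' < B / A) :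
    ∀ᶠ ε in 𝓝[>] (0 : ℝ), Nn B' C' ε / Dn A' B' C' ε < Nn B C ε / Dn A B C ε := by
  have h1 : ∀ᶠ ε in 𝓝[>] (0 : ℝ), 0 < Nn B C ε / Dn A B C ε - Nn B' C' ε / Dn A' B' C' ε := by
    refine ev_pos (f := fun ε => Nn B C ε / Dn A B C ε - Nn B' C' ε / Dn A' B' C' ε) ?_ ?_
    · refine ContinuousAt.sub (ContinuousAt.div ?_ ?_ ?_) (ContinuousAt.div ?_ ?_ ?_)
      · unfold Nn; fun_prop
      · unfold Dn; fun_prop
      · simpa [Dn] using hA
      · unfold Nn; fun_prop
      · unfold Dn; fun_prop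
      · simpa [Dn] using hA'
    · simpa [Nn, Dn] using h
  filter_upwards [h1] with ε h2
  linarith

theorem ev_small (r : ℝ) : ∀ᶠ ε in 𝓝[>] (0 : ℝ), 0 < 1 - ε * r ∧ -1 < ε * r / (1 - ε * r) := by
  have h1 := ev_pos (f := fun ε => 1 - ε * r) (by fun_prop) (by simp)
  have h2 := ev_pos (f := fun ε => 1 + ε * r / (1 - ε * r)) (by
    refine ContinuousAt.add continuousAt_const (ContinuousAt.div ?_ ?_ ?_)
    · fun_prop
    · fun_prop
    · simp) (by simp)
  filter_upwards [h1, h2] with ε h3 h4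
  exact ⟨h3, by linarith⟩

end Eventually

/-- BLOCK RA: every frame is the standard frame of a picture. -/
theorem exists_picture (a : Fin 14 → V3) (ha : IsConfig a) (i : Fin 14) (v u w : V3)
    (hf : IsFrame a i v u w) :
    ∃ P : Picture a, P.perm 0 = i ∧ a (P.perm 1) ⬝ᵥ v = 0 ∧
      (∀ j k, 0 < j → j < k → P.X 0 j ≤ P.X 0 k) ∧
      ∃ c α β μ ν γ : ℝ, 0 < c ∧ 0 < β ∧ 0 < γ ∧
        v = c • (P.X 0 1 • P.e1 + (P.s 0 * P.X 0 1 + P.t 0) • P.e2 + P.e3) ∧
        u = α • v + β • (P.e1 + P.s 0 • P.e2) ∧ w = μ • v + ν • u + γ • P.e2 := by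
  classical
  have hli := hf.li
  set A : Fin 14 → ℝ := fun l => a l ⬝ᵥ v with hA
  set B : Fin 14 → ℝ := fun l => a l ⬝ᵥ u with hB
  set C : Fin 14 → ℝ := fun l => a l ⬝ᵥ w with hC
  have hAi : A i = 0 := hf.hv
  have hBi : B i = 0 := hf.hu
  have hCi : C i ≠ 0 := hf.hw
  have hABC : ∀ l, ¬ (A l = 0 ∧ B l = 0 ∧ C l = 0) := by
    rintro l ⟨h1, h2, h3⟩
    obtain ⟨j, hj⟩ : ∃ j : Fin 14, j ≠ l := exists_ne l
    exact (ha.indep l j hj.symm).ne_zero 0 (eq_zero_of_dot hli h1 h2 h3)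
  have hAB : ∀ l, l ≠ i → ¬ (A l = 0 ∧ B l = 0) := by
    rintro l hl ⟨h1, h2⟩
    refine brackets_ne ha hli hl ⟨?_, ?_, ?_⟩
    · change A l * B i - A i * B l = 0
      rw [h1, h2]; ring
    · change C l * A i - C i * A l = 0
      rw [h1, hAi]; ring
    · change B l * C i - B i * C l = 0
      rw [h2, hBi]; ring
  set D : ℝ → Fin 14 → ℝ := fun ε l => Dn (A l) (B l) (C l) ε with hD
  set s' : ℝ → Fin 14 → ℝ := fun ε l => Nn (B l) (C l) ε / Dn (A l) (B l) (C l) ε with hs'
  -- the conditions on `ε`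
  have E1 : ∀ᶠ ε in 𝓝[>] (0 : ℝ), ∀ l, D ε l ≠ 0 :=
    eventually_all.2 fun l => ev_D (hABC l)
  have E2 : ∀ᶠ ε in 𝓝[>] (0 : ℝ), ∀ j k, j ≠ k →
      (A j * B k - A k * B j) + ε * (C j * A k - C k * A j) + ε ^ 2 * (B j * C k - B k * C j) ≠ 0 := by
    refine eventually_all.2 fun j => eventually_all.2 fun k => ?_
    by_cases hjk : j = k
    · exact Eventually.of_forall fun ε h => absurd hjk h
    · filter_upwards [ev_poly (brackets_ne ha hli hjk)] with ε hε _
      exact hε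
  have E3 : ∀ᶠ ε in 𝓝[>] (0 : ℝ), ∀ j, j ≠ i → 0 < (A j - ε * B j) * D ε j := by
    refine eventually_all.2 fun j => ?_
    by_cases hj : j = i
    · exact Eventually.of_forall fun ε h => absurd hj h
    · filter_upwards [ev_first (C := C j) (hAB j hj)] with ε hε _
      exact hε
  have E4 : ∀ᶠ ε in 𝓝[>] (0 : ℝ), ∀ j k, j ≠ i → A j = 0 → A k ≠ 0 → s' ε j < s' ε k := by
    refine eventually_all.2 fun j => eventually_all.2 fun k => ?_
    by_cases hj : j = i
    · exact Eventually.of_forall fun ε h => absurd hj h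
    by_cases hAj : A j = 0
    · by_cases hAk : A k = 0
      · exact Eventually.of_forall fun ε _ _ h => absurd hAk h
      · have hBj : B j ≠ 0 := fun h => hAB j hj ⟨hAj, h⟩
        filter_upwards [ev_through (C := C j) (B' := B k) (C' := C k) hBj hAk] with ε hε _ _ _
        simp only [hs', hAj]
        exact hε
    · exact Eventually.of_forall fun ε _ h => absurd h hAj
  have E5 : ∀ᶠ ε in 𝓝[>] (0 : ℝ), ∀ j k, A j ≠ 0 → A k ≠ 0 → B k / A k < B j / A j →
      s' ε k < s' ε j := by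
    refine eventually_all.2 fun j => eventually_all.2 fun k => ?_
    by_cases hAj : A j = 0
    · exact Eventually.of_forall fun ε h => absurd hAj h
    by_cases hAk : A k = 0
    · exact Eventually.of_forall fun ε _ h => absurd hAk h
    by_cases hr : B k / A k < B j / A j
    · filter_upwards [ev_slopes (C := C j) (C' := C k) hAj hAk hr] with ε hε _ _ _
      exact hε
    · exact Eventually.of_forall fun ε _ _ h => absurd h hr
  have E6 : ∀ᶠ ε in 𝓝[>] (0 : ℝ), ∀ j, 0 < 1 - ε * (B j / A j) ∧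
      -1 < ε * (B j / A j) / (1 - ε * (B j / A j)) :=
    eventually_all.2 fun j => ev_small _
  obtain ⟨ε, hε, e1, e2, e3, e4, e5, e6⟩ :=
    (ev_gt.and (E1.and (E2.and (E3.and (E4.and (E5.and E6)))))).exists
  -- slopes
  set S : Fin 14 → ℝ := s' ε with hS
  have hDi : D ε i = ε ^ 3 * C i := by simp only [hD, Dn, hAi, hBi]; ring
  have hSi : S i = -(1 / ε ^ 2) := by
    simp only [hS, hs', Nn, Dn, hAi, hBi]
    field_simp
    ring
  have hSD : ∀ l, S l * D ε l = B l - ε * C l := by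
    intro l
    simp only [hS, hs', hD, Nn]
    exact div_mul_cancel₀ _ (e1 l)
  have hinj : Function.Injective S := by
    intro j k hjk
    by_contra hne
    have h1 : S j * D ε j * D ε k = S k * D ε k * D ε j := by rw [hjk]; ring
    rw [hSD, hSD] at h1
    refine e2 j k hne ?_
    simp only [hD, Dn] at h1
    linarith
  have hSmin : ∀ j, j ≠ i → S i < S j := by
    intro j hj
    have h1 : S j - S i = (A j - ε * B j) / (ε ^ 2 * D ε j) := by
      rw [hSi, eq_div_iff (mul_ne_zero (by positivity) (e1 j))]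
      have h2 : (S j - -(1 / ε ^ 2)) * (ε ^ 2 * D ε j) = ε ^ 2 * (S j * D ε j) + D ε j := by
        field_simp
        ring
      rw [h2, hSD]
      simp only [hD, Dn]
      ring
    have h2 : 0 < (A j - ε * B j) / (ε ^ 2 * D ε j) := by
      have h3 := e3 j hj
      rcases lt_or_gt_of_ne (e1 j) with h4 | h4
      · have h5 : A j - ε * B j < 0 := by
          by_contra h6
          rw [not_lt] at h6
          nlinarith
        exact div_pos_of_neg_of_neg h5 (mul_neg_of_pos_of_neg (by positivity) h4)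
      · have h5 : 0 < A j - ε * B j := by
          by_contra h6
          rw [not_lt] at h6
          nlinarith
        exact div_pos h5 (by positivity)
    linarith
  set π : Equiv.Perm (Fin 14) := Tuple.sort S with hπ
  have hmono : StrictMono (fun l => S (π l)) := by
    have h1 : Monotone (S ∘ π) := Tuple.monotone_sort S
    exact h1.strictMono_of_injective (hinj.comp π.injective)
  have hπ0 : π 0 = i := by
    by_contra hne
    obtain ⟨m, hm⟩ := π.surjective i
    have hm0 : 0 < m := by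
      rw [Fin.pos_iff_ne_zero]
      rintro rfl
      exact hne hm
    have h1 := hmono hm0
    simp only [hm] at h1
    exact absurd (hSmin _ hne) h1.not_gt
  have hπne : ∀ j, 0 < j → π j ≠ i := by
    intro j hj h
    rw [← hπ0] at h
    exact hj.ne' (π.injective h)
  obtain ⟨l₀, hl₀, hl₀v⟩ := hf.other
  have hπ1 : A (π 1) = 0 := by
    by_contra hne
    obtain ⟨m, hm⟩ := π.surjective l₀
    have h1 : S l₀ < S (π 1) := e4 l₀ (π 1) hl₀ hl₀v hne
    have hm0 : m ≠ 0 := by
      rintro rfl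
      exact hl₀ (hm ▸ hπ0)
    have h2 : (1 : Fin 14) ≤ m := by
      have := Fin.pos_iff_ne_zero.2 hm0
      exact this
    have h3 := hmono.monotone h2
    simp only [hm] at h3
    exact absurd h1 h3.not_gt
  set T : Fin 14 → ℝ := fun l => -(C l) / D ε l with hT
  have hTD : ∀ l, T l * D ε l = -(C l) := fun l => div_mul_cancel₀ _ (e1 l)
  have hTi : T i = -(1 / ε ^ 3) := by
    simp only [hT, hDi]
    field_simp
  -- the abscissae on line `0`
  have hX : ∀ j, j ≠ i → (T i - T j) / (S j - S i) = -(1 / ε) + ε * B j / (A j - ε * B j) := by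
    intro j hj
    have h1 : S j - S i ≠ 0 := (sub_pos.2 (hSmin j hj)).ne'
    have h2 : A j - ε * B j ≠ 0 := fun h => by
      have := e3 j hj
      rw [h] at this
      simp at this
    have h3 : (S j - S i) * (ε ^ 2 * D ε j) = A j - ε * B j := by
      rw [hSi]
      have h4 : (S j - -(1 / ε ^ 2)) * (ε ^ 2 * D ε j) = ε ^ 2 * (S j * D ε j) + D ε j := by
        field_simp
        ring
      rw [h4, hSD]
      simp only [hD, Dn]
      ring
    have h5 : (T i - T j) * (ε ^ 3 * D ε j) = -(A j) + (ε + ε ^ 2) * B j := by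
      rw [hTi]
      have h6 : (-(1 / ε ^ 3) - T j) * (ε ^ 3 * D ε j) = -(D ε j) - ε ^ 3 * (T j * D ε j) := by
        field_simp
      rw [h6, hTD]
      simp only [hD, Dn]
      ring
    rw [div_eq_iff h1]
    have h7 : (ε ^ 3 * D ε j) ≠ 0 := mul_ne_zero (by positivity) (e1 j)
    apply mul_right_cancel₀ h7
    rw [h5]
    have h8 : (-(1 / ε) + ε * B j / (A j - ε * B j)) * (S j - S i) * (ε ^ 3 * D ε j) =
        (-(1 / ε) + ε * B j / (A j - ε * B j)) * ε * ((S j - S i) * (ε ^ 2 * D ε j)) := by ring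
    rw [h8, h3]
    field_simp
    ring
  have hXv : ∀ j, j ≠ i → A j = 0 → ε * B j / (A j - ε * B j) = -1 := by
    intro j hj hAj
    have hBj : B j ≠ 0 := fun h => hAB j hj ⟨hAj, h⟩
    rw [hAj]
    field_simp
    ring
  have hXo : ∀ j, A j ≠ 0 → ε * B j / (A j - ε * B j) = ε * (B j / A j) / (1 - ε * (B j / A j)) := by
    intro j hAj
    have h1 := (e6 j).1
    have h2 : A j - ε * B j = A j * (1 - ε * (B j / A j)) := by field_simp
    rw [h2]
    field_simp
  refine ⟨⟨(-1 : ℝ) • u + ε • w, v + (-(ε + ε ^ 2)) • u + ε ^ 3 • w, w, π,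
    fun l => 1 / D ε (π l), fun l => S (π l), fun l => T (π l),
    fun l => one_div_ne_zero (e1 _), hmono, ?_, ?_, ?_, ?_⟩, hπ0, hπ1, ?_, ?_⟩
  · intro l
    rw [dotProduct_add, dotProduct_smul, dotProduct_smul]
    change 1 / D ε (π l) * ((-1 : ℝ) * B (π l) + ε * C (π l)) = -(S (π l))
    have h1 := hSD (π l)
    have h2 := e1 (π l)
    field_simp
    linarith
  · intro l
    rw [dotProduct_add, dotProduct_add, dotProduct_smul, dotProduct_smul]
    change 1 / D ε (π l) * (A (π l) + -(ε + ε ^ 2) * B (π l) + ε ^ 3 * C (π l)) = 1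
    have h2 := e1 (π l)
    have h3 : A (π l) + -(ε + ε ^ 2) * B (π l) + ε ^ 3 * C (π l) = D ε (π l) := by
      simp only [hD, Dn]; ring
    rw [h3]
    exact one_div_mul_cancel h2
  · intro l
    change 1 / D ε (π l) * C (π l) = -(T (π l))
    simp only [hT]
    ring
  · intro x
    obtain ⟨α, β, γ, h⟩ := exists_coord hli x
    refine ⟨-β - α * (ε + ε ^ 2), α, γ + ε * β + ε ^ 2 * α, ?_⟩
    rw [h]
    module
  · -- monotonicity
    intro j k hj hjk
    change (T (π 0) - T (π j)) / (S (π j) - S (π 0)) ≤ (T (π 0) - T (π k)) / (S (π k) - S (π 0))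
    rw [hπ0, hX _ (hπne j hj), hX _ (hπne k (hj.trans hjk))]
    have hlt : S (π j) < S (π k) := hmono hjk
    refine add_le_add le_rfl ?_
    by_cases hAj : A (π j) = 0
    · rw [hXv _ (hπne j hj) hAj]
      by_cases hAk : A (π k) = 0
      · rw [hXv _ (hπne k (hj.trans hjk)) hAk]
      · rw [hXo _ hAk]
        exact (e6 _).2.le
    · by_cases hAk : A (π k) = 0
      · exact absurd (e4 _ _ (hπne k (hj.trans hjk)) hAk hAj) hlt.not_gt
      · rw [hXo _ hAj, hXo _ hAk]
        have hle : B (π j) / A (π j) ≤ B (π k) / A (π k) := by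
          by_contra h
          exact absurd (e5 _ _ hAj hAk (not_le.1 h)) hlt.not_gt
        have h1 := (e6 (π j)).1
        have h2 := (e6 (π k)).1
        rw [div_le_div_iff₀ h1 h2]
        nlinarith
  · -- the frame
    have hX01 : (T (π 0) - T (π 1)) / (S (π 1) - S (π 0)) = -(1 / ε) - 1 := by
      rw [hπ0, hX _ (hπne 1 (by decide)), hXv _ (hπne 1 (by decide)) hπ1]
      ring
    refine ⟨ε ^ 2, 1 / ε, ε, 1 / ε ^ 3 * (-1), 1 / ε ^ 3 * (ε + ε ^ 2), 1 / ε ^ 3, by positivity, hε,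
      by positivity, ?_, ?_, ?_⟩
    · change v = ε ^ 2 • (((T (π 0) - T (π 1)) / (S (π 1) - S (π 0))) • ((-1 : ℝ) • u + ε • w) +
        (S (π 0) * ((T (π 0) - T (π 1)) / (S (π 1) - S (π 0))) + T (π 0)) •
          (v + (-(ε + ε ^ 2)) • u + ε ^ 3 • w) + w)
      rw [hX01, hπ0, hSi, hTi]
      have h1 : -(1 / ε ^ 2) * (-(1 / ε) - 1) + -(1 / ε ^ 3) = 1 / ε ^ 2 := by
        field_simp
        ring
      rw [h1]
      match_scalars <;> field_simp <;> ring
    · change u = (1 / ε) • v + ε • ((-1 : ℝ) • u + ε • w + S (π 0) •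
        (v + (-(ε + ε ^ 2)) • u + ε ^ 3 • w))
      rw [hπ0, hSi]
      match_scalars <;> field_simp <;> ring
    · change w = (1 / ε ^ 3 * (-1)) • v + (1 / ε ^ 3 * (ε + ε ^ 2)) • u + (1 / ε ^ 3) •
        (v + (-(ε + ε ^ 2)) • u + ε ^ 3 • w)
      match_scalars <;> field_simp <;> ring

end Pool.Agent.Helper15.PL
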