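import Pool.Agent.Helper82.PL.Key
import Pool.Agent.Helper15.PL.RA

/-!
# Block RD: a tope with three walls gives six triangular flags
-/

set_option autoImplicit false

namespace Pool.Agent.Helper15.PL

open Filter Topology FlagSys

variable {n : ℕ}

theorem sg_mul_self (b : Bool) : sg b * sg b = 1 := by cases b <;> simp [sg]

theorem sg_not (b : Bool) : sg (!b) = -sg b := by cases b <;> simp [sg]

theorem not_flipAt (σ : Fin n → Bool) (i : Fin n) :
    flipAt (fun l => !σ l) i = fun l => !(flipAt σ i l) := by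
  funext l
  unfold flipAt
  by_cases h : l = i
  · subst h; simp
  · rw [Function.update_of_ne h, Function.update_of_ne h]

theorem isTope_not {a : Fin n → V3} {σ : Fin n → Bool} (h : IsTope a σ) :
    IsTope a (fun l => !σ l) := by
  obtain ⟨x, hx⟩ := h
  refine ⟨-x, fun i => ?_⟩
  rw [sg_not, dotProduct_neg]
  have := hx i
  linarith

theorem isTope_not_iff {a : Fin n → V3} {σ : Fin n → Bool} :
    IsTope a (fun l => !σ l) ↔ IsTope a σ := by
  constructor
  · intro h
    have := isTope_not h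
    simpa using this
  · exact isTope_not

theorem walls_not (a : Fin n → V3) (σ : Fin n → Bool) : walls a (fun l => !σ l) = walls a σ := by
  ext i
  simp only [walls, Set.mem_ofPred_eq, not_flipAt, isTope_not_iff]

theorem triTopes_not {a : Fin n → V3} {σ : Fin n → Bool} (h : σ ∈ triTopes a) :
    (fun l => !σ l) ∈ triTopes a :=
  ⟨isTope_not h.1, by rw [walls_not]; exact h.2⟩

/-- Two different vectors of the configuration do not vanish on two independent vectors. -/
theorem eq_of_two {a : Fin n → V3} (ha : IsConfig a) {v u w : V3}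
    (hli : LinearIndependent ℝ ![v, u, w]) {i j : Fin n} (hiv : a i ⬝ᵥ v = 0) (hiu : a i ⬝ᵥ u = 0)
    (hjv : a j ⬝ᵥ v = 0) (hju : a j ⬝ᵥ u = 0) : i = j := by
  by_contra hij
  refine brackets_ne ha hli hij ⟨?_, ?_, ?_⟩
  · rw [hiv, hiu]; ring
  · rw [hiv, hjv]; ring
  · rw [hiu, hju]; ring

theorem exists_third {x y : V3} (h : LinearIndependent ℝ ![x, y]) :
    ∃ e : V3, LinearIndependent ℝ ![x, y, e] := by
  have h1 : Submodule.span ℝ (Set.range ![x, y]) ≠ ⊤ := by
    intro h2
    have h3 := finrank_span_eq_card h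
    rw [h2] at h3
    simp at h3
  obtain ⟨e, he⟩ : ∃ e : V3, e ∉ Submodule.span ℝ (Set.range ![x, y]) := by
    by_contra hcon
    push Not at hcon
    exact h1 (Submodule.eq_top_iff'.2 hcon)
  refine ⟨e, ?_⟩
  rw [li3_iff]
  intro α β γ h2
  have hγ : γ = 0 := by
    by_contra hγ
    apply he
    have h3 : e = (-(γ⁻¹ * α)) • x + (-(γ⁻¹ * β)) • y := by
      have h4 : γ • e = -(α • x + β • y) := by
        rw [eq_neg_iff_add_eq_zero, add_comm]; exact h2
      have h5 : e = γ⁻¹ • (γ • e) := by rw [smul_smul, inv_mul_cancel₀ hγ, one_smul]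
      rw [h5, h4]
      module
    rw [h3]
    refine Submodule.add_mem _ (Submodule.smul_mem _ _ (Submodule.subset_span ⟨0, rfl⟩))
      (Submodule.smul_mem _ _ (Submodule.subset_span ⟨1, rfl⟩))
  rw [hγ, zero_smul, add_zero] at h2
  obtain ⟨h3, h4⟩ := LinearIndependent.pair_iff.1 h α β h2
  exact ⟨h3, h4, hγ⟩

/-- The tope is the cone defined by its walls. -/
theorem cone_of_walls {a : Fin n → V3} (ha : IsConfig a) {σ : Fin n → Bool} {p : V3}
    (hp : ∀ l, 0 < sg (σ l) * (a l ⬝ᵥ p)) (hne : (walls a σ).Nonempty) {y : V3}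
    (hy : ∀ l ∈ walls a σ, 0 < sg (σ l) * (a l ⬝ᵥ y)) : ∀ l, 0 < sg (σ l) * (a l ⬝ᵥ y) := by
  classical
  by_contra hcon
  push Not at hcon
  set f : Fin n → V3 → ℝ := fun l x => sg (σ l) * (a l ⬝ᵥ x) with hf
  have fadd : ∀ l x x', f l (x + x') = f l x + f l x' := by
    intro l x x'; simp only [hf]; rw [dotProduct_add]; ring
  have fsmul : ∀ l (c : ℝ) x, f l (c • x) = c * f l x := by
    intro l c x; simp only [hf]; rw [dotProduct_smul, smul_eq_mul]; ring
  have hfp : ∀ l, 0 < f l p := hp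
  -- the first crossing
  obtain ⟨l₀, hl₀, hmin⟩ := Finset.exists_min_image
    (Finset.univ.filter fun l => f l y ≤ 0) (fun l => f l p / (f l p - f l y)) (by
      obtain ⟨l, hl⟩ := hcon
      exact ⟨l, by simpa [hf] using hl⟩)
  rw [Finset.mem_filter] at hl₀
  have hl₀y : f l₀ y ≤ 0 := hl₀.2
  set t := f l₀ p / (f l₀ p - f l₀ y) with ht
  have hden : 0 < f l₀ p - f l₀ y := by have := hfp l₀; linarith
  have ht0 : 0 < t := div_pos (hfp l₀) hden
  have ht1 : t ≤ 1 := by rw [ht, div_le_one hden]; linarith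
  set z : V3 := (1 - t) • p + t • y with hz
  have hfz : ∀ l, f l z = (1 - t) * f l p + t * f l y := by
    intro l; rw [hz, fadd, fsmul, fsmul]
  have hz0 : f l₀ z = 0 := by
    rw [hfz, ht]; field_simp; ring
  have hznn : ∀ l, 0 ≤ f l z := by
    intro l
    rcases lt_or_ge 0 (f l y) with h | h
    · rw [hfz]
      have := hfp l
      have h1 : 0 ≤ 1 - t := by linarith
      positivity
    · have h1 := hmin l (by simpa using h)
      have h2 : 0 < f l p - f l y := by have := hfp l; linarith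
      have h3 : t * (f l p - f l y) ≤ f l p := (le_div_iff₀ h2).1 h1
      rw [hfz]; linarith
  have hzw : ∀ l ∈ walls a σ, 0 < f l z := by
    intro l hl
    rw [hfz]
    have h1 := hfp l
    have h2 : 0 < f l y := hy l hl
    have h3 : 0 ≤ 1 - t := by linarith
    positivity
  -- `z, p` are independent
  have hzne : z ≠ 0 := by
    obtain ⟨m, hm⟩ := hne
    intro h
    have h1 := hzw m hm
    rw [h] at h1
    simp [hf] at h1
  have hzp : LinearIndependent ℝ ![z, p] := by
    rw [LinearIndependent.pair_iff]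
    intro α β h
    have h1 : f l₀ (α • z + β • p) = 0 := by rw [h]; simp [hf]
    rw [fadd, fsmul, fsmul, hz0, mul_zero, zero_add, mul_eq_zero] at h1
    have hβ : β = 0 := h1.resolve_right (hfp l₀).ne'
    rw [hβ, zero_smul, add_zero, smul_eq_zero] at h
    exact ⟨h.resolve_right hzne, hβ⟩
  obtain ⟨e, he⟩ := exists_third hzp
  -- the first line of the pencil
  obtain ⟨l₁, hl₁, hmax⟩ := Finset.exists_max_image
    (Finset.univ.filter fun l => f l z = 0) (fun l => -(f l e) / f l p)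
    ⟨l₀, by simpa using hz0⟩
  rw [Finset.mem_filter] at hl₁
  have hl₁z : f l₁ z = 0 := hl₁.2
  set τ := -(f l₁ e) / f l₁ p with hτ
  set g : V3 := e + τ • p with hg
  have hfg : ∀ l, f l g = f l e + τ * f l p := by intro l; rw [hg, fadd, fsmul]
  have hg1 : f l₁ g = 0 := by
    rw [hfg, hτ]
    have := (hfp l₁).ne'
    field_simp
    ring
  have hzg : LinearIndependent ℝ ![z, g, p] := by
    rw [li3_iff] at he ⊢
    intro α β γ h
    obtain ⟨h1, h2, h3⟩ := he α (β * τ + γ) β (by rw [← h, hg]; module)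
    subst h3
    exact ⟨h1, rfl, by simpa using h2⟩
  have hgpos : ∀ l, f l z = 0 → l ≠ l₁ → 0 < f l g := by
    intro l hlz hne'
    have h1 := hmax l (by simpa using hlz)
    have h2 : 0 ≤ f l g := by
      rw [div_le_iff₀ (hfp l)] at h1
      rw [hfg]; linarith
    refine lt_of_le_of_ne h2 ?_
    intro h3
    have hs : ∀ m : Fin n, sg (σ m) ≠ 0 := fun m h => by
      have := sg_mul_self (σ m)
      rw [h] at this
      simp at this
    have h4 : ∀ m x, f m x = 0 → a m ⬝ᵥ x = 0 := fun m x h =>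
      (mul_eq_zero.1 h).resolve_left (hs m)
    exact hne' (eq_of_two ha hzg (h4 _ _ hlz) (h4 _ _ h3.symm) (h4 _ _ hl₁z) (h4 _ _ hg1))
  -- the point beyond the wall `l₁`
  have hev : ∀ᶠ ε in 𝓝[>] (0 : ℝ), ∀ l, l ≠ l₁ → 0 < f l z + ε * f l g - ε ^ 2 * f l p := by
    refine eventually_all.2 fun l => ?_
    by_cases hl : l = l₁
    · exact Eventually.of_forall fun ε h => absurd hl h
    rcases (hznn l).eq_or_lt with h | h
    · have h1 := ev_pos (f := fun ε => f l g - ε * f l p) (by fun_prop) (by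
        simpa using hgpos l h.symm hl)
      filter_upwards [ev_gt, h1] with ε hε h2 _
      rw [← h]
      have h3 : 0 + ε * f l g - ε ^ 2 * f l p = ε * (f l g - ε * f l p) := by ring
      rw [h3]
      positivity
    · have h1 := ev_pos (f := fun ε => f l z + ε * f l g - ε ^ 2 * f l p) (by fun_prop) (by
        simpa using h)
      filter_upwards [h1] with ε h2 _
      exact h2
  obtain ⟨ε, hε, hε'⟩ := (ev_gt.and hev).exists
  have hwall : l₁ ∈ walls a σ := by
    refine ⟨z + ε • g + (-ε ^ 2) • p, fun l => ?_⟩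
    have h1 : f l (z + ε • g + (-ε ^ 2) • p) = f l z + ε * f l g - ε ^ 2 * f l p := by
      rw [fadd, fadd, fsmul, fsmul]; ring
    by_cases hl : l = l₁
    · subst hl
      have h2 : sg (flipAt σ l l) = -sg (σ l) := by
        unfold flipAt; rw [Function.update_self, sg_not]
      rw [h2]
      have h3 : -sg (σ l) * (a l ⬝ᵥ (z + ε • g + (-ε ^ 2) • p)) =
          -(f l (z + ε • g + (-ε ^ 2) • p)) := by simp only [hf]; ring
      rw [h3, h1, hl₁z, hg1]
      have := hfp l
      have h4 : 0 < ε ^ 2 * f l p := by positivity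
      linarith
    · have h2 : sg (flipAt σ l₁ l) = sg (σ l) := by
        unfold flipAt; rw [Function.update_of_ne hl]
      rw [h2]
      have h3 : sg (σ l) * (a l ⬝ᵥ (z + ε • g + (-ε ^ 2) • p)) =
          f l (z + ε • g + (-ε ^ 2) • p) := rfl
      rw [h3, h1]
      exact hε' l hl
  have h5 := hzw l₁ hwall
  rw [hl₁z] at h5
  exact lt_irrefl _ h5

/-- The extreme rays of a tope with three walls. -/
theorem exists_rays {a : Fin n → V3} (ha : IsConfig a) {σ : Fin n → Bool} (h : σ ∈ triTopes a) :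
    ∃ (L : Fin 3 → Fin n) (r : Fin 3 → V3) (p : V3), Function.Injective L ∧
      (∀ l, 0 < sg (σ l) * (a l ⬝ᵥ p)) ∧ (∀ m m', m ≠ m' → a (L m) ⬝ᵥ r m' = 0) ∧
      (∀ m, 0 < sg (σ (L m)) * (a (L m) ⬝ᵥ r m)) ∧ ∀ l m, 0 ≤ sg (σ l) * (a l ⬝ᵥ r m) := by
  classical
  obtain ⟨⟨p, hp⟩, hw⟩ := h
  obtain ⟨i, j, k, hij, hik, hjk, hW⟩ := Set.encard_eq_three.1 hw
  set L : Fin 3 → Fin n := ![i, j, k] with hL
  have hLinj : Function.Injective L := by
    intro m m' hmm
    fin_cases m <;> fin_cases m' <;> simp_all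
  have hLW : ∀ l, l ∈ walls a σ → ∃ m, L m = l := by
    intro l hl
    rw [hW] at hl
    rcases hl with rfl | rfl | rfl
    · exact ⟨0, rfl⟩
    · exact ⟨1, rfl⟩
    · exact ⟨2, rfl⟩
  have hcone : ∀ y : V3, (∀ m, 0 < sg (σ (L m)) * (a (L m) ⬝ᵥ y)) →
      ∀ l, 0 < sg (σ l) * (a l ⬝ᵥ y) := by
    intro y hy
    refine cone_of_walls ha hp ⟨i, by rw [hW]; simp⟩ ?_
    intro l hl
    obtain ⟨m, rfl⟩ := hLW l hl
    exact hy m
  -- the three vectors are independent
  let φ : V3 →ₗ[ℝ] V3 :=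
    { toFun := fun x m => a (L m) ⬝ᵥ x
      map_add' := fun x y => by funext m; simp [dotProduct_add]
      map_smul' := fun c x => by funext m; simp [dotProduct_smul] }
  have hφ : Function.Injective φ := by
    rw [← LinearMap.ker_eq_bot, LinearMap.ker_eq_bot']
    intro y hy
    have hy' : ∀ m, a (L m) ⬝ᵥ y = 0 := fun m => congrFun hy m
    apply ha.spans
    intro l
    by_contra hne
    have h1 := hcone (p + (-(a l ⬝ᵥ p) / (a l ⬝ᵥ y)) • y) (by
      intro m
      rw [dotProduct_add, dotProduct_smul, hy' m, smul_zero, add_zero]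
      exact hp _) l
    rw [dotProduct_add, dotProduct_smul, smul_eq_mul, div_mul_cancel₀ _ hne] at h1
    simp at h1
  have hφs : Function.Surjective φ := LinearMap.injective_iff_surjective.1 hφ
  choose r hr using fun m : Fin 3 => hφs (Pi.single m (sg (σ (L m))))
  have hr' : ∀ m m', a (L m) ⬝ᵥ r m' = (Pi.single m' (sg (σ (L m'))) : V3) m :=
    fun m m' => congrFun (hr m') m
  have hrne : ∀ m m', m ≠ m' → a (L m) ⬝ᵥ r m' = 0 := by
    intro m m' hmm
    rw [hr', Pi.single_eq_of_ne hmm]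
  have hrself : ∀ m, sg (σ (L m)) * (a (L m) ⬝ᵥ r m) = 1 := by
    intro m
    rw [hr', Pi.single_eq_same, sg_mul_self]
  refine ⟨L, r, p, hLinj, hp, hrne, fun m => by rw [hrself]; exact one_pos, ?_⟩
  intro l m
  have h1 : ∀ ε : ℝ, 0 < ε → 0 < sg (σ l) * (a l ⬝ᵥ r m) + ε * (sg (σ l) * (a l ⬝ᵥ p)) := by
    intro ε hε
    have h2 := hcone (r m + ε • p) (by
      intro m'
      rw [dotProduct_add, dotProduct_smul, smul_eq_mul, mul_add]
      have h3 := hp (L m')
      have h4 : 0 ≤ sg (σ (L m')) * (a (L m') ⬝ᵥ r m) := by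
        by_cases hmm : m' = m
        · rw [hmm, hrself]; exact zero_le_one
        · rw [hrne _ _ hmm, mul_zero]
      have h5 : 0 < ε * (sg (σ (L m')) * (a (L m') ⬝ᵥ p)) := by positivity
      linarith) l
    rw [dotProduct_add, dotProduct_smul, smul_eq_mul, mul_add] at h2
    linarith
  by_contra hneg
  rw [not_le] at hneg
  have h3 := hp l
  have h4 := h1 (-(sg (σ l) * (a l ⬝ᵥ r m)) / (sg (σ l) * (a l ⬝ᵥ p))) (div_pos (by linarith) h3)
  rw [div_mul_cancel₀ _ h3.ne'] at h4
  linarith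

theorem lexPos_sign {s x y z : ℝ} (b : Bool) (hs : s = sg b) (hx : 0 ≤ s * x) (hy : 0 ≤ s * y)
    (hz : 0 < s * z) : LexPos x y z ↔ b = true := by
  subst hs
  unfold LexPos
  cases b
  · simp only [sg, Bool.false_eq_true, if_false, neg_mul, one_mul] at hx hy hz
    constructor
    · rintro (h | ⟨_, h | ⟨_, h⟩⟩) <;> linarith
    · intro h; exact absurd h (by simp)
  · simp only [sg, if_true, one_mul] at hx hy hz
    refine ⟨fun _ => rfl, fun _ => ?_⟩
    rcases hx.eq_or_lt with h | h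
    · right
      refine ⟨h.symm, ?_⟩
      rcases hy.eq_or_lt with h' | h'
      · exact Or.inr ⟨h'.symm, hz⟩
      · exact Or.inl h'
    · exact Or.inl h

theorem rho_inj_of {σ τ : Fin n → Bool} (h : rho σ = rho τ) {i : Fin n} (hi : σ i = τ i) :
    σ = τ := by
  funext l
  have h1 : (σ l == σ i) = (τ l == τ i) := congrFun (congrFun h l) i
  rw [hi] at h1
  revert h1
  cases σ l <;> cases τ l <;> cases τ i <;> simp

/-- The six keys of a triangular tope. -/
theorem six_keys {a : Fin n → V3} (ha : IsConfig a) {σ : Fin n → Bool} (h : σ ∈ triTopes a)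
    (h0 : ∀ κ κ' : KF a, Rel0 κ κ' → (keySys a).s0 κ = κ')
    (h1 : ∀ κ κ' : KF a, Rel1 κ κ' → (keySys a).s1 κ = κ') :
    ∃ K : {q : Fin 3 × Fin 3 // q.1 ≠ q.2} → KF a, Function.Injective K ∧
      ∀ q, (K q).1.2.2 = rho σ ∧ (keySys a).tri (K q) := by
  classical
  obtain ⟨L, r, p, hL, hp, hr0, hr1, hrnn⟩ := exists_rays ha h
  have hfr : ∀ m m' m'', m ≠ m' → m ≠ m'' → m' ≠ m'' →
      IsFrame a (L m) (r m') (r m'') p := by
    intro m m' m'' h2 h3 h4
    refine ⟨hr0 m m' h2, hr0 m m'' h3, fun h5 => ?_, ?_, ⟨L m'', fun h5 => h3 (hL h5.symm),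
      hr0 m'' m' h4.symm⟩⟩
    · have := hp (L m)
      rw [h5, mul_zero] at this
      exact lt_irrefl _ this
    · rw [LinearIndependent.pair_iff]
      intro α β h5
      have h6 : a (L m') ⬝ᵥ (α • r m' + β • r m'') = 0 := by rw [h5]; simp
      have h7 : a (L m'') ⬝ᵥ (α • r m' + β • r m'') = 0 := by rw [h5]; simp
      rw [dotProduct_add, dotProduct_smul, dotProduct_smul, hr0 m' m'' h4] at h6
      rw [dotProduct_add, dotProduct_smul, dotProduct_smul, hr0 m'' m' h4.symm] at h7
      simp only [smul_eq_mul, mul_zero, add_zero, zero_add, mul_eq_zero] at h6 h7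
      have h8 : a (L m') ⬝ᵥ r m' ≠ 0 := fun h => by
        have := hr1 m'; rw [h, mul_zero] at this; exact lt_irrefl _ this
      have h9 : a (L m'') ⬝ᵥ r m'' ≠ 0 := fun h => by
        have := hr1 m''; rw [h, mul_zero] at this; exact lt_irrefl _ this
      exact ⟨h6.resolve_right h8, h7.resolve_right h9⟩
  have hsv : ∀ m' m'', signVec a (r m') (r m'') p = σ := by
    intro m' m''
    funext l
    unfold signVec
    have := lexPos_sign (σ l) rfl (hrnn l m') (hrnn l m'') (hp l)
    by_cases h2 : σ l = true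
    · rw [h2] at this ⊢
      simp [this]
    · rw [Bool.not_eq_true] at h2
      rw [h2] at this ⊢
      simp [this]
  have hthird : ∀ m m' : Fin 3, m ≠ m' → ∃ m'', m ≠ m'' ∧ m' ≠ m'' := by decide
  have hkey : ∀ m m', m ≠ m' → IsKey a (L m, vset a (r m'), rho σ) := by
    intro m m' h2
    obtain ⟨m'', h3, h4⟩ := hthird m m' h2
    refine ⟨L m, r m', r m'', p, hfr m m' m'' h2 h3 h4, ?_⟩
    unfold keyOf
    rw [hsv]
  have hvne : ∀ m m', m ≠ m' → vset a (r m) ≠ vset a (r m') := by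
    intro m m' h2 h3
    have h4 : L m ∈ vset a (r m') := by
      unfold vset
      simpa using hr0 m m' h2
    rw [← h3] at h4
    unfold vset at h4
    rw [Finset.mem_filter] at h4
    have := hr1 m
    rw [h4.2, mul_zero] at this
    exact lt_irrefl _ this
  let K : {q : Fin 3 × Fin 3 // q.1 ≠ q.2} → KF a :=
    fun q => ⟨(L q.1.1, vset a (r q.1.2), rho σ), hkey _ _ q.2⟩
  have hK0 : ∀ m m' m'' (h2 : m ≠ m') (h3 : m ≠ m''), m' ≠ m'' →
      (keySys a).s0 (K ⟨(m, m'), h2⟩) = K ⟨(m, m''), h3⟩ := by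
    intro m m' m'' h2 h3 h4
    refine h0 _ _ ⟨fun h5 => hvne m'' m' h4.symm ?_, rfl, rfl⟩
    exact congrArg (fun κ : KF a => κ.1.2.1) h5
  have hK1 : ∀ m m' m'' (h2 : m ≠ m') (h3 : m'' ≠ m'), m ≠ m'' →
      (keySys a).s1 (K ⟨(m, m'), h2⟩) = K ⟨(m'', m'), h3⟩ := by
    intro m m' m'' h2 h3 h4
    refine h1 _ _ ⟨fun h5 => h4 (hL ?_), rfl, rfl⟩
    exact (congrArg (fun κ : KF a => κ.1.1) h5).symm
  refine ⟨K, ?_, ?_⟩
  · rintro ⟨⟨m, m'⟩, h2⟩ ⟨⟨k, k'⟩, h3⟩ h4
    have h5 : L m = L k := congrArg (fun κ : KF a => κ.1.1) h4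
    have h6 : vset a (r m') = vset a (r k') := congrArg (fun κ : KF a => κ.1.2.1) h4
    have h7 : m' = k' := by
      by_contra h8
      exact hvne _ _ h8 h6
    have h8 := hL h5
    subst h7; subst h8
    rfl
  · rintro ⟨⟨m, m'⟩, h2⟩
    refine ⟨rfl, ?_⟩
    obtain ⟨m'', h3, h4⟩ := hthird m m' h2
    simp only at h2
    unfold FlagSys.tri
    rw [hK1 m m' m'' h2 h4.symm h3, hK0 m'' m' m h4.symm h3.symm h2.symm,
      hK1 m'' m m' h3.symm h2.symm h4.symm, hK0 m' m m'' h2.symm h4 h3,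
      hK1 m' m'' m h4 h3 h2.symm, hK0 m m'' m' h3 h2 h4.symm]

/-- BLOCK RD: every tope with three walls gives six triangular flags. -/
theorem three_mul_triTopes_le {n : ℕ} (a : Fin n → V3) (ha : IsConfig a)
    (h0 : ∀ κ κ' : KF a, Rel0 κ κ' → (keySys a).s0 κ = κ')
    (h1 : ∀ κ κ' : KF a, Rel1 κ κ' → (keySys a).s1 κ = κ') :
    3 * (triTopes a).encard ≤ ((Finset.univ.filter (keySys a).tri).card : ℕ∞) := by
  classical
  rcases (triTopes a).eq_empty_or_nonempty with he | ⟨σ₀, hσ₀⟩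
  · rw [he]; simp
  obtain ⟨i₀⟩ : Nonempty (Fin n) := by
    have h2 : (walls a σ₀).Nonempty := by
      rw [← Set.encard_ne_zero, hσ₀.2]; norm_num
    exact ⟨h2.some⟩
  set T : Finset (Fin n → Bool) := Finset.univ.filter fun σ => σ ∈ triTopes a with hT
  have hTe : (triTopes a).encard = (T.card : ℕ∞) := by
    have : (triTopes a) = (T : Set (Fin n → Bool)) := by ext σ; simp [hT]
    rw [this, Set.encard_coe_eq_coe_finsetCard]
  set Tp : Finset (Fin n → Bool) := T.filter fun σ => σ i₀ = true with hTp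
  set Tm : Finset (Fin n → Bool) := T.filter fun σ => ¬ σ i₀ = true with hTm
  have hcard : T.card = Tp.card + Tm.card := (Finset.card_filter_add_card_filter_not _).symm
  have hTmp : Tm.card = Tp.card := by
    refine Finset.card_bij' (fun σ _ => fun l => !σ l) (fun σ _ => fun l => !σ l) ?_ ?_ ?_ ?_
    · intro σ hσ
      rw [hTm, Finset.mem_filter, hT, Finset.mem_filter] at hσ
      rw [hTp, Finset.mem_filter, hT, Finset.mem_filter]
      exact ⟨⟨Finset.mem_univ _, triTopes_not hσ.1.2⟩, by simpa using hσ.2⟩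
    · intro σ hσ
      rw [hTp, Finset.mem_filter, hT, Finset.mem_filter] at hσ
      rw [hTm, Finset.mem_filter, hT, Finset.mem_filter]
      exact ⟨⟨Finset.mem_univ _, triTopes_not hσ.1.2⟩, by simpa using hσ.2⟩
    · intro σ _; funext l; simp
    · intro σ _; funext l; simp
  -- six keys for every tope of `Tp`
  set M : Finset (keySys a).F := Finset.univ.filter (keySys a).tri with hM
  have hMmem : ∀ κ : (keySys a).F, κ ∈ M ↔ (keySys a).tri κ := by
    intro κ; rw [hM, Finset.mem_filter]; simp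
  let rel : (keySys a).F → (Fin n → Fin n → Bool) := fun κ => (κ : KF a).1.2.2
  let R : (Fin n → Bool) → Finset (keySys a).F := fun σ => M.filter fun κ => rel κ = rho σ
  have hRmem : ∀ σ κ, κ ∈ R σ ↔ κ ∈ M ∧ rel κ = rho σ := fun σ κ => Finset.mem_filter
  have hR6 : ∀ σ ∈ Tp, 6 ≤ (R σ).card := by
    intro σ hσ
    rw [hTp, Finset.mem_filter, hT, Finset.mem_filter] at hσ
    obtain ⟨K, hKi, hK⟩ := six_keys ha hσ.1.2 h0 h1
    let K' : {q : Fin 3 × Fin 3 // q.1 ≠ q.2} → (keySys a).F := K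
    have hKi' : Function.Injective K' := hKi
    have h2 : Finset.univ.image K' ⊆ R σ := by
      intro κ hκ
      rw [Finset.mem_image] at hκ
      obtain ⟨q, _, rfl⟩ := hκ
      rw [hRmem, hMmem]
      exact ⟨(hK q).2, (hK q).1⟩
    have h3 : (Finset.univ.image K').card = 6 := by
      rw [Finset.card_image_of_injective _ hKi']
      decide
    rw [← h3]
    exact Finset.card_le_card h2
  have hdisj : (Tp : Set (Fin n → Bool)).PairwiseDisjoint R := by
    intro σ hσ τ hτ hne
    rw [Function.onFun, Finset.disjoint_left]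
    intro κ h2 h3
    rw [hRmem] at h2 h3
    apply hne
    have h4 : rho σ = rho τ := h2.2.symm.trans h3.2
    have h5 := hσ
    have h6 := hτ
    rw [Finset.mem_coe, hTp, Finset.mem_filter] at h5 h6
    exact rho_inj_of h4 (h5.2.trans h6.2.symm)
  have hsum : 6 * Tp.card ≤ M.card := by
    have h2 : (Tp.biUnion R).card = ∑ σ ∈ Tp, (R σ).card := Finset.card_biUnion hdisj
    have h3 : Tp.card * 6 ≤ ∑ σ ∈ Tp, (R σ).card := by
      rw [← smul_eq_mul]
      exact Finset.card_nsmul_le_sum _ _ _ hR6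
    have h4 : Tp.biUnion R ⊆ M := by
      intro κ hκ
      rw [Finset.mem_biUnion] at hκ
      obtain ⟨σ, _, hσ⟩ := hκ
      exact ((hRmem _ _).1 hσ).1
    have h5 := Finset.card_le_card h4
    omega
  rw [hTe]
  have h2 : 3 * T.card ≤ M.card := by omega
  exact_mod_cast h2

end Pool.Agent.Helper15.PL
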