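import Pool.Agent.Helper15.PL.T2
import Pool.Agent.Helper15.PL.R6
import Pool.Agent.Helper82.PL.RealFlags

/-!
# Assembly: at most 59 triangles for 14 lines, given the finite part
-/

namespace Pool.Agent.Helper15.PL

open FlagSys

/-- The statement of the finite part. -/
def TriLt : Prop := ∀ (S : FlagSys 14), (∀ f : S.F, ∃ l, l ∉ S.vert f) → S.HasCharts →
    (Finset.univ.filter S.tri).card < 360

theorem lines_le (h360 : TriLt) {L : Fin 14 → Set RP2} (h : IsLineArrangement L) :
    numGons L 3 ≤ 59 := by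
  obtain ⟨a, ha, hL⟩ := exists_config h
  have hL' : L = fun i => projLine (a i) := funext hL
  subst hL'
  have h1 := numGons_le a ha 3
  obtain ⟨S, hS, hne, hc⟩ := real_flags a ha
  have h3 := h360 S hne hc
  by_contra hlt
  have h60 : (60 : ℕ∞) ≤ numGons (fun i => projLine (a i)) 3 := by
    have := Order.add_one_le_of_lt (not_le.mp hlt)
    exact (by norm_num : (60 : ℕ∞) = 59 + 1) ▸ this
  have h4 : (120 : ℕ∞) ≤ (triTopes a).encard := by
    calc (120 : ℕ∞) = 2 * 60 := by norm_num
      _ ≤ 2 * numGons (fun i => projLine (a i)) 3 := by gcongr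
      _ ≤ _ := h1
  have h5 : (360 : ℕ∞) ≤ ((Finset.univ.filter S.tri).card : ℕ∞) := by
    calc (360 : ℕ∞) = 3 * 120 := by norm_num
      _ ≤ 3 * (triTopes a).encard := by gcongr
      _ ≤ _ := hS
  have h6 : 360 ≤ (Finset.univ.filter S.tri).card := by exact_mod_cast h5
  omega

theorem main_of (h360 : TriLt) : ∃ C : Fin 14 → Set RP2, IsPseudolineArrangement C ∧
    60 ≤ numGons C 3 ∧ numGons C 3 ≠ ⊤ ∧
    ∀ L : Fin 14 → Set RP2, IsLineArrangement L → numGons L 3 ≤ 59 := by
  obtain ⟨C, hC, h60, htop⟩ := exists_sixty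
  exact ⟨C, hC, h60, htop, fun L hL => lines_le h360 hL⟩

end Pool.Agent.Helper15.PL
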