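import Pool.Agent.Helper15.PL.T1c

/-!
# Block T1 of MP_614ca1, part d (helper72): finitely many faces
-/

namespace Pool.Agent.Helper15.PL

/-- wires which are affine between consecutive integers: finitely many faces. -/
theorem Wires.finite_faces {n : ℕ} (W : Wires n)
    (hW : ∀ i, ∀ k : ℤ, ∀ s ∈ Set.Icc (0 : ℝ) 1,
      W.φ i (k + s) = (1 - s) * W.φ i k + s * W.φ i (k + 1)) :
    {F | IsFace W.C F}.Finite := by
  classical
  -- key statement: two points with the same floor and the same set of lower wires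
  have key : ∀ t h t' h', Psi t h ∈ offCurves W.C → Psi t' h' ∈ offCurves W.C → ⌊t⌋ = ⌊t'⌋ →
      {i | W.φ i t < h} = {i | W.φ i t' < h'} →
      connectedComponentIn (offCurves W.C) (Psi t h) =
        connectedComponentIn (offCurves W.C) (Psi t' h') := by
    intro t h t' h' h1 h2 h3 h4
    have haff : ∀ i, ∀ u, (⌊t⌋ : ℝ) ≤ u → u ≤ ⌊t⌋ + 1 →
        W.φ i u = (1 - (u - ⌊t⌋)) * W.φ i ⌊t⌋ + (u - ⌊t⌋) * W.φ i (⌊t⌋ + 1) := by
      intro i u hu hu'
      have := hW i ⌊t⌋ (u - ⌊t⌋) ⟨by linarith, by linarith⟩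
      rwa [add_sub_cancel] at this
    have ht1 := Int.floor_le t
    have ht2 := (Int.lt_floor_add_one t).le
    have ht3 : (⌊t⌋ : ℝ) ≤ t' := by rw [h3]; exact Int.floor_le t'
    have ht4 : t' ≤ (⌊t⌋ : ℝ) + 1 := by rw [h3]; exact (Int.lt_floor_add_one t').le
    let γ : ℝ → RP2 := fun θ => Psi ((1 - θ) * t + θ * t') ((1 - θ) * h + θ * h')
    have hγ : Continuous γ :=
      continuous_Psi_comp (by fun_prop) (by fun_prop)
    have hpre : IsPreconnected (γ '' Set.Icc 0 1) :=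
      isPreconnected_Icc.image _ hγ.continuousOn
    have hsub : γ '' Set.Icc 0 1 ⊆ offCurves W.C := by
      rintro _ ⟨θ, hθ, rfl⟩ i hi
      have h5 := (W.mem_C i _ _).mp hi
      have h6 : (⌊t⌋ : ℝ) ≤ (1 - θ) * t + θ * t' := by
        nlinarith [mul_nonneg (sub_nonneg.2 hθ.2) (sub_nonneg.2 ht1),
          mul_nonneg hθ.1 (sub_nonneg.2 ht3)]
      have h7 : (1 - θ) * t + θ * t' ≤ (⌊t⌋ : ℝ) + 1 := by
        nlinarith [mul_nonneg (sub_nonneg.2 hθ.2) (sub_nonneg.2 ht2),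
          mul_nonneg hθ.1 (sub_nonneg.2 ht4)]
      have h8 : W.φ i ((1 - θ) * t + θ * t') = (1 - θ) * W.φ i t + θ * W.φ i t' := by
        rw [haff i _ h6 h7, haff i t ht1 ht2, haff i t' ht3 ht4]
        ring
      rw [h8] at h5
      have hne1 : h ≠ W.φ i t := fun he => h1 i ⟨t, by simp only [he]⟩
      have hne2 : h' ≠ W.φ i t' := fun he => h2 i ⟨t', by simp only [he]⟩
      have hiff : W.φ i t < h ↔ W.φ i t' < h' := by
        have := congrArg (fun S => i ∈ S) h4
        simpa using this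
      rcases lt_or_gt_of_ne hne1 with h9 | h9
      · have h10 : h' < W.φ i t' :=
          lt_of_le_of_ne (not_lt.1 fun hh => absurd (hiff.2 hh) (not_lt.2 h9.le)) hne2
        rcases hθ.1.lt_or_eq with h0 | h0
        · have := mul_lt_mul_of_pos_left h10 h0
          have := mul_le_mul_of_nonneg_left h9.le (sub_nonneg.2 hθ.2)
          linarith
        · rw [← h0] at h5
          linarith
      · have h10 : W.φ i t' < h' := hiff.1 h9
        rcases hθ.1.lt_or_eq with h0 | h0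
        · have := mul_lt_mul_of_pos_left h10 h0
          have := mul_le_mul_of_nonneg_left h9.le (sub_nonneg.2 hθ.2)
          linarith
        · rw [← h0] at h5
          linarith
    have hγ0 : γ 0 = Psi t h := by simp [γ]
    have hγ1 : γ 1 = Psi t' h' := by simp [γ]
    refine connectedComponentIn_eq ?_
    refine (hpre.subset_connectedComponentIn (x := Psi t h) ?_ hsub) ?_
    · exact ⟨0, by simp, hγ0⟩
    · exact ⟨1, by simp, hγ1⟩
  let G : ℤ × Set (Fin n) → Set RP2 := fun p =>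
    if hp : ∃ q : ℝ × ℝ, Psi q.1 q.2 ∈ offCurves W.C ∧ ⌊q.1⌋ = p.1 ∧ {i | W.φ i q.1 < q.2} = p.2
    then connectedComponentIn (offCurves W.C) (Psi hp.choose.1 hp.choose.2) else ∅
  have hfin : (insert (connectedComponentIn (offCurves W.C) pole)
      (G '' ((Set.Icc (-18) 18) ×ˢ Set.univ))).Finite := by
    refine Set.Finite.insert _ (Set.Finite.image _ ?_)
    exact (Set.finite_Icc _ _).prod Set.finite_univ
  refine hfin.subset ?_
  rintro F ⟨x, hx, rfl⟩
  by_cases hp : x = pole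
  · left
    rw [hp]
  · right
    obtain ⟨t, ht, h, rfl⟩ := exists_Psi x hp
    refine ⟨(⌊t⌋, {i | W.φ i t < h}), ⟨⟨?_, ?_⟩, Set.mem_univ _⟩, ?_⟩
    · exact Int.le_floor.2 (by exact_mod_cast ht.1)
    · have : (⌊t⌋ : ℝ) ≤ 18 := (Int.floor_le t).trans ht.2
      exact_mod_cast this
    · have hq : ∃ q : ℝ × ℝ, Psi q.1 q.2 ∈ offCurves W.C ∧ ⌊q.1⌋ = ⌊t⌋ ∧
        {i | W.φ i q.1 < q.2} = {i | W.φ i t < h} := ⟨(t, h), hx, rfl, rfl⟩
      simp only [G]
      rw [dif_pos hq]
      obtain ⟨h5, h6, h7⟩ := hq.choose_spec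
      exact key _ _ _ _ h5 hx h6 h7

theorem Wires.numGons_ne_top {n : ℕ} (W : Wires n)
    (hW : ∀ i, ∀ k : ℤ, ∀ s ∈ Set.Icc (0 : ℝ) 1,
      W.φ i (k + s) = (1 - s) * W.φ i k + s * W.φ i (k + 1)) (k : ℕ) :
    numGons W.C k ≠ ⊤ := by
  unfold numGons
  rw [Ne, Set.encard_eq_top_iff, Set.not_infinite]
  exact (W.finite_faces hW).subset fun F hF => hF.1

end Pool.Agent.Helper15.PL
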