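import Pool.Agent.Helper15.PL.Defs

/-!
# Block T1 of MP_614ca1, part a: the Moebius strip

The map `Psi` parametrises the projective plane minus the pole `[0 : 0 : 1]`. A continuous function
`φ : ℝ → ℝ` with `φ (t + 18) = - φ t` (a wire) gives a simple closed curve in the projective plane.
-/

namespace Pool.Agent.Helper15.PL

open Topology

/-- Homogeneous coordinates of `Psi t h`. -/
noncomputable def psiVec (t h : ℝ) : Fin 3 → ℝ :=
  ![Real.cos (Real.pi * t / 18), Real.sin (Real.pi * t / 18), h]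

theorem psiVec_ne (t h : ℝ) : psiVec t h ≠ 0 := by
  intro h0
  have h1 : Real.cos (Real.pi * t / 18) = 0 := congrFun h0 0
  have h2 : Real.sin (Real.pi * t / 18) = 0 := congrFun h0 1
  have h3 := Real.sin_sq_add_cos_sq (Real.pi * t / 18)
  rw [h1, h2] at h3
  norm_num at h3

/-- The parametrisation of the Moebius strip. -/
noncomputable def Psi (t h : ℝ) : RP2 := RP2.mk ⟨psiVec t h, psiVec_ne t h⟩

/-! ## The projective plane -/

theorem mk_eq_iff (v w : NZ) : RP2.mk v = RP2.mk w ↔ ∃ c : ℝ, c ≠ 0 ∧ v.1 = c • w.1 := by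
  refine Iff.trans (Projectivization.mk_eq_mk_iff' ℝ v.1 w.1 v.2 w.2) ?_
  constructor
  · rintro ⟨c, hc⟩
    refine ⟨c, ?_, hc.symm⟩
    rintro rfl
    rw [zero_smul] at hc
    exact v.2 hc.symm
  · rintro ⟨c, _, hc⟩
    exact ⟨c, hc.symm⟩

theorem mk_surjective : Function.Surjective RP2.mk := by
  intro x
  induction x using Projectivization.ind with
  | h v hv => exact ⟨⟨v, hv⟩, rfl⟩

theorem continuous_mk : Continuous RP2.mk := continuous_coinduced_rng

/-- the matrix `v vᵀ / |v|²`. -/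
noncomputable def emb0 (v : Fin 3 → ℝ) : Fin 3 → Fin 3 → ℝ :=
  fun i j => v i * v j / (v 0 ^ 2 + v 1 ^ 2 + v 2 ^ 2)

theorem normsq_pos {v : Fin 3 → ℝ} (hv : v ≠ 0) : 0 < v 0 ^ 2 + v 1 ^ 2 + v 2 ^ 2 := by
  by_contra h
  push Not at h
  apply hv
  have h0 := sq_nonneg (v 0)
  have h1 := sq_nonneg (v 1)
  have h2 := sq_nonneg (v 2)
  have e0 : v 0 = 0 := pow_eq_zero_iff (two_ne_zero) |>.mp (by linarith)
  have e1 : v 1 = 0 := pow_eq_zero_iff (two_ne_zero) |>.mp (by linarith)
  have e2 : v 2 = 0 := pow_eq_zero_iff (two_ne_zero) |>.mp (by linarith)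
  ext i
  fin_cases i
  · exact e0
  · exact e1
  · exact e2

theorem emb0_smul {c : ℝ} (hc : c ≠ 0) (v : Fin 3 → ℝ) (hv : v ≠ 0) :
    emb0 (c • v) = emb0 v := by
  ext i j
  simp only [emb0, Pi.smul_apply, smul_eq_mul]
  have := normsq_pos hv
  have h2 : (c * v 0) ^ 2 + (c * v 1) ^ 2 + (c * v 2) ^ 2 =
    c ^ 2 * (v 0 ^ 2 + v 1 ^ 2 + v 2 ^ 2) := by ring
  rw [h2]
  field_simp

/-- The embedding of the projective plane in the space of matrices. -/
noncomputable def emb (x : RP2) : Fin 3 → Fin 3 → ℝ := emb0 (mk_surjective x).choose.1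

theorem emb_mk (v : NZ) : emb (RP2.mk v) = emb0 v.1 := by
  unfold emb
  have h1 := (mk_surjective (RP2.mk v)).choose_spec
  rw [mk_eq_iff] at h1
  obtain ⟨c, hc, hcv⟩ := h1
  rw [hcv, emb0_smul hc _ v.2]

theorem continuous_emb : Continuous emb := by
  refine continuous_coinduced_dom.mpr ?_
  have h1 : emb ∘ RP2.mk = fun v : NZ => emb0 v.1 := funext emb_mk
  rw [h1]
  refine continuous_pi fun i => continuous_pi fun j => ?_
  unfold emb0
  have hc : ∀ i : Fin 3, Continuous fun v : NZ => v.1 i :=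
    fun i => (continuous_apply i).comp continuous_subtype_val
  refine Continuous.div ((hc i).mul (hc j))
    ((((hc 0).pow 2).add ((hc 1).pow 2)).add ((hc 2).pow 2)) ?_
  intro v
  exact (normsq_pos v.2).ne'

theorem emb_injective : Function.Injective emb := by
  intro x y h
  obtain ⟨v, rfl⟩ := mk_surjective x
  obtain ⟨w, rfl⟩ := mk_surjective y
  rw [emb_mk, emb_mk] at h
  have hv := normsq_pos v.2
  have hw := normsq_pos w.2
  obtain ⟨i, hi⟩ : ∃ i, v.1 i ≠ 0 := by
    by_contra hcon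
    push Not at hcon
    exact v.2 (funext hcon)
  have h2 : ∀ j, v.1 i * v.1 j / (v.1 0 ^ 2 + v.1 1 ^ 2 + v.1 2 ^ 2) =
      w.1 i * w.1 j / (w.1 0 ^ 2 + w.1 1 ^ 2 + w.1 2 ^ 2) := fun j => congrFun (congrFun h i) j
  set A := v.1 0 ^ 2 + v.1 1 ^ 2 + v.1 2 ^ 2 with hA
  set B := w.1 0 ^ 2 + w.1 1 ^ 2 + w.1 2 ^ 2 with hB
  have h3 : v.1 = (A * w.1 i / (B * v.1 i)) • w.1 := by
    ext j
    rw [Pi.smul_apply, smul_eq_mul]
    have h4 := h2 j
    field_simp at h4 ⊢
    linarith
  rw [mk_eq_iff]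
  refine ⟨_, ?_, h3⟩
  intro h0
  rw [h0, zero_smul] at h3
  exact v.2 h3

instance : T2Space RP2 := T2Space.of_injective_continuous emb_injective continuous_emb

/-! ## The map `Psi` -/

theorem continuous_psiVec : Continuous fun p : ℝ × ℝ => psiVec p.1 p.2 := by
  refine continuous_pi fun i => ?_
  fin_cases i
  · change Continuous fun p : ℝ × ℝ => Real.cos (Real.pi * p.1 / 18)
    fun_prop
  · change Continuous fun p : ℝ × ℝ => Real.sin (Real.pi * p.1 / 18)
    fun_prop
  · change Continuous fun p : ℝ × ℝ => p.2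
    fun_prop

theorem continuous_Psi : Continuous fun p : ℝ × ℝ => Psi p.1 p.2 :=
  continuous_mk.comp (continuous_psiVec.subtype_mk _)

theorem Psi_add (t h : ℝ) : Psi (t + 18) (-h) = Psi t h := by
  unfold Psi
  rw [mk_eq_iff]
  refine ⟨-1, by norm_num, ?_⟩
  have h1 : Real.pi * (t + 18) / 18 = Real.pi * t / 18 + Real.pi := by ring
  ext i
  fin_cases i
  · change Real.cos (Real.pi * (t + 18) / 18) = -1 * Real.cos (Real.pi * t / 18)
    rw [h1, Real.cos_add_pi]; ring
  · change Real.sin (Real.pi * (t + 18) / 18) = -1 * Real.sin (Real.pi * t / 18)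
    rw [h1, Real.sin_add_pi]; ring
  · change -h = -1 * h
    ring

theorem anti_int {φ : ℝ → ℝ} (h : ∀ t, φ (t + 18) = - φ t) (k : ℤ) (t : ℝ) :
    φ (t + 18 * k) = (-1 : ℝ) ^ k * φ t := by
  induction k using Int.induction_on with
  | zero => simp
  | succ n ih =>
    have h1 : t + 18 * ((n + 1 : ℤ) : ℝ) = (t + 18 * (n : ℤ)) + 18 := by push_cast; ring
    rw [h1, h, ih, zpow_add_one₀ (by norm_num)]
    ring
  | pred n ih =>
    have h1 : t + 18 * ((-n : ℤ) : ℝ) = (t + 18 * ((-n - 1 : ℤ) : ℝ)) + 18 := by push_cast; ring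
    rw [h1, h] at ih
    rw [zpow_sub_one₀ (by norm_num)]
    have h2 : ((-1 : ℝ))⁻¹ = -1 := by norm_num
    rw [h2]
    linarith

theorem Psi_eq_iff (t h t' h' : ℝ) :
    Psi t h = Psi t' h' ↔ ∃ k : ℤ, t' = t + 18 * k ∧ h' = (-1 : ℝ) ^ k * h := by
  constructor
  · intro he
    unfold Psi at he
    rw [mk_eq_iff] at he
    obtain ⟨c, hc, hv⟩ := he
    have e0 : Real.cos (Real.pi * t / 18) = c * Real.cos (Real.pi * t' / 18) := congrFun hv 0
    have e1 : Real.sin (Real.pi * t / 18) = c * Real.sin (Real.pi * t' / 18) := congrFun hv 1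
    have e2 : h = c * h' := congrFun hv 2
    have hc2 : c ^ 2 = 1 := by
      have h1 := Real.sin_sq_add_cos_sq (Real.pi * t / 18)
      have h2 := Real.sin_sq_add_cos_sq (Real.pi * t' / 18)
      rw [e0, e1] at h1
      have h3 : c ^ 2 * (Real.sin (Real.pi * t' / 18) ^ 2 + Real.cos (Real.pi * t' / 18) ^ 2) = 1 := by
        rw [← h1]; ring
      rwa [h2, mul_one] at h3
    have hpi := Real.pi_pos
    rcases sq_eq_one_iff.mp hc2 with rfl | rfl
    · rw [one_mul] at e0 e1 e2
      have h1 := Real.Angle.cos_sin_inj e0 e1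
      rw [Real.Angle.angle_eq_iff_two_pi_dvd_sub] at h1
      obtain ⟨k, hk⟩ := h1
      refine ⟨-(2 * k), ?_, ?_⟩
      · push_cast
        field_simp at hk
        linarith
      · rw [zpow_neg, zpow_mul, e2]
        norm_num
    · have h1 : Real.cos (Real.pi * t / 18) = Real.cos (Real.pi * t' / 18 + Real.pi) := by
        rw [Real.cos_add_pi, e0]; ring
      have h2 : Real.sin (Real.pi * t / 18) = Real.sin (Real.pi * t' / 18 + Real.pi) := by
        rw [Real.sin_add_pi, e1]; ring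
      have h1 := Real.Angle.cos_sin_inj h1 h2
      rw [Real.Angle.angle_eq_iff_two_pi_dvd_sub] at h1
      obtain ⟨k, hk⟩ := h1
      refine ⟨-(2 * k + 1), ?_, ?_⟩
      · push_cast
        field_simp at hk
        linarith
      · rw [zpow_neg, zpow_add₀ (by norm_num), zpow_mul, e2]
        norm_num
  · rintro ⟨k, rfl, rfl⟩
    induction k using Int.induction_on with
    | zero => simp
    | succ n ih =>
      have h1 : t + 18 * ((n + 1 : ℤ) : ℝ) = (t + 18 * (n : ℤ)) + 18 := by push_cast; ring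
      rw [h1, zpow_add_one₀ (by norm_num)]
      have h2 : (-1 : ℝ) ^ (n : ℤ) * -1 * h = -((-1 : ℝ) ^ (n : ℤ) * h) := by ring
      rw [h2, Psi_add]
      exact ih
    | pred n ih =>
      have h1 : t + 18 * ((-n : ℤ) : ℝ) = (t + 18 * ((-n - 1 : ℤ) : ℝ)) + 18 := by
        push_cast; ring
      have h2 : (-1 : ℝ) ^ (-n : ℤ) * h = -((-1 : ℝ) ^ (-n - 1 : ℤ) * h) := by
        rw [zpow_sub_one₀ (by norm_num)]
        have h2 : ((-1 : ℝ))⁻¹ = -1 := by norm_num
        rw [h2]
        ring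
      rw [h1, h2, Psi_add] at ih
      exact ih

/-- local continuous sections of `Psi`. -/
theorem Psi_section (t0 h0 : ℝ) (v0 : NZ) (hv : RP2.mk v0 = Psi t0 h0) :
    ∃ g : NZ → ℝ × ℝ, ContinuousAt g v0 ∧ g v0 = (t0, h0) ∧
      ∀ᶠ v in 𝓝 v0, RP2.mk v = Psi (g v).1 (g v).2 := by
  unfold Psi at hv
  rw [mk_eq_iff] at hv
  obtain ⟨c0, hc0, hv⟩ := hv
  set θ0 : ℝ := Real.pi * t0 / 18 with hθ0
  have hpi := Real.pi_pos
  have hv00 : v0.1 0 = c0 * Real.cos θ0 := congrFun hv 0
  have hv01 : v0.1 1 = c0 * Real.sin θ0 := congrFun hv 1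
  have hv02 : v0.1 2 = c0 * h0 := congrFun hv 2
  have hc : ∀ i : Fin 3, Continuous fun v : NZ => v.1 i :=
    fun i => (continuous_apply i).comp continuous_subtype_val
  let X : NZ → ℝ := fun v => v.1 0 * Real.cos θ0 + v.1 1 * Real.sin θ0
  let Y : NZ → ℝ := fun v => v.1 1 * Real.cos θ0 - v.1 0 * Real.sin θ0
  have hXc : Continuous X := ((hc 0).mul continuous_const).add ((hc 1).mul continuous_const)
  have hYc : Continuous Y := ((hc 1).mul continuous_const).sub ((hc 0).mul continuous_const)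
  have hsc := Real.sin_sq_add_cos_sq θ0
  have hX0 : X v0 = c0 := by
    change v0.1 0 * Real.cos θ0 + v0.1 1 * Real.sin θ0 = c0
    rw [hv00, hv01]
    linear_combination c0 * hsc
  have hY0 : Y v0 = 0 := by
    change v0.1 1 * Real.cos θ0 - v0.1 0 * Real.sin θ0 = 0
    rw [hv00, hv01]; ring
  let α : NZ → ℝ := fun v => Real.arctan (Y v / X v)
  let cc : NZ → ℝ := fun v => X v / Real.cos (α v)
  have hXne : X v0 ≠ 0 := by rw [hX0]; exact hc0
  have hαc : ContinuousAt α v0 :=
    Real.continuous_arctan.continuousAt.comp (hYc.continuousAt.div hXc.continuousAt hXne)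
  have hα0 : α v0 = 0 := by
    change Real.arctan (Y v0 / X v0) = 0
    rw [hY0, zero_div, Real.arctan_zero]
  have hcos : ∀ v, Real.cos (α v) ≠ 0 := fun v => (Real.cos_arctan_pos _).ne'
  have hccc : ContinuousAt cc v0 :=
    hXc.continuousAt.div (Real.continuous_cos.continuousAt.comp hαc) (hcos v0)
  have hcc0 : cc v0 = c0 := by
    change X v0 / Real.cos (α v0) = c0
    rw [hα0, Real.cos_zero, div_one, hX0]
  refine ⟨fun v => (18 / Real.pi * (θ0 + α v), v.1 2 / cc v), ?_, ?_, ?_⟩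
  · refine ContinuousAt.prodMk (continuousAt_const.mul (continuousAt_const.add hαc)) ?_
    refine (hc 2).continuousAt.div hccc ?_
    rw [hcc0]; exact hc0
  · rw [Prod.mk.injEq]
    constructor
    · rw [hα0, hθ0]
      field_simp
      ring
    · rw [hcc0, hv02]
      field_simp
  · have h1 : ∀ᶠ v in 𝓝 v0, X v ≠ 0 := hXc.continuousAt.eventually_ne hXne
    filter_upwards [h1] with v hXv
    unfold Psi
    rw [mk_eq_iff]
    have hccv : cc v ≠ 0 := div_ne_zero hXv (hcos v)
    refine ⟨cc v, hccv, ?_⟩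
    have hang : Real.pi * (18 / Real.pi * (θ0 + α v)) / 18 = θ0 + α v := by field_simp
    have htan : Real.sin (α v) = Y v / X v * Real.cos (α v) := by
      have h2 : Real.tan (α v) = Y v / X v := Real.tan_arctan _
      rw [← h2, Real.tan_eq_sin_div_cos]
      have := hcos v
      field_simp
    have hXv' : X v = v.1 0 * Real.cos θ0 + v.1 1 * Real.sin θ0 := rfl
    have hYv' : Y v = v.1 1 * Real.cos θ0 - v.1 0 * Real.sin θ0 := rfl
    have hc1 : cc v * Real.cos (α v) = X v := by
      change X v / Real.cos (α v) * Real.cos (α v) = X v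
      have := hcos v
      field_simp
    have hc2 : cc v * Real.sin (α v) = Y v := by
      rw [htan]
      calc cc v * (Y v / X v * Real.cos (α v)) = (cc v * Real.cos (α v)) * (Y v / X v) := by ring
        _ = Y v := by rw [hc1]; field_simp
    ext i
    fin_cases i
    · change v.1 0 = cc v * Real.cos (Real.pi * (18 / Real.pi * (θ0 + α v)) / 18)
      rw [hang, Real.cos_add]
      have : cc v * (Real.cos θ0 * Real.cos (α v) - Real.sin θ0 * Real.sin (α v)) =
        Real.cos θ0 * (cc v * Real.cos (α v)) - Real.sin θ0 * (cc v * Real.sin (α v)) := by ring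
      rw [this, hc1, hc2, hXv', hYv']
      linear_combination (-(v.1 0)) * hsc
    · change v.1 1 = cc v * Real.sin (Real.pi * (18 / Real.pi * (θ0 + α v)) / 18)
      rw [hang, Real.sin_add]
      have : cc v * (Real.sin θ0 * Real.cos (α v) + Real.cos θ0 * Real.sin (α v)) =
        Real.sin θ0 * (cc v * Real.cos (α v)) + Real.cos θ0 * (cc v * Real.sin (α v)) := by ring
      rw [this, hc1, hc2, hXv', hYv']
      linear_combination (-(v.1 1)) * hsc
    · change v.1 2 = cc v * (v.1 2 / cc v)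
      field_simp

theorem isOpenMap_Psi : IsOpenMap fun p : ℝ × ℝ => Psi p.1 p.2 := by
  intro U hU
  rw [isOpen_coinduced, isOpen_iff_mem_nhds]
  intro v0 hv0
  obtain ⟨⟨t0, h0⟩, hp, hv⟩ := hv0
  obtain ⟨g, hg, hg0, hgv⟩ := Psi_section t0 h0 v0 hv.symm
  have h1 : ∀ᶠ v in 𝓝 v0, g v ∈ U := by
    apply hg
    rw [hg0]
    exact hU.mem_nhds hp
  filter_upwards [h1, hgv] with v hv1 hv2
  exact ⟨g v, hv1, hv2.symm⟩

theorem continuous_Psi_comp {X : Type*} [TopologicalSpace X] {a b : X → ℝ} (ha : Continuous a)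
    (hb : Continuous b) : Continuous fun x => Psi (a x) (b x) :=
  Continuous.comp (g := fun p : ℝ × ℝ => Psi p.1 p.2) (f := fun x => (a x, b x)) continuous_Psi
    (ha.prodMk hb)

/-- The pole of the Moebius strip. -/
noncomputable def pole : RP2 := RP2.mk ⟨![0, 0, 1], by
  intro h
  have := congrFun h 2
  simp at this⟩

theorem exists_Psi (x : RP2) (hx : x ≠ pole) : ∃ t ∈ Set.Icc (-18 : ℝ) 18, ∃ h, x = Psi t h := by
  obtain ⟨v, rfl⟩ : ∃ v : NZ, x = RP2.mk v := by
    induction x using Projectivization.ind with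
    | h v hv => exact ⟨⟨v, hv⟩, rfl⟩
  set z : ℂ := ⟨v.1 0, v.1 1⟩ with hz
  have hre : ‖z‖ * Real.cos z.arg = v.1 0 := Complex.norm_mul_cos_arg z
  have him : ‖z‖ * Real.sin z.arg = v.1 1 := Complex.norm_mul_sin_arg z
  have hpi := Real.pi_pos
  by_cases h0 : z = 0
  · exfalso
    apply hx
    have h1 : v.1 0 = 0 := by rw [← hre, h0]; simp
    have h2 : v.1 1 = 0 := by rw [← him, h0]; simp
    have h3 : v.1 2 ≠ 0 := by
      intro h3
      apply v.2
      funext i
      fin_cases i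
      · exact h1
      · exact h2
      · exact h3
    unfold pole
    rw [mk_eq_iff]
    refine ⟨v.1 2, h3, ?_⟩
    funext i
    fin_cases i
    · simp [h1]
    · simp [h2]
    · simp
  · have hr : (0 : ℝ) < ‖z‖ := norm_pos_iff.2 h0
    refine ⟨18 * z.arg / Real.pi, ⟨?_, ?_⟩, v.1 2 / ‖z‖, ?_⟩
    · rw [le_div_iff₀ hpi]
      have := Complex.neg_pi_lt_arg z
      nlinarith
    · rw [div_le_iff₀ hpi]
      have := Complex.arg_le_pi z
      nlinarith
    · unfold Psi
      rw [mk_eq_iff]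
      refine ⟨‖z‖, hr.ne', ?_⟩
      have e : Real.pi * (18 * z.arg / Real.pi) / 18 = z.arg := by field_simp
      funext i
      fin_cases i
      · simp only [psiVec, e]
        exact hre.symm
      · simp only [psiVec, e]
        exact him.symm
      · simp only [psiVec, e]
        change v.1 2 = ‖z‖ * (v.1 2 / ‖z‖)
        field_simp

attribute [irreducible] Psi

end Pool.Agent.Helper15.PL
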