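import Pool.Agent.Helper15.PL.T1a

/-!
# Block T1 of MP_614ca1, part b: wires on the Moebius strip are pseudo-lines
-/

namespace Pool.Agent.Helper15.PL

open Topology

/-! ## Wires -/

/-- `n` continuous antiperiodic wires. -/
structure Wires (n : ℕ) where
  φ : Fin n → ℝ → ℝ
  cont : ∀ i, Continuous (φ i)
  anti : ∀ i t, φ i (t + 18) = - φ i t

/-- The curve of the wire `i`. -/
noncomputable def Wires.C {n : ℕ} (W : Wires n) (i : Fin n) : Set RP2 :=
  Set.range fun t => Psi t (W.φ i t)

theorem Wires.mem_C {n : ℕ} (W : Wires n) (i : Fin n) (t h : ℝ) :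
    Psi t h ∈ W.C i ↔ h = W.φ i t := by
  constructor
  · rintro ⟨t', ht'⟩
    rw [Psi_eq_iff] at ht'
    obtain ⟨k, hk1, hk2⟩ := ht'
    rw [hk2, hk1, anti_int (W.anti i)]
  · rintro rfl
    exact ⟨t, rfl⟩

theorem Wires.simple_closed {n : ℕ} (W : Wires n) (i : Fin n) :
    IsSimpleClosedCurve (W.C i) := by
  let f : ℝ → RP2 := fun t => Psi t (W.φ i t)
  have hf : Continuous f := continuous_Psi_comp continuous_id (W.cont i)
  have hper : Function.Periodic f 18 := by
    intro t
    change Psi (t + 18) (W.φ i (t + 18)) = Psi t (W.φ i t)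
    rw [W.anti, Psi_add]
  let γ : AddCircle (18 : ℝ) → RP2 := hper.lift
  have hγ : Continuous γ := Continuous.quotient_liftOn' hf _
  have hcoe : ∀ t : ℝ, γ (t : AddCircle (18 : ℝ)) = f t := fun t => hper.lift_coe t
  have hinj : Function.Injective γ := by
    intro x y
    induction x using QuotientAddGroup.induction_on with
    | H t =>
      induction y using QuotientAddGroup.induction_on with
      | H t' =>
        intro h
        have h1 : f t = f t' := by
          rw [← hcoe, ← hcoe]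
          exact h
        obtain ⟨k, hk, _⟩ := (Psi_eq_iff _ _ _ _).mp h1
        rw [QuotientAddGroup.eq, AddSubgroup.mem_zmultiples_iff]
        refine ⟨k, ?_⟩
        rw [hk, zsmul_eq_mul]
        ring
  let e : AddCircle (18 : ℝ) ≃ₜ Circle := AddCircle.homeomorphCircle (by norm_num)
  refine ⟨γ ∘ e.symm, hγ.comp e.symm.continuous, hinj.comp e.symm.injective, ?_⟩
  rw [Set.range_comp, e.symm.surjective.range_eq, Set.image_univ]
  ext x
  constructor
  · rintro ⟨y, rfl⟩
    induction y using QuotientAddGroup.induction_on with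
    | H t => exact ⟨t, (hcoe t).symm⟩
  · rintro ⟨t, rfl⟩
    exact ⟨(t : AddCircle (18 : ℝ)), hcoe t⟩

/-! ## Crossing -/

/-- extension of a strictly antitone function to an order isomorphism (with reversed sign). -/
theorem exists_orderIso {g : ℝ → ℝ} (hg : Continuous g) {p q : ℝ} (hpq : p ≤ q)
    (ha : StrictAntiOn g (Set.Icc p q)) :
    ∃ e : ℝ ≃o ℝ, ∀ t ∈ Set.Icc p q, e t = - g t := by
  let c : ℝ → ℝ := fun t => max p (min t q)
  have hc : Continuous c := continuous_const.max (continuous_id.min continuous_const)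
  have hcI : ∀ t, c t ∈ Set.Icc p q := fun t => ⟨le_max_left _ _, max_le hpq (min_le_right _ _)⟩
  have hcid : ∀ t ∈ Set.Icc p q, c t = t := by
    intro t ht
    change max p (min t q) = t
    rw [min_eq_left ht.2, max_eq_right ht.1]
  have hctop : ∀ t, q ≤ t → c t = q := by
    intro t ht
    change max p (min t q) = q
    rw [min_eq_right ht, max_eq_right hpq]
  have hcbot : ∀ t, t ≤ p → c t = p := by
    intro t ht
    change max p (min t q) = p
    exact max_eq_left ((min_le_left _ _).trans ht)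
  have hcm : Monotone c := fun s t hst => max_le_max le_rfl (min_le_min hst le_rfl)
  have hclip : ∀ s t, s ≤ t → c t - c s ≤ t - s := by
    intro s t hst
    change max p (min t q) - max p (min s q) ≤ t - s
    have h1 : min t q ≤ min s q + (t - s) := by
      rw [← min_add_add_right]
      refine le_min ((min_le_left _ _).trans (by linarith)) ((min_le_right _ _).trans (by linarith))
    have h2 : max p (min t q) ≤ max p (min s q) + (t - s) := by
      refine max_le ((le_max_left _ _).trans (by linarith)) (h1.trans ?_)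
      have := le_max_right p (min s q)
      linarith
    linarith
  let G : ℝ → ℝ := fun t => - g (c t) + (t - c t)
  have hG : Continuous G := ((hg.comp hc).neg).add (continuous_id.sub hc)
  have hmono : StrictMono G := by
    intro s t hst
    change - g (c s) + (s - c s) < - g (c t) + (t - c t)
    have h1 := hclip s t hst.le
    rcases (hcm hst.le).lt_or_eq with h2 | h2
    · have h3 := ha (hcI s) (hcI t) h2
      linarith
    · rw [h2]
      linarith
  have htop : Filter.Tendsto G Filter.atTop Filter.atTop := by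
    have h1 : Filter.Tendsto (fun t : ℝ => (- g q - q) + t) Filter.atTop Filter.atTop :=
      Filter.tendsto_atTop_add_const_left _ _ Filter.tendsto_id
    refine h1.congr' ?_
    filter_upwards [Filter.eventually_ge_atTop q] with t ht
    change (- g q - q) + t = - g (c t) + (t - c t)
    rw [hctop t ht]
    ring
  have hbot : Filter.Tendsto G Filter.atBot Filter.atBot := by
    have h1 : Filter.Tendsto (fun t : ℝ => (- g p - p) + t) Filter.atBot Filter.atBot :=
      Filter.tendsto_atBot_add_const_left _ _ Filter.tendsto_id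
    refine h1.congr' ?_
    filter_upwards [Filter.eventually_le_atBot p] with t ht
    change (- g p - p) + t = - g (c t) + (t - c t)
    rw [hcbot t ht]
    ring
  refine ⟨hmono.orderIsoOfSurjective G (hG.surjective htop hbot), ?_⟩
  intro t ht
  rw [StrictMono.coe_orderIsoOfSurjective]
  change - g (c t) + (t - c t) = - g t
  rw [hcid t ht]
  ring

theorem crossAt_symm {C D : Set RP2} {x : RP2} (h : CrossAt C D x) : CrossAt D C x := by
  obtain ⟨e, hx, hex, h1, h2⟩ := h
  refine ⟨e.transHomeomorph (Homeomorph.prodComm ℝ ℝ), hx, ?_, ?_, ?_⟩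
  · change (e x).swap = (0, 0)
    rw [hex]
    rfl
  · intro y hy
    exact h2 y hy
  · intro y hy
    exact h1 y hy

/-- The chart of the Moebius strip around the time `t0`. -/
noncomputable def psiChart (t0 : ℝ) : OpenPartialHomeomorph (ℝ × ℝ) RP2 :=
  OpenPartialHomeomorph.ofContinuousOpen
    (Set.InjOn.toPartialEquiv (fun p : ℝ × ℝ => Psi p.1 p.2)
      (Set.Ioo (t0 - 1) (t0 + 1) ×ˢ Set.univ) (by
      rintro ⟨t, h⟩ ht ⟨t', h'⟩ ht' he
      have he' : Psi t h = Psi t' h' := he
      rw [Psi_eq_iff] at he'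
      obtain ⟨k, hk1, hk2⟩ := he'
      have ht1 : t ∈ Set.Ioo (t0 - 1) (t0 + 1) := ht.1
      have ht2 : t' ∈ Set.Ioo (t0 - 1) (t0 + 1) := ht'.1
      have hk : k = 0 := by
        have h1 : (k : ℝ) < 1 := by
          have := ht1.1
          have := ht2.2
          linarith
        have h2 : (-1 : ℝ) < k := by
          have := ht1.2
          have := ht2.1
          linarith
        have h3 : k < 1 := by exact_mod_cast h1
        have h4 : -1 < k := by exact_mod_cast h2
        omega
      rw [hk] at hk1 hk2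
      rw [Prod.mk.injEq]
      constructor
      · rw [hk1]; push_cast; ring
      · rw [hk2]; simp))
    continuous_Psi.continuousOn isOpenMap_Psi (isOpen_Ioo.prod isOpen_univ)

theorem psiChart_source (t0 : ℝ) :
    (psiChart t0).source = Set.Ioo (t0 - 1) (t0 + 1) ×ˢ Set.univ := rfl

theorem psiChart_apply (t0 : ℝ) (p : ℝ × ℝ) : psiChart t0 p = Psi p.1 p.2 := rfl

theorem Wires.crossAt {n : ℕ} (W : Wires n) (i j : Fin n) (t0 : ℝ) (h0 : W.φ i t0 = W.φ j t0)
    (hanti : StrictAntiOn (fun t => W.φ i t - W.φ j t) (Set.Icc (t0 - 1) (t0 + 1))) :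
    CrossAt (W.C i) (W.C j) (Psi t0 (W.φ i t0)) := by
  obtain ⟨e, he⟩ := exists_orderIso (g := fun t => W.φ i t - W.φ j t)
    ((W.cont i).sub (W.cont j)) (by linarith) hanti
  let H : (ℝ × ℝ) ≃ₜ (ℝ × ℝ) :=
    { toFun := fun p => (p.2 - W.φ j p.1, p.2 - W.φ j p.1 + e p.1)
      invFun := fun q => (e.symm (q.2 - q.1), q.1 + W.φ j (e.symm (q.2 - q.1)))
      left_inv := by
        rintro ⟨t, h⟩
        simp
      right_inv := by
        rintro ⟨u, v⟩
        simp
      continuous_toFun := by
        have h1 := W.cont j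
        have h2 := e.continuous
        fun_prop
      continuous_invFun := by
        have h1 := W.cont j
        have h2 := e.symm.continuous
        fun_prop }
  have hsrc : ∀ y, y ∈ (psiChart t0).target → ∃ t h, t ∈ Set.Ioo (t0 - 1) (t0 + 1) ∧
      y = Psi t h ∧ (psiChart t0).symm y = (t, h) := by
    intro y hy
    have h1 := (psiChart t0).map_target hy
    rw [psiChart_source] at h1
    refine ⟨((psiChart t0).symm y).1, ((psiChart t0).symm y).2, h1.1, ?_, rfl⟩
    have h2 := (psiChart t0).right_inv hy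
    rw [psiChart_apply] at h2
    exact h2.symm
  have hmem : (t0, W.φ i t0) ∈ (psiChart t0).source := by
    rw [psiChart_source]
    exact ⟨⟨by simp, by simp⟩, Set.mem_univ _⟩
  have hx : Psi t0 (W.φ i t0) ∈ (psiChart t0).target := (psiChart t0).map_source hmem
  refine ⟨(psiChart t0).symm.transHomeomorph H, hx, ?_, ?_, ?_⟩
  · have h1 : (psiChart t0).symm (Psi t0 (W.φ i t0)) = (t0, W.φ i t0) :=
      (psiChart t0).left_inv hmem
    change H ((psiChart t0).symm (Psi t0 (W.φ i t0))) = (0, 0)
    rw [h1]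
    change (W.φ i t0 - W.φ j t0, W.φ i t0 - W.φ j t0 + e t0) = (0, 0)
    rw [he t0 ⟨by linarith, by linarith⟩, h0]
    simp
  · intro y hy
    obtain ⟨t, h, ht, hyt, hs⟩ := hsrc y hy
    change y ∈ W.C i ↔ (H ((psiChart t0).symm y)).2 = 0
    rw [hs, hyt, W.mem_C]
    change h = W.φ i t ↔ h - W.φ j t + e t = 0
    rw [he t ⟨ht.1.le, ht.2.le⟩]
    constructor
    · intro h1; rw [h1]; ring
    · intro h1; linarith
  · intro y hy
    obtain ⟨t, h, ht, hyt, hs⟩ := hsrc y hy
    change y ∈ W.C j ↔ (H ((psiChart t0).symm y)).1 = 0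
    rw [hs, hyt, W.mem_C]
    change h = W.φ j t ↔ h - W.φ j t = 0
    exact sub_eq_zero.symm

/-- reduction of the time modulo 18. -/
theorem exists_reduce (t0 t : ℝ) : ∃ k : ℤ, t0 ≤ t + 18 * k ∧ t + 18 * k < t0 + 18 := by
  refine ⟨-⌊(t - t0) / 18⌋, ?_, ?_⟩
  · have h1 := Int.floor_le ((t - t0) / 18)
    push_cast
    have h2 : (⌊(t - t0) / 18⌋ : ℝ) * 18 ≤ t - t0 := by
      rw [le_div_iff₀ (by norm_num)] at h1; exact h1
    linarith
  · have h1 := Int.lt_floor_add_one ((t - t0) / 18)
    push_cast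
    have h2 : t - t0 < ((⌊(t - t0) / 18⌋ : ℝ) + 1) * 18 := by
      rw [div_lt_iff₀ (by norm_num)] at h1; exact h1
    linarith

theorem Wires.inter_eq {n : ℕ} (W : Wires n) (i j : Fin n) (t0 : ℝ) (h0 : W.φ i t0 = W.φ j t0)
    (h1 : ∀ t ∈ Set.Ioo t0 (t0 + 18), W.φ i t ≠ W.φ j t) :
    W.C i ∩ W.C j = {Psi t0 (W.φ i t0)} := by
  ext y
  rw [Set.mem_singleton_iff]
  constructor
  · rintro ⟨⟨t, rfl⟩, hj⟩
    have hj' : W.φ i t = W.φ j t := (W.mem_C j t _).mp hj
    obtain ⟨k, hk1, hk2⟩ := exists_reduce t0 t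
    have e1 := anti_int (W.anti i) k t
    have e2 := anti_int (W.anti j) k t
    have h3 : W.φ i (t + 18 * k) = W.φ j (t + 18 * k) := by rw [e1, e2, hj']
    have h4 : t + 18 * k = t0 := by
      rcases hk1.lt_or_eq with h5 | h5
      · exact absurd h3 (h1 _ ⟨h5, hk2⟩)
      · exact h5.symm
    change Psi t (W.φ i t) = _
    rw [Psi_eq_iff]
    refine ⟨k, h4.symm, ?_⟩
    rw [← h4, e1]
  · rintro rfl
    exact ⟨⟨t0, rfl⟩, (W.mem_C j _ _).mpr h0⟩

theorem Wires.isPseudolineArrangement {n : ℕ} (W : Wires n)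
    (h : ∀ i j, i < j → ∃ t0 : ℝ, W.φ i t0 = W.φ j t0 ∧
      (∀ t ∈ Set.Ioo t0 (t0 + 18), W.φ i t ≠ W.φ j t) ∧
      StrictAntiOn (fun t => W.φ i t - W.φ j t) (Set.Icc (t0 - 1) (t0 + 1)))
    (hnc : ∀ t : ℝ, ∃ i j, W.φ i t ≠ W.φ j t) : IsPseudolineArrangement W.C := by
  refine ⟨W.simple_closed, ?_, ?_⟩
  · intro i j hij
    rcases lt_or_gt_of_ne hij with hlt | hlt
    · obtain ⟨t0, h0, h1, h2⟩ := h i j hlt
      exact ⟨Psi t0 (W.φ i t0), W.inter_eq i j t0 h0 h1, W.crossAt i j t0 h0 h2⟩
    · obtain ⟨t0, h0, h1, h2⟩ := h j i hlt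
      refine ⟨Psi t0 (W.φ j t0), ?_, crossAt_symm (W.crossAt j i t0 h0 h2)⟩
      rw [Set.inter_comm]
      exact W.inter_eq j i t0 h0 h1
  · rintro ⟨x, hx⟩
    obtain ⟨i0, j0, _⟩ := hnc 0
    obtain ⟨t, ht⟩ := hx i0
    obtain ⟨i, j, hij⟩ := hnc t
    apply hij
    have h1 := hx i
    have h2 := hx j
    rw [← ht] at h1 h2
    have h3 := (W.mem_C i t _).mp h1
    have h4 := (W.mem_C j t _).mp h2
    rw [← h3, ← h4]

end Pool.Agent.Helper15.PL
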