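import Pool.Agent.Helper15.PL.T1b

/-!
# Block T1 of MP_614ca1, part c: faces and edges of arrangements of wires
-/

namespace Pool.Agent.Helper15.PL

open Topology

/-! ## Connected components -/

/-- a connected component in `U` which meets `E` is contained in `E`, if `E` is relatively open and
closed in `U`. -/
theorem component_subset {X : Type*} [TopologicalSpace X] {U E O : Set X} {x : X} (hx : x ∈ E)
    (hEU : E ⊆ U) (hO : IsOpen O) (hEO : E ⊆ O) (hUO : U ∩ O ⊆ E) (hcl : closure E ∩ U ⊆ E) :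
    connectedComponentIn U x ⊆ E := by
  have hxU : x ∈ U := hEU hx
  have hK : IsPreconnected (connectedComponentIn U x) := isPreconnected_connectedComponentIn
  have hKU : connectedComponentIn U x ⊆ U := connectedComponentIn_subset U x
  have hxK : x ∈ connectedComponentIn U x := mem_connectedComponentIn hxU
  intro y hy
  by_contra hyE
  have hycl : y ∈ (closure E)ᶜ := fun h => hyE (hcl ⟨h, hKU hy⟩)
  have hcov : connectedComponentIn U x ⊆ O ∪ (closure E)ᶜ := by
    intro z hz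
    by_cases hz1 : z ∈ closure E
    · exact Or.inl (hEO (hcl ⟨hz1, hKU hz⟩))
    · exact Or.inr hz1
  obtain ⟨z, hz1, hz2, hz3⟩ := hK O (closure E)ᶜ hO isClosed_closure.isOpen_compl hcov
    ⟨x, hxK, hEO hx⟩ ⟨y, hy, hycl⟩
  exact hz3 (subset_closure (hUO ⟨hKU hz1, hz2⟩))

theorem component_eq {X : Type*} [TopologicalSpace X] {U F : Set X} {x : X} (hx : x ∈ F)
    (hF : IsPreconnected F) (hFo : IsOpen F) (hFU : F ⊆ U) (hcl : closure F ∩ U ⊆ F) :
    connectedComponentIn U x = F := by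
  apply Set.Subset.antisymm
  · exact component_subset hx hFU hFo (le_refl _) Set.inter_subset_right hcl
  · exact hF.subset_connectedComponentIn hx hFU

theorem component_eq_of_mem {X : Type*} [TopologicalSpace X] {U P : Set X} {x y : X}
    (hP : IsPreconnected P) (hPU : P ⊆ U) (hx : x ∈ P) (hy : y ∈ P) :
    connectedComponentIn U x = connectedComponentIn U y :=
  (connectedComponentIn_eq (hP.subset_connectedComponentIn hx hPU hy))

/-- finitely many components. -/
theorem finite_components {X : Type*} [TopologicalSpace X] {U : Set X} {ι : Type*} [Finite ι]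
    (P : ι → Set X) (hP : ∀ i, IsPreconnected (P i)) (hPU : ∀ i, P i ⊆ U)
    (hcov : ∀ x ∈ U, ∃ i, x ∈ P i) : {F | ∃ x ∈ U, F = connectedComponentIn U x}.Finite := by
  classical
  have h1 : {F | ∃ x ∈ U, F = connectedComponentIn U x} ⊆
      Set.range fun i : ι => if h : (P i).Nonempty then connectedComponentIn U h.some else ∅ := by
    rintro F ⟨x, hx, rfl⟩
    obtain ⟨i, hi⟩ := hcov x hx
    refine ⟨i, ?_⟩
    have hne : (P i).Nonempty := ⟨x, hi⟩
    simp only [dif_pos hne]
    exact component_eq_of_mem (hP i) (hPU i) hne.some_mem hi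
  exact (Set.finite_range _).subset h1

/-! ## The region between two graphs -/

/-- The open region between the graphs of `lo` and `up` over the interval `(a, b)`. -/
def region (a b : ℝ) (lo up : ℝ → ℝ) : Set (ℝ × ℝ) :=
  {p | p.1 ∈ Set.Ioo a b ∧ lo p.1 < p.2 ∧ p.2 < up p.1}

theorem region_open {a b : ℝ} {lo up : ℝ → ℝ} (hlo : Continuous lo) (hup : Continuous up) :
    IsOpen (region a b lo up) := by
  have h1 : IsOpen {p : ℝ × ℝ | p.1 ∈ Set.Ioo a b} := isOpen_Ioo.preimage continuous_fst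
  have h2 : IsOpen {p : ℝ × ℝ | lo p.1 < p.2} :=
    isOpen_lt (hlo.comp continuous_fst) continuous_snd
  have h3 : IsOpen {p : ℝ × ℝ | p.2 < up p.1} :=
    isOpen_lt continuous_snd (hup.comp continuous_fst)
  exact h1.inter (h2.inter h3)

theorem region_preconnected {a b : ℝ} {lo up : ℝ → ℝ} (hlo : Continuous lo) (hup : Continuous up)
    (hlt : ∀ t ∈ Set.Ioo a b, lo t < up t) : IsPreconnected (region a b lo up) := by
  have h1 : region a b lo up =
      (fun q : ℝ × ℝ => (q.1, lo q.1 + q.2 * (up q.1 - lo q.1))) ''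
        (Set.Ioo a b ×ˢ Set.Ioo (0 : ℝ) 1) := by
    ext ⟨t, h⟩
    constructor
    · rintro ⟨ht, h2, h3⟩
      have h2' : lo t < h := h2
      have h3' : h < up t := h3
      have h4 := hlt t ht
      refine ⟨(t, (h - lo t) / (up t - lo t)), ⟨ht, ⟨?_, ?_⟩⟩, ?_⟩
      · exact div_pos (by linarith) (by linarith)
      · change (h - lo t) / (up t - lo t) < 1
        rw [div_lt_one (by linarith)]
        linarith
      · change (t, lo t + (h - lo t) / (up t - lo t) * (up t - lo t)) = (t, h)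
        have h5 : up t - lo t ≠ 0 := by
          intro h6
          linarith
        rw [div_mul_cancel₀ _ h5]
        simp
    · rintro ⟨⟨t', s⟩, ⟨ht, hs⟩, he⟩
      rw [Prod.mk.injEq] at he
      obtain ⟨rfl, he⟩ := he
      have ht1 : t' ∈ Set.Ioo a b := ht
      have h4 := hlt t' ht1
      have hs0 : 0 < s := hs.1
      have hs1 : s < 1 := hs.2
      refine ⟨ht1, ?_, ?_⟩
      · change lo t' < h
        rw [← he]
        have := mul_pos hs0 (sub_pos.mpr h4)
        change lo t' < lo t' + s * (up t' - lo t')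
        linarith
      · change h < up t'
        rw [← he]
        have := mul_pos (sub_pos.mpr hs1) (sub_pos.mpr h4)
        change lo t' + s * (up t' - lo t') < up t'
        linarith
  rw [h1]
  refine IsPreconnected.image (isPreconnected_Ioo.prod isPreconnected_Ioo) _ ?_
  exact Continuous.continuousOn (by fun_prop)

/-- closed version. -/
def regionC (a b : ℝ) (lo up : ℝ → ℝ) : Set (ℝ × ℝ) :=
  {p | p.1 ∈ Set.Icc a b ∧ lo p.1 ≤ p.2 ∧ p.2 ≤ up p.1}

theorem regionC_compact {a b : ℝ} {lo up : ℝ → ℝ} (hlo : Continuous lo) (hup : Continuous up) :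
    IsCompact (regionC a b lo up) := by
  obtain ⟨m, hm⟩ := (isCompact_Icc (a := a) (b := b)).bddBelow_image hlo.continuousOn
  obtain ⟨M, hM⟩ := (isCompact_Icc (a := a) (b := b)).bddAbove_image hup.continuousOn
  have h1 : IsClosed (regionC a b lo up) := by
    have h1 : IsClosed {p : ℝ × ℝ | p.1 ∈ Set.Icc a b} := isClosed_Icc.preimage continuous_fst
    have h2 : IsClosed {p : ℝ × ℝ | lo p.1 ≤ p.2} :=
      isClosed_le (hlo.comp continuous_fst) continuous_snd
    have h3 : IsClosed {p : ℝ × ℝ | p.2 ≤ up p.1} :=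
      isClosed_le continuous_snd (hup.comp continuous_fst)
    exact h1.inter (h2.inter h3)
  refine ((isCompact_Icc (a := a) (b := b)).prod
    (isCompact_Icc (a := m) (b := M))).of_isClosed_subset h1 ?_
  rintro ⟨t, h⟩ ⟨ht, h2, h3⟩
  exact ⟨ht, (hm ⟨t, ht, rfl⟩).trans h2, h3.trans (hM ⟨t, ht, rfl⟩)⟩

theorem closure_region_image {a b : ℝ} {lo up : ℝ → ℝ} (hlo : Continuous lo)
    (hup : Continuous up) :
    closure ((fun p : ℝ × ℝ => Psi p.1 p.2) '' region a b lo up) ⊆
      (fun p : ℝ × ℝ => Psi p.1 p.2) '' regionC a b lo up := by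
  apply closure_minimal
  · apply Set.image_mono
    rintro p ⟨h1, h2, h3⟩
    exact ⟨Set.Ioo_subset_Icc_self h1, h2.le, h3.le⟩
  · exact ((regionC_compact hlo hup).image continuous_Psi).isClosed

/-- the image of the region. -/
def cell (a b : ℝ) (lo up : ℝ → ℝ) : Set RP2 :=
  (fun p : ℝ × ℝ => Psi p.1 p.2) '' region a b lo up

theorem cell_boundary {a b : ℝ} {lo up : ℝ → ℝ} (hlo : Continuous lo) (hup : Continuous up)
    (ha : lo a = up a) (hb : lo b = up b) {y : RP2} (hy : y ∈ closure (cell a b lo up)) :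
    y ∈ cell a b lo up ∨ ∃ t ∈ Set.Icc a b, y = Psi t (lo t) ∨ y = Psi t (up t) := by
  obtain ⟨⟨t, h⟩, ⟨ht, h1, h2⟩, rfl⟩ := closure_region_image hlo hup hy
  have ht' : t ∈ Set.Icc a b := ht
  have h1' : lo t ≤ h := h1
  have h2' : h ≤ up t := h2
  rcases h1'.lt_or_eq with h3 | h3
  · rcases h2'.lt_or_eq with h4 | h4
    · left
      refine ⟨(t, h), ⟨⟨?_, ?_⟩, h3, h4⟩, rfl⟩
      · refine lt_of_le_of_ne ht'.1 ?_
        rintro rfl
        linarith
      · refine lt_of_le_of_ne ht'.2 ?_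
        rintro rfl
        linarith
    · right
      refine ⟨t, ht', Or.inr ?_⟩
      rw [h4]
  · right
    refine ⟨t, ht', Or.inl ?_⟩
    rw [h3]

theorem mem_closure_cell {a b : ℝ} {lo up : ℝ → ℝ} (hlt : ∀ t ∈ Set.Ioo a b, lo t < up t)
    {t : ℝ} (ht : t ∈ Set.Ioo a b) :
    Psi t (lo t) ∈ closure (cell a b lo up) ∧ Psi t (up t) ∈ closure (cell a b lo up) := by
  have hf : Continuous fun s : ℝ => Psi t (lo t + s * (up t - lo t)) :=
    continuous_Psi_comp continuous_const (by fun_prop)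
  have hlt' := sub_pos.mpr (hlt t ht)
  have hmaps : Set.MapsTo (fun s : ℝ => Psi t (lo t + s * (up t - lo t))) (Set.Ioo 0 1)
      (cell a b lo up) := by
    intro s hs
    have h1 := mul_pos hs.1 hlt'
    have h2 := mul_pos (sub_pos.mpr hs.2) hlt'
    refine ⟨(t, lo t + s * (up t - lo t)), ⟨ht, ?_, ?_⟩, rfl⟩
    · change lo t < lo t + s * (up t - lo t)
      linarith
    · change lo t + s * (up t - lo t) < up t
      linarith
  have hcl : closure (Set.Ioo (0 : ℝ) 1) = Set.Icc 0 1 := closure_Ioo (by norm_num)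
  constructor
  · have h0 : (0 : ℝ) ∈ closure (Set.Ioo (0 : ℝ) 1) := by rw [hcl]; exact ⟨le_rfl, zero_le_one⟩
    have h1 := map_mem_closure hf h0 hmaps
    simpa using h1
  · have h0 : (1 : ℝ) ∈ closure (Set.Ioo (0 : ℝ) 1) := by rw [hcl]; exact ⟨zero_le_one, le_rfl⟩
    have h1 := map_mem_closure hf h0 hmaps
    simpa using h1

theorem Wires.face_sides {n : ℕ} (W : Wires n) {a b : ℝ} (hab : a < b) {lo up : ℝ → ℝ}
    (hlo : Continuous lo) (hup : Continuous up) (hlt : ∀ t ∈ Set.Ioo a b, lo t < up t)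
    (hw : ∀ i, ∀ t ∈ Set.Ioo a b, W.φ i t ≤ lo t ∨ up t ≤ W.φ i t)
    (ha : lo a = up a) (hb : lo b = up b) (S : Set (Fin n))
    (hS : ∀ t ∈ Set.Icc a b, (∃ i ∈ S, lo t = W.φ i t) ∧ (∃ i ∈ S, up t = W.φ i t))
    (hE : ∀ i ∈ S, ∃ a' b', a ≤ a' ∧ a' < b' ∧ b' ≤ b ∧
      ((∀ t ∈ Set.Ioo a' b', lo t = W.φ i t) ∨ (∀ t ∈ Set.Ioo a' b', up t = W.φ i t)) ∧
      (∀ j, j ≠ i → ∀ t ∈ Set.Ioo a' b', W.φ j t ≠ W.φ i t) ∧
      (∃ j, j ≠ i ∧ W.φ j a' = W.φ i a') ∧ (∃ j, j ≠ i ∧ W.φ j b' = W.φ i b')) :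
    IsFace W.C (cell a b lo up) ∧ sides W.C (cell a b lo up) = S := by
  have hFo : IsOpen (cell a b lo up) := isOpenMap_Psi _ (region_open hlo hup)
  have hFc : IsPreconnected (cell a b lo up) :=
    (region_preconnected hlo hup hlt).image _ continuous_Psi.continuousOn
  have hFU : cell a b lo up ⊆ offCurves W.C := by
    rintro _ ⟨⟨t, h⟩, ⟨ht, h1, h2⟩, rfl⟩ i hi
    have hi' : h = W.φ i t := (W.mem_C i t h).mp hi
    have h1' : lo t < h := h1
    have h2' : h < up t := h2
    rcases hw i t ht with h3 | h3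
    · linarith
    · linarith
  have hcurve : ∀ t ∈ Set.Icc a b, (∃ i ∈ S, Psi t (lo t) ∈ W.C i) ∧
      (∃ i ∈ S, Psi t (up t) ∈ W.C i) := by
    intro t ht
    obtain ⟨⟨i, hi, h1⟩, ⟨j, hj, h2⟩⟩ := hS t ht
    exact ⟨⟨i, hi, (W.mem_C i t _).mpr h1⟩, ⟨j, hj, (W.mem_C j t _).mpr h2⟩⟩
  have hbd : ∀ y ∈ closure (cell a b lo up), y ∈ cell a b lo up ∨ ∃ i ∈ S, y ∈ W.C i := by
    intro y hy
    rcases cell_boundary hlo hup ha hb hy with h | ⟨t, ht, h | h⟩
    · exact Or.inl h
    · rw [h]; exact Or.inr (hcurve t ht).1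
    · rw [h]; exact Or.inr (hcurve t ht).2
  have hcl : closure (cell a b lo up) ∩ offCurves W.C ⊆ cell a b lo up := by
    rintro y ⟨hy, hyU⟩
    rcases hbd y hy with h | ⟨i, _, hi⟩
    · exact h
    · exact absurd hi (hyU i)
  constructor
  · -- the cell is a face
    have ht : (a + b) / 2 ∈ Set.Ioo a b := ⟨by linarith, by linarith⟩
    have h1 := hlt _ ht
    have hx : Psi ((a + b) / 2) ((lo ((a + b) / 2) + up ((a + b) / 2)) / 2) ∈ cell a b lo up := by
      refine ⟨((a + b) / 2, (lo ((a + b) / 2) + up ((a + b) / 2)) / 2), ⟨ht, ?_, ?_⟩, rfl⟩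
      · change lo ((a + b) / 2) < (lo ((a + b) / 2) + up ((a + b) / 2)) / 2
        linarith
      · change (lo ((a + b) / 2) + up ((a + b) / 2)) / 2 < up ((a + b) / 2)
        linarith
    exact ⟨_, hFU hx, (component_eq hx hFc hFo hFU hcl).symm⟩
  · ext i
    constructor
    · rintro ⟨E, ⟨x, hx, rfl⟩, hEF⟩
      have h1 : x ∈ frontier (cell a b lo up) := hEF (mem_connectedComponentIn hx)
      rw [hFo.frontier_eq] at h1
      rcases hbd x h1.1 with h2 | ⟨j, hj, hxj⟩
      · exact absurd h2 h1.2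
      · by_cases hji : j = i
        · rw [← hji]; exact hj
        · exact absurd hxj (hx.2 j hji)
    · intro hi
      obtain ⟨a', b', haa, hab', hbb, hbdry, hne, ⟨j1, hj1, hja⟩, ⟨j2, hj2, hjb⟩⟩ := hE i hi
      let E : Set RP2 := (fun t => Psi t (W.φ i t)) '' Set.Ioo a' b'
      have hfc : Continuous fun t => Psi t (W.φ i t) :=
        continuous_Psi_comp continuous_id (W.cont i)
      have hEU : E ⊆ onlyOn W.C i := by
        rintro _ ⟨t, ht, rfl⟩
        refine ⟨⟨t, rfl⟩, ?_⟩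
        intro j hj hmem
        have h1 := (W.mem_C j t _).mp hmem
        exact hne j hj t ht h1.symm
      have hO : IsOpen ((fun p : ℝ × ℝ => Psi p.1 p.2) '' (Set.Ioo a' b' ×ˢ Set.univ)) :=
        isOpenMap_Psi _ (isOpen_Ioo.prod isOpen_univ)
      have hEO : E ⊆ (fun p : ℝ × ℝ => Psi p.1 p.2) '' (Set.Ioo a' b' ×ˢ Set.univ) := by
        rintro _ ⟨t, ht, rfl⟩
        exact ⟨(t, W.φ i t), ⟨ht, Set.mem_univ _⟩, rfl⟩
      have hUO : onlyOn W.C i ∩ ((fun p : ℝ × ℝ => Psi p.1 p.2) ''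
          (Set.Ioo a' b' ×ˢ Set.univ)) ⊆ E := by
        rintro _ ⟨hyU, ⟨⟨t, h⟩, ⟨ht, _⟩, rfl⟩⟩
        have h1 : h = W.φ i t := (W.mem_C i t h).mp hyU.1
        refine ⟨t, ht, ?_⟩
        change Psi t (W.φ i t) = Psi t h
        rw [h1]
      have hEcl : closure E ∩ onlyOn W.C i ⊆ E := by
        rintro y ⟨hy, hyU⟩
        have h1 : closure E ⊆ (fun t => Psi t (W.φ i t)) '' Set.Icc a' b' := by
          apply closure_minimal
          · exact Set.image_mono Set.Ioo_subset_Icc_self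
          · exact (isCompact_Icc.image hfc).isClosed
        obtain ⟨t, ht, rfl⟩ := h1 hy
        refine ⟨t, ⟨lt_of_le_of_ne ht.1 ?_, lt_of_le_of_ne ht.2 ?_⟩, rfl⟩
        · rintro rfl
          exact hyU.2 j1 hj1 ((W.mem_C j1 _ _).mpr hja.symm)
        · rintro rfl
          exact hyU.2 j2 hj2 ((W.mem_C j2 _ _).mpr hjb.symm)
      have hEF : E ⊆ frontier (cell a b lo up) := by
        rintro _ ⟨t, ht, rfl⟩
        rw [hFo.frontier_eq]
        have ht' : t ∈ Set.Ioo a b := ⟨lt_of_le_of_lt haa ht.1, lt_of_lt_of_le ht.2 hbb⟩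
        refine ⟨?_, ?_⟩
        · rcases hbdry with h1 | h1
          · have h2 := (mem_closure_cell hlt ht').1
            rw [h1 t ht] at h2
            exact h2
          · have h2 := (mem_closure_cell hlt ht').2
            rw [h1 t ht] at h2
            exact h2
        · intro hcon
          exact hFU hcon i ⟨t, rfl⟩
      have ht1 : (a' + b') / 2 ∈ Set.Ioo a' b' := ⟨by linarith, by linarith⟩
      have hx1 : Psi ((a' + b') / 2) (W.φ i ((a' + b') / 2)) ∈ E := ⟨_, ht1, rfl⟩
      exact ⟨_, ⟨_, hEU hx1, rfl⟩,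
        (component_subset hx1 hEU hO hEO hUO hEcl).trans hEF⟩

/-! ## Triangles -/

/-- At time `t` the wire `y` is above the wire `x`, and all other wires are strictly below `x` or
strictly above `y`. -/
def Wires.Adj {n : ℕ} (W : Wires n) (x y : Fin n) (t : ℝ) : Prop :=
  W.φ x t < W.φ y t ∧ ∀ i, i ≠ x → i ≠ y → W.φ i t < W.φ x t ∨ W.φ y t < W.φ i t

theorem continuous_glue {f g : ℝ → ℝ} (hf : Continuous f) (hg : Continuous g) {c : ℝ}
    (h : f c = g c) : Continuous fun t => if t ≤ c then f t else g t := by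
  refine Continuous.if_le hf hg continuous_id continuous_const ?_
  intro t ht
  have ht' : t = c := ht
  rw [ht', h]

/-- side = 0: `x` is the lower boundary, the upper boundary is `y` on `(a, c)` and `z` on
`(c, b)`. -/
theorem Wires.tri0 {n : ℕ} (W : Wires n) {a c b : ℝ} {x y z : Fin n} (hac : a < c) (hcb : c < b)
    (hyz : y ≠ z) (h1 : ∀ t ∈ Set.Ioo a c, W.Adj x y t) (h2 : ∀ t ∈ Set.Ioo c b, W.Adj x z t)
    (hc : W.φ y c = W.φ z c) (hxc : W.φ x c < W.φ y c)
    (hic : ∀ i, i ≠ x → W.φ i c < W.φ x c ∨ W.φ y c ≤ W.φ i c)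
    (ha : W.φ x a = W.φ y a) (hb : W.φ x b = W.φ z b) :
    ∃ F, IsFace W.C F ∧ sides W.C F = {x, y, z} := by
  have hxy : x ≠ y := by rintro rfl; exact lt_irrefl _ hxc
  have hxz : x ≠ z := by rintro rfl; rw [hc] at hxc; exact lt_irrefl _ hxc
  let up : ℝ → ℝ := fun t => if t ≤ c then W.φ y t else W.φ z t
  have hup : Continuous up := continuous_glue (W.cont y) (W.cont z) hc
  have up1 : ∀ t, t ≤ c → up t = W.φ y t := fun t ht => if_pos ht
  have up2 : ∀ t, c < t → up t = W.φ z t := fun t ht => if_neg (not_le.mpr ht)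
  -- the wires in the interval
  have hcase : ∀ t ∈ Set.Ioo a b, W.φ x t < up t ∧
      ∀ i, i ≠ x → W.φ i t < W.φ x t ∨ up t ≤ W.φ i t := by
    intro t ht
    rcases lt_trichotomy t c with h | h | h
    · have h3 := h1 t ⟨ht.1, h⟩
      rw [up1 t h.le]
      refine ⟨h3.1, fun i hi => ?_⟩
      by_cases hiy : i = y
      · rw [hiy]; exact Or.inr le_rfl
      · rcases h3.2 i hi hiy with h4 | h4
        · exact Or.inl h4
        · exact Or.inr h4.le
    · rw [h, up1 c le_rfl]
      exact ⟨hxc, hic⟩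
    · have h3 := h2 t ⟨h, ht.2⟩
      rw [up2 t h]
      refine ⟨h3.1, fun i hi => ?_⟩
      by_cases hiz : i = z
      · rw [hiz]; exact Or.inr le_rfl
      · rcases h3.2 i hi hiz with h4 | h4
        · exact Or.inl h4
        · exact Or.inr h4.le
  refine ⟨cell a b (W.φ x) up, W.face_sides (hac.trans hcb) (W.cont x) hup
    (fun t ht => (hcase t ht).1) ?_ ?_ ?_ {x, y, z} ?_ ?_⟩
  · intro i t ht
    by_cases hix : i = x
    · rw [hix]; exact Or.inl le_rfl
    · rcases (hcase t ht).2 i hix with h | h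
      · exact Or.inl h.le
      · exact Or.inr h
  · rw [up1 a hac.le]; exact ha
  · rw [up2 b hcb]; exact hb
  · intro t _
    refine ⟨⟨x, by simp, rfl⟩, ?_⟩
    by_cases htc : t ≤ c
    · exact ⟨y, by simp, up1 t htc⟩
    · exact ⟨z, by simp, up2 t (not_le.mp htc)⟩
  · intro i hi
    rcases hi with rfl | rfl | hi
    · refine ⟨a, b, le_rfl, hac.trans hcb, le_rfl, Or.inl fun t _ => rfl, ?_,
        ⟨y, hxy.symm, ha.symm⟩, ⟨z, hxz.symm, hb.symm⟩⟩
      intro j hj t ht
      have h3 := hcase t ht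
      rcases h3.2 j hj with h | h
      · exact h.ne
      · exact (lt_of_lt_of_le h3.1 h).ne'
    · refine ⟨a, c, le_rfl, hac, hcb.le, Or.inr fun t ht => up1 t ht.2.le, ?_,
        ⟨x, hxy, ha⟩, ⟨z, hyz.symm, hc.symm⟩⟩
      intro j hj t ht
      have h3 := h1 t ht
      by_cases hjx : j = x
      · rw [hjx]; exact h3.1.ne
      · rcases h3.2 j hjx hj with h | h
        · exact (h.trans h3.1).ne
        · exact h.ne'
    · rw [Set.mem_singleton_iff] at hi
      rw [hi]
      refine ⟨c, b, hac.le, hcb, le_rfl, Or.inr fun t ht => up2 t ht.1, ?_,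
        ⟨y, hyz, hc⟩, ⟨x, hxz, hb⟩⟩
      intro j hj t ht
      have h3 := h2 t ht
      by_cases hjx : j = x
      · rw [hjx]; exact h3.1.ne
      · rcases h3.2 j hjx hj with h | h
        · exact (h.trans h3.1).ne
        · exact h.ne'

/-- side = 1: `x` is the upper boundary, the lower boundary is `y` on `(a, c)` and `z` on
`(c, b)`. -/
theorem Wires.tri1 {n : ℕ} (W : Wires n) {a c b : ℝ} {x y z : Fin n} (hac : a < c) (hcb : c < b)
    (hyz : y ≠ z) (h1 : ∀ t ∈ Set.Ioo a c, W.Adj y x t) (h2 : ∀ t ∈ Set.Ioo c b, W.Adj z x t)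
    (hc : W.φ y c = W.φ z c) (hxc : W.φ y c < W.φ x c)
    (hic : ∀ i, i ≠ x → W.φ i c ≤ W.φ y c ∨ W.φ x c < W.φ i c)
    (ha : W.φ x a = W.φ y a) (hb : W.φ x b = W.φ z b) :
    ∃ F, IsFace W.C F ∧ sides W.C F = {x, y, z} := by
  have hxy : x ≠ y := by rintro rfl; exact lt_irrefl _ hxc
  have hxz : x ≠ z := by rintro rfl; rw [hc] at hxc; exact lt_irrefl _ hxc
  let lo : ℝ → ℝ := fun t => if t ≤ c then W.φ y t else W.φ z t
  have hlo : Continuous lo := continuous_glue (W.cont y) (W.cont z) hc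
  have lo1 : ∀ t, t ≤ c → lo t = W.φ y t := fun t ht => if_pos ht
  have lo2 : ∀ t, c < t → lo t = W.φ z t := fun t ht => if_neg (not_le.mpr ht)
  have hcase : ∀ t ∈ Set.Ioo a b, lo t < W.φ x t ∧
      ∀ i, i ≠ x → W.φ i t ≤ lo t ∨ W.φ x t < W.φ i t := by
    intro t ht
    rcases lt_trichotomy t c with h | h | h
    · have h3 := h1 t ⟨ht.1, h⟩
      rw [lo1 t h.le]
      refine ⟨h3.1, fun i hi => ?_⟩
      by_cases hiy : i = y
      · rw [hiy]; exact Or.inl le_rfl
      · rcases h3.2 i hiy hi with h4 | h4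
        · exact Or.inl h4.le
        · exact Or.inr h4
    · rw [h, lo1 c le_rfl]
      exact ⟨hxc, hic⟩
    · have h3 := h2 t ⟨h, ht.2⟩
      rw [lo2 t h]
      refine ⟨h3.1, fun i hi => ?_⟩
      by_cases hiz : i = z
      · rw [hiz]; exact Or.inl le_rfl
      · rcases h3.2 i hiz hi with h4 | h4
        · exact Or.inl h4.le
        · exact Or.inr h4
  refine ⟨cell a b lo (W.φ x), W.face_sides (hac.trans hcb) hlo (W.cont x)
    (fun t ht => (hcase t ht).1) ?_ ?_ ?_ {x, y, z} ?_ ?_⟩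
  · intro i t ht
    by_cases hix : i = x
    · rw [hix]; exact Or.inr le_rfl
    · rcases (hcase t ht).2 i hix with h | h
      · exact Or.inl h
      · exact Or.inr h.le
  · rw [lo1 a hac.le]; exact ha.symm
  · rw [lo2 b hcb]; exact hb.symm
  · intro t _
    refine ⟨?_, ⟨x, by simp, rfl⟩⟩
    by_cases htc : t ≤ c
    · exact ⟨y, by simp, lo1 t htc⟩
    · exact ⟨z, by simp, lo2 t (not_le.mp htc)⟩
  · intro i hi
    rcases hi with rfl | rfl | hi
    · refine ⟨a, b, le_rfl, hac.trans hcb, le_rfl, Or.inr fun t _ => rfl, ?_,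
        ⟨y, hxy.symm, ha.symm⟩, ⟨z, hxz.symm, hb.symm⟩⟩
      intro j hj t ht
      have h3 := hcase t ht
      rcases h3.2 j hj with h | h
      · exact (lt_of_le_of_lt h h3.1).ne
      · exact h.ne'
    · refine ⟨a, c, le_rfl, hac, hcb.le, Or.inl fun t ht => lo1 t ht.2.le, ?_,
        ⟨x, hxy, ha⟩, ⟨z, hyz.symm, hc.symm⟩⟩
      intro j hj t ht
      have h3 := h1 t ht
      by_cases hjx : j = x
      · rw [hjx]; exact h3.1.ne'
      · rcases h3.2 j hj hjx with h | h
        · exact h.ne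
        · exact (h3.1.trans h).ne'
    · rw [Set.mem_singleton_iff] at hi
      rw [hi]
      refine ⟨c, b, hac.le, hcb, le_rfl, Or.inl fun t ht => lo2 t ht.1, ?_,
        ⟨y, hyz, hc⟩, ⟨x, hxz, hb⟩⟩
      intro j hj t ht
      have h3 := h2 t ht
      by_cases hjx : j = x
      · rw [hjx]; exact h3.1.ne'
      · rcases h3.2 j hj hjx with h | h
        · exact h.ne
        · exact (h3.1.trans h).ne'

/-- different sets of sides give different faces. -/
theorem le_numGons {n m : ℕ} {C : Fin n → Set RP2} (k : ℕ) (S : Fin m → Set (Fin n))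
    (hinj : Function.Injective S) (hk : ∀ j, (S j).encard = k)
    (h : ∀ j, ∃ F, IsFace C F ∧ sides C F = S j) : (m : ℕ∞) ≤ numGons C k := by
  choose F hF hS using h
  have hFinj : Function.Injective F := by
    intro i j hij
    apply hinj
    rw [← hS i, ← hS j, hij]
  unfold numGons
  calc (m : ℕ∞) = (Set.range F).encard := by
        rw [← Set.image_univ, hFinj.encard_image, Set.encard_univ]
        simp
    _ ≤ _ := by
        apply Set.encard_le_encard
        rintro _ ⟨j, rfl⟩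
        refine ⟨hF j, ?_⟩
        rw [hS j]
        exact hk j

end Pool.Agent.Helper15.PL
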