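import Pool.Agent.Helper15.PL.T1

/-!
# Block T2 of MP_614ca1: tables of the arrangement with 60 triangles, piecewise linear wires,
decidable checks and assembling
-/

namespace Pool.Agent.Helper15.PL

namespace Tab

/-- The table of the heights of the 14 wires at the times `0, ..., 17`. -/
def tab : List (List ℤ) :=
  [[13, 13, 13, 13, 13, 13, 13, 13, 13, 13, 13, 13, 11, 7, 3, -1, -6, -11],
   [11, 11, 11, 11, 11, 9, 7, 5, 2, -1, -5, -9, -11, -11, -11, -11, -11, -11],
   [8, 7, 7, 7, 5, 3, 0, -5, -9, -12, -13, -13, -13, -13, -13, -13, -13, -11],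
   [8, 9, 9, 9, 9, 9, 9, 9, 9, 9, 9, 7, 3, -1, -4, -5, -6, -7],
   [5, 5, 5, 5, 5, 5, 5, 5, 5, 5, 3, -1, -5, -7, -7, -7, -6, -5],
   [3, 3, 3, 1, -2, -5, -8, -9, -9, -9, -9, -9, -9, -9, -9, -9, -6, -3],
   [1, 1, 1, 1, 1, 1, 0, -1, -1, -1, -1, -1, -1, -1, -1, -1, -1, -1],
   [-1, -1, -3, -5, -5, -5, -5, -5, -5, -5, -5, -5, -5, -5, -4, -1, 1, 1],
   [-3, -3, -3, -3, -2, -1, 0, 1, 2, 3, 3, 3, 3, 3, 3, 3, 3, 3],
   [-5, -7, -11, -13, -13, -13, -13, -13, -13, -12, -11, -9, -5, -1, 3, 5, 5, 5],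
   [-7, -7, -7, -7, -7, -5, 0, 5, 7, 7, 7, 7, 7, 7, 7, 7, 7, 7],
   [-10, -11, -11, -11, -11, -11, -11, -11, -9, -7, -5, -1, 3, 7, 9, 9, 9, 9],
   [-10, -7, -3, 1, 5, 9, 11, 11, 11, 11, 11, 11, 11, 11, 11, 11, 11, 11],
   [-13, -13, -11, -9, -9, -9, -8, -5, -3, -1, 3, 7, 11, 13, 13, 13, 13, 13]]

/-- The height of wire `i` at the integer time `k`. -/
def val (i : Fin 14) (k : ℤ) : ℤ :=
  if (k / 18) % 2 = 0 then (tab.getD i []).getD (k % 18).toNat 0
  else -((tab.getD i []).getD (k % 18).toNat 0)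

/-- The 60 triangles `(a, c, b, x, y, z)`. -/
def triList : List (ℤ × ℤ × ℤ × Fin 14 × Fin 14 × Fin 14) :=
  [(2, 8, 9, 9, 11, 2),
   (9, 11, 17, 2, 9, 1),
   (17, 23, 30, 0, 1, 12),
   (0, 1, 2, 11, 12, 9),
   (2, 6, 8, 11, 13, 5),
   (26, 27, 29, 5, 2, 9),
   (11, 16, 17, 1, 5, 0),
   (17, 18, 23, 1, 2, 3),
   (6, 7, 8, 5, 13, 2),
   (8, 10, 11, 5, 11, 1),
   (11, 12, 16, 5, 9, 4),
   (34, 35, 36, 3, 0, 2),
   (1, 2, 5, 10, 12, 7),
   (23, 24, 25, 7, 5, 13),
   (25, 26, 28, 7, 2, 11),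
   (28, 29, 30, 7, 1, 9),
   (12, 14, 16, 4, 7, 3),
   (34, 36, 40, 4, 3, 2),
   (2, 4, 5, 7, 8, 5),
   (5, 6, 7, 7, 10, 2),
   (7, 9, 10, 7, 13, 1),
   (10, 11, 12, 7, 11, 4),
   (12, 13, 14, 7, 9, 3),
   (14, 15, 16, 3, 7, 0),
   (16, 21, 22, 4, 5, 12),
   (2, 3, 4, 8, 12, 5),
   (22, 23, 24, 8, 5, 10),
   (24, 25, 27, 6, 2, 13),
   (27, 28, 29, 6, 1, 11),
   (29, 30, 31, 6, 4, 9),
   (31, 32, 33, 6, 3, 7),
   (33, 34, 39, 6, 0, 5),
   (21, 22, 24, 6, 5, 8),
   (6, 8, 9, 6, 8, 1),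
   (9, 10, 11, 6, 13, 4),
   (11, 12, 13, 6, 11, 3),
   (13, 14, 15, 6, 9, 0),
   (15, 20, 21, 6, 7, 12),
   (3, 4, 6, 6, 12, 2),
   (6, 7, 8, 8, 10, 1),
   (26, 27, 28, 8, 1, 13),
   (28, 29, 30, 8, 4, 11),
   (30, 31, 32, 8, 3, 9),
   (32, 33, 38, 8, 0, 7),
   (22, 24, 25, 4, 2, 10),
   (25, 26, 28, 4, 1, 8),
   (10, 11, 12, 8, 13, 3),
   (12, 13, 14, 8, 11, 0),
   (14, 19, 20, 8, 9, 12),
   (4, 5, 7, 4, 12, 1),
   (25, 28, 29, 10, 4, 13),
   (29, 30, 31, 10, 3, 11),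
   (31, 32, 37, 10, 0, 9),
   (18, 22, 23, 3, 2, 12),
   (23, 25, 29, 3, 1, 10),
   (11, 12, 13, 10, 13, 0),
   (13, 18, 19, 10, 11, 12),
   (23, 29, 30, 12, 3, 13),
   (30, 31, 36, 12, 0, 11),
   (30, 36, 38, 13, 12, 11)]

/-- Crossing times of the wires `i < j`. -/
def crossTab : List (List ℤ) :=
  [[0, 17, 17, 16, 16, 16, 15, 15, 14, 14, 13, 13, 12, 12],
   [0, 0, 17, 5, 7, 11, 9, 10, 8, 11, 7, 10, 5, 9],
   [0, 0, 0, 0, 4, 8, 6, 7, 6, 9, 6, 8, 4, 7],
   [0, 0, 0, 0, 16, 16, 13, 14, 12, 13, 11, 12, 5, 11],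
   [0, 0, 0, 0, 0, 16, 11, 12, 10, 12, 7, 11, 4, 10],
   [0, 0, 0, 0, 0, 0, 3, 5, 4, 11, 5, 8, 3, 6],
   [0, 0, 0, 0, 0, 0, 0, 15, 6, 13, 6, 11, 3, 9],
   [0, 0, 0, 0, 0, 0, 0, 0, 2, 12, 5, 10, 2, 7],
   [0, 0, 0, 0, 0, 0, 0, 0, 0, 14, 6, 12, 2, 10],
   [0, 0, 0, 0, 0, 0, 0, 0, 0, 0, 1, 2, 1, 2],
   [0, 0, 0, 0, 0, 0, 0, 0, 0, 0, 0, 13, 1, 11],
   [0, 0, 0, 0, 0, 0, 0, 0, 0, 0, 0, 0, 0, 2],
   [0, 0, 0, 0, 0, 0, 0, 0, 0, 0, 0, 0, 0, 12],
   [0, 0, 0, 0, 0, 0, 0, 0, 0, 0, 0, 0, 0, 0]]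

/-- The crossing time of the wires `i < j`. -/
def crossTime (i j : Fin 14) : ℤ := (crossTab.getD i []).getD j 0

/-- `u < v` on the open interval `(k, k + 1)`, and `u ≤ v` at its ends. -/
def ltI (u v : ℤ → ℤ) (k : ℤ) : Bool :=
  decide (u k ≤ v k) && decide (u (k + 1) ≤ v (k + 1)) &&
    (decide (u k < v k) || decide (u (k + 1) < v (k + 1)))

/-- All integers `k` with `a ≤ k < b`. -/
def rng (a b : ℤ) : List ℤ := (List.range (b - a).toNat).map (fun m : ℕ => a + (m : ℤ))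

theorem mem_rng {a b k : ℤ} : k ∈ rng a b ↔ a ≤ k ∧ k < b := by
  unfold rng
  rw [List.mem_map]
  constructor
  · rintro ⟨m, hm, rfl⟩
    have := List.mem_range.1 hm
    omega
  · rintro ⟨h1, h2⟩
    refine ⟨(k - a).toNat, List.mem_range.2 ?_, ?_⟩
    · omega
    · show a + ((k - a).toNat : ℤ) = k
      omega

/-- `x` is below `y` and all other wires are below `x` or above `y` on the open interval
`(k, k + 1)`. -/
def adjI (x y : Fin 14) (k : ℤ) : Bool :=
  ltI (val x) (val y) k && (List.finRange 14).all (fun w =>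
    decide (w = x) || decide (w = y) || ltI (val w) (val x) k || ltI (val y) (val w) k)

/-- `x` is below `y` and all other wires are below `x` or above `y` at the integer `k`. -/
def adjP (x y : Fin 14) (k : ℤ) : Bool :=
  decide (val x k < val y k) && (List.finRange 14).all (fun w =>
    decide (w = x) || decide (w = y) || decide (val w k < val x k) || decide (val y k < val w k))

/-- The decidable conditions for a triangle. -/
def triCheck (a c b : ℤ) (x y z : Fin 14) : Bool :=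
  decide (y ≠ z) && decide (a < c) && decide (c < b) &&
  (rng a c).all (fun k => adjI x y k) && (rng (a + 1) c).all (fun k => adjP x y k) &&
  (rng c b).all (fun k => adjI x z k) && (rng (c + 1) b).all (fun k => adjP x z k) &&
  decide (val y c = val z c) && decide (val x c < val y c) &&
  (List.finRange 14).all (fun w => decide (w = x) || decide (val w c < val x c) ||
    decide (val y c ≤ val w c)) &&
  decide (val x a = val y a) && decide (val x b = val z b)

theorem triList_check : triList.all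
    (fun r => triCheck r.1 r.2.1 r.2.2.1 r.2.2.2.1 r.2.2.2.2.1 r.2.2.2.2.2) = true := by
  decide +kernel

/-- The decidable conditions for a crossing. -/
def crossCheck (i j : Fin 14) : Bool :=
  decide (val i (crossTime i j) = val j (crossTime i j)) &&
  decide (val j (crossTime i j - 1) < val i (crossTime i j - 1)) &&
  (rng (crossTime i j + 1) (crossTime i j + 18)).all (fun k => decide (val i k < val j k))

theorem cross_check : ∀ i j : Fin 14, i < j → crossCheck i j = true := by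
  decide +kernel

theorem triList_length : triList.length = 60 := by decide +kernel

/-- The side sets of the triangles are pairwise different sets of three indices. -/
theorem triList_sides : ∀ i j : Fin 60,
    (({(triList.getD i (0, 0, 0, 0, 0, 0)).2.2.2.1, (triList.getD i (0, 0, 0, 0, 0, 0)).2.2.2.2.1,
      (triList.getD i (0, 0, 0, 0, 0, 0)).2.2.2.2.2} : Finset (Fin 14)) =
    {(triList.getD j (0, 0, 0, 0, 0, 0)).2.2.2.1, (triList.getD j (0, 0, 0, 0, 0, 0)).2.2.2.2.1,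
      (triList.getD j (0, 0, 0, 0, 0, 0)).2.2.2.2.2}) → i = j := by
  decide +kernel

theorem triList_card : ∀ i : Fin 60,
    ({(triList.getD i (0, 0, 0, 0, 0, 0)).2.2.2.1, (triList.getD i (0, 0, 0, 0, 0, 0)).2.2.2.2.1,
      (triList.getD i (0, 0, 0, 0, 0, 0)).2.2.2.2.2} : Finset (Fin 14)).card = 3 := by
  decide +kernel

/-! ## Piecewise linear interpolation -/

theorem val_anti (i : Fin 14) (k : ℤ) : val i (k + 18) = - val i k := by
  unfold val
  have h1 : (k + 18) % 18 = k % 18 := by omega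
  rw [h1]
  by_cases h : (k / 18) % 2 = 0
  · rw [if_pos h, if_neg (by omega)]
  · rw [if_neg h, if_pos (by omega), neg_neg]

/-- The piecewise linear function with values `v k` at the integers. -/
noncomputable def wf (v : ℤ → ℤ) (t : ℝ) : ℝ :=
  v ⌊t⌋ + Int.fract t * (v (⌊t⌋ + 1) - v ⌊t⌋)

theorem wf_on (v : ℤ → ℤ) (k : ℤ) {t : ℝ} (h1 : (k : ℝ) ≤ t) (h2 : t ≤ k + 1) :
    wf v t = (1 - (t - k)) * v k + (t - k) * v (k + 1) := by
  rcases h2.lt_or_eq with h2 | h2
  · have h3 : ⌊t⌋ = k := Int.floor_eq_iff.2 ⟨h1, h2⟩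
    unfold wf Int.fract
    rw [h3]
    ring
  · have h3 : ⌊t⌋ = k + 1 := by
      rw [h2]
      have : ((k : ℝ) + 1) = ((k + 1 : ℤ) : ℝ) := by push_cast; ring
      rw [this, Int.floor_intCast]
    unfold wf Int.fract
    rw [h3, h2]
    push_cast
    ring

theorem wf_int (v : ℤ → ℤ) (k : ℤ) : wf v k = v k := by
  rw [wf_on v k le_rfl (by linarith)]
  ring

theorem wf_continuous (v : ℤ → ℤ) : Continuous (wf v) := by
  rw [continuous_iff_continuousAt]
  intro t
  have h : wf v =ᶠ[nhds t] fun s => (v ⌊t⌋ : ℝ) + max (s - ⌊t⌋) 0 * (v (⌊t⌋ + 1) - v ⌊t⌋) +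
      min (s - ⌊t⌋) 0 * (v ⌊t⌋ - v (⌊t⌋ - 1)) := by
    have h1 : Set.Ioo ((⌊t⌋ : ℝ) - 1) (⌊t⌋ + 1) ∈ nhds t :=
      Ioo_mem_nhds (by linarith [Int.floor_le t]) (Int.lt_floor_add_one t)
    filter_upwards [h1] with s hs
    rcases le_total (⌊t⌋ : ℝ) s with h2 | h2
    · rw [wf_on v ⌊t⌋ h2 hs.2.le, max_eq_left (by linarith), min_eq_right (by linarith)]
      ring
    · have h3 := wf_on v (⌊t⌋ - 1) (t := s) (by push_cast; exact hs.1.le) (by push_cast; linarith)
      rw [h3, max_eq_right (by linarith), min_eq_left (by linarith)]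
      have : ⌊t⌋ - 1 + 1 = ⌊t⌋ := by ring
      rw [this]
      push_cast
      ring
  refine ContinuousAt.congr ?_ h.symm
  fun_prop

theorem wf_anti (v : ℤ → ℤ) (hv : ∀ k, v (k + 18) = - v k) (t : ℝ) : wf v (t + 18) = - wf v t := by
  unfold wf
  have h1 : ⌊t + 18⌋ = ⌊t⌋ + 18 := by
    have := Int.floor_add_intCast t 18
    push_cast at this
    exact this
  have h2 : Int.fract (t + 18) = Int.fract t := by
    unfold Int.fract
    rw [h1]
    push_cast
    ring
  have h3 : v (⌊t⌋ + 18 + 1) = - v (⌊t⌋ + 1) := by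
    rw [← hv]
    ring_nf
  rw [h1, h2, h3, hv]
  push_cast
  ring

theorem lt_of_ltI {u v : ℤ → ℤ} {k : ℤ} (h : ltI u v k = true) {t : ℝ} (h1 : (k : ℝ) < t)
    (h2 : t < k + 1) : wf u t < wf v t := by
  unfold ltI at h
  simp only [Bool.and_eq_true, Bool.or_eq_true, decide_eq_true_eq] at h
  obtain ⟨⟨ha, hb⟩, hc⟩ := h
  rw [wf_on u k h1.le h2.le, wf_on v k h1.le h2.le]
  have ha' : (u k : ℝ) ≤ v k := by exact_mod_cast ha
  have hb' : (u (k + 1) : ℝ) ≤ v (k + 1) := by exact_mod_cast hb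
  have h3 : 0 < t - k := by linarith
  have h4 : 0 < 1 - (t - k) := by linarith
  rcases hc with hc | hc
  · have hc' : (u k : ℝ) < v k := by exact_mod_cast hc
    have := mul_lt_mul_of_pos_left hc' h4
    have := mul_le_mul_of_nonneg_left hb' h3.le
    linarith
  · have hc' : (u (k + 1) : ℝ) < v (k + 1) := by exact_mod_cast hc
    have := mul_le_mul_of_nonneg_left ha' h4.le
    have := mul_lt_mul_of_pos_left hc' h3
    linarith

theorem wf_lt_int {u v : ℤ → ℤ} {k : ℤ} (h : u k < v k) : wf u k < wf v k := by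
  rw [wf_int, wf_int]
  exact_mod_cast h

/-- A property which holds at the integers and on the intervals between them. -/
theorem forall_Ioo {P : ℝ → Prop} {a b : ℤ}
    (h1 : ∀ k : ℤ, a ≤ k → k < b → ∀ t : ℝ, (k : ℝ) < t → t < k + 1 → P t)
    (h2 : ∀ k : ℤ, a + 1 ≤ k → k < b → P k) : ∀ t ∈ Set.Ioo (a : ℝ) b, P t := by
  intro t ht
  rcases (Int.floor_le t).lt_or_eq with h | h
  · refine h1 ⌊t⌋ (Int.le_floor.2 ht.1.le) ?_ t h (Int.lt_floor_add_one t)
    have : (⌊t⌋ : ℝ) < b := h.trans ht.2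
    exact_mod_cast this
  · rw [← h]
    rw [← h] at ht
    refine h2 ⌊t⌋ ?_ ?_
    · have : a < ⌊t⌋ := by exact_mod_cast ht.1
      omega
    · exact_mod_cast ht.2

/-- The 14 wires. -/
noncomputable def W : Wires 14 where
  φ i := wf (val i)
  cont _ := wf_continuous _
  anti i t := wf_anti _ (val_anti i) t

theorem W_φ (i : Fin 14) : W.φ i = wf (val i) := rfl

theorem adj_of_adjI {x y : Fin 14} {k : ℤ} (h : adjI x y k = true) {t : ℝ} (h1 : (k : ℝ) < t)
    (h2 : t < k + 1) : W.Adj x y t := by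
  unfold adjI at h
  rw [Bool.and_eq_true, List.all_eq_true] at h
  refine ⟨lt_of_ltI h.1 h1 h2, fun w hwx hwy => ?_⟩
  have h3 := h.2 w (List.mem_finRange w)
  simp only [Bool.or_eq_true, decide_eq_true_eq] at h3
  rcases h3 with ((h3 | h3) | h3) | h3
  · exact absurd h3 hwx
  · exact absurd h3 hwy
  · exact Or.inl (lt_of_ltI h3 h1 h2)
  · exact Or.inr (lt_of_ltI h3 h1 h2)

theorem adj_of_adjP {x y : Fin 14} {k : ℤ} (h : adjP x y k = true) : W.Adj x y k := by
  unfold adjP at h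
  rw [Bool.and_eq_true, List.all_eq_true, decide_eq_true_eq] at h
  refine ⟨wf_lt_int h.1, fun w hwx hwy => ?_⟩
  have h3 := h.2 w (List.mem_finRange w)
  simp only [Bool.or_eq_true, decide_eq_true_eq] at h3
  rcases h3 with ((h3 | h3) | h3) | h3
  · exact absurd h3 hwx
  · exact absurd h3 hwy
  · exact Or.inl (wf_lt_int h3)
  · exact Or.inr (wf_lt_int h3)

theorem adj_Ioo {x y : Fin 14} {a b : ℤ} (h1 : (rng a b).all (fun k => adjI x y k) = true)
    (h2 : (rng (a + 1) b).all (fun k => adjP x y k) = true) :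
    ∀ t ∈ Set.Ioo (a : ℝ) b, W.Adj x y t := by
  rw [List.all_eq_true] at h1 h2
  exact forall_Ioo (fun k hk hk' t ht ht' => adj_of_adjI (h1 k (mem_rng.2 ⟨hk, hk'⟩)) ht ht')
    (fun k hk hk' => adj_of_adjP (h2 k (mem_rng.2 ⟨hk, hk'⟩)))

theorem tri_of_check {a c b : ℤ} {x y z : Fin 14} (h : triCheck a c b x y z = true) :
    ∃ F, IsFace W.C F ∧ sides W.C F = {x, y, z} := by
  unfold triCheck at h
  simp only [Bool.and_eq_true, decide_eq_true_eq] at h
  obtain ⟨⟨⟨⟨⟨⟨⟨⟨⟨⟨⟨hyz, hac⟩, hcb⟩, h1⟩, h2⟩, h3⟩, h4⟩, h5⟩, h6⟩, h7⟩, h8⟩, h9⟩ := h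
  rw [List.all_eq_true] at h7
  refine W.tri0 (a := a) (c := c) (b := b) (by exact_mod_cast hac) (by exact_mod_cast hcb) hyz
    (adj_Ioo h1 h2) (adj_Ioo h3 h4) ?_ (wf_lt_int h6) ?_ ?_ ?_
  · simp only [W_φ, wf_int, h5]
  · intro i hi
    have h10 := h7 i (List.mem_finRange i)
    simp only [Bool.or_eq_true, decide_eq_true_eq] at h10
    rcases h10 with (h10 | h10) | h10
    · exact absurd h10 hi
    · exact Or.inl (wf_lt_int h10)
    · right
      simp only [W_φ, wf_int]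
      exact_mod_cast h10
  · simp only [W_φ, wf_int, h8]
  · simp only [W_φ, wf_int, h9]

/-- strictly decreasing difference on an interval between consecutive integers. -/
theorem diff_anti {u v : ℤ → ℤ} {k : ℤ} (h : u (k + 1) - v (k + 1) < u k - v k) :
    StrictAntiOn (fun t => wf u t - wf v t) (Set.Icc (k : ℝ) (k + 1)) := by
  intro s hs t ht hst
  simp only
  rw [wf_on u k hs.1 hs.2, wf_on v k hs.1 hs.2, wf_on u k ht.1 ht.2, wf_on v k ht.1 ht.2]
  have h' : (u (k + 1) : ℝ) - v (k + 1) < u k - v k := by exact_mod_cast h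
  nlinarith [mul_pos (sub_pos.2 hst) (sub_pos.2 h')]

theorem cross_spec {i j : Fin 14} (hij : i < j) :
    W.φ i (crossTime i j : ℝ) = W.φ j (crossTime i j : ℝ) ∧
      (∀ t ∈ Set.Ioo (crossTime i j : ℝ) ((crossTime i j : ℝ) + 18), W.φ i t < W.φ j t) ∧
      StrictAntiOn (fun t => W.φ i t - W.φ j t)
        (Set.Icc ((crossTime i j : ℝ) - 1) ((crossTime i j : ℝ) + 1)) := by
  have h := cross_check i j hij
  unfold crossCheck at h
  simp only [Bool.and_eq_true, decide_eq_true_eq] at h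
  obtain ⟨⟨h1, h2⟩, h3⟩ := h
  rw [List.all_eq_true] at h3
  generalize crossTime i j = t0 at *
  have h3' : ∀ k : ℤ, t0 + 1 ≤ k → k < t0 + 18 → val i k < val j k := by
    intro k hk hk'
    have := h3 k (mem_rng.2 ⟨hk, hk'⟩)
    exact of_decide_eq_true this
  have h18 : val i (t0 + 18) = val j (t0 + 18) := by rw [val_anti, val_anti, h1]
  refine ⟨by simp only [W_φ, wf_int, h1], ?_, ?_⟩
  · have : ((t0 : ℝ) + 18) = ((t0 + 18 : ℤ) : ℝ) := by push_cast; ring
    rw [this]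
    refine forall_Ioo (P := fun t => W.φ i t < W.φ j t) ?_ ?_
    · intro k hk hk' t ht ht'
      refine lt_of_ltI ?_ ht ht'
      unfold ltI
      simp only [Bool.and_eq_true, Bool.or_eq_true, decide_eq_true_eq]
      have ha : val i k ≤ val j k := by
        rcases hk.lt_or_eq with h | h
        · exact (h3' k (by omega) hk').le
        · rw [← h, h1]
      have hb : val i (k + 1) ≤ val j (k + 1) := by
        rcases (show k + 1 ≤ t0 + 18 by omega).lt_or_eq with h | h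
        · exact (h3' (k + 1) (by omega) h).le
        · rw [h, h18]
      refine ⟨⟨ha, hb⟩, ?_⟩
      rcases hk.lt_or_eq with h | h
      · exact Or.inl (h3' k (by omega) hk')
      · exact Or.inr (h3' (k + 1) (by omega) (by omega))
    · intro k hk hk'
      exact wf_lt_int (h3' k hk hk')
  · have e1 : t0 - 1 + 1 = t0 := by ring
    have ha : StrictAntiOn (fun t => wf (val i) t - wf (val j) t)
        (Set.Icc ((t0 : ℝ) - 1) (t0 : ℝ)) := by
      have := diff_anti (u := val i) (v := val j) (k := t0 - 1) (by rw [e1]; omega)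
      push_cast at this
      rwa [sub_add_cancel] at this
    have hb : StrictAntiOn (fun t => wf (val i) t - wf (val j) t)
        (Set.Icc (t0 : ℝ) ((t0 : ℝ) + 1)) :=
      diff_anti (u := val i) (v := val j) (k := t0) (by
        have := h3' (t0 + 1) le_rfl (by omega)
        omega)
    have hu : Set.Icc ((t0 : ℝ) - 1) ((t0 : ℝ) + 1) =
        Set.Icc ((t0 : ℝ) - 1) t0 ∪ Set.Icc (t0 : ℝ) ((t0 : ℝ) + 1) := by
      rw [Set.Icc_union_Icc_eq_Icc] <;> linarith
    rw [hu]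
    exact StrictAntiOn.union ha hb (isGreatest_Icc (by linarith)) (isLeast_Icc (by linarith))

/-- Two wires meet only at the crossing time modulo 18. -/
theorem eq_crossTime {i j : Fin 14} (hij : i < j) {t : ℝ} (h : W.φ i t = W.φ j t) :
    ∃ m : ℤ, t = crossTime i j + 18 * m := by
  obtain ⟨h1, h2, -⟩ := cross_spec hij
  generalize (crossTime i j : ℝ) = t0 at *
  have key : ∀ (m : ℤ) (s : ℝ), W.φ i s = W.φ j s → W.φ i (s + 18 * m) = W.φ j (s + 18 * m) := by
    intro m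
    induction m using Int.induction_on with
    | zero => intro s hs; simpa using hs
    | succ m ih =>
      intro s hs
      have e : s + 18 * ((m + 1 : ℤ) : ℝ) = (s + 18 * (m : ℤ)) + 18 := by push_cast; ring
      rw [e, W.anti, W.anti, ih s hs]
    | pred m ih =>
      intro s hs
      have e : s + 18 * ((-(m : ℤ) : ℤ) : ℝ) = (s + 18 * ((-(m : ℤ) - 1 : ℤ) : ℝ)) + 18 := by
        push_cast; ring
      have h4 := ih s hs
      rw [e, W.anti, W.anti] at h4
      exact neg_injective h4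
  refine ⟨⌊(t - t0) / 18⌋, ?_⟩
  have h3 := Int.floor_le ((t - t0) / 18)
  have h4 := Int.lt_floor_add_one ((t - t0) / 18)
  set m := ⌊(t - t0) / 18⌋
  rw [le_div_iff₀ (by norm_num)] at h3
  rw [div_lt_iff₀ (by norm_num)] at h4
  by_contra hne
  have h5 := key (-m) t h
  have h6 := h2 (t + 18 * ((-m : ℤ) : ℝ)) (by
    push_cast
    constructor
    · rcases (show t0 ≤ t + 18 * -(m : ℝ) by linarith).lt_or_eq with h7 | h7
      · exact h7
      · exact absurd (by linarith) hne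
    · linarith)
  exact h6.ne h5

theorem isArr : IsPseudolineArrangement W.C := by
  refine W.isPseudolineArrangement (fun i j hij => ⟨crossTime i j, ?_⟩) ?_
  · obtain ⟨h1, h2, h3⟩ := cross_spec hij
    exact ⟨h1, fun t ht => (h2 t ht).ne, h3⟩
  · intro t
    by_contra hcon
    push Not at hcon
    obtain ⟨m, hm⟩ := eq_crossTime (i := 0) (j := 1) (by decide) (hcon 0 1)
    obtain ⟨m', hm'⟩ := eq_crossTime (i := 0) (j := 3) (by decide) (hcon 0 3)
    have h1 : crossTime 0 1 = 17 := by decide +kernel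
    have h2 : crossTime 0 3 = 16 := by decide +kernel
    rw [h1] at hm
    rw [h2, hm] at hm'
    have : (17 : ℤ) + 18 * m = 16 + 18 * m' := by exact_mod_cast hm'
    omega

/-- The side sets of the 60 triangles. -/
def sideSet (r : Fin 60) : Finset (Fin 14) :=
  {(triList.getD r (0, 0, 0, 0, 0, 0)).2.2.2.1, (triList.getD r (0, 0, 0, 0, 0, 0)).2.2.2.2.1,
      (triList.getD r (0, 0, 0, 0, 0, 0)).2.2.2.2.2}

theorem sixty_le : 60 ≤ numGons W.C 3 := by
  have h := le_numGons (C := W.C) (m := 60) 3 (fun r => (sideSet r : Set (Fin 14))) ?_ ?_ ?_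
  · exact_mod_cast h
  · intro i j hij
    have : sideSet i = sideSet j := Finset.coe_injective hij
    exact triList_sides i j this
  · intro r
    simp only [Set.encard_coe_eq_coe_finsetCard]
    have := triList_card r
    unfold sideSet
    rw [this]
  · intro r
    have hr : (r : ℕ) < triList.length := by rw [triList_length]; exact r.2
    have hmem : triList.getD r (0, 0, 0, 0, 0, 0) ∈ triList := by
      rw [List.getD_eq_getElem _ _ hr]
      exact List.getElem_mem hr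
    have h1 := List.all_eq_true.1 triList_check _ hmem
    obtain ⟨F, hF, hs⟩ := tri_of_check h1
    refine ⟨F, hF, ?_⟩
    rw [hs]
    unfold sideSet
    push_cast
    rfl

theorem finite_gons : numGons W.C 3 ≠ ⊤ := by
  refine W.numGons_ne_top (fun i k s hs => ?_) 3
  have h := wf_on (val i) k (t := k + s) (by linarith [hs.1]) (by linarith [hs.2])
  have e : ((k : ℝ) + 1) = ((k + 1 : ℤ) : ℝ) := by push_cast; ring
  rw [W_φ, h, wf_int, e, wf_int]
  ring

end Tab

/-- Block T: an arrangement of 14 pseudo-lines with at least 60 triangles. -/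
theorem exists_sixty : ∃ C : Fin 14 → Set RP2, IsPseudolineArrangement C ∧
    60 ≤ numGons C 3 ∧ numGons C 3 ≠ ⊤ :=
  ⟨Tab.W.C, Tab.isArr, Tab.sixty_le, Tab.finite_gons⟩

end Pool.Agent.Helper15.PL
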