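import Pool.Agent.Helper15.PL.Loads
import Pool.Agent.Helper58.PLK.Halves

/-!
# At most four true inputs
-/

namespace Pool.Agent.Helper15.PL.Halves

open Pool.Agent.Helper58.PLK Pool.Agent.Helper15.PL Pool.Agent.Helper15.PL.Loads

variable (M : Model)

/-- At most four inputs of the cardinality constraint are true. -/
theorem total_halves (h : ∑ f, (M.S.waste f : ℤ) + ∑ f, M.S.slack f ≤ 16) :
    cnt (fun h => M.Sem0 (recv ht h)) 0 1820 ≤ 4 := by
  refine le_trans (le_of_eq ?_) (tot_le M h)
  rw [cnt_eq_lct M.Sem0 (recv ht) halves 1820 ht_halves]
  unfold halves totA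
  rw [lct_append, lct_append, lct_flatMap_range, lct_flatMap_range, lct_flatMap_range]
  refine congrArg₂ (· + ·) (congrArg₂ (· + ·) ?_ ?_) ?_
  · · refine Finset.sum_congr rfl (fun i hi => ?_)
      rw [lct_flatMap_range]
      refine Finset.sum_congr rfl (fun a ha => ?_)
      rw [Finset.mem_range] at hi ha
      simp only [Finset.sum_range_succ, Finset.sum_range_zero, zero_add]
      by_cases hia : i = a
      · rw [if_pos hia, lct_nil]
        have : ∀ e, ind (M.SemK 16 i a e 0) = 0 := fun e => ind_false (fun hh => hh.1 hia)
        rw [this, this, this, this]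
      · rw [if_neg hia, lct_cons, lct_cons, lct_cons, lct_cons, lct_nil]
        rw [ind_congr (sem0_enc M (by norm_num) (by omega) (by omega) (by norm_num)),
          ind_congr (sem0_enc M (by norm_num) (by omega) (by omega) (by norm_num)),
          ind_congr (sem0_enc M (by norm_num) (by omega) (by omega) (by norm_num)),
          ind_congr (sem0_enc M (by norm_num) (by omega) (by omega) (by norm_num))]
        ring
  · · rw [Finset.mul_sum]
      refine Finset.sum_congr rfl (fun i hi => ?_)
      rw [lct_flatMap_range, Finset.mul_sum]
      refine Finset.sum_congr rfl (fun a ha => ?_)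
      rw [Finset.mem_range] at hi ha
      by_cases hia : i < a
      · rw [if_pos hia]
        simp only [lct_cons, lct_nil]
        rw [ind_congr (sem0_enc M (by norm_num) (by omega) (by omega) (by norm_num)),
          ind_congr (sem0_enc M (by norm_num) (by omega) (by omega) (by norm_num)),
          ind_congr (sem0_enc M (by norm_num) (by omega) (by omega) (by norm_num)),
          ind_congr (sem0_enc M (by norm_num) (by omega) (by omega) (by norm_num))]
        unfold two
        ring
      · rw [if_neg hia, lct_nil, two_of_not M hia, Nat.mul_zero]
  · refine Finset.sum_congr rfl (fun i hi => ?_)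
    rw [lct_flatMap_range]
    refine Finset.sum_congr rfl (fun a ha => ?_)
    rw [Finset.mem_range] at hi ha
    by_cases hia : i < a
    · rw [if_pos hia, ws_sum M (by omega) (by omega)]
      simp only [lct_cons, lct_nil]
      ring
    · rw [if_neg hia, lct_nil]
      unfold ws
      symm
      exact Finset.sum_eq_zero (fun q _ => ind_false (fun hh => hia hh.1))

end Pool.Agent.Helper15.PL.Halves
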