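import Pool.Agent.Helper15.PL.Defs

/-!
# Vector configurations: sign vectors of the faces of a line arrangement
-/

namespace Pool.Agent.Helper15.PL

/-- Vectors of `ℝ³`. -/
abbrev V3 : Type := Fin 3 → ℝ

/-- The real sign `±1` of a Boolean. -/
def sg (b : Bool) : ℝ := if b then 1 else -1

/-- `σ` with the entry at `i` reversed. -/
def flipAt {n : ℕ} (σ : Fin n → Bool) (i : Fin n) : Fin n → Bool := Function.update σ i (!σ i)

/-- `σ` is the sign vector of a nonempty open cell of the central arrangement of planes `a i`. -/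
def IsTope {n : ℕ} (a : Fin n → V3) (σ : Fin n → Bool) : Prop :=
  ∃ x : V3, ∀ i, 0 < sg (σ i) * (a i ⬝ᵥ x)

/-- The lines that bound the tope `σ`. -/
def walls {n : ℕ} (a : Fin n → V3) (σ : Fin n → Bool) : Set (Fin n) :=
  {i | IsTope a (flipAt σ i)}

/-- The topes with exactly three walls. -/
def triTopes {n : ℕ} (a : Fin n → V3) : Set (Fin n → Bool) :=
  {σ | IsTope a σ ∧ (walls a σ).encard = 3}

/-- The determinant with rows `x, y, z`. -/
def det3 (x y z : V3) : ℝ :=
  x 0 * (y 1 * z 2 - y 2 * z 1) - x 1 * (y 0 * z 2 - y 2 * z 0) + x 2 * (y 0 * z 1 - y 1 * z 0)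

/-- `a` describes an arrangement of different lines: any two of the vectors are linearly
independent, and no nonzero vector is orthogonal to all of them. -/
structure IsConfig {n : ℕ} (a : Fin n → V3) : Prop where
  indep : ∀ i j, i ≠ j → LinearIndependent ℝ ![a i, a j]
  spans : ∀ x : V3, (∀ i, a i ⬝ᵥ x = 0) → x = 0

end Pool.Agent.Helper15.PL
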